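import Mathlib

/-!
Points of algebraic sets over an algebraically closed field which are fixed by all specialisations
are rational over the field of definition.
-/

set_option autoImplicit false

namespace Pool.Agent.K1H83.BL

open MvPolynomial

/-- **Specialisation.** If the coordinate `z j` is not in the field `F`, then there is another point
`z'` with `z' j ≠ z j` which satisfies all polynomial relations of `z` over `F`. -/
theorem exists_other {Ω : Type*} [Field Ω] [IsAlgClosed Ω] [CharZero Ω] {k : Type*} [Field k]
    [Algebra k Ω] (F : IntermediateField k Ω) {n : ℕ} (z : Fin n → Ω) (j : Fin n) (hj : z j ∉ F) :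
    ∃ z' : Fin n → Ω, z' j ≠ z j ∧
      ∀ f : MvPolynomial (Fin n) F, aeval z f = 0 → aeval z' f = 0 := by
  classical
  by_cases halg : IsAlgebraic F (z j)
  · -- another conjugate
    have hint : IsIntegral F (z j) := halg.isIntegral
    have hdeg : 1 < (minpoly F (z j)).natDegree := by
      have h1 := minpoly.natDegree_pos hint
      rcases Nat.lt_or_ge 1 (minpoly F (z j)).natDegree with h | h
      · exact h
      · exfalso
        have h2 : (minpoly F (z j)).natDegree = 1 := by omega
        obtain ⟨y, hy⟩ := minpoly.natDegree_eq_one_iff.1 h2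
        apply hj
        rw [← hy]
        exact y.2
    have hsep : (minpoly F (z j)).Separable := (minpoly.irreducible hint).separable
    have hcard := Polynomial.card_rootSet_eq_natDegree hsep
      (IsAlgClosed.splits ((minpoly F (z j)).map (algebraMap F Ω)))
    obtain ⟨x', hx', hne⟩ : ∃ x' ∈ (minpoly F (z j)).rootSet Ω, x' ≠ z j := by
      by_contra hcon
      push Not at hcon
      have h1 : Fintype.card ((minpoly F (z j)).rootSet Ω) ≤ 1 := by
        rw [Fintype.card_le_one_iff]
        intro a b
        exact Subtype.ext ((hcon a a.2).trans (hcon b b.2).symm)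
      omega
    let F1 := IntermediateField.adjoin F {z j}
    obtain ⟨ψ, hψ⟩ : ∃ ψ : F1 →ₐ[F] Ω, ψ (IntermediateField.AdjoinSimple.gen F (z j)) = x' :=
      ⟨(IntermediateField.algHomAdjoinIntegralEquiv F hint).symm ⟨x', by
        rw [Polynomial.mem_rootSet] at hx'
        rw [Polynomial.mem_aroots]
        exact hx'⟩, IntermediateField.algHomAdjoinIntegralEquiv_symm_apply_gen F hint _⟩
    let P : Ideal (MvPolynomial (Fin n) F1) := vanishingIdeal F1 {z}
    have hP : P ≠ ⊤ := Ideal.IsPrime.ne_top inferInstance
    -- the other structure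
    obtain ⟨z', hz'⟩ : ∃ z' : Fin n → Ω, ∀ f ∈ P, eval₂ (ψ : F1 →+* Ω) z' f = 0 := by
      let i1 : Algebra F1 Ω := (ψ : F1 →+* Ω).toAlgebra
      by_contra hcon
      push Not at hcon
      have h1 : zeroLocus Ω P = ∅ := by
        rw [Set.eq_empty_iff_forall_notMem]
        intro x hx
        obtain ⟨f, hf, hne⟩ := hcon x
        exact hne (hx f hf)
      have h2 := vanishingIdeal_zeroLocus_eq_radical (K := Ω) P
      rw [h1, vanishingIdeal_empty] at h2
      exact hP (Ideal.radical_eq_top.1 h2.symm)
    refine ⟨z', ?_, ?_⟩
    · have h1 := hz' (X j - C (IntermediateField.AdjoinSimple.gen F (z j))) (by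
        rw [mem_vanishingIdeal_singleton_iff, map_sub, aeval_X, aeval_C, sub_eq_zero]
        rfl)
      rw [eval₂_sub, eval₂_X, eval₂_C, sub_eq_zero] at h1
      rw [h1]
      change ψ (IntermediateField.AdjoinSimple.gen F (z j)) ≠ z j
      rw [hψ]
      exact hne
    · intro f hf
      have h1 := hz' (map (algebraMap F F1) f) (by
        rw [mem_vanishingIdeal_singleton_iff, aeval_map_algebraMap]
        exact hf)
      rw [eval₂_map] at h1
      rw [aeval_def]
      have h2 : (ψ : F1 →+* Ω).comp (algebraMap F F1) = algebraMap F Ω := by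
        ext x
        exact ψ.commutes x
      rw [← h2]
      exact h1
  · -- an algebraic point
    let P : Ideal (MvPolynomial (Fin n) F) := vanishingIdeal F {z}
    have hP : P ≠ ⊤ := Ideal.IsPrime.ne_top inferInstance
    obtain ⟨m, hm, hPm⟩ := Ideal.exists_le_maximal P hP
    obtain ⟨x, hx⟩ := eq_vanishingIdeal_singleton_of_isMaximal Ω hm
    refine ⟨x, ?_, ?_⟩
    · intro hxj
      apply halg
      rw [← hxj]
      let _ : Field (MvPolynomial (Fin n) F ⧸ m) := Ideal.Quotient.field m
      have h3 : Algebra.IsAlgebraic F (MvPolynomial (Fin n) F ⧸ m) := by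
        rw [Algebra.isAlgebraic_iff_isIntegral, ← algebraMap_isIntegral_iff]
        exact MvPolynomial.comp_C_integral_of_surjective_of_isJacobsonRing
          (Ideal.Quotient.mk m) Ideal.Quotient.mk_surjective
      obtain ⟨g, hg0, hg⟩ := h3.isAlgebraic (Ideal.Quotient.mk m (X j))
      refine ⟨g, hg0, ?_⟩
      have h4 : Polynomial.aeval (Ideal.Quotient.mk m (X j)) g =
          Ideal.Quotient.mk m (Polynomial.aeval (X j : MvPolynomial (Fin n) F) g) := by
        exact (Polynomial.aeval_algHom_apply (Ideal.Quotient.mkₐ F m) (X j) g)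
      rw [h4, Ideal.Quotient.eq_zero_iff_mem, hx, mem_vanishingIdeal_singleton_iff] at hg
      rw [← hg]
      have h5 := Polynomial.aeval_algHom_apply (aeval x : MvPolynomial (Fin n) F →ₐ[F] Ω) (X j) g
      rw [aeval_X] at h5
      exact h5
    · intro f hf
      have h1 : f ∈ m := hPm (by
        rw [mem_vanishingIdeal_singleton_iff]
        exact hf)
      rw [hx, mem_vanishingIdeal_singleton_iff] at h1
      exact h1

end Pool.Agent.K1H83.BL
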