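import Mathlib

/-!
The dimension of the polynomials of bounded degree in an ideal generated by two coprime polynomials.
-/

set_option autoImplicit false

namespace Pool.Agent.K1H83.BL

open MvPolynomial Module Filter Topology

variable {k : Type*} [Field k] {l : ℕ}

theorem finrank_rtd (l m : ℕ) :
    finrank k (restrictTotalDegree (Fin l) k m) = (l + m).choose m := by
  classical
  have h1 := Module.finrank_eq_nat_card_basis
    (basisRestrictSupport k {n : Fin l →₀ ℕ | n.degree ≤ m})
  have h2 : finrank k (restrictTotalDegree (Fin l) k m) =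
      Nat.card {n : Fin l →₀ ℕ | n.degree ≤ m} := h1
  rw [h2]
  have hcard : ((Finset.univ : Finset (Fin (l + 1))).finsuppAntidiag m).card =
      (l + m).choose m := by
    rw [Finset.card_finsuppAntidiag_nat_eq_choose, Finset.card_univ, Fintype.card_fin]
    rw [show l + 1 + m - 1 = l + m by omega]
  rw [← hcard, ← Fintype.card_coe, ← Nat.card_eq_fintype_card]
  refine Nat.card_congr ⟨fun s => ⟨Finsupp.cons (m - s.1.degree) s.1, ?_⟩,
    fun t => ⟨Finsupp.tail t.1, ?_⟩, fun s => ?_, fun t => ?_⟩
  · have hs : s.1.degree ≤ m := s.2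
    rw [Finset.mem_finsuppAntidiag]
    refine ⟨?_, Finset.subset_univ _⟩
    rw [Fin.sum_univ_succ, Finsupp.cons_zero]
    simp only [Finsupp.cons_succ]
    rw [← Finsupp.degree_eq_sum]
    omega
  · have ht := (Finset.mem_finsuppAntidiag.1 t.2).1
    rw [Fin.sum_univ_succ] at ht
    change (Finsupp.tail t.1).degree ≤ m
    rw [Finsupp.degree_eq_sum]
    simp only [Finsupp.tail_apply]
    omega
  · apply Subtype.ext
    exact Finsupp.tail_cons _ _
  · apply Subtype.ext
    have ht := (Finset.mem_finsuppAntidiag.1 t.2).1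
    rw [Fin.sum_univ_succ] at ht
    change Finsupp.cons (m - (Finsupp.tail t.1).degree) (Finsupp.tail t.1) = t.1
    have h3 : m - (Finsupp.tail t.1).degree = t.1 0 := by
      rw [Finsupp.degree_eq_sum]
      simp only [Finsupp.tail_apply]
      omega
    rw [h3, Finsupp.cons_tail]

instance (m : ℕ) : FiniteDimensional k (restrictTotalDegree (Fin l) k m) := inferInstance

theorem mulLeft_inj {p : MvPolynomial (Fin l) k} (hp : p ≠ 0) :
    Function.Injective (LinearMap.mulLeft k p) := by
  intro x y h
  exact mul_left_cancel₀ hp h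

/-- the polynomials `A p + B q` with `deg A ≤ m - deg p`, `deg B ≤ m - deg q` -/
noncomputable def MM (p q : MvPolynomial (Fin l) k) (m : ℕ) : Submodule k (MvPolynomial (Fin l) k) :=
  (restrictTotalDegree (Fin l) k (m - p.totalDegree)).map (LinearMap.mulLeft k p) ⊔
    (restrictTotalDegree (Fin l) k (m - q.totalDegree)).map (LinearMap.mulLeft k q)

theorem MM_le {p q : MvPolynomial (Fin l) k} {m : ℕ} (hm : p.totalDegree + q.totalDegree ≤ m) :
    MM p q m ≤ restrictTotalDegree (Fin l) k m := by
  unfold MM
  rw [sup_le_iff]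
  constructor
  · rintro _ ⟨A, hA, rfl⟩
    rw [SetLike.mem_coe, mem_restrictTotalDegree] at hA
    rw [mem_restrictTotalDegree, LinearMap.mulLeft_apply]
    exact (totalDegree_mul _ _).trans (by omega)
  · rintro _ ⟨A, hA, rfl⟩
    rw [SetLike.mem_coe, mem_restrictTotalDegree] at hA
    rw [mem_restrictTotalDegree, LinearMap.mulLeft_apply]
    exact (totalDegree_mul _ _).trans (by omega)

instance (p q : MvPolynomial (Fin l) k) (m : ℕ) : FiniteDimensional k (MM p q m) := by
  unfold MM
  infer_instance

theorem finrank_MM {p q : MvPolynomial (Fin l) k} (hp : p ≠ 0) (hq : q ≠ 0)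
    (hpq : IsRelPrime p q) {m : ℕ} (hm : p.totalDegree + q.totalDegree ≤ m) :
    (l + (m - p.totalDegree)).choose (m - p.totalDegree) +
      (l + (m - q.totalDegree)).choose (m - q.totalDegree) ≤
      finrank k (MM p q m) +
        (l + (m - p.totalDegree - q.totalDegree)).choose (m - p.totalDegree - q.totalDegree) := by
  have h1 := Submodule.finrank_sup_add_finrank_inf_eq
    ((restrictTotalDegree (Fin l) k (m - p.totalDegree)).map (LinearMap.mulLeft k p))
    ((restrictTotalDegree (Fin l) k (m - q.totalDegree)).map (LinearMap.mulLeft k q))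
  have h2 : ∀ (r : MvPolynomial (Fin l) k) (j : ℕ), r ≠ 0 →
      finrank k ((restrictTotalDegree (Fin l) k j).map (LinearMap.mulLeft k r)) =
        (l + j).choose j := by
    intro r j hr
    rw [← finrank_rtd (k := k) l j]
    exact (Submodule.equivMapOfInjective _ (mulLeft_inj hr) _).finrank_eq.symm
  rw [h2 p _ hp, h2 q _ hq] at h1
  have h3 : (restrictTotalDegree (Fin l) k (m - p.totalDegree)).map (LinearMap.mulLeft k p) ⊓
      (restrictTotalDegree (Fin l) k (m - q.totalDegree)).map (LinearMap.mulLeft k q) ≤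
      (restrictTotalDegree (Fin l) k (m - p.totalDegree - q.totalDegree)).map
        (LinearMap.mulLeft k (p * q)) := by
    rintro f ⟨⟨A, hA, hAf⟩, ⟨B, hB, hBf⟩⟩
    rw [SetLike.mem_coe, mem_restrictTotalDegree] at hA hB
    rw [LinearMap.mulLeft_apply] at hAf hBf
    have h4 : q ∣ A := by
      have h5 : q ∣ p * A := ⟨B, by rw [hAf, hBf]⟩
      exact hpq.symm.dvd_of_dvd_mul_left h5
    obtain ⟨Q, rfl⟩ := h4
    refine ⟨Q, ?_, ?_⟩
    · rw [SetLike.mem_coe, mem_restrictTotalDegree]
      by_cases hQ : Q = 0
      · rw [hQ, totalDegree_zero]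
        exact Nat.zero_le _
      · rw [totalDegree_mul_of_isDomain hq hQ] at hA
        omega
    · rw [LinearMap.mulLeft_apply, ← hAf]
      ring
  have h4 := Submodule.finrank_mono h3
  rw [h2 _ _ (mul_ne_zero hp hq)] at h4
  unfold MM
  omega

/-- the polynomial whose values are the numbers of monomials, up to the factor `l!` -/
noncomputable def fac (l : ℕ) : Polynomial ℝ :=
  ∏ i ∈ Finset.range l, (Polynomial.X + Polynomial.C ((i : ℝ) + 1))

theorem fac_eval (l m : ℕ) : (fac l).eval (m : ℝ) = (l.factorial : ℝ) * ((l + m).choose m : ℕ) := by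
  have h1 : (l + m).choose m * l.factorial * m.factorial = (l + m).factorial := by
    have := Nat.choose_mul_factorial_mul_factorial (Nat.le_add_left m l)
    rw [Nat.add_sub_cancel] at this
    rw [← this]
    ring
  have h2 : ∀ l : ℕ, (fac l).eval (m : ℝ) * m.factorial = (l + m).factorial := by
    intro l
    induction l with
    | zero => simp [fac]
    | succ l ih =>
      unfold fac at ih ⊢
      rw [Finset.prod_range_succ, Polynomial.eval_mul, mul_right_comm, ih]
      rw [show l + 1 + m = (l + m) + 1 by ring, Nat.factorial_succ]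
      simp only [Polynomial.eval_add, Polynomial.eval_X, Polynomial.eval_C]
      push_cast
      ring
  have h3 := h2 l
  have h4 : (m.factorial : ℝ) ≠ 0 := by exact_mod_cast m.factorial_ne_zero
  have h5 : (((l + m).choose m * l.factorial * m.factorial : ℕ) : ℝ) = (l + m).factorial := by
    rw [h1]
  push_cast at h5
  rw [← h5] at h3
  have := mul_right_cancel₀ h4 h3
  rw [this]
  ring

theorem fac_degree (l : ℕ) : (fac l).degree = l := by
  unfold fac
  rw [Polynomial.degree_prod]
  simp only [Polynomial.degree_X_add_C]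
  simp

theorem fac_ne (l : ℕ) : fac l ≠ 0 := by
  intro h
  have := fac_degree l
  rw [h, Polynomial.degree_zero] at this
  exact absurd this.symm (WithBot.natCast_ne_bot l)

theorem degree_diff (f : Polynomial ℝ) (hf : f ≠ 0) (r : ℝ) :
    (f - Polynomial.taylor r f).degree < f.degree :=
  Polynomial.degree_sub_lt_left (Polynomial.degree_taylor f r).symm hf
    (Polynomial.leadingCoeff_taylor r f).symm

/-- the mixed second difference is small -/
theorem second_diff (l a b : ℕ) :
    Tendsto (fun m : ℕ => (((l + m).choose m : ℝ) - ((l + (m - a)).choose (m - a) : ℝ) -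
      ((l + (m - b)).choose (m - b) : ℝ) + ((l + (m - a - b)).choose (m - a - b) : ℝ)) * m /
        ((l + m).choose m : ℝ)) atTop (𝓝 0) := by
  set g : Polynomial ℝ := (fac l - Polynomial.taylor (-(a : ℝ)) (fac l)) -
    Polynomial.taylor (-(b : ℝ)) (fac l - Polynomial.taylor (-(a : ℝ)) (fac l)) with hg
  have hdeg : (g * Polynomial.X).degree < (fac l).degree := by
    by_cases h1 : fac l - Polynomial.taylor (-(a : ℝ)) (fac l) = 0
    · rw [hg, h1]
      simp only [map_zero, sub_zero, zero_mul, Polynomial.degree_zero]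
      rw [fac_degree]
      exact WithBot.bot_lt_coe l
    · have h2 := degree_diff _ (fac_ne l) (-(a : ℝ))
      have h3 := degree_diff _ h1 (-(b : ℝ))
      rw [← hg] at h3
      by_cases h0 : g = 0
      · rw [h0, zero_mul, Polynomial.degree_zero, fac_degree]
        exact WithBot.bot_lt_coe l
      · have h2' : (fac l - Polynomial.taylor (-(a : ℝ)) (fac l)).natDegree < l :=
          (Polynomial.natDegree_lt_iff_degree_lt h1).2 (by rw [← fac_degree l]; exact h2)
        have h3' := Polynomial.natDegree_lt_natDegree h0 h3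
        have h4 : (g * Polynomial.X).natDegree < l := by
          rw [Polynomial.natDegree_mul_X h0]
          omega
        have h5 := (Polynomial.natDegree_lt_iff_degree_lt
          (mul_ne_zero h0 Polynomial.X_ne_zero)).1 h4
        rw [fac_degree]
        exact h5
  have h1 := Polynomial.div_tendsto_atTop_zero_of_degree_lt _ _ hdeg
  have h2 := h1.comp (tendsto_natCast_atTop_atTop (R := ℝ))
  refine h2.congr' ?_
  filter_upwards [eventually_ge_atTop (a + b)] with m hm
  have e1 : ((m - a : ℕ) : ℝ) = (m : ℝ) - a := by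
    rw [Nat.cast_sub (by omega)]
  have e2 : ((m - b : ℕ) : ℝ) = (m : ℝ) - b := by
    rw [Nat.cast_sub (by omega)]
  have e3 : ((m - a - b : ℕ) : ℝ) = (m : ℝ) - a - b := by
    rw [Nat.cast_sub (by omega), Nat.cast_sub (by omega)]
  have hl : (l.factorial : ℝ) ≠ 0 := by exact_mod_cast l.factorial_ne_zero
  have hc : ((l + m).choose m : ℝ) ≠ 0 := by
    exact_mod_cast (Nat.choose_pos (Nat.le_add_left m l)).ne'
  have f0 := fac_eval l m
  have f1 := fac_eval l (m - a)
  have f2 := fac_eval l (m - b)
  have f3 := fac_eval l (m - a - b)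
  rw [e1] at f1
  rw [e2] at f2
  rw [e3] at f3
  have e4 : (m : ℝ) + -(b : ℝ) + -(a : ℝ) = (m : ℝ) - a - b := by ring
  have e5 : g.eval (m : ℝ) = (fac l).eval (m : ℝ) - (fac l).eval ((m : ℝ) - a) -
      ((fac l).eval ((m : ℝ) - b) - (fac l).eval ((m : ℝ) - a - b)) := by
    rw [hg, Polynomial.eval_sub, Polynomial.eval_sub, Polynomial.taylor_eval,
      Polynomial.taylor_eval, Polynomial.eval_sub, Polynomial.taylor_eval, e4,
      ← sub_eq_add_neg, ← sub_eq_add_neg]
  change (g * Polynomial.X).eval (m : ℝ) / (fac l).eval (m : ℝ) = _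
  rw [Polynomial.eval_mul, Polynomial.eval_X, e5, f0, f1, f2, f3]
  field_simp
  ring

end Pool.Agent.K1H83.BL
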