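import Mathlib

/-!
Echelon bases.
-/

set_option autoImplicit false

namespace Pool.Agent.K1H83.BL

open Submodule

/-- **Echelon bases**: a subspace separated by the functionals `c 0, …, c (N - 1)` has a basis whose
members have different last nonvanishing functionals. -/
theorem echelon {k V : Type*} [Field k] [AddCommGroup V] [Module k V] :
    ∀ (N : ℕ) (c : Fin N → V →ₗ[k] k) (M : Submodule k V),
      (∀ x ∈ M, (∀ i, c i x = 0) → x = 0) →
      ∃ (d : ℕ) (f : Fin d → V) (A : Fin d → Fin N), LinearIndependent k f ∧
        span k (Set.range f) = M ∧ Function.Injective A ∧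
        ∀ a i, A a < i → c i (f a) = 0 := by
  classical
  intro N
  induction N with
  | zero =>
    intro c M hM
    refine ⟨0, Fin.elim0, Fin.elim0, linearIndependent_empty_type, ?_, fun a => a.elim0,
      fun a => a.elim0⟩
    rw [Set.range_eq_empty, span_empty]
    symm
    rw [eq_bot_iff]
    intro x hx
    rw [mem_bot]
    exact hM x hx fun i => i.elim0
  | succ N ih =>
    intro c M hM
    have hM' : ∀ x ∈ M ⊓ LinearMap.ker (c (Fin.last N)),
        (∀ i : Fin N, c i.castSucc x = 0) → x = 0 := by
      intro x hx h
      refine hM x hx.1 fun i => ?_
      refine Fin.lastCases ?_ (fun i => h i) i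
      exact hx.2
    obtain ⟨d, f, A, hf, hs, hA, hc⟩ := ih (fun i => c i.castSucc) _ hM'
    by_cases hlast : M ≤ LinearMap.ker (c (Fin.last N))
    · refine ⟨d, f, fun a => (A a).castSucc, hf, ?_, fun a b h => hA (Fin.castSucc_injective _ h),
        ?_⟩
      · rw [hs, inf_eq_left]
        exact hlast
      · intro a i hai
        rcases Fin.eq_castSucc_or_eq_last i with ⟨i', rfl⟩ | rfl
        · exact hc a i' (by simpa using hai)
        · have h1 : f a ∈ M ⊓ LinearMap.ker (c (Fin.last N)) := by
            rw [← hs]
            exact subset_span ⟨a, rfl⟩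
          exact h1.2
    · rw [SetLike.not_le_iff_exists] at hlast
      obtain ⟨x, hx, hxl⟩ := hlast
      rw [LinearMap.mem_ker] at hxl
      refine ⟨d + 1, Fin.snoc f x, Fin.snoc (fun a => (A a).castSucc) (Fin.last N), ?_, ?_, ?_, ?_⟩
      · rw [linearIndependent_finSnoc]
        refine ⟨hf, fun h => ?_⟩
        rw [hs] at h
        exact hxl h.2
      · have h0 : Set.range (Fin.snoc f x : Fin (d + 1) → V) = insert x (Set.range f) := by
          ext y
          constructor
          · rintro ⟨i, rfl⟩
            refine Fin.lastCases ?_ (fun i => ?_) i
            · simp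
            · simp
          · rintro (rfl | ⟨i, rfl⟩)
            · exact ⟨Fin.last d, by simp⟩
            · exact ⟨i.castSucc, by simp⟩
        rw [h0, span_insert, hs]
        apply le_antisymm
        · rw [sup_le_iff]
          exact ⟨by rwa [span_singleton_le_iff_mem], inf_le_left⟩
        · intro y hy
          rw [mem_sup]
          refine ⟨(c (Fin.last N) y / c (Fin.last N) x) • x, ?_,
            y - (c (Fin.last N) y / c (Fin.last N) x) • x, ?_, by abel⟩
          · exact smul_mem _ _ (mem_span_singleton_self x)
          · refine ⟨M.sub_mem hy (M.smul_mem _ hx), ?_⟩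
            rw [SetLike.mem_coe, LinearMap.mem_ker, map_sub, map_smul, smul_eq_mul,
              div_mul_cancel₀ _ hxl, sub_self]
      · intro a b hab
        revert hab
        refine Fin.lastCases ?_ (fun a => ?_) a <;> refine Fin.lastCases ?_ (fun b => ?_) b
        · intro _
          rfl
        · intro h
          simp only [Fin.snoc_last, Fin.snoc_castSucc] at h
          exact absurd h (Fin.castSucc_lt_last _).ne'
        · intro h
          simp only [Fin.snoc_last, Fin.snoc_castSucc] at h
          exact absurd h (Fin.castSucc_lt_last _).ne
        · intro h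
          simp only [Fin.snoc_castSucc] at h
          rw [hA (Fin.castSucc_injective _ h)]
      · intro a i
        refine Fin.lastCases ?_ (fun a => ?_) a
        · intro h
          simp only [Fin.snoc_last] at h
          exact absurd (Fin.le_last i) (not_le.2 h)
        · intro h
          simp only [Fin.snoc_castSucc] at h ⊢
          rcases Fin.eq_castSucc_or_eq_last i with ⟨i', rfl⟩ | rfl
          · exact hc a i' (by simpa using h)
          · have h1 : f a ∈ M ⊓ LinearMap.ker (c (Fin.last N)) := by
              rw [← hs]
              exact subset_span ⟨a, rfl⟩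
            exact h1.2

end Pool.Agent.K1H83.BL
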