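import Mathlib
import Pool.Agent.K1H83.BL.Ech
import Pool.Agent.K1H83.BL.Dim

/-!
An abstract form of the subspace theorem, which covers germs of sequences of integral points and
entire functions on sequences of circles, and its first consequences.
-/

set_option autoImplicit false

namespace Pool.Agent.K1H83.BL

open MvPolynomial Module Filter Topology MeasureTheory

/-- A ring `E` of integral functions with constants `k`, for which a subspace theorem holds. For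
each `t : ℕ` there is a finite measure space `P` of places, and `lg x t p` is the logarithm of the
absolute value of `x` at the place `p` at the time `t`; the scale is `N t`. The subspace theorem is
required for the elements of the field generated by the units `v i` only. -/
structure Dio (k : Type) {E : Type} [Field k] [CommRing E] [IsDomain E] [Algebra k E] {l : ℕ}
    (v : Fin l → Eˣ) where
  P : Type
  ms : MeasurableSpace P
  μ : ℕ → Measure P
  fin : ∀ t, IsFiniteMeasure (μ t)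
  M : ℝ
  mass : ∀ t, (μ t).real Set.univ ≤ M
  𝒰 : Ultrafilter ℕ
  N : ℕ → ℝ
  N_lim : Tendsto N (𝒰 : Filter ℕ) atTop
  lg : E → ℕ → P → ℝ
  int : ∀ x, x ≠ 0 → ∀ᶠ t in (𝒰 : Filter ℕ), Integrable (lg x t) (μ t)
  lg_mul : ∀ x y, x ≠ 0 → y ≠ 0 →
    ∀ᶠ t in (𝒰 : Filter ℕ), ∀ p, lg (x * y) t p = lg x t p + lg y t p
  lg_add : ∀ x y, x ≠ 0 → y ≠ 0 → x + y ≠ 0 →
    ∀ᶠ t in (𝒰 : Filter ℕ), ∀ p, lg (x + y) t p ≤ Real.log 2 + max (lg x t p) (lg y t p)
  lg_const : ∀ c : k, c ≠ 0 →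
    ∃ C, ∀ᶠ t in (𝒰 : Filter ℕ), ∀ p, |lg (algebraMap k E c) t p| ≤ C
  size : ∀ x, x ≠ 0 → ∃ C, ∀ᶠ t in (𝒰 : Filter ℕ), ∫ p, max (lg x t p) 0 ∂(μ t) ≤ C * N t
  low : ∀ x, x ≠ 0 → ∀ ε : ℝ, 0 < ε →
    ∀ᶠ t in (𝒰 : Filter ℕ), -(ε * N t) ≤ ∫ p, lg x t p ∂(μ t)
  sub : ∀ (n : ℕ) (φ : Fin n → MvPolynomial (Fin l) k) (q : MvPolynomial (Fin l) k) (y : Fin n → E),
    LinearIndependent k φ → aeval (fun i => (v i : E)) q ≠ 0 →
    (∀ i, y i * aeval (fun i => (v i : E)) q = aeval (fun i => (v i : E)) (φ i)) →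
    ∀ (m : ℕ) (Φ : Fin m → Matrix (Fin n) (Fin n) k), (∀ J, (Φ J).det ≠ 0) →
    ∀ g : ℕ → P → ℝ, (∀ᶠ t in (𝒰 : Filter ℕ), Integrable (g t) (μ t)) →
      (∀ᶠ t in (𝒰 : Filter ℕ), ∀ p, ∃ J, ∑ a, lg (∑ j, Φ J a j • y j) t p ≤ g t p) →
      ∀ ε : ℝ, 0 < ε → ∀ᶠ t in (𝒰 : Filter ℕ), -(ε * N t) ≤ ∫ p, g t p ∂(μ t)

namespace Dio

variable {k E : Type} [Field k] [CommRing E] [IsDomain E] [Algebra k E] {l₀ : ℕ}
  {v₀ : Fin l₀ → Eˣ} (D : Dio k v₀)

instance : MeasurableSpace D.P := D.ms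
instance (t : ℕ) : IsFiniteMeasure (D.μ t) := D.fin t

/-- small compared with the scale -/
def Sm (f : ℕ → ℝ) : Prop := ∀ ε : ℝ, 0 < ε → ∀ᶠ t in (D.𝒰 : Filter ℕ), f t ≤ ε * D.N t

variable {D}

theorem N_pos : ∀ᶠ t in (D.𝒰 : Filter ℕ), 0 < D.N t := D.N_lim.eventually_gt_atTop 0

theorem Sm.add {f g : ℕ → ℝ} (hf : D.Sm f) (hg : D.Sm g) : D.Sm fun t => f t + g t := by
  intro ε hε
  filter_upwards [hf (ε / 2) (by linarith), hg (ε / 2) (by linarith)] with t h1 h2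
  linarith

theorem Sm.mono {f g : ℕ → ℝ} (hf : D.Sm f) (h : ∀ᶠ t in (D.𝒰 : Filter ℕ), g t ≤ f t) :
    D.Sm g := by
  intro ε hε
  filter_upwards [hf ε hε, h] with t h1 h2
  linarith

theorem Sm.const (C : ℝ) : D.Sm fun _ => C := by
  intro ε hε
  filter_upwards [D.N_lim.eventually_ge_atTop (C / ε)] with t ht
  rw [div_le_iff₀ hε] at ht
  linarith

theorem Sm.smul {f : ℕ → ℝ} (hf : D.Sm f) {c : ℝ} (hc : 0 ≤ c) : D.Sm fun t => c * f t := by
  intro ε hε
  filter_upwards [hf (ε / (c + 1)) (by positivity), N_pos] with t h1 h2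
  have h3 : c * f t ≤ c * (ε / (c + 1) * D.N t) := mul_le_mul_of_nonneg_left h1 hc
  refine h3.trans ?_
  have h4 : c * (ε / (c + 1) * D.N t) = (c / (c + 1)) * (ε * D.N t) := by ring
  rw [h4]
  have h5 : c / (c + 1) ≤ 1 := by
    rw [div_le_one (by positivity)]
    linarith
  have h6 : 0 ≤ ε * D.N t := by positivity
  nlinarith

theorem Sm.sum {ι : Type*} (s : Finset ι) {f : ι → ℕ → ℝ} (hf : ∀ i ∈ s, D.Sm (f i)) :
    D.Sm fun t => ∑ i ∈ s, f i t := by
  classical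
  induction s using Finset.induction_on with
  | empty => simpa using Sm.const (D := D) 0
  | insert a s ha ih =>
    have h1 := (hf a (Finset.mem_insert_self a s)).add
      (ih fun i hi => hf i (Finset.mem_insert_of_mem hi))
    refine h1.mono (Eventually.of_forall fun t => ?_)
    rw [Finset.sum_insert ha]

theorem lg_one : ∀ᶠ t in (D.𝒰 : Filter ℕ), ∀ p, D.lg 1 t p = 0 := by
  filter_upwards [D.lg_mul 1 1 one_ne_zero one_ne_zero] with t ht p
  have := ht p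
  rw [mul_one] at this
  linarith

theorem lg_pow (x : E) (hx : x ≠ 0) (n : ℕ) :
    ∀ᶠ t in (D.𝒰 : Filter ℕ), ∀ p, D.lg (x ^ n) t p = n * D.lg x t p := by
  induction n with
  | zero =>
    filter_upwards [lg_one (D := D)] with t ht p
    rw [pow_zero, ht]
    simp
  | succ n ih =>
    filter_upwards [ih, D.lg_mul _ _ (pow_ne_zero n hx) hx] with t h1 h2 p
    rw [pow_succ, h2, h1]
    push_cast
    ring

theorem lg_prod {ι : Type*} (s : Finset ι) (x : ι → E) (hx : ∀ i, x i ≠ 0) :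
    ∀ᶠ t in (D.𝒰 : Filter ℕ), ∀ p, D.lg (∏ i ∈ s, x i) t p = ∑ i ∈ s, D.lg (x i) t p := by
  classical
  induction s using Finset.induction_on with
  | empty =>
    filter_upwards [lg_one (D := D)] with t ht p
    rw [Finset.prod_empty, ht, Finset.sum_empty]
  | insert a s ha ih =>
    filter_upwards [ih, D.lg_mul _ _ (hx a) (Finset.prod_ne_zero_iff.2 fun i _ => hx i : ∏ i ∈ s, x i ≠ 0)]
      with t h1 h2 p
    rw [Finset.prod_insert ha, Finset.sum_insert ha, h2, h1]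

theorem lg_sum {ι : Type*} (s : Finset ι) (x : ι → E) (hx : ∀ i ∈ s, x i ≠ 0)
    (hs : ∑ i ∈ s, x i ≠ 0) : ∃ C : ℝ, 0 ≤ C ∧ ∀ᶠ t in (D.𝒰 : Filter ℕ), ∀ p,
      ∃ i ∈ s, D.lg (∑ i ∈ s, x i) t p ≤ C + D.lg (x i) t p := by
  classical
  induction s using Finset.induction_on with
  | empty => exact absurd Finset.sum_empty hs
  | insert a s ha ih =>
    rw [Finset.sum_insert ha] at hs ⊢
    by_cases h0 : ∑ i ∈ s, x i = 0
    · refine ⟨0, le_rfl, Eventually.of_forall fun t p => ⟨a, Finset.mem_insert_self a s, ?_⟩⟩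
      rw [h0, add_zero, zero_add]
    · obtain ⟨C, hC, h1⟩ := ih (fun i hi => hx i (Finset.mem_insert_of_mem hi)) h0
      refine ⟨C + Real.log 2, by have := Real.log_nonneg one_le_two; linarith, ?_⟩
      filter_upwards [h1, D.lg_add _ _ (hx a (Finset.mem_insert_self a s)) h0 hs] with t h2 h3 p
      have hl := Real.log_nonneg one_le_two
      rcases le_total (D.lg (x a) t p) (D.lg (∑ i ∈ s, x i) t p) with h4 | h4
      · obtain ⟨i, hi, h5⟩ := h2 p
        refine ⟨i, Finset.mem_insert_of_mem hi, (h3 p).trans ?_⟩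
        rw [max_eq_right h4]
        linarith
      · refine ⟨a, Finset.mem_insert_self a s, (h3 p).trans ?_⟩
        rw [max_eq_left h4]
        linarith

theorem smul_ne {c : k} {x : E} (hc : c ≠ 0) (hx : x ≠ 0) : c • x ≠ 0 := by
  rw [Algebra.smul_def]
  exact mul_ne_zero ((map_ne_zero_iff _ (algebraMap k E).injective).2 hc) hx

theorem lg_smul (c : k) (hc : c ≠ 0) (x : E) (hx : x ≠ 0) : ∃ C : ℝ, 0 ≤ C ∧
    ∀ᶠ t in (D.𝒰 : Filter ℕ), ∀ p, D.lg (c • x) t p ≤ C + D.lg x t p := by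
  obtain ⟨C, hC⟩ := D.lg_const c hc
  refine ⟨|C|, abs_nonneg C, ?_⟩
  have hc' : algebraMap k E c ≠ 0 := (map_ne_zero_iff _ (algebraMap k E).injective).2 hc
  filter_upwards [hC, D.lg_mul _ _ hc' hx] with t h1 h2 p
  rw [Algebra.smul_def, h2]
  have h3 := (abs_le.1 (h1 p)).2
  have h4 := le_abs_self C
  linarith

/-- linear combinations -/
theorem lg_lin {ι : Type*} (s : Finset ι) (c : ι → k) (x : ι → E) (hc : ∀ i ∈ s, c i ≠ 0)
    (hx : ∀ i ∈ s, x i ≠ 0) (hs : ∑ i ∈ s, c i • x i ≠ 0) :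
    ∃ C : ℝ, 0 ≤ C ∧ ∀ᶠ t in (D.𝒰 : Filter ℕ), ∀ p,
      ∃ i ∈ s, D.lg (∑ i ∈ s, c i • x i) t p ≤ C + D.lg (x i) t p := by
  classical
  obtain ⟨C, hC, h1⟩ := lg_sum (D := D) s (fun i => c i • x i)
    (fun i hi => smul_ne (hc i hi) (hx i hi)) hs
  have h2 : ∀ i : s, ∃ C : ℝ, 0 ≤ C ∧ ∀ᶠ t in (D.𝒰 : Filter ℕ), ∀ p,
      D.lg (c i • x i) t p ≤ C + D.lg (x i) t p := fun i => lg_smul _ (hc i i.2) _ (hx i i.2)
  choose B hB h3 using h2
  refine ⟨C + ∑ i, B i, add_nonneg hC (Finset.sum_nonneg fun i _ => hB i), ?_⟩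
  filter_upwards [h1, eventually_all.2 h3] with t h4 h5 p
  obtain ⟨i, hi, h6⟩ := h4 p
  refine ⟨i, hi, h6.trans ?_⟩
  have h7 := h5 ⟨i, hi⟩ p
  have h8 := Finset.single_le_sum (f := B) (fun i _ => hB i) (Finset.mem_univ ⟨i, hi⟩)
  simp only at h7
  linarith

/-- lower bound for the mean of a nonzero element -/
theorem lower (x : E) (hx : x ≠ 0) : D.Sm fun t => -∫ p, D.lg x t p ∂(D.μ t) := by
  intro ε hε
  filter_upwards [D.low x hx ε hε] with t ht
  linarith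

theorem lg_inv (u : Eˣ) : ∀ᶠ t in (D.𝒰 : Filter ℕ), ∀ p,
    D.lg (↑u⁻¹ : E) t p = -D.lg (u : E) t p := by
  filter_upwards [D.lg_mul (u : E) (↑u⁻¹ : E) u.ne_zero u⁻¹.ne_zero, lg_one (D := D)] with t h1 h2 p
  have h3 := h1 p
  rw [Units.mul_inv, h2] at h3
  linarith

/-- the mean of a unit -/
theorem unit_upper (u : Eˣ) : D.Sm fun t => ∫ p, D.lg (u : E) t p ∂(D.μ t) := by
  refine (lower (D := D) (↑u⁻¹ : E) u⁻¹.ne_zero).mono ?_
  filter_upwards [lg_inv (D := D) u] with t ht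
  rw [integral_congr_ae (Eventually.of_forall ht), integral_neg]
  linarith

theorem unit_lower (u : Eˣ) : D.Sm fun t => -∫ p, D.lg (u : E) t p ∂(D.μ t) :=
  lower _ u.ne_zero

/-- units have size at most the scale -/
theorem unit_size (u : Eˣ) : ∃ C : ℝ, 0 ≤ C ∧ ∀ᶠ t in (D.𝒰 : Filter ℕ),
    ∫ p, |D.lg (u : E) t p| ∂(D.μ t) ≤ C * D.N t := by
  obtain ⟨C1, h1⟩ := D.size (u : E) u.ne_zero
  obtain ⟨C2, h2⟩ := D.size (↑u⁻¹ : E) u⁻¹.ne_zero
  refine ⟨|C1| + |C2|, by positivity, ?_⟩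
  filter_upwards [h1, h2, lg_inv (D := D) u, D.int _ u.ne_zero, N_pos] with t h3 h4 h5 h6 h7
  have h8 : ∫ p, |D.lg (u : E) t p| ∂(D.μ t) =
      ∫ p, (max (D.lg (u : E) t p) 0 + max (D.lg (↑u⁻¹ : E) t p) 0) ∂(D.μ t) := by
    refine integral_congr_ae (Eventually.of_forall fun p => ?_)
    simp only [h5 p]
    rcases le_total 0 (D.lg (u : E) t p) with h | h
    · rw [abs_of_nonneg h, max_eq_left h, max_eq_right (by linarith), add_zero]
    · rw [abs_of_nonpos h, max_eq_right h, max_eq_left (by linarith), zero_add]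
  have h9 : Integrable (fun p => D.lg (↑u⁻¹ : E) t p) (D.μ t) := by
    have : (fun p => D.lg (↑u⁻¹ : E) t p) = fun p => -D.lg (u : E) t p := funext h5
    rw [this]
    exact h6.neg
  rw [h8, integral_add h6.pos_part h9.pos_part]
  have h10 := le_abs_self C1
  have h11 := le_abs_self C2
  nlinarith

end Dio

end Pool.Agent.K1H83.BL
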