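import Mathlib
import Pool.Agent.K1H83.BL.Dio

/-!
The two inequalities: an upper bound for the mean of a denominator, and a lower bound for the mean of
a polynomial in units.
-/

set_option autoImplicit false
set_option linter.unusedSectionVars false

namespace Pool.Agent.K1H83.BL

open MvPolynomial Module Filter Topology MeasureTheory

namespace Dio

variable {k E : Type} [Field k] [CommRing E] [IsDomain E] [Algebra k E] {l₀ : ℕ}
  {v₀ : Fin l₀ → Eˣ} {D : Dio k v₀} {l : ℕ}

/-- monomials in units -/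
def mon (v : Fin l → Eˣ) (β : Fin l →₀ ℕ) : Eˣ := ∏ i, v i ^ β i

theorem mon_eq (v : Fin l → Eˣ) (β : Fin l →₀ ℕ) :
    (mon v β : E) = aeval (fun i => (v i : E)) (monomial β (1 : k)) := by
  rw [aeval_monomial, map_one, one_mul, Finsupp.prod_fintype _ _ fun i => pow_zero _]
  unfold mon
  rw [Units.coe_prod]
  simp only [Units.val_pow_eq_pow_val]

theorem ev_eq (v : Fin l → Eˣ) (f : MvPolynomial (Fin l) k) :
    aeval (fun i => (v i : E)) f = ∑ β ∈ f.support, coeff β f • (mon v β : E) := by
  conv_lhs => rw [f.as_sum]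
  rw [map_sum]
  refine Finset.sum_congr rfl fun β _ => ?_
  rw [mon_eq (k := k), ← map_smul, smul_monomial, smul_eq_mul, mul_one]

theorem lg_mon (v : Fin l → Eˣ) (β : Fin l →₀ ℕ) : ∀ᶠ t in (D.𝒰 : Filter ℕ), ∀ p,
    D.lg (mon v β : E) t p = ∑ i, (β i : ℝ) * D.lg (v i : E) t p := by
  have h1 := lg_prod (D := D) Finset.univ (fun i => (v i : E) ^ β i)
    fun i => pow_ne_zero _ (v i).ne_zero
  have h2 : ∀ i, ∀ᶠ t in (D.𝒰 : Filter ℕ), ∀ p,
      D.lg ((v i : E) ^ β i) t p = β i * D.lg (v i : E) t p :=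
    fun i => lg_pow _ (v i).ne_zero _
  filter_upwards [h1, eventually_all.2 h2] with t h3 h4 p
  have h5 : (mon v β : E) = ∏ i, (v i : E) ^ β i := by
    unfold mon
    rw [Units.coe_prod]
    simp only [Units.val_pow_eq_pow_val]
  rw [h5, h3]
  exact Finset.sum_congr rfl fun i _ => h4 i p

theorem mon_ind {v : Fin l → Eˣ} (hv : AlgebraicIndependent k fun i => (v i : E)) {ι : Type*}
    (e : ι → (Fin l →₀ ℕ)) (he : Function.Injective e) :
    LinearIndependent k fun i => (mon v (e i) : E) := by
  have h1 := (basisMonomials (Fin l) k).linearIndependent.comp e he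
  have h2 := h1.map' (aeval (R := k) fun i => (v i : E)).toLinearMap (by
    rw [LinearMap.ker_eq_bot]
    exact hv)
  have h3 : (fun i => (mon v (e i) : E)) = (aeval (R := k) fun i => (v i : E)).toLinearMap ∘
      (basisMonomials (Fin l) k ∘ e) := by
    funext i
    simp only [Function.comp, coe_basisMonomials, AlgHom.toLinearMap_apply]
    exact mon_eq (k := k) v (e i)
  rw [h3]
  exact h2

theorem det_row {n : ℕ} (j0 : Fin n) (c : Fin n → k) (hc : c j0 ≠ 0) :
    (Matrix.updateRow (1 : Matrix (Fin n) (Fin n) k) j0 c).det ≠ 0 := by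
  intro h
  obtain ⟨w, hw, hw2⟩ := Matrix.exists_mulVec_eq_zero_iff.2 h
  apply hw
  have h1 : ∀ a, a ≠ j0 → w a = 0 := by
    intro a ha
    have h2 := congrFun hw2 a
    simp only [Matrix.mulVec, Matrix.updateRow_ne ha, Pi.zero_apply] at h2
    rw [← h2]
    simp [dotProduct, Matrix.one_apply]
  have h2 := congrFun hw2 j0
  simp only [Matrix.mulVec, Matrix.updateRow_self, Pi.zero_apply, dotProduct] at h2
  rw [Finset.sum_eq_single j0] at h2
  · funext a
    rcases eq_or_ne a j0 with rfl | ha
    · exact (mul_eq_zero.1 h2).resolve_left hc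
    · exact h1 a ha
  · intro b _ hb
    rw [h1 b hb, mul_zero]
  · intro h
    exact absurd (Finset.mem_univ _) h

/-- **The lower bound** for the mean of a polynomial in units. -/
theorem pair {v : Fin l → Eˣ} {D : Dio k v} (hv : AlgebraicIndependent k fun i => (v i : E))
    {q : MvPolynomial (Fin l) k} {β β' : Fin l →₀ ℕ} (hβ : β ∈ q.support) (hβ' : β' ∈ q.support) :
    D.Sm fun t => (∫ p, |D.lg (mon v β : E) t p - D.lg (mon v β' : E) t p| ∂(D.μ t)) -
      2 * ∫ p, D.lg (aeval (fun i => (v i : E)) q) t p ∂(D.μ t) := by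
  classical
  have hq0 : aeval (fun i => (v i : E)) q ≠ 0 := by
    intro h0
    have h1 : q = 0 := by
      rw [AlgebraicIndependent] at hv
      exact hv (by rw [h0, map_zero])
    rw [h1] at hβ
    simp at hβ
  set n := q.support.card with hn
  set e : Fin n ≃ q.support := q.support.equivFin.symm with he
  set y : Fin n → E := fun i => (mon v (e i).1 : E) with hy
  have hind : LinearIndependent k fun i : Fin n => monomial (e i).1 (1 : k) := by
    have h1 := (basisMonomials (Fin l) k).linearIndependent.comp (fun i => (e i).1)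
      fun a b hab => e.injective (Subtype.ext hab)
    exact h1
  set c : Fin n → k := fun i => coeff (e i).1 q with hcdef
  have hc : ∀ i, c i ≠ 0 := fun i => mem_support_iff.1 (e i).2
  have hqe : aeval (fun i => (v i : E)) q = ∑ j, c j • y j := by
    rw [ev_eq, ← Finset.sum_coe_sort, ← e.sum_comp]
  set j1 : Fin n := e.symm ⟨β, hβ⟩ with hj1
  set j2 : Fin n := e.symm ⟨β', hβ'⟩ with hj2
  have hy1 : y j1 = (mon v β : E) := by rw [hy, hj1]; simp
  have hy2 : y j2 = (mon v β' : E) := by rw [hy, hj2]; simp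
  set jj : Fin 2 → Fin n := ![j1, j2] with hjj
  set Φ : Fin 2 → Matrix (Fin n) (Fin n) k := fun J => Matrix.updateRow 1 (jj J) c with hΦ
  have hyne : ∀ i, y i ≠ 0 := fun i => (mon v (e i).1).ne_zero
  have hval : ∀ J t p, ∑ a, D.lg (∑ j, Φ J a j • y j) t p =
      ∑ a, D.lg (y a) t p - D.lg (y (jj J)) t p + D.lg (aeval (fun i => (v i : E)) q) t p := by
    intro J t p
    rw [← Finset.add_sum_erase Finset.univ (fun a => D.lg (∑ j, Φ J a j • y j) t p)
        (Finset.mem_univ (jj J)),
      ← Finset.add_sum_erase Finset.univ (fun a => D.lg (y a) t p) (Finset.mem_univ (jj J))]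
    have h1 : ∑ j, Φ J (jj J) j • y j = aeval (fun i => (v i : E)) q := by
      rw [hqe]
      exact Finset.sum_congr rfl fun j _ => by rw [hΦ]; simp
    have h2 : ∀ a ∈ Finset.univ.erase (jj J), D.lg (∑ j, Φ J a j • y j) t p =
        D.lg (y a) t p := by
      intro a ha
      have h3 : ∑ j, Φ J a j • y j = y a := by
        rw [Finset.sum_eq_single a]
        · simp only [hΦ]
          rw [Matrix.updateRow_ne (Finset.ne_of_mem_erase ha), Matrix.one_apply_eq, one_smul]
        · intro b _ hb
          simp only [hΦ]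
          rw [Matrix.updateRow_ne (Finset.ne_of_mem_erase ha), Matrix.one_apply_ne (Ne.symm hb),
            zero_smul]
        · intro h
          exact absurd (Finset.mem_univ _) h
      rw [h3]
    rw [h1, Finset.sum_congr rfl h2]
    ring
  set g : ℕ → D.P → ℝ := fun t p => ∑ a, D.lg (y a) t p -
    max (D.lg (mon v β : E) t p) (D.lg (mon v β' : E) t p) +
    D.lg (aeval (fun i => (v i : E)) q) t p with hg
  have hintall : ∀ᶠ t in (D.𝒰 : Filter ℕ), (∀ a, Integrable (D.lg (y a) t) (D.μ t)) ∧
      Integrable (D.lg (mon v β : E) t) (D.μ t) ∧ Integrable (D.lg (mon v β' : E) t) (D.μ t) ∧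
      Integrable (D.lg (aeval (fun i => (v i : E)) q) t) (D.μ t) := by
    filter_upwards [eventually_all.2 fun a => D.int (y a) (hyne a), D.int _ (mon v β).ne_zero,
      D.int _ (mon v β').ne_zero, D.int _ hq0] with t h1 h2 h3 h4
    exact ⟨h1, h2, h3, h4⟩
  have hsub : D.Sm fun t => -∫ p, g t p ∂(D.μ t) := by
    intro ε hε
    have h1 := D.sub n (fun i => monomial (e i).1 1) 1 y hind
      (by rw [map_one]; exact one_ne_zero)
      (fun i => by rw [map_one, mul_one]; exact mon_eq (k := k) v (e i).1) 2 Φ (fun J => det_row _ _ (hc _)) g (by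
      filter_upwards [hintall] with t ht
      exact ((integrable_finsetSum _ fun a _ => ht.1 a).sub (ht.2.1.sup ht.2.2.1)).add ht.2.2.2) (by
      refine Eventually.of_forall fun t p => ?_
      rcases le_total (D.lg (mon v β : E) t p) (D.lg (mon v β' : E) t p) with h | h
      · refine ⟨1, ?_⟩
        rw [hval]
        simp only [hg, hjj, Matrix.cons_val_one, Matrix.cons_val_fin_one, hy2]
        rw [max_eq_right h]
      · refine ⟨0, ?_⟩
        rw [hval]
        simp only [hg, hjj, Matrix.cons_val_zero, hy1]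
        rw [max_eq_left h]) ε hε
    filter_upwards [h1] with t ht
    linarith
  have hsum : D.Sm fun t => ∑ a, ∫ p, D.lg (y a) t p ∂(D.μ t) :=
    Sm.sum _ fun a _ => unit_upper (mon v (e a).1)
  refine (((hsub.smul (c := 2) zero_le_two).add (hsum.smul (c := 2) zero_le_two)).add
    ((unit_lower (D := D) (mon v β)).add (unit_lower (D := D) (mon v β')))).mono ?_
  filter_upwards [hintall] with t ht
  obtain ⟨i1, i2, i3, i4⟩ := ht
  have i5 : Integrable (fun p => ∑ a, D.lg (y a) t p) (D.μ t) :=
    integrable_finsetSum _ fun a _ => i1 a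
  have i6 : Integrable (fun p => max (D.lg (mon v β : E) t p) (D.lg (mon v β' : E) t p)) (D.μ t) :=
    i2.sup i3
  have h1 : ∫ p, g t p ∂(D.μ t) = ∑ a, ∫ p, D.lg (y a) t p ∂(D.μ t) -
      ∫ p, max (D.lg (mon v β : E) t p) (D.lg (mon v β' : E) t p) ∂(D.μ t) +
      ∫ p, D.lg (aeval (fun i => (v i : E)) q) t p ∂(D.μ t) := by
    simp only [hg]
    have i56 : Integrable (fun p => ∑ a, D.lg (y a) t p -
        max (D.lg (mon v β : E) t p) (D.lg (mon v β' : E) t p)) (D.μ t) := i5.sub i6
    rw [integral_add i56 i4, integral_sub i5 i6, integral_finsetSum _ fun a _ => i1 a]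
  have h2 : ∫ p, max (D.lg (mon v β : E) t p) (D.lg (mon v β' : E) t p) ∂(D.μ t) =
      (∫ p, D.lg (mon v β : E) t p ∂(D.μ t) + ∫ p, D.lg (mon v β' : E) t p ∂(D.μ t) +
      ∫ p, |D.lg (mon v β : E) t p - D.lg (mon v β' : E) t p| ∂(D.μ t)) / 2 := by
    have i23 : Integrable (fun p => D.lg (mon v β : E) t p + D.lg (mon v β' : E) t p) (D.μ t) :=
      i2.add i3
    have i24 : Integrable (fun p => |D.lg (mon v β : E) t p - D.lg (mon v β' : E) t p|) (D.μ t) :=
      (i2.sub i3).abs
    rw [← integral_add i2 i3, ← integral_add i23 i24, ← integral_div]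
    refine integral_congr_ae (Eventually.of_forall fun p => ?_)
    simp only
    rw [max_def]
    split_ifs with h
    · rw [abs_of_nonpos (by linarith)]
      ring
    · rw [abs_of_pos (by linarith)]
      ring
  rw [h1, h2]
  linarith

/-- sums over the image of an injection -/
theorem sum_inj {N d : ℕ} (κ : Fin d → Fin N) (hκ : Function.Injective κ) (w : Fin N → ℝ) (W : ℝ)
    (hW : ∀ i, -W ≤ w i) : ∑ a, w (κ a) ≤ ∑ i, w i + (N - d : ℝ) * W := by
  classical
  have h1 : ∑ a, w (κ a) = ∑ i ∈ Finset.univ.image κ, w i := by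
    rw [Finset.sum_image fun a _ b _ h => hκ h]
  have h2 := Finset.sum_add_sum_compl (Finset.univ.image κ) w
  have h3 : (Finset.univ.image κ)ᶜ.card = N - d := by
    rw [Finset.card_compl, Finset.card_image_of_injective _ hκ, Finset.card_univ, Fintype.card_fin,
      Fintype.card_fin]
  have hdN : d ≤ N := by
    have := Fintype.card_le_of_injective κ hκ
    rwa [Fintype.card_fin, Fintype.card_fin] at this
  have h4 : -((N - d : ℝ) * W) ≤ ∑ i ∈ (Finset.univ.image κ)ᶜ, w i := by
    have h5 := Finset.card_nsmul_le_sum (Finset.univ.image κ)ᶜ w (-W) fun i _ => hW i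
    rw [h3, nsmul_eq_mul, Nat.cast_sub hdN] at h5
    linarith
  rw [h1]
  linarith

/-- The echelon bases of the space `MM p q m` for all orders of the monomials, in terms of one
basis. -/
theorem bases {p q : MvPolynomial (Fin l) k} {m : ℕ} (hm : p.totalDegree + q.totalDegree ≤ m) :
    ∃ (N d : ℕ) (e : Fin N → (Fin l →₀ ℕ)) (φ : Fin d → MvPolynomial (Fin l) k),
      N = (l + m).choose m ∧ d = finrank k (MM p q m) ∧ Function.Injective e ∧
      (∀ i, (e i).degree ≤ m) ∧ (∀ j, φ j ∈ MM p q m) ∧ LinearIndependent k φ ∧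
      ∀ J : Equiv.Perm (Fin N), ∃ (Φ : Matrix (Fin d) (Fin d) k) (A : Fin d → Fin N),
        Φ.det ≠ 0 ∧ Function.Injective A ∧ ∀ a, ∀ β ∈ (∑ j, Φ a j • φ j).support,
          ∃ i ≤ A a, β = e (J i) := by
  classical
  have hfin : Finite {n : Fin l →₀ ℕ | n.degree ≤ m} := by
    have h1 : (restrictTotalDegree (Fin l) k m) = restrictSupport k {n : Fin l →₀ ℕ | n.degree ≤ m} :=
      rfl
    have h2 : Module.Finite k (restrictSupport k {n : Fin l →₀ ℕ | n.degree ≤ m}) := by
      rw [← h1]
      infer_instance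
    exact Module.Finite.finite_basis (basisRestrictSupport k {n : Fin l →₀ ℕ | n.degree ≤ m})
  set N := Nat.card {n : Fin l →₀ ℕ | n.degree ≤ m} with hN
  have hNc : N = (l + m).choose m := by
    rw [← finrank_rtd (k := k) l m]
    exact (Module.finrank_eq_nat_card_basis
      (basisRestrictSupport k {n : Fin l →₀ ℕ | n.degree ≤ m})).symm
  set e0 : {n : Fin l →₀ ℕ | n.degree ≤ m} ≃ Fin N := Finite.equivFin _ with he0
  set e : Fin N → (Fin l →₀ ℕ) := fun i => (e0.symm i).1 with he
  have hei : Function.Injective e := fun a b h => e0.symm.injective (Subtype.ext h)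
  have hed : ∀ i, (e i).degree ≤ m := fun i => (e0.symm i).2
  have hes : ∀ β : Fin l →₀ ℕ, β.degree ≤ m → ∃ i, e i = β := fun β hβ =>
    ⟨e0 ⟨β, hβ⟩, by rw [he]; simp⟩
  set d := finrank k (MM p q m) with hd
  have hsupp : ∀ f ∈ MM p q m, ∀ β ∈ f.support, β.degree ≤ m := by
    intro f hf β hβ
    have h1 := (mem_restrictTotalDegree (Fin l) _ _).1 (MM_le hm hf)
    exact (le_totalDegree hβ).trans h1
  have hech : ∀ J : Equiv.Perm (Fin N), ∃ (f : Fin d → MvPolynomial (Fin l) k)
      (A : Fin d → Fin N), LinearIndependent k f ∧ (∀ a, f a ∈ MM p q m) ∧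
        Function.Injective A ∧ ∀ a, ∀ β ∈ (f a).support, ∃ i ≤ A a, β = e (J i) := by
    intro J
    obtain ⟨d', f, A, hf, hs, hA, hc⟩ := echelon N (fun i => lcoeff (R := k) (e (J i)))
      (MM p q m) (by
        intro x hx h
        ext β
        rw [coeff_zero]
        by_contra h0
        obtain ⟨i, hi⟩ := hes β (hsupp x hx β (mem_support_iff.2 h0))
        have h1 := h (J.symm i)
        rw [Equiv.apply_symm_apply, hi] at h1
        exact h0 h1)
    have hdd : d' = d := by
      have h1 := finrank_span_eq_card hf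
      rw [hs, Fintype.card_fin] at h1
      rw [hd, h1]
    subst hdd
    refine ⟨f, A, hf, fun a => by rw [← hs]; exact Submodule.subset_span ⟨a, rfl⟩, hA, ?_⟩
    intro a β hβ
    have h1 : f a ∈ MM p q m := by rw [← hs]; exact Submodule.subset_span ⟨a, rfl⟩
    obtain ⟨i, hi⟩ := hes β (hsupp _ h1 β hβ)
    refine ⟨J.symm i, ?_, by rw [Equiv.apply_symm_apply, hi]⟩
    by_contra hlt
    push Not at hlt
    have h2 := hc a _ hlt
    rw [Equiv.apply_symm_apply, hi] at h2
    exact (mem_support_iff.1 hβ) h2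
  let B : Basis (Fin d) k (MM p q m) := finBasis k (MM p q m)
  refine ⟨N, d, e, fun j => (B j : MvPolynomial (Fin l) k), hNc, rfl, hei, hed,
    fun j => (B j).2, ?_, ?_⟩
  · exact B.linearIndependent.map' (Submodule.subtype _) (Submodule.ker_subtype _)
  · intro J
    obtain ⟨f, A, hf, hfM, hA, hsup⟩ := hech J
    have hrep : ∀ a, ∑ j, B.repr ⟨f a, hfM a⟩ j • (B j : MvPolynomial (Fin l) k) = f a := by
      intro a
      have h1 := congrArg (Submodule.subtype _) (B.sum_repr ⟨f a, hfM a⟩)
      rw [map_sum] at h1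
      simpa using h1
    refine ⟨Matrix.of fun a j => B.repr ⟨f a, hfM a⟩ j, A, ?_, hA, ?_⟩
    · intro hdet
      obtain ⟨w, hw, hw2⟩ := Matrix.exists_vecMul_eq_zero_iff.2 hdet
      apply hw
      have h1 : ∑ a, w a • f a = 0 := by
        have h2 : ∑ a, w a • f a = ∑ j, (∑ a, w a * B.repr ⟨f a, hfM a⟩ j) •
            (B j : MvPolynomial (Fin l) k) := by
          simp only [Finset.sum_smul]
          rw [Finset.sum_comm]
          refine Finset.sum_congr rfl fun a _ => ?_
          conv_lhs => rw [← hrep a, Finset.smul_sum]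
          exact Finset.sum_congr rfl fun j _ => by rw [smul_smul]
        rw [h2]
        refine Finset.sum_eq_zero fun j _ => ?_
        have h3 := congrFun hw2 j
        simp only [Matrix.vecMul, dotProduct, Matrix.of_apply, Pi.zero_apply] at h3
        rw [h3, zero_smul]
      funext a
      exact Fintype.linearIndependent_iff.1 hf w h1 a
    · intro a β hβ
      apply hsup
      simpa only [Matrix.of_apply, hrep] using hβ

end Dio

end Pool.Agent.K1H83.BL
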