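import Mathlib
import Pool.Agent.K1H83.BL.Gcd

/-!
The upper bound for the mean of a denominator.
-/

set_option autoImplicit false
set_option linter.unusedSectionVars false

namespace Pool.Agent.K1H83.BL

open MvPolynomial Module Filter Topology MeasureTheory

namespace Dio

variable {k E : Type} [Field k] [CommRing E] [IsDomain E] [Algebra k E] {l : ℕ}
  {v : Fin l → Eˣ} {D : Dio k v}

/-- the inequality for the space of the polynomials of degree at most `m` -/
theorem upper_m (hv : AlgebraicIndependent k fun i => (v i : E))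
    {p q : MvPolynomial (Fin l) k} (hq : q ≠ 0) {x : E}
    (hx : x * aeval (fun i => (v i : E)) q = aeval (fun i => (v i : E)) p) {m : ℕ}
    (hm : p.totalDegree + q.totalDegree ≤ m) :
    D.Sm fun t => (finrank k (MM p q m) : ℝ) *
        (∫ p, D.lg (aeval (fun i => (v i : E)) q) t p ∂(D.μ t)) -
      (((l + m).choose m : ℝ) - finrank k (MM p q m)) * m *
        ∑ i, ∫ p, |D.lg (v i : E) t p| ∂(D.μ t) := by
  classical
  obtain ⟨N, d, e, φ, hN, hd, hei, hed, hφM, hφ, hbas⟩ := bases (p := p) (q := q) hm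
  have hinj : Function.Injective (aeval (R := k) fun i => (v i : E)) := hv
  have hq0 : aeval (fun i => (v i : E)) q ≠ 0 := fun h0 => hq (hinj (by rw [h0, map_zero]))
  -- the functions
  have hY : ∀ j, ∃ y : E, y * aeval (fun i => (v i : E)) q = aeval (fun i => (v i : E)) (φ j) := by
    intro j
    obtain ⟨_, ⟨A, -, rfl⟩, _, ⟨B, -, rfl⟩, hAB⟩ := Submodule.mem_sup.1 (hφM j)
    refine ⟨x * aeval (fun i => (v i : E)) A + aeval (fun i => (v i : E)) B, ?_⟩
    rw [← hAB, LinearMap.mulLeft_apply, LinearMap.mulLeft_apply, map_add, map_mul, map_mul, ← hx]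
    ring
  choose y hy using hY
  have hlin : ∀ c : Fin d → k, (∑ j, c j • y j) * aeval (fun i => (v i : E)) q =
      aeval (fun i => (v i : E)) (∑ j, c j • φ j) := by
    intro c
    rw [map_sum, Finset.sum_mul]
    refine Finset.sum_congr rfl fun j _ => ?_
    rw [map_smul, ← hy, smul_mul_assoc]
  have hind : LinearIndependent k y := by
    rw [Fintype.linearIndependent_iff]
    intro c hc
    have h1 := hlin c
    rw [hc, zero_mul] at h1
    have h2 : ∑ j, c j • φ j = 0 := hinj (by rw [← h1, map_zero])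
    exact Fintype.linearIndependent_iff.1 hφ c h2
  choose Φ A hdet hA hsup using hbas
  -- enumeration of the orders
  set m0 := Fintype.card (Equiv.Perm (Fin N)) with hm0
  set en : Fin m0 ≃ Equiv.Perm (Fin N) := (Fintype.equivFin _).symm with hen
  have hYne : ∀ J a, ∑ j, Φ J a j • y j ≠ 0 := by
    intro J a h0
    apply hdet J
    apply Matrix.det_eq_zero_of_row_eq_zero a
    exact fun j => Fintype.linearIndependent_iff.1 hind _ h0 j
  have hfne : ∀ J a, aeval (fun i => (v i : E)) (∑ j, Φ J a j • φ j) ≠ 0 := by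
    intro J a
    rw [← hlin]
    exact mul_ne_zero (hYne J a) hq0
  -- upper bounds for the forms
  have hup : ∀ (J : Equiv.Perm (Fin N)) (a : Fin d), ∃ C : ℝ, 0 ≤ C ∧
      ∀ᶠ t in (D.𝒰 : Filter ℕ), ∀ p, ∃ i ≤ A J a, D.lg (∑ j, Φ J a j • y j) t p ≤
        C + D.lg (mon v (e (J i)) : E) t p - D.lg (aeval (fun i => (v i : E)) q) t p := by
    intro J a
    have h1 := hfne J a
    rw [ev_eq] at h1
    obtain ⟨C, hC, h2⟩ := lg_lin (D := D) (∑ j, Φ J a j • φ j).support
      (fun β => coeff β (∑ j, Φ J a j • φ j)) (fun β => (mon v β : E))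
      (fun β hβ => mem_support_iff.1 hβ) (fun β _ => (mon v β).ne_zero) h1
    refine ⟨C, hC, ?_⟩
    filter_upwards [h2, D.lg_mul _ _ (hYne J a) hq0] with t h3 h4 p
    obtain ⟨β, hβ, h5⟩ := h3 p
    obtain ⟨i, hi, rfl⟩ := hsup J a β hβ
    refine ⟨i, hi, ?_⟩
    have h6 := h4 p
    rw [hlin, ev_eq v (∑ j, Φ J a j • φ j)] at h6
    linarith
  choose C hC0 hC using hup
  set CC : ℝ := ∑ J, ∑ a, C J a with hCC
  have hCCle : ∀ J, ∑ a, C J a ≤ CC := fun J =>
    Finset.single_le_sum (f := fun J => ∑ a, C J a)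
      (fun J _ => Finset.sum_nonneg fun a _ => hC0 J a) (Finset.mem_univ J)
  set g : ℕ → D.P → ℝ := fun t p => CC + ∑ i, D.lg (mon v (e i) : E) t p +
    ((N : ℝ) - d) * (m * ∑ i, |D.lg (v i : E) t p|) -
    d * D.lg (aeval (fun i => (v i : E)) q) t p with hg
  have hintall : ∀ᶠ t in (D.𝒰 : Filter ℕ), (∀ i, Integrable (D.lg (mon v (e i) : E) t) (D.μ t)) ∧
      (∀ i, Integrable (D.lg (v i : E) t) (D.μ t)) ∧
      Integrable (D.lg (aeval (fun i => (v i : E)) q) t) (D.μ t) := by
    filter_upwards [eventually_all.2 fun i => D.int _ (mon v (e i)).ne_zero,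
      eventually_all.2 fun i => D.int _ (v i).ne_zero, D.int _ hq0] with t h1 h2 h3
    exact ⟨h1, h2, h3⟩
  have hsub : D.Sm fun t => -∫ p, g t p ∂(D.μ t) := by
    intro ε hε
    have h1 := D.sub d φ q y hφ hq0 hy m0 (fun s => Φ (en s)) (fun s => hdet _) g (by
      filter_upwards [hintall] with t ht
      obtain ⟨i1, i2, i3⟩ := ht
      exact (((integrable_const CC).add (integrable_finsetSum _ fun i _ => i1 i)).add
        (((integrable_finsetSum _ fun i _ => (i2 i).abs).const_mul _).const_mul _)).sub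
          (i3.const_mul _)) (by
      filter_upwards [eventually_all.2 fun J => eventually_all.2 fun a => hC J a,
        eventually_all.2 fun i => lg_mon (D := D) v (e i)] with t h2 h3 p
      obtain ⟨J, hJ⟩ : ∃ J : Equiv.Perm (Fin N),
          Monotone ((fun i => D.lg (mon v (e i) : E) t p) ∘ J) :=
        ⟨Tuple.sort _, Tuple.monotone_sort _⟩
      refine ⟨en.symm J, ?_⟩
      rw [Equiv.apply_symm_apply]
      have h4 : ∀ a, D.lg (∑ j, Φ J a j • y j) t p ≤ C J a +
          D.lg (mon v (e (J (A J a))) : E) t p -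
            D.lg (aeval (fun i => (v i : E)) q) t p := by
        intro a
        obtain ⟨i, hi, h5⟩ := h2 J a p
        have h6 := hJ hi
        simp only [Function.comp] at h6
        linarith
      refine (Finset.sum_le_sum fun a _ => h4 a).trans ?_
      rw [Finset.sum_sub_distrib, Finset.sum_add_distrib, Finset.sum_const, Finset.card_univ,
        Fintype.card_fin, nsmul_eq_mul]
      have h7 := sum_inj (fun a => J (A J a)) (fun a b h => hA J (J.injective h))
        (fun i => D.lg (mon v (e i) : E) t p) (m * ∑ i, |D.lg (v i : E) t p|) (by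
          intro i
          rw [h3 i p]
          have h8 : |∑ j, ((e i) j : ℝ) * D.lg (v j : E) t p| ≤
              m * ∑ i, |D.lg (v i : E) t p| := by
            refine (Finset.abs_sum_le_sum_abs _ _).trans ?_
            rw [Finset.mul_sum]
            refine Finset.sum_le_sum fun j _ => ?_
            rw [abs_mul, Nat.abs_cast]
            refine mul_le_mul_of_nonneg_right ?_ (abs_nonneg _)
            have h9 : (e i) j ≤ (e i).degree := by
              rw [Finsupp.degree_eq_sum]
              exact Finset.single_le_sum (f := fun j => (e i) j) (fun _ _ => Nat.zero_le _)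
                (Finset.mem_univ j)
            exact_mod_cast h9.trans (hed i)
          exact (abs_le.1 h8).1)
      have h8 := hCCle J
      simp only [hg]
      linarith) ε hε
    filter_upwards [h1] with t ht
    linarith
  have hsum : D.Sm fun t => ∑ i, ∫ p, D.lg (mon v (e i) : E) t p ∂(D.μ t) :=
    Sm.sum _ fun i _ => unit_upper (mon v (e i))
  refine ((hsub.add hsum).add (Sm.const (|CC| * D.M))).mono ?_
  filter_upwards [hintall] with t ht
  obtain ⟨i1, i2, i3⟩ := ht
  have i4 : Integrable (fun p => ∑ i, D.lg (mon v (e i) : E) t p) (D.μ t) :=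
    integrable_finsetSum _ fun i _ => i1 i
  have i5 : Integrable (fun p => ∑ i, |D.lg (v i : E) t p|) (D.μ t) :=
    integrable_finsetSum _ fun i _ => (i2 i).abs
  have i6 : Integrable (fun p => ((N : ℝ) - d) * (m * ∑ i, |D.lg (v i : E) t p|)) (D.μ t) :=
    (i5.const_mul _).const_mul _
  have i7 : Integrable (fun p => d * D.lg (aeval (fun i => (v i : E)) q) t p) (D.μ t) :=
    i3.const_mul _
  have i8 : Integrable (fun _ : D.P => CC) (D.μ t) := integrable_const CC
  have i9 : Integrable (fun p => CC + ∑ i, D.lg (mon v (e i) : E) t p) (D.μ t) := i8.add i4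
  have i10 : Integrable (fun p => CC + ∑ i, D.lg (mon v (e i) : E) t p +
    ((N : ℝ) - d) * (m * ∑ i, |D.lg (v i : E) t p|)) (D.μ t) := i9.add i6
  have h1 : ∫ p, g t p ∂(D.μ t) = (D.μ t).real Set.univ * CC +
      ∑ i, ∫ p, D.lg (mon v (e i) : E) t p ∂(D.μ t) +
      ((N : ℝ) - d) * (m * ∑ i, ∫ p, |D.lg (v i : E) t p| ∂(D.μ t)) -
      d * ∫ p, D.lg (aeval (fun i => (v i : E)) q) t p ∂(D.μ t) := by
    simp only [hg]
    rw [integral_sub i10 i7, integral_add i9 i6, integral_add i8 i4, integral_const,
      integral_finsetSum _ fun i _ => i1 i, integral_const_mul, integral_const_mul,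
      integral_const_mul, integral_finsetSum _ fun i _ => (i2 i).abs, smul_eq_mul]
  have h2 : (D.μ t).real Set.univ * CC ≤ |CC| * D.M := by
    have h3 := D.mass t
    have h4 := le_abs_self CC
    have h5 := abs_nonneg CC
    have h6 : 0 ≤ (D.μ t).real Set.univ := measureReal_nonneg
    nlinarith
  rw [h1, ← hd, ← hN]
  linarith

/-- **The upper bound** for the mean of the denominator of an integral element in the field
generated by the units. -/
theorem upper (hv : AlgebraicIndependent k fun i => (v i : E))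
    {p q : MvPolynomial (Fin l) k} (hp : p ≠ 0) (hq : q ≠ 0) (hpq : IsRelPrime p q) {x : E}
    (hx : x * aeval (fun i => (v i : E)) q = aeval (fun i => (v i : E)) p) :
    D.Sm fun t => ∫ p, D.lg (aeval (fun i => (v i : E)) q) t p ∂(D.μ t) := by
  intro ε hε
  choose C1 hC1 hC using fun i => unit_size (D := D) (v i)
  set C2 : ℝ := ∑ i, C1 i with hC2
  have hC20 : 0 ≤ C2 := Finset.sum_nonneg fun i _ => hC1 i
  set δ : ℝ := min (1 / 2) (ε / (8 * (C2 + 1))) with hδ
  have hδ0 : 0 < δ := lt_min (by norm_num) (by positivity)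
  have h1 := (second_diff l p.totalDegree q.totalDegree).eventually_le_const hδ0
  obtain ⟨m, ⟨hm1, hm2⟩, hm3⟩ := ((h1.and
    (eventually_ge_atTop (p.totalDegree + q.totalDegree))).and (eventually_ge_atTop 1)).exists
  set B : ℝ := ((l + m).choose m : ℝ) with hB
  set d : ℝ := (finrank k (MM p q m) : ℝ) with hd
  have hBpos : 0 < B := by
    rw [hB]
    exact_mod_cast Nat.choose_pos (Nat.le_add_left m l)
  have hmR : (1 : ℝ) ≤ m := by exact_mod_cast hm3
  have h2 := finrank_MM hp hq hpq hm2
  have h2' : (((l + (m - p.totalDegree)).choose (m - p.totalDegree) : ℕ) : ℝ) +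
      (((l + (m - q.totalDegree)).choose (m - q.totalDegree) : ℕ) : ℝ) ≤ d +
        (((l + (m - p.totalDegree - q.totalDegree)).choose
          (m - p.totalDegree - q.totalDegree) : ℕ) : ℝ) := by
    rw [hd]
    exact_mod_cast h2
  have h3 : (B - d) * m ≤ δ * B := by
    rw [div_le_iff₀ hBpos] at hm1
    refine le_trans ?_ hm1
    refine mul_le_mul_of_nonneg_right ?_ (by linarith)
    linarith
  have h4 : B - d ≤ δ * B := by
    have hdB : d ≤ B := by
      rw [hd, hB, ← finrank_rtd (k := k) l m]
      exact_mod_cast Submodule.finrank_mono (MM_le hm2)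
    nlinarith
  have hδ1 : δ ≤ 1 / 2 := min_le_left _ _
  have hδ2 : δ ≤ ε / (8 * (C2 + 1)) := min_le_right _ _
  have h5 : B / 2 ≤ d := by nlinarith
  have hdpos : 0 < d := by linarith
  have h6 := upper_m (D := D) hv hq hx hm2
  rw [← hd, ← hB] at h6
  filter_upwards [h6 (ε * d / 2) (by positivity), eventually_all.2 hC, N_pos] with t h7 h8 h9
  have h10 : ∑ i, ∫ p, |D.lg (v i : E) t p| ∂(D.μ t) ≤ C2 * D.N t := by
    rw [hC2, Finset.sum_mul]
    exact Finset.sum_le_sum fun i _ => h8 i
  have h11 : 0 ≤ ∑ i, ∫ p, |D.lg (v i : E) t p| ∂(D.μ t) :=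
    Finset.sum_nonneg fun i _ => integral_nonneg fun p => abs_nonneg _
  have h12 : (B - d) * m * ∑ i, ∫ p, |D.lg (v i : E) t p| ∂(D.μ t) ≤
      (ε * d / 2) * D.N t := by
    calc (B - d) * m * ∑ i, ∫ p, |D.lg (v i : E) t p| ∂(D.μ t)
        ≤ (δ * B) * ∑ i, ∫ p, |D.lg (v i : E) t p| ∂(D.μ t) :=
          mul_le_mul_of_nonneg_right h3 h11
      _ ≤ (δ * B) * (C2 * D.N t) := mul_le_mul_of_nonneg_left h10 (by positivity)
      _ ≤ (ε / (8 * (C2 + 1)) * (2 * d)) * (C2 * D.N t) := by
          refine mul_le_mul_of_nonneg_right ?_ (by positivity)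
          exact mul_le_mul hδ2 (by linarith) hBpos.le (by positivity)
      _ = (ε * d / 4) * D.N t * (C2 / (C2 + 1)) := by
          field_simp
          ring
      _ ≤ (ε * d / 4) * D.N t * 1 := by
          refine mul_le_mul_of_nonneg_left ?_ (by positivity)
          rw [div_le_one (by positivity)]
          linarith
      _ ≤ (ε * d / 2) * D.N t := by nlinarith [mul_pos (mul_pos hε hdpos) h9]
  have h13 : d * ∫ p, D.lg (aeval (fun i => (v i : E)) q) t p ∂(D.μ t) ≤ d * (ε * D.N t) := by
    nlinarith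
  exact le_of_mul_le_mul_left h13 hdpos

/-- **Denominators.** If an integral element is a quotient of two coprime polynomials in
algebraically independent units, then the quotients of the monomials of the denominator are
small. -/
theorem slow (hv : AlgebraicIndependent k fun i => (v i : E))
    {p q : MvPolynomial (Fin l) k} (hp : p ≠ 0) (hpq : IsRelPrime p q) {x : E}
    (hx : x * aeval (fun i => (v i : E)) q = aeval (fun i => (v i : E)) p)
    {β β' : Fin l →₀ ℕ} (hβ : β ∈ q.support) (hβ' : β' ∈ q.support) :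
    D.Sm fun t => ∫ p, |D.lg (mon v β : E) t p - D.lg (mon v β' : E) t p| ∂(D.μ t) := by
  have hq : q ≠ 0 := by
    rintro rfl
    simp at hβ
  have h1 := (pair (D := D) hv hβ hβ').add ((upper (D := D) hv hp hq hpq hx).smul (c := 2)
    zero_le_two)
  refine h1.mono (Eventually.of_forall fun t => ?_)
  linarith

end Dio

end Pool.Agent.K1H83.BL
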