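import Mathlib
import Pool.Agent.K1H83.BL.Gcd2

/-!
Saturated subgroups of lattices, and the group of the slow characters.
-/

set_option autoImplicit false
set_option linter.unusedSectionVars false

namespace Pool.Agent.K1H83.BL

open MvPolynomial Module Filter Topology MeasureTheory

/-- the quotient of a lattice by a saturated subgroup is free -/
theorem quot_basis {k : ℕ} (X : Submodule ℤ (Fin k → ℤ))
    (hX : ∀ (n : ℤ) (a : Fin k → ℤ), n ≠ 0 → n • a ∈ X → a ∈ X) :
    ∃ (l : ℕ), Nonempty (Basis (Fin l) ℤ ((Fin k → ℤ) ⧸ X)) := by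
  have h1 : IsTorsionFree ℤ ((Fin k → ℤ) ⧸ X) := by
    rw [isTorsionFree_iff_smul_eq_zero]
    intro n y
    induction y using Submodule.Quotient.induction_on with
    | _ a =>
      intro h
      by_contra hcon
      push Not at hcon
      obtain ⟨h1, h2⟩ := hcon
      apply h2
      rw [← Submodule.Quotient.mk_smul, Submodule.Quotient.mk_eq_zero] at h
      rw [Submodule.Quotient.mk_eq_zero]
      exact hX n a h1 h
  obtain ⟨l, b⟩ : Σ n, Basis (Fin n) ℤ ((Fin k → ℤ) ⧸ X) := Module.basisOfFiniteTypeTorsionFree'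
  exact ⟨l, ⟨b⟩⟩

/-- a proper saturated subgroup of a lattice is killed by a nonzero functional -/
theorem exists_functional {k : ℕ} (X : Submodule ℤ (Fin k → ℤ))
    (hX : ∀ (n : ℤ) (a : Fin k → ℤ), n ≠ 0 → n • a ∈ X → a ∈ X) (a₀ : Fin k → ℤ) (h₀ : a₀ ∉ X) :
    ∃ ω : (Fin k → ℤ) →ₗ[ℤ] ℤ, (∀ a ∈ X, ω a = 0) ∧ ω a₀ ≠ 0 := by
  obtain ⟨l, ⟨b⟩⟩ := quot_basis X hX
  have h1 : X.mkQ a₀ ≠ 0 := by
    rw [Submodule.mkQ_apply, Ne, Submodule.Quotient.mk_eq_zero]
    exact h₀
  obtain ⟨i, hi⟩ : ∃ i, b.repr (X.mkQ a₀) i ≠ 0 := by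
    by_contra hcon
    push Not at hcon
    apply h1
    rw [← b.repr.map_eq_zero_iff]
    ext i
    exact hcon i
  refine ⟨(b.coord i).comp X.mkQ, fun a ha => ?_, hi⟩
  have h2 : X.mkQ a = 0 := by
    rw [Submodule.mkQ_apply, Submodule.Quotient.mk_eq_zero]
    exact ha
  rw [LinearMap.comp_apply, h2, map_zero]

namespace Dio

variable {k E : Type} [Field k] [CommRing E] [IsDomain E] [Algebra k E] {l₀ : ℕ}
  {v₀ : Fin l₀ → Eˣ} {D : Dio k v₀} {l : ℕ}

/-- the size of a character -/
noncomputable def hh (D : Dio k v₀) (v : Fin l → Eˣ) (a : Fin l → ℤ) (t : ℕ) : ℝ :=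
  ∫ p, |∑ i, (a i : ℝ) * D.lg (v i : E) t p| ∂(D.μ t)

theorem all_int (v : Fin l → Eˣ) : ∀ᶠ t in (D.𝒰 : Filter ℕ),
    ∀ i, Integrable (D.lg (v i : E) t) (D.μ t) :=
  eventually_all.2 fun i => D.int _ (v i).ne_zero

/-- the group of the slow characters -/
noncomputable def slowX (D : Dio k v₀) (v : Fin l → Eˣ) : Submodule ℤ (Fin l → ℤ) where
  carrier := {a | D.Sm (hh D v a)}
  zero_mem' := by
    refine (Sm.const 0).mono (Eventually.of_forall fun t => ?_)
    unfold hh
    simp
  add_mem' := by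
    intro a b ha hb
    refine (Sm.add ha hb).mono ?_
    filter_upwards [all_int (D := D) v] with t ht
    unfold hh
    have i1 : ∀ a : Fin l → ℤ, Integrable
        (fun p => |∑ i, (a i : ℝ) * D.lg (v i : E) t p|) (D.μ t) := fun a =>
      (integrable_finsetSum _ fun i _ => (ht i).const_mul _).abs
    rw [← integral_add (i1 a) (i1 b)]
    refine integral_mono (i1 (a + b)) ((i1 a).add (i1 b)) fun p => ?_
    simp only [Pi.add_apply, Int.cast_add, add_mul, Finset.sum_add_distrib]
    exact abs_add_le _ _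
  smul_mem' := by
    intro n a ha
    refine (Sm.smul ha (c := |(n : ℝ)|) (abs_nonneg _)).mono (Eventually.of_forall fun t => ?_)
    unfold hh
    rw [← integral_const_mul]
    refine (integral_congr_ae (Eventually.of_forall fun p => ?_)).le
    simp only [Pi.smul_apply, smul_eq_mul, Int.cast_mul]
    rw [← abs_mul, Finset.mul_sum]
    simp only [mul_assoc]

theorem slowX_sat (v : Fin l → Eˣ) (n : ℤ) (a : Fin l → ℤ) (hn : n ≠ 0) (h : n • a ∈ slowX D v) :
    a ∈ slowX D v := by
  have h1 : D.Sm (hh D v (n • a)) := h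
  have h2 := Sm.smul h1 (c := |(n : ℝ)|⁻¹) (by positivity)
  refine h2.mono (Eventually.of_forall fun t => ?_)
  have h3 : hh D v (n • a) t = |(n : ℝ)| * hh D v a t := by
    unfold hh
    rw [← integral_const_mul]
    refine integral_congr_ae (Eventually.of_forall fun p => ?_)
    simp only [Pi.smul_apply, smul_eq_mul, Int.cast_mul]
    rw [← abs_mul, Finset.mul_sum]
    simp only [mul_assoc]
  have h4 : |(n : ℝ)| ≠ 0 := abs_ne_zero.2 (by exact_mod_cast hn)
  rw [h3, inv_mul_cancel_left₀ h4]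

/-- **Weights.** If the scale is comparable with the size of the units `v i`, then there are
integers `w i`, not all zero, such that the slow characters have weight zero. -/
theorem weights (v : Fin l → Eˣ) (hN : ∃ C : ℝ, ∀ᶠ t in (D.𝒰 : Filter ℕ),
    D.N t ≤ C * ∑ i, ∫ p, |D.lg (v i : E) t p| ∂(D.μ t)) :
    ∃ w : Fin l → ℤ, w ≠ 0 ∧ ∀ a : Fin l → ℤ, D.Sm (hh D v a) → ∑ i, a i * w i = 0 := by
  classical
  obtain ⟨i0, hi0⟩ : ∃ i, (Pi.single i 1 : Fin l → ℤ) ∉ slowX D v := by
    by_contra hcon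
    push Not at hcon
    obtain ⟨C, hC⟩ := hN
    have h1 : D.Sm fun t => ∑ i, hh D v (Pi.single i 1) t := Sm.sum _ fun i _ => hcon i
    obtain ⟨t, h2, h3, h4⟩ := ((h1 (1 / (2 * (|C| + 1))) (by positivity)).and
      (hC.and N_pos)).exists
    have h5 : ∀ i, hh D v (Pi.single i 1) t = ∫ p, |D.lg (v i : E) t p| ∂(D.μ t) := by
      intro i
      unfold hh
      refine integral_congr_ae (Eventually.of_forall fun p => ?_)
      simp only
      rw [Finset.sum_eq_single i]
      · rw [Pi.single_eq_same, Int.cast_one, one_mul]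
      · intro j _ hj
        rw [Pi.single_eq_of_ne hj, Int.cast_zero, zero_mul]
      · intro h
        exact absurd (Finset.mem_univ i) h
    simp only [h5] at h2
    have h6 : 0 ≤ ∑ i, ∫ p, |D.lg (v i : E) t p| ∂(D.μ t) :=
      Finset.sum_nonneg fun i _ => integral_nonneg fun p => abs_nonneg _
    have h7 : D.N t ≤ |C| * (1 / (2 * (|C| + 1)) * D.N t) := by
      refine h3.trans ?_
      calc C * ∑ i, ∫ p, |D.lg (v i : E) t p| ∂(D.μ t)
          ≤ |C| * ∑ i, ∫ p, |D.lg (v i : E) t p| ∂(D.μ t) :=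
            mul_le_mul_of_nonneg_right (le_abs_self C) h6
        _ ≤ _ := mul_le_mul_of_nonneg_left h2 (abs_nonneg C)
    have h8 : |C| * (1 / (2 * (|C| + 1)) * D.N t) ≤ D.N t / 2 := by
      have h9 : |C| * (1 / (2 * (|C| + 1)) * D.N t) = (|C| / (|C| + 1)) * (D.N t / 2) := by
        field_simp
      rw [h9]
      have h10 : |C| / (|C| + 1) ≤ 1 := by
        rw [div_le_one (by positivity)]
        linarith
      have h11 : 0 ≤ D.N t / 2 := by linarith
      nlinarith
    linarith
  obtain ⟨ω, hω, hω0⟩ := exists_functional (slowX D v) (slowX_sat v) _ hi0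
  refine ⟨fun i => ω (Pi.single i 1), fun h => hω0 (congrFun h i0), fun a ha => ?_⟩
  have h1 := hω a ha
  have h2 : a = ∑ i, a i • (Pi.single i 1 : Fin l → ℤ) := by
    funext j
    rw [Finset.sum_apply]
    simp [Pi.single_apply]
  rw [h2, map_sum] at h1
  rw [← h1]
  refine Finset.sum_congr rfl fun i _ => ?_
  rw [map_smul, smul_eq_mul]

/-- the monomials of a denominator have the same weight -/
theorem den_weight {v : Fin l → Eˣ} {D : Dio k v} (hv : AlgebraicIndependent k fun i => (v i : E))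
    {p q : MvPolynomial (Fin l) k} (hp : p ≠ 0) (hpq : IsRelPrime p q) {x : E}
    (hx : x * aeval (fun i => (v i : E)) q = aeval (fun i => (v i : E)) p)
    {w : Fin l → ℤ} (hw : ∀ a : Fin l → ℤ, D.Sm (hh D v a) → ∑ i, a i * w i = 0)
    {β β' : Fin l →₀ ℕ} (hβ : β ∈ q.support) (hβ' : β' ∈ q.support) :
    ∑ i, (β i : ℤ) * w i = ∑ i, (β' i : ℤ) * w i := by
  have h1 := hw (fun i => (β i : ℤ) - β' i) ((slow (D := D) hv hp hpq hx hβ hβ').mono (by
    filter_upwards [lg_mon (D := D) v β, lg_mon (D := D) v β'] with t h1 h2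
    unfold hh
    refine (integral_congr_ae (Eventually.of_forall fun p => ?_)).le
    simp only [h1 p, h2 p]
    rw [← Finset.sum_sub_distrib]
    congr 1
    refine Finset.sum_congr rfl fun i _ => ?_
    push_cast
    ring))
  simp only [sub_mul, Finset.sum_sub_distrib] at h1
  linarith

end Dio

end Pool.Agent.K1H83.BL
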