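import Mathlib
import Pool.Agent.K1H83.BL.Slow

/-!
Multiplicatively independent generators, modulo a saturated subgroup.
-/

set_option autoImplicit false

namespace Pool.Agent.K1H83.BL

open Module

/-- the character with exponents `a` -/
def chr {G : Type*} [CommGroup G] {r : ℕ} (u : Fin r → G) (a : Fin r → ℤ) : G := ∏ i, u i ^ a i

theorem chr_add {G : Type*} [CommGroup G] {r : ℕ} (u : Fin r → G) (a b : Fin r → ℤ) :
    chr u (a + b) = chr u a * chr u b := by
  unfold chr
  simp only [Pi.add_apply, zpow_add, Finset.prod_mul_distrib]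

theorem chr_zero {G : Type*} [CommGroup G] {r : ℕ} (u : Fin r → G) : chr u 0 = 1 := by
  unfold chr
  simp

theorem chr_smul {G : Type*} [CommGroup G] {r : ℕ} (u : Fin r → G) (n : ℤ) (a : Fin r → ℤ) :
    chr u (n • a) = chr u a ^ n := by
  unfold chr
  rw [← Finset.prod_zpow]
  refine Finset.prod_congr rfl fun i _ => ?_
  rw [Pi.smul_apply, smul_eq_mul, mul_comm, zpow_mul]

theorem chr_sum {G : Type*} [CommGroup G] {r : ℕ} (u : Fin r → G) {ι : Type*} (s : Finset ι)
    (a : ι → Fin r → ℤ) : chr u (∑ i ∈ s, a i) = ∏ i ∈ s, chr u (a i) := by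
  classical
  induction s using Finset.induction_on with
  | empty => simp [chr_zero]
  | insert b s hb ih => rw [Finset.sum_insert hb, Finset.prod_insert hb, chr_add, ih]

theorem chr_single {G : Type*} [CommGroup G] {r : ℕ} (u : Fin r → G) (i : Fin r) :
    chr u (Pi.single i 1) = u i := by
  classical
  unfold chr
  rw [Finset.prod_eq_single i]
  · simp
  · intro j _ hj
    simp [Pi.single_eq_of_ne hj]
  · intro h
    exact absurd (Finset.mem_univ i) h

/-- **Generators.** -/
theorem lattice {G : Type*} [CommGroup G] (C : Subgroup G)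
    (hC : ∀ (x : G) (n : ℤ), n ≠ 0 → x ^ n ∈ C → x ∈ C) {r : ℕ} (u : Fin r → G) :
    ∃ (l : ℕ) (v : Fin l → G) (c : Fin r → G) (A : Fin r → Fin l → ℤ) (B : Fin l → Fin r → ℤ),
      (∀ i, c i ∈ C) ∧ (∀ i, u i = c i * chr v (A i)) ∧ (∀ j, v j = chr u (B j)) ∧
      (∀ α : Fin l → ℤ, chr v α ∈ C → α = 0) ∧
      ∀ w : Fin l → ℤ, (∀ i, ∑ j, A i j * w j = 0) → w = 0 := by
  classical
  let X : Submodule ℤ (Fin r → ℤ) :=
    { carrier := {a | chr u a ∈ C}
      zero_mem' := by
        change chr u 0 ∈ C
        rw [chr_zero]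
        exact C.one_mem
      add_mem' := by
        intro a b ha hb
        change chr u (a + b) ∈ C
        rw [chr_add]
        exact C.mul_mem ha hb
      smul_mem' := by
        intro n a ha
        change chr u (n • a) ∈ C
        rw [chr_smul]
        exact C.zpow_mem ha n }
  have hX : ∀ (n : ℤ) (a : Fin r → ℤ), n ≠ 0 → n • a ∈ X → a ∈ X := by
    intro n a hn h
    have h1 : chr u (n • a) ∈ C := h
    rw [chr_smul] at h1
    exact hC _ n hn h1
  obtain ⟨l, ⟨b⟩⟩ := quot_basis X hX
  choose B hB using fun j => Submodule.Quotient.mk_surjective X (b j)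
  let A : Fin r → Fin l → ℤ := fun i j => b.repr (Submodule.Quotient.mk (Pi.single i 1)) j
  have hA : ∀ i, (Pi.single i 1 : Fin r → ℤ) - ∑ j, A i j • B j ∈ X := by
    intro i
    rw [← Submodule.Quotient.mk_eq_zero, Submodule.Quotient.mk_sub, sub_eq_zero]
    have h1 := b.sum_repr (Submodule.Quotient.mk (Pi.single i 1))
    rw [← h1]
    change _ = X.mkQ (∑ j, A i j • B j)
    rw [map_sum]
    refine Finset.sum_congr rfl fun j _ => ?_
    rw [map_smul, Submodule.mkQ_apply, hB]
  have hchr : ∀ α : Fin l → ℤ, chr (fun j => chr u (B j)) α = chr u (∑ j, α j • B j) := by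
    intro α
    rw [chr_sum]
    unfold chr
    refine Finset.prod_congr rfl fun j _ => ?_
    have := chr_smul u (α j) (B j)
    unfold chr at this
    rw [this]
  refine ⟨l, fun j => chr u (B j), fun i => chr u (Pi.single i 1 - ∑ j, A i j • B j), A, B,
    fun i => hA i, ?_, fun j => rfl, ?_, ?_⟩
  · intro i
    rw [hchr, ← chr_add, sub_add_cancel, chr_single]
  · intro α hα
    rw [hchr] at hα
    have h1 : (∑ j, α j • B j) ∈ X := hα
    rw [← Submodule.Quotient.mk_eq_zero] at h1
    have h2 : ∑ j, α j • b j = 0 := by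
      rw [← h1]
      change _ = X.mkQ (∑ j, α j • B j)
      rw [map_sum]
      refine Finset.sum_congr rfl fun j _ => ?_
      rw [map_smul, Submodule.mkQ_apply, hB]
    funext j
    exact Fintype.linearIndependent_iff.1 b.linearIndependent α h2 j
  · intro w hw
    let ω : ((Fin r → ℤ) ⧸ X) →ₗ[ℤ] ℤ := b.constr ℤ w
    have h1 : ∀ j, ω (b j) = w j := fun j => b.constr_basis ℤ w j
    have h2 : ∀ i, ω (Submodule.Quotient.mk (Pi.single i 1)) = 0 := by
      intro i
      rw [← hw i]
      conv_lhs => rw [← b.sum_repr (Submodule.Quotient.mk (Pi.single i 1))]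
      rw [map_sum]
      refine Finset.sum_congr rfl fun j _ => ?_
      rw [map_smul, h1, smul_eq_mul]
    have h3 : ω.comp X.mkQ = 0 := by
      apply LinearMap.pi_ext'
      intro i
      apply LinearMap.ext_ring
      simp only [LinearMap.comp_apply, LinearMap.coe_single, Submodule.mkQ_apply,
        LinearMap.zero_comp, LinearMap.zero_apply]
      exact h2 i
    funext j
    rw [← h1 j, ← hB j]
    exact LinearMap.congr_fun h3 (B j)

end Pool.Agent.K1H83.BL
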