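import Mathlib
import Pool.Agent.H159R3.Exp.Borel
import Pool.Agent.K1H83.BL.Lat

/-!
Units of the ring of entire functions, and Borel's theorem.
-/

set_option autoImplicit false

namespace Pool.Agent.K1H83.BL

open Module MvPolynomial Filter Topology Pool.Agent.H159R3.NV

/-- an entire function without zeros is an exponential -/
theorem exists_log {f : ℂ → ℂ} (hf : Differentiable ℂ f) (h0 : ∀ z, f z ≠ 0) :
    ∃ g : ℂ → ℂ, Differentiable ℂ g ∧ ∀ z, f z = Complex.exp (g z) := by
  have hd : Differentiable ℂ (deriv f) := (hf.contDiff (n := 2)).differentiable_deriv_two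
  have hq : Differentiable ℂ (fun z => deriv f z / f z) := hd.div hf h0
  obtain ⟨g, hg⟩ := hq.isExactOn_univ
  have hg' : ∀ z, HasDerivAt g (deriv f z / f z) z := fun z => hg z (Set.mem_univ z)
  have hgd : Differentiable ℂ g := fun z => (hg' z).differentiableAt
  have hc : ∀ z w, f z * Complex.exp (-(g z)) = f w * Complex.exp (-(g w)) := by
    apply is_const_of_deriv_eq_zero
    · exact hf.mul hgd.neg.cexp
    · intro z
      have h1 : HasDerivAt (fun z => f z * Complex.exp (-(g z)))
          (deriv f z * Complex.exp (-(g z)) +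
            f z * (Complex.exp (-(g z)) * (-(deriv f z / f z)))) z :=
        (hf z).hasDerivAt.mul (hg' z).neg.cexp
      rw [h1.deriv]
      have := h0 z
      field_simp
      ring
  refine ⟨fun z => g z + Complex.log (f 0 * Complex.exp (-(g 0))), hgd.add_const _, fun z => ?_⟩
  rw [Complex.exp_add, Complex.exp_log (mul_ne_zero (h0 0) (Complex.exp_ne_zero _)), hc 0 z,
    mul_comm (f z), ← mul_assoc, ← Complex.exp_add, add_neg_cancel, Complex.exp_zero, one_mul]

theorem Ent.unit_ne (u : Entˣ) (z : ℂ) : ((u : Ent) : ℂ → ℂ) z ≠ 0 := by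
  intro h
  have h1 : ((u : Ent) * ((u⁻¹ : Entˣ) : Ent) : Ent) = 1 := u.mul_inv
  have h2 := congrFun (congrArg Subtype.val h1) z
  have h3 : ((u : Ent) : ℂ → ℂ) z * (((u⁻¹ : Entˣ) : Ent) : ℂ → ℂ) z = 1 := h2
  rw [h, zero_mul] at h3
  exact zero_ne_one h3

/-- the unit defined by an entire function without zeros -/
noncomputable def Ent.mkUnit (f : ℂ → ℂ) (hf : Differentiable ℂ f) (h0 : ∀ z, f z ≠ 0) : Entˣ where
  val := ⟨f, hf⟩
  inv := ⟨fun z => (f z)⁻¹, hf.inv h0⟩
  val_inv := by
    apply Subtype.ext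
    funext z
    exact mul_inv_cancel₀ (h0 z)
  inv_val := by
    apply Subtype.ext
    funext z
    exact inv_mul_cancel₀ (h0 z)

/-- the constant units -/
def cst : Subgroup Entˣ where
  carrier := {u | ∃ c : ℂ, ∀ z, ((u : Ent) : ℂ → ℂ) z = c}
  mul_mem' := by
    rintro a b ⟨c, hc⟩ ⟨d, hd⟩
    refine ⟨c * d, fun z => ?_⟩
    change ((a : Ent) : ℂ → ℂ) z * ((b : Ent) : ℂ → ℂ) z = _
    rw [hc, hd]
  one_mem' := ⟨1, fun z => rfl⟩
  inv_mem' := by
    rintro a ⟨c, hc⟩
    refine ⟨c⁻¹, fun z => ?_⟩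
    have h1 : ((a : Ent) * ((a⁻¹ : Entˣ) : Ent) : Ent) = 1 := a.mul_inv
    have h3 : ((a : Ent) : ℂ → ℂ) z * (((a⁻¹ : Entˣ) : Ent) : ℂ → ℂ) z = 1 :=
      congrFun (congrArg Subtype.val h1) z
    rw [hc] at h3
    exact eq_inv_of_mul_eq_one_right h3

theorem Ent.zpow_apply (u : Entˣ) (n : ℤ) (z : ℂ) :
    (((u ^ n : Entˣ) : Ent) : ℂ → ℂ) z = ((u : Ent) : ℂ → ℂ) z ^ n := by
  let φ : Ent →* ℂ := ((Pi.evalRingHom (fun _ : ℂ => ℂ) z).comp Ent.val.toRingHom).toMonoidHom
  have h1 : ((Units.map φ (u ^ n) : ℂˣ) : ℂ) = ((Units.map φ u : ℂˣ) : ℂ) ^ n := by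
    rw [map_zpow]
    simp
  exact h1

theorem cst_sat (x : Entˣ) (n : ℤ) (hn : n ≠ 0) (h : x ^ n ∈ cst) : x ∈ cst := by
  obtain ⟨c, hc⟩ := h
  obtain ⟨g, hg, hx⟩ := exists_log (x : Ent).2 (Ent.unit_ne x)
  have h1 : ∀ z, Complex.exp (n * g z) = c := by
    intro z
    rw [← hc z, Ent.zpow_apply, hx z, Complex.exp_int_mul]
  have h2 := Pool.Agent.H159R3.Exp.const_of_exp (hg.const_mul (n : ℂ)) h1
  refine ⟨Complex.exp (g 0), fun z => ?_⟩
  rw [hx z]
  congr 1
  have hn' : (n : ℂ) ≠ 0 := by exact_mod_cast hn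
  exact mul_left_cancel₀ hn' (h2 z 0)

/-- **Borel's theorem**: units without multiplicative relations modulo constants are algebraically
independent. -/
theorem alg_ind {l : ℕ} (v : Fin l → Entˣ) (hv : ∀ α : Fin l → ℤ, chr v α ∈ cst → α = 0) :
    AlgebraicIndependent ℂ fun i => ((v i : Entˣ) : Ent) := by
  classical
  have hlog := fun i => exists_log (v i : Ent).2 (Ent.unit_ne (v i))
  choose G hG hvG using hlog
  rw [algebraicIndependent_iff]
  intro p hp
  let GG : (Fin l →₀ ℕ) → ℂ → ℂ := fun m z => ∑ i, (m i : ℂ) * G i z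
  have hGG : ∀ m, Differentiable ℂ (GG m) := fun m =>
    Differentiable.fun_sum fun i _ => (hG i).const_mul _
  have hmon : ∀ (m : Fin l →₀ ℕ) z, Complex.exp (GG m z) =
      ∏ i, ((v i : Ent) : ℂ → ℂ) z ^ m i := by
    intro m z
    simp only [GG]
    rw [Complex.exp_sum]
    refine Finset.prod_congr rfl fun i _ => ?_
    rw [Complex.exp_nat_mul, hvG i z]
  have key := Pool.Agent.H159R3.Exp.borel_spec (B := MvPolynomial (Fin l) ℂ) GG hGG
    (fun m => monomial m (1 : ℂ)) (by
      intro m m' c h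
      have h1 : m = m' := by
        have h2 : chr v (fun i => (m i : ℤ) - m' i) ∈ cst := by
          refine ⟨Complex.exp c, fun z => ?_⟩
          let φ : Ent →* ℂ :=
            ((Pi.evalRingHom (fun _ : ℂ => ℂ) z).comp Ent.val.toRingHom).toMonoidHom
          have h3 : (((chr v (fun i => (m i : ℤ) - m' i) : Entˣ) : Ent) : ℂ → ℂ) z =
              ∏ i, ((v i : Ent) : ℂ → ℂ) z ^ ((m i : ℤ) - m' i) := by
            have h4 : ((Units.map φ (chr v (fun i => (m i : ℤ) - m' i)) : ℂˣ) : ℂ) =
                ∏ i, ((Units.map φ (v i) : ℂˣ) : ℂ) ^ ((m i : ℤ) - m' i) := by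
              unfold chr
              rw [map_prod, Units.coe_prod]
              refine Finset.prod_congr rfl fun i _ => ?_
              rw [map_zpow]
              simp
            exact h4
          rw [h3]
          have h5 : Complex.exp (GG m z) = Complex.exp c * Complex.exp (GG m' z) := by
            rw [h z, Complex.exp_add]; ring
          rw [hmon, hmon] at h5
          have h6 : ∏ i, ((v i : Ent) : ℂ → ℂ) z ^ ((m i : ℤ) - m' i) =
              (∏ i, ((v i : Ent) : ℂ → ℂ) z ^ m i) / ∏ i, ((v i : Ent) : ℂ → ℂ) z ^ m' i := by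
            rw [← Finset.prod_div_distrib]
            refine Finset.prod_congr rfl fun i _ => ?_
            rw [zpow_sub₀ (Ent.unit_ne _ _), zpow_natCast, zpow_natCast]
          rw [h6, h5, mul_div_assoc, div_self, mul_one]
          exact Finset.prod_ne_zero_iff.mpr fun i _ => pow_ne_zero _ (Ent.unit_ne _ _)
        have h3 := hv _ h2
        ext i
        have h4 := congrFun h3 i
        simp only [Pi.zero_apply] at h4
        omega
      subst h1
      have h2 : c = 0 := by
        have := h 0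
        simpa using this
      rw [h2, Complex.exp_zero, one_smul]) p.support (fun m => coeff m p) (by
        intro z
        have h1 := congrFun (congrArg Subtype.val hp) z
        let ψ : Ent →ₐ[ℂ] ℂ := (Pi.evalAlgHom ℂ (fun _ : ℂ => ℂ) z).comp Ent.val
        have h2 : ψ (aeval (fun i => ((v i : Entˣ) : Ent)) p) = 0 := h1
        rw [comp_aeval_apply, aeval_def, eval₂_eq'] at h2
        rw [← h2]
        refine Finset.sum_congr rfl fun m _ => ?_
        rw [hmon]
        rfl)
  rw [← key]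
  conv_lhs => rw [p.as_sum]
  refine Finset.sum_congr rfl fun m _ => ?_
  rw [smul_monomial, smul_eq_mul, mul_one]

end Pool.Agent.K1H83.BL
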