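import Mathlib
import Pool.Agent.H159R3.NV.StepB
import Pool.Agent.K1H83.BL.An1
import Pool.Agent.W602.NC.Good

/-!
Proximity functions of entire functions, and good circles.
-/

set_option autoImplicit false

namespace Pool.Agent.K1H83.BL

open Filter Topology Metric Pool.Agent.H159R3.NV

/-- the proximity function -/
noncomputable def mp (x : ℂ → ℂ) (R : ℝ) : ℝ := Real.circleAverage (fun z => Real.posLog ‖x z‖) 0 R

theorem mp_nonneg (x : ℂ → ℂ) (R : ℝ) : 0 ≤ mp x R :=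
  Real.circleAverage_nonneg_of_nonneg fun _ _ => Real.posLog_nonneg

theorem T2_one (x : ℂ → ℂ) (R : ℝ) : T2 (fun _ => 1) x R = mp x R := by
  unfold T2 L mp
  simp only [norm_one, Real.log_one, div_one]
  rw [Real.circleAverage_const]
  simp

theorem mp_mono {x : ℂ → ℂ} (hx : Differentiable ℂ x) {r R : ℝ} (hr : 0 < r) (hrR : r ≤ R) :
    mp x r ≤ mp x R := by
  rw [← T2_one, ← T2_one]
  exact T2_mono (differentiable_const 1) (x := 0) one_ne_zero hx hr hrR

theorem mp_const (c : ℂ) (R : ℝ) : mp (fun _ => c) R = Real.posLog ‖c‖ := by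
  unfold mp
  rw [Real.circleAverage_const]

theorem mp_add {x y : ℂ → ℂ} (hx : Differentiable ℂ x) (hy : Differentiable ℂ y) (R : ℝ) :
    mp (fun z => x z + y z) R ≤ Real.log 2 + mp x R + mp y R := by
  have i1 := ci_posLog (mero_of_diff hx) R
  have i2 := ci_posLog (mero_of_diff hy) R
  have i3 := ci_posLog (mero_of_diff (hx.add hy)) R
  have i12 : CircleIntegrable (fun z => Real.posLog ‖x z‖ + Real.posLog ‖y z‖) 0 R := i1.add i2
  have i0 : CircleIntegrable (fun _ : ℂ => Real.log 2) 0 R := circleIntegrable_const _ _ _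
  have e : Real.log 2 + mp x R + mp y R = Real.circleAverage
      (fun z => Real.log 2 + (Real.posLog ‖x z‖ + Real.posLog ‖y z‖)) 0 R := by
    rw [Real.circleAverage_fun_add i0 i12, Real.circleAverage_fun_add i1 i2,
      Real.circleAverage_const]
    unfold mp
    ring
  rw [e]
  apply Real.circleAverage_mono i3 (i0.add i12)
  intro z _
  have := Real.posLog_norm_add_le (x z) (y z)
  simp only [Pi.add_apply] at this ⊢
  linarith

theorem mp_mul {x y : ℂ → ℂ} (hx : Differentiable ℂ x) (hy : Differentiable ℂ y) (R : ℝ) :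
    mp (fun z => x z * y z) R ≤ mp x R + mp y R := by
  have i1 := ci_posLog (mero_of_diff hx) R
  have i2 := ci_posLog (mero_of_diff hy) R
  have i3 := ci_posLog (mero_of_diff (hx.mul hy)) R
  unfold mp
  rw [← Real.circleAverage_fun_add i1 i2]
  apply Real.circleAverage_mono i3 (i1.add i2)
  intro z _
  simp only [Pi.mul_apply, norm_mul]
  exact Real.posLog_mul

theorem mp_inv {x y : ℂ → ℂ} (hx : Differentiable ℂ x) (hy : Differentiable ℂ y)
    (h : ∀ z, x z * y z = 1) (R : ℝ) :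
    mp x R + mp y R = Real.circleAverage (fun z => |Real.log ‖x z‖|) 0 R := by
  have i1 := ci_posLog (mero_of_diff hx) R
  have i2 := ci_posLog (mero_of_diff hy) R
  unfold mp
  rw [← Real.circleAverage_fun_add i1 i2]
  congr 1
  funext z
  have h1 : y z = (x z)⁻¹ := eq_inv_of_mul_eq_one_right (h z)
  rw [h1, norm_inv]
  have h2 := Real.posLog_sub_posLog_inv (x := ‖x z‖)
  have h3 := Real.half_mul_log_add_log_abs (x := ‖x z‖)
  linarith

/-- a zero-free function grows at least linearly -/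
theorem avg_ge {v : ℂ → ℂ} (hv : Differentiable ℂ v) (h0 : ∀ z, v z ≠ 0) {w z : ℂ}
    (hwz : ‖v w‖ ≠ ‖v z‖) :
    ∃ c : ℝ, 0 < c ∧ ∀ᶠ R in atTop, c * R ≤ Real.circleAverage (fun z => |Real.log ‖v z‖|) 0 R := by
  have hne : w ≠ z := fun h => hwz (by rw [h])
  have hd : 0 < ‖w - z‖ := norm_pos_iff.mpr (sub_ne_zero.mpr hne)
  have hD : 0 < |Real.log ‖v w‖ - Real.log ‖v z‖| := by
    rw [abs_pos, sub_ne_zero]
    intro h
    exact hwz (Real.log_injOn_pos (norm_pos_iff.mpr (h0 w)) (norm_pos_iff.mpr (h0 z)) h)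
  refine ⟨|Real.log ‖v w‖ - Real.log ‖v z‖| / (8 * ‖w - z‖), by positivity, ?_⟩
  filter_upwards [eventually_ge_atTop (2 * (‖w‖ + ‖z‖) + 1)] with R hR
  have hw0 := norm_nonneg w
  have hz0 := norm_nonneg z
  have hRpos : 0 < R := by linarith
  have h1 := poisson_diff hRpos (half_pos hRpos) (fun z _ => hv.analyticAt z) (fun z _ => h0 z)
    (w := w) (z := z) (by linarith) (by linarith)
  rw [div_mul_eq_mul_div, div_le_iff₀ (by positivity)]
  have e : 2 * R * ‖w - z‖ / (R / 2) ^ 2 = 8 * ‖w - z‖ / R := by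
    field_simp
    ring
  rw [e, div_mul_eq_mul_div, le_div_iff₀ hRpos] at h1
  linarith

/-- **Good circles.** -/
theorem circle_exists {p : ℕ} {v : Fin (p + 1) → ℂ → ℂ} {Λ : ℝ}
    (h : Pool.Agent.W602.NC.Base v Λ) (NN : ℝ → ℝ) (hmono : ∀ r R, 1 ≤ r → r ≤ R → NN r ≤ NN R)
    (hpos : ∀ r, 1 ≤ r → 1 ≤ NN r) {c0 : ℝ} (hc0 : 0 < c0)
    (hlow : ∀ᶠ r in atTop, c0 * r ≤ NN r) {C : ℝ} (hC : 1 ≤ C)
    (hS : ∀ r, 1 ≤ r → SS v Λ r ≤ C * NN r) {η : ℝ} (hη : 0 < η) (R₁ : ℝ) :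
    ∃ s ε : ℝ, R₁ ≤ s ∧ 1 ≤ s ∧ 0 < ε ∧ ε ≤ 1 ∧ Real.log (1 / ε) ≤ Real.log 2 + η * NN s ∧
      (∀ z, ‖z‖ = s → ∀ j, ∀ w ∈ closedBall z ε, v j w ≠ 0) ∧
      (∀ z, ‖z‖ = s → ∀ i j, ∀ w ∈ closedBall z ε,
        ‖v j w / v i w‖ ≤ Real.exp 1 * ‖v j z / v i z‖) := by
  set c : ℝ := C / η with hc
  have hcpos : 0 < c := by positivity
  -- a large radius
  obtain ⟨r0, hr0, hr1, hrbig⟩ : ∃ r0 : ℝ, R₁ ≤ r0 ∧ 1 ≤ r0 ∧
      1 + 2 * c * (7 + 3 * Real.log (r0 + 3)) + 576 * c ^ 2 < C * NN r0 := by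
    have h1 : ∀ᶠ r : ℝ in atTop, Real.log (r + 3) ≤ (c0 / (12 * c)) * (r + 3) := by
      have h2 := Real.isLittleO_log_id_atTop.bound (show 0 < c0 / (12 * c) by positivity)
      have h3 : Tendsto (fun r : ℝ => r + 3) atTop atTop := tendsto_atTop_add_const_right _ _ tendsto_id
      filter_upwards [h3.eventually h2, eventually_ge_atTop (0 : ℝ)] with r hr hr0
      simp only [id_eq] at hr
      rw [Real.norm_of_nonneg (by linarith : (0:ℝ) ≤ r + 3)] at hr
      exact (le_abs_self _).trans hr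
    have h4 : ∀ᶠ r : ℝ in atTop, 1 + 14 * c + 576 * c ^ 2 + 2 * c0 < c0 * r / 2 := by
      have : Tendsto (fun r : ℝ => c0 * r / 2) atTop atTop := by
        have := (tendsto_id (α := ℝ) (x := atTop)).const_mul_atTop (show 0 < c0 / 2 by positivity)
        refine this.congr fun r => ?_
        simp only [id_eq]; ring
      exact this.eventually_gt_atTop _
    obtain ⟨r, h5, h6, h7, h8, h9⟩ := (h1.and (h4.and (hlow.and
      ((eventually_ge_atTop R₁).and (eventually_ge_atTop 1))))).exists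
    refine ⟨r, h8, h9, ?_⟩
    have h10 : 2 * c * (3 * Real.log (r + 3)) ≤ c0 / 2 * (r + 3) := by
      have := mul_le_mul_of_nonneg_left h5 (show 0 ≤ 6 * c by positivity)
      have e : 6 * c * (c0 / (12 * c) * (r + 3)) = c0 / 2 * (r + 3) := by
        field_simp
        ring
      rw [e] at this
      linarith
    have h11 : NN r ≤ C * NN r := by
      have := hpos r h9
      nlinarith
    nlinarith
  -- growth lemma
  have hex : ∃ r δ : ℝ, r0 ≤ r ∧ 0 < δ ∧ δ ≤ 1 ∧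
      c * Real.log (1000 * (r + 4 * δ) ^ 3 * (C * NN (r + 4 * δ) + 1) ^ 2 / δ ^ 4) < C * NN r := by
    by_contra hcon
    push Not at hcon
    have h1 := growth (fun r => C * NN r) 0 c r0 (C * NN (r0 + 3)) le_rfl hcpos.le hr1
      (fun r h2 h3 => mul_le_mul_of_nonneg_left (hmono _ _ (by linarith) h3) (by linarith))
      (fun r δ h2 h3 h4 _ => by
        rw [zero_add]
        exact hcon r δ h2 h3 h4)
      (fun r h2 => by
        have := hpos r (by linarith)
        positivity)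
    linarith
  obtain ⟨r, δ, hr, hδ, hδ1, hlt⟩ := hex
  obtain ⟨s, ε, h1, h2, h3, h4, h5, h6, h7⟩ := h.good (by linarith : 1 ≤ r) hδ hδ1
  refine ⟨s, ε, by linarith, by linarith, h3, h4, ?_, h6, h7⟩
  have hrδ : 1 ≤ r + 4 * δ := by linarith
  have hSS0 : 0 ≤ SS v Λ (r + 4 * δ) := h.SS_nonneg (by linarith)
  have h8 : 1 / ε ≤ 2 * (1000 * (r + 4 * δ) ^ 3 * (C * NN (r + 4 * δ) + 1) ^ 2 / δ ^ 4) := by
    refine h5.trans ?_
    have h9 : (SS v Λ (r + 4 * δ) + 1) ^ 2 ≤ (C * NN (r + 4 * δ) + 1) ^ 2 :=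
      pow_le_pow_left₀ (by linarith) (by linarith [hS _ hrδ]) 2
    gcongr
  have h9 : 0 < 1000 * (r + 4 * δ) ^ 3 * (C * NN (r + 4 * δ) + 1) ^ 2 / δ ^ 4 := by
    have := hpos _ hrδ
    positivity
  have h10 : Real.log (1 / ε) ≤ Real.log 2 +
      Real.log (1000 * (r + 4 * δ) ^ 3 * (C * NN (r + 4 * δ) + 1) ^ 2 / δ ^ 4) := by
    rw [← Real.log_mul (by norm_num) h9.ne']
    exact Real.log_le_log (by positivity) h8
  refine h10.trans ?_
  have h11 : Real.log (1000 * (r + 4 * δ) ^ 3 * (C * NN (r + 4 * δ) + 1) ^ 2 / δ ^ 4) ≤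
      η * NN r := by
    have e : η * NN r = (C * NN r) / c := by
      rw [hc]; field_simp
    rw [e, le_div_iff₀ hcpos]
    linarith
  have h12 := mul_le_mul_of_nonneg_left (hmono r s (by linarith) h1) hη.le
  linarith

end Pool.Agent.K1H83.BL
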