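import Mathlib
import Pool.Agent.K1H83.BL.An2

/-!
A sequence of circles which are good for all functions of a countable set.
-/

set_option autoImplicit false

namespace Pool.Agent.K1H83.BL

open Filter Topology Metric Pool.Agent.H159R3.NV

theorem seq_exists (X : Set (ℂ → ℂ)) (hX : X.Countable) (hX1 : (fun _ => (1 : ℂ)) ∈ X)
    (hd : ∀ x ∈ X, Differentiable ℂ x) (h0 : ∀ x ∈ X, x 0 ≠ 0)
    (NN : ℝ → ℝ) (hmono : ∀ r R, 1 ≤ r → r ≤ R → NN r ≤ NN R)
    (hpos : ∀ r, 1 ≤ r → 1 ≤ NN r) {c0 : ℝ} (hc0 : 0 < c0)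
    (hlow : ∀ᶠ r in atTop, c0 * r ≤ NN r)
    (hsize : ∀ x ∈ X, ∃ C : ℝ, ∀ r, 1 ≤ r → mp x r ≤ C * NN r) :
    ∃ s ε : ℕ → ℝ, Tendsto s atTop atTop ∧ (∀ t, 1 ≤ s t) ∧ (∀ t, 0 < ε t) ∧ (∀ t, ε t ≤ 1) ∧
      (∀ η : ℝ, 0 < η → ∀ᶠ t in atTop, Real.log (1 / ε t) ≤ η * NN (s t)) ∧
      ∀ x ∈ X, ∀ᶠ t in atTop, ∀ z, ‖z‖ = s t → ∀ w ∈ closedBall z (ε t),
        x w ≠ 0 ∧ ‖x w‖ ≤ Real.exp 1 * ‖x z‖ := by
  classical
  obtain ⟨e, he⟩ := hX.exists_eq_range ⟨_, hX1⟩
  have heX : ∀ i, e i ∈ X := fun i => by rw [he]; exact Set.mem_range_self i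
  have step : ∀ t : ℕ, ∃ s ε : ℝ, (t : ℝ) ≤ s ∧ 1 ≤ s ∧ 0 < ε ∧ ε ≤ 1 ∧
      Real.log (1 / ε) ≤ Real.log 2 + 1 / (t + 1) * NN s ∧
      ∀ i ≤ t, ∀ z, ‖z‖ = s → ∀ w ∈ closedBall z ε,
        e i w ≠ 0 ∧ ‖e i w‖ ≤ Real.exp 1 * ‖e i z‖ := by
    intro t
    let v : Fin (t + 1 + 1) → ℂ → ℂ := Fin.cons (fun _ => 1) (fun j : Fin (t + 1) => e j)
    have hvX : ∀ j, v j ∈ X := by
      intro j
      refine Fin.cases ?_ (fun j => ?_) j
      · exact hX1
      · exact heX j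
    set Λ : ℝ := ∑ j, |Real.log ‖v j 0‖| with hΛ
    have hbase : Pool.Agent.W602.NC.Base v Λ :=
      { hv := fun j => hd _ (hvX j)
        hv0 := fun j => h0 _ (hvX j)
        hΛ0 := Finset.sum_nonneg fun _ _ => abs_nonneg _
        hΛ := fun j => Finset.single_le_sum (f := fun j => |Real.log ‖v j 0‖|)
          (fun _ _ => abs_nonneg _) (Finset.mem_univ j) }
    have hCC := fun j => hsize _ (hvX j)
    choose C hC using hCC
    have hΛ0 : 0 ≤ Λ := hbase.hΛ0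
    have hS : ∀ r, 1 ≤ r → SS v Λ r ≤
        (1 + ∑ j, |C j| + (t + 2) * Λ) * NN r := by
      intro r hr
      have hN := hpos r hr
      have h1 : SS v Λ r = ∑ j, (mp (v j) r + Λ) := by
        unfold SS
        refine Finset.sum_congr rfl fun j _ => ?_
        have : v 0 = fun _ => 1 := rfl
        rw [this, T2_one]
      rw [h1, Finset.sum_add_distrib, Finset.sum_const, Finset.card_univ, Fintype.card_fin,
        nsmul_eq_mul]
      have h2 : ∑ j, mp (v j) r ≤ (∑ j, |C j|) * NN r := by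
        rw [Finset.sum_mul]
        refine Finset.sum_le_sum fun j _ => (hC j r hr).trans ?_
        exact mul_le_mul_of_nonneg_right (le_abs_self _) (by linarith)
      have h3 : ((t + 1 + 1 : ℕ) : ℝ) * Λ ≤ (t + 2) * Λ * NN r := by
        have e : ((t + 1 + 1 : ℕ) : ℝ) * Λ = (t + 2) * Λ := by push_cast; ring
        rw [e]
        have : 0 ≤ ((t : ℝ) + 2) * Λ := by positivity
        nlinarith
      nlinarith
    have hC1 : 1 ≤ 1 + ∑ j, |C j| + ((t : ℝ) + 2) * Λ := by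
      have : 0 ≤ ∑ j, |C j| := Finset.sum_nonneg fun _ _ => abs_nonneg _
      have : 0 ≤ ((t : ℝ) + 2) * Λ := by positivity
      linarith
    obtain ⟨s, ε, h1, h2, h3, h4, h5, h6, h7⟩ := circle_exists hbase NN hmono hpos hc0 hlow hC1 hS
      (show 0 < 1 / ((t : ℝ) + 1) by positivity) t
    refine ⟨s, ε, h1, h2, h3, h4, h5, ?_⟩
    intro i hi z hz w hw
    have e1 : v (Fin.succ ⟨i, by omega⟩) = e i := rfl
    constructor
    · have := h6 z hz (Fin.succ ⟨i, by omega⟩) w hw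
      rwa [e1] at this
    · have := h7 z hz 0 (Fin.succ ⟨i, by omega⟩) w hw
      rw [e1] at this
      have e0 : ∀ z, v 0 z = 1 := fun z => rfl
      rwa [e0, e0, div_one, div_one] at this
  choose s ε h1 h2 h3 h4 h5 h6 using step
  have hslim : Tendsto s atTop atTop :=
    tendsto_atTop_mono h1 tendsto_natCast_atTop_atTop
  refine ⟨s, ε, hslim, h2, h3, h4, ?_, ?_⟩
  · intro η hη
    have hN : Tendsto NN atTop atTop :=
      tendsto_atTop_mono' _ hlow (tendsto_id.const_mul_atTop hc0)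
    have h7 : Tendsto (fun t => NN (s t)) atTop atTop := hN.comp hslim
    filter_upwards [h7.eventually_ge_atTop (2 * Real.log 2 / η),
      (tendsto_natCast_atTop_atTop (R := ℝ)).eventually_ge_atTop (2 / η)] with t h8 h9
    refine (h5 t).trans ?_
    have h10 : Real.log 2 ≤ η / 2 * NN (s t) := by
      rw [div_le_iff₀ hη] at h8
      linarith
    have h11 : 1 / ((t : ℝ) + 1) ≤ η / 2 := by
      rw [div_le_iff₀ hη] at h9
      rw [div_le_iff₀ (by positivity)]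
      nlinarith
    have h12 := mul_le_mul_of_nonneg_right h11 (show 0 ≤ NN (s t) by linarith [hpos _ (h2 t)])
    linarith
  · intro x hx
    rw [he] at hx
    obtain ⟨i, rfl⟩ := hx
    filter_upwards [eventually_ge_atTop i] with t ht
    exact h6 t i ht

end Pool.Agent.K1H83.BL
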