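import Mathlib
import Pool.Agent.K1H83.BL.An3

/-!
The Wronskian inequality at a point.
-/

set_option autoImplicit false

namespace Pool.Agent.K1H83.BL

open Filter Topology Metric Pool.Agent.H159R3.NV

theorem iteratedDeriv_lin {n : ℕ} (c : Fin n → ℂ) (y : Fin n → ℂ → ℂ)
    (hy : ∀ j, Differentiable ℂ (y j)) (l : ℕ) (z : ℂ) :
    iteratedDeriv l (fun z => ∑ j, c j * y j z) z = ∑ j, c j * iteratedDeriv l (y j) z := by
  let f : Fin n → Ent := fun j => ⟨y j, hy j⟩
  have h1 := Dv_iter (∑ j, c j • f j) l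
  have h2 : ∀ l : ℕ, ((Dv : Ent → Ent)^[l]) (∑ j, c j • f j) =
      ∑ j, c j • ((Dv : Ent → Ent)^[l]) (f j) := by
    intro l
    induction l with
    | zero => rfl
    | succ l ih =>
      rw [Function.iterate_succ_apply', ih, map_sum]
      refine Finset.sum_congr rfl fun j _ => ?_
      rw [Derivation.map_smul, Function.iterate_succ_apply']
  rw [h2] at h1
  have h3 : ((∑ j, c j • f j : Ent) : ℂ → ℂ) = fun z => ∑ j, c j * y j z := by
    funext z
    simp [f]
  rw [h3] at h1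
  rw [← h1]
  have h4 : ∀ j, (((Dv : Ent → Ent)^[l] (f j) : Ent) : ℂ → ℂ) z = iteratedDeriv l (y j) z :=
    fun j => congrFun (Dv_iter (f j) l) z
  simp only [AddSubmonoidClass.coe_finsetSum, Finset.sum_apply]
  refine Finset.sum_congr rfl fun j _ => ?_
  rw [← h4 j]
  rfl

theorem wr_diff' {n : ℕ} (y : Fin n → ℂ → ℂ) (hy : ∀ j, Differentiable ℂ (y j)) :
    Differentiable ℂ fun z => (Matrix.of fun b l : Fin n => iteratedDeriv l (y b) z).det := by
  simp only [Matrix.det_apply']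
  refine Differentiable.fun_sum fun σ _ => ?_
  refine (differentiable_const _).mul ?_
  refine Differentiable.fun_finsetProd fun i _ => ?_
  simp only [Matrix.of_apply]
  exact ((hy _).contDiff (n := ⊤)).differentiable_iteratedDeriv _ (by simp)

/-- **The Wronskian inequality.** -/
theorem wr_lower {n m : ℕ} (y : Fin n → ℂ → ℂ) (hy : ∀ j, Differentiable ℂ (y j))
    (Φ : Fin m → Matrix (Fin n) (Fin n) ℂ) (hΦ : ∀ J, (Φ J).det ≠ 0) :
    ∃ C : ℝ, ∀ J z ε, 0 < ε → ε ≤ 1 →
      (∀ a, (∑ j, Φ J a j * y j z) ≠ 0 ∧ ∀ w ∈ closedBall z ε,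
        ‖∑ j, Φ J a j * y j w‖ ≤ Real.exp 1 * ‖∑ j, Φ J a j * y j z‖) →
      (Matrix.of fun b l : Fin n => iteratedDeriv l (y b) z).det ≠ 0 →
      Real.log ‖(Matrix.of fun b l : Fin n => iteratedDeriv l (y b) z).det‖ ≤
        C + n ^ 2 * Real.log (1 / ε) + ∑ a, Real.log ‖∑ j, Φ J a j * y j z‖ := by
  classical
  refine ⟨∑ J, |Real.log ‖(Φ J).det‖| + (Real.log (Nat.factorial n) +
    n * (Real.log (Nat.factorial n) + 1)), ?_⟩
  intro J z ε hε hε1 hb hW
  have hf : (0 : ℝ) < Nat.factorial n := by exact_mod_cast Nat.factorial_pos n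
  set W := (Matrix.of fun b l : Fin n => iteratedDeriv l (y b) z) with hWdef
  have hmat : (Matrix.of fun a l : Fin n => iteratedDeriv l (fun z => ∑ j, Φ J a j * y j z) z) =
      Φ J * W := by
    ext a l
    rw [Matrix.mul_apply]
    simp only [Matrix.of_apply, hWdef]
    exact iteratedDeriv_lin _ y hy _ _
  have hYd : ∀ a, Differentiable ℂ (fun z => ∑ j, Φ J a j * y j z) := fun a =>
    Differentiable.fun_sum fun j _ => (hy j).const_mul _
  have hε1' : (1 : ℝ) ≤ 1 / ε := by rw [le_div_iff₀ hε]; linarith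
  have hent : ∀ a l : Fin n, ‖(Matrix.of fun a l : Fin n =>
      iteratedDeriv l (fun z => ∑ j, Φ J a j * y j z) z) a l‖ ≤
      Nat.factorial n * Real.exp 1 * (1 / ε) ^ n * ‖∑ j, Φ J a j * y j z‖ := by
    intro a l
    have h1 := Complex.norm_iteratedDeriv_le_of_forall_mem_sphere_norm_le (l : ℕ) hε
      ((hYd a).diffContOnCl (s := ball z ε)) (C := Real.exp 1 * ‖∑ j, Φ J a j * y j z‖)
      (fun w hw => (hb a).2 w (sphere_subset_closedBall hw))
    refine h1.trans ?_
    have h2 : ((l : ℕ).factorial : ℝ) ≤ Nat.factorial n := by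
      exact_mod_cast Nat.factorial_le l.2.le
    have h3 : (1 / ε) ^ (l : ℕ) ≤ (1 / ε) ^ n := pow_le_pow_right₀ hε1' l.2.le
    calc ((l : ℕ).factorial : ℝ) * (Real.exp 1 * ‖∑ j, Φ J a j * y j z‖) / ε ^ (l : ℕ)
        = ((l : ℕ).factorial : ℝ) * Real.exp 1 * (1 / ε) ^ (l : ℕ) * ‖∑ j, Φ J a j * y j z‖ := by
          rw [one_div, inv_pow]; field_simp
      _ ≤ _ := by gcongr
  have hdet := det_bound _ _ hent
  rw [hmat, Matrix.det_mul, norm_mul, Finset.prod_mul_distrib, Finset.prod_const,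
    Finset.card_univ, Fintype.card_fin] at hdet
  have hn1 : 0 < ‖(Φ J).det‖ := norm_pos_iff.mpr (hΦ J)
  have hn2 : 0 < ‖W.det‖ := norm_pos_iff.mpr hW
  have hn3 : ∀ a, 0 < ‖∑ j, Φ J a j * y j z‖ := fun a => norm_pos_iff.mpr (hb a).1
  have hlog := Real.log_le_log (mul_pos hn1 hn2) hdet
  have hp : (0 : ℝ) < (1 / ε) ^ n := by positivity
  have he : (0 : ℝ) < Real.exp 1 := Real.exp_pos 1
  rw [Real.log_mul hn1.ne' hn2.ne', Real.log_mul hf.ne' (by
      have := Finset.prod_pos fun a (_ : a ∈ Finset.univ) => hn3 a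
      positivity), Real.log_mul (by positivity) (Finset.prod_pos fun a _ => hn3 a).ne',
    Real.log_pow, Real.log_mul (by positivity) hp.ne', Real.log_mul hf.ne' he.ne', Real.log_exp,
    Real.log_pow, Real.log_prod (fun a _ => (hn3 a).ne')] at hlog
  have h1 : |Real.log ‖(Φ J).det‖| ≤ ∑ J, |Real.log ‖(Φ J).det‖| :=
    Finset.single_le_sum (f := fun J => |Real.log ‖(Φ J).det‖|)
      (fun _ _ => abs_nonneg _) (Finset.mem_univ J)
  have h2 := neg_abs_le (Real.log ‖(Φ J).det‖)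
  linarith

end Pool.Agent.K1H83.BL
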