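import Mathlib
import Pool.Agent.K1H83.BL.An4
import Pool.Agent.K1H83.BL.Dio

/-!
Entire functions on a sequence of good circles satisfy the abstract subspace theorem.
-/

set_option autoImplicit false

namespace Pool.Agent.K1H83.BL

open Filter Topology Metric MeasureTheory MvPolynomial Pool.Agent.H159R3.NV

/-- a sequence of circles which are good for all elements of `E` -/
structure Circ {k : Subfield ℂ} (E : Subalgebra k Ent) where
  s : ℕ → ℝ
  ε : ℕ → ℝ
  N : ℕ → ℝ
  s_lim : Tendsto s atTop atTop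
  s_one : ∀ t, 1 ≤ s t
  eps_pos : ∀ t, 0 < ε t
  eps_le : ∀ t, ε t ≤ 1
  eps : ∀ η : ℝ, 0 < η → ∀ᶠ t in atTop, Real.log (1 / ε t) ≤ η * N t
  N_lim : Tendsto N atTop atTop
  good : ∀ x : E, x ≠ 0 → ∀ᶠ t in atTop, ∀ z, ‖z‖ = s t → ∀ w ∈ closedBall z (ε t),
    ((x : Ent) : ℂ → ℂ) w ≠ 0 ∧ ‖((x : Ent) : ℂ → ℂ) w‖ ≤ Real.exp 1 * ‖((x : Ent) : ℂ → ℂ) z‖
  size : ∀ x : E, ∃ C : ℝ, ∀ t, mp ((x : Ent) : ℂ → ℂ) (s t) ≤ C * N t

theorem integral_circle (h : ℂ → ℝ) (R : ℝ) :
    ∫ p in Set.Ioc 0 (2 * Real.pi), h (circleMap 0 R p) = 2 * Real.pi *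
      Real.circleAverage h 0 R := by
  rw [Real.circleAverage_def, intervalIntegral.integral_of_le (by positivity), smul_eq_mul,
    ← mul_assoc, mul_inv_cancel₀ (by positivity), one_mul]

theorem integrable_circle {h : ℂ → ℝ} {R : ℝ} (hi : CircleIntegrable h 0 R) :
    Integrable (fun p => h (circleMap 0 R p)) (volume.restrict (Set.Ioc 0 (2 * Real.pi))) := by
  have := (intervalIntegrable_iff_integrableOn_Ioc_of_le (by positivity)).mp hi
  exact this

/-- linear independence over `ℂ` -/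
theorem lin_ind {k : Subfield ℂ} {E : Subalgebra k Ent} {l : ℕ} (v : Fin l → Eˣ)
    (hv : AlgebraicIndependent ℂ fun i => (((v i : Eˣ) : E) : Ent)) {n : ℕ}
    (φ : Fin n → MvPolynomial (Fin l) k) (q : MvPolynomial (Fin l) k) (y : Fin n → E)
    (hφ : LinearIndependent k φ)
    (hy : ∀ i, y i * aeval (fun i => ((v i : Eˣ) : E)) q = aeval (fun i => ((v i : Eˣ) : E)) (φ i))
    (c : Fin n → ℂ) (hc : ∀ z, ∑ i, c i * ((y i : Ent) : ℂ → ℂ) z = 0) : c = 0 := by
  have hmap : ∀ p : MvPolynomial (Fin l) k,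
      ((aeval (fun i => ((v i : Eˣ) : E)) p : E) : Ent) =
        aeval (fun i => (((v i : Eˣ) : E) : Ent)) (map (algebraMap k ℂ) p) := by
    intro p
    rw [aeval_map_algebraMap]
    have := comp_aeval_apply (f := fun i => ((v i : Eˣ) : E)) E.val p
    exact this
  have h1 : ∑ i, c i • (y i : Ent) = 0 := by
    apply Subtype.ext
    funext z
    have h0 : ((0 : Ent) : ℂ → ℂ) z = 0 := rfl
    rw [h0, ← hc z]
    simp
  have h2 : aeval (fun i => (((v i : Eˣ) : E) : Ent))
      (∑ i, c i • map (algebraMap k ℂ) (φ i)) = 0 := by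
    rw [map_sum]
    have h3 : ∀ i, aeval (fun i => (((v i : Eˣ) : E) : Ent)) (c i • map (algebraMap k ℂ) (φ i)) =
        (c i • (y i : Ent)) * ((aeval (fun i => ((v i : Eˣ) : E)) q : E) : Ent) := by
      intro i
      rw [map_smul, ← hmap, ← hy i]
      change c i • ((y i : Ent) * ((aeval (fun i => ((v i : Eˣ) : E)) q : E) : Ent)) = _
      rw [smul_mul_assoc]
    rw [Finset.sum_congr rfl fun i _ => h3 i, ← Finset.sum_mul, h1, zero_mul]
  have h3 : ∑ i, c i • map (algebraMap k ℂ) (φ i) = 0 := hv.eq_zero_of_aeval_eq_zero _ h2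
  have h4 : ∀ mo, ∑ i, (coeff mo (φ i) : k) • c i = 0 := by
    intro mo
    have := congrArg (coeff mo) h3
    rw [coeff_sum, coeff_zero] at this
    rw [← this]
    refine Finset.sum_congr rfl fun i _ => ?_
    rw [coeff_smul, coeff_map, Algebra.smul_def, smul_eq_mul, mul_comm]
  funext i
  rw [Pi.zero_apply, ← Module.forall_dual_apply_eq_zero_iff k]
  intro ξ
  have h5 : ∑ i, ξ (c i) • φ i = 0 := by
    apply MvPolynomial.ext
    intro mo
    rw [coeff_sum, coeff_zero]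
    have h6 := congrArg ξ (h4 mo)
    rw [map_sum, map_zero] at h6
    rw [← h6]
    refine Finset.sum_congr rfl fun i _ => ?_
    rw [coeff_smul, map_smul, smul_eq_mul, smul_eq_mul, mul_comm]
  exact Fintype.linearIndependent_iff.mp hφ (fun i => ξ (c i)) h5 i

end Pool.Agent.K1H83.BL
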