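import Mathlib

/-!
Ultrapowers of algebraically closed fields are algebraically closed.
-/

set_option autoImplicit false

namespace Pool.Agent.K1H83.BL

open Filter

variable {K : Type} [Field K] (𝒰 : Ultrafilter ℕ)

/-- the germ of a sequence -/
noncomputable def gmU : (ℕ → K) →+* Germ (𝒰 : Filter ℕ) K := Germ.coeRingHom (𝒰 : Filter ℕ)

theorem gmU_eq (f g : ℕ → K) : gmU 𝒰 f = gmU 𝒰 g ↔ ∀ᶠ t in (𝒰 : Filter ℕ), f t = g t :=
  Germ.coe_eq

theorem gmU_surj (x : Germ (𝒰 : Filter ℕ) K) : ∃ f : ℕ → K, gmU 𝒰 f = x := by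
  induction x using Germ.inductionOn with
  | _ f => exact ⟨f, rfl⟩

/-- the germ of a constant -/
noncomputable def cgU : K →+* Germ (𝒰 : Filter ℕ) K := (gmU 𝒰).comp (Pi.constRingHom ℕ K)

instance [CharZero K] : CharZero (Germ (𝒰 : Filter ℕ) K) :=
  charZero_of_injective_ringHom (cgU 𝒰).injective

instance [IsAlgClosed K] : IsAlgClosed (Germ (𝒰 : Filter ℕ) K) := by
  apply IsAlgClosed.of_exists_root
  intro p hp hirr
  have hd : 0 < p.natDegree := Polynomial.natDegree_pos_iff_degree_pos.2
    (Polynomial.degree_pos_of_irreducible hirr)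
  choose f hf using fun i => gmU_surj 𝒰 (p.coeff i)
  have hroot : ∀ t : ℕ, ∃ r : K, r ^ p.natDegree +
      ∑ i ∈ Finset.range p.natDegree, f i t * r ^ i = 0 := by
    intro t
    set q : Polynomial K := Polynomial.X ^ p.natDegree +
      ∑ i ∈ Finset.range p.natDegree, Polynomial.C (f i t) * Polynomial.X ^ i with hq
    have hdeg : (∑ i ∈ Finset.range p.natDegree, Polynomial.C (f i t) *
        Polynomial.X ^ i).degree < (p.natDegree : WithBot ℕ) := by
      refine (Polynomial.degree_sum_le _ _).trans_lt ?_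
      rw [Finset.sup_lt_iff (WithBot.bot_lt_coe _)]
      intro i hi
      refine (Polynomial.degree_C_mul_X_pow_le _ _).trans_lt ?_
      exact_mod_cast Finset.mem_range.1 hi
    have hqd : q.degree ≠ 0 := by
      rw [hq, Polynomial.degree_add_eq_left_of_degree_lt, Polynomial.degree_X_pow]
      · exact_mod_cast hd.ne'
      · rw [Polynomial.degree_X_pow]
        exact hdeg
    obtain ⟨r, hr⟩ := IsAlgClosed.exists_root q hqd
    refine ⟨r, ?_⟩
    have h1 : q.eval r = 0 := hr
    rw [hq] at h1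
    simpa [Polynomial.eval_finsetSum] using h1
  choose r hr using hroot
  refine ⟨gmU 𝒰 r, ?_⟩
  rw [hp.as_sum]
  simp only [Polynomial.eval_add, Polynomial.eval_pow, Polynomial.eval_X,
    Polynomial.eval_finsetSum, Polynomial.eval_mul, Polynomial.eval_C]
  have h2 : ∀ i, p.coeff i = gmU 𝒰 (f i) := fun i => (hf i).symm
  simp only [h2, ← map_pow, ← map_mul, ← map_sum, ← map_add]
  have h3 : r ^ p.natDegree + ∑ i ∈ Finset.range p.natDegree, f i * r ^ i = 0 := by
    funext t
    have := hr t
    simpa using this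
  rw [h3, map_zero]

end Pool.Agent.K1H83.BL
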