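import Mathlib
import Pool.Agent.K1H83.BL.Slow
import Pool.Agent.H159R3.Exp.Laur

/-!
Transfer of relations and the construction of the curves.
-/

set_option autoImplicit false
set_option linter.unusedSectionVars false

namespace Pool.Agent.K1H83.BL

open MvPolynomial Pool.Agent.H159R3.Exp

/-- clearing denominators -/
theorem clear_den {k : Type} [Field k] {l : ℕ} {ι : Type} [Fintype ι]
    (P Q : ι → MvPolynomial (Fin l) k) (F : MvPolynomial ι k) :
    ∃ (d : ℕ) (H : MvPolynomial (Fin l) k), ∀ (R : Type) [CommRing R] (φ : k →+* R)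
      (y : Fin l → R) (x : ι → R), (∀ j, x j * eval₂ φ y (Q j) = eval₂ φ y (P j)) →
      (∏ j, eval₂ φ y (Q j)) ^ d * eval₂ φ x F = eval₂ φ y H := by
  classical
  induction F using MvPolynomial.induction_on with
  | C a =>
    refine ⟨0, C a, fun R _ φ y x _ => ?_⟩
    rw [pow_zero, one_mul, eval₂_C, eval₂_C]
  | add F G hF hG =>
    obtain ⟨d, H, h⟩ := hF
    obtain ⟨d', H', h'⟩ := hG
    refine ⟨d + d', (∏ j, Q j) ^ d' * H + (∏ j, Q j) ^ d * H', fun R _ φ y x hx => ?_⟩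
    rw [eval₂_add, eval₂_add, eval₂_mul, eval₂_mul, eval₂_pow, eval₂_pow, eval₂_prod,
      ← h R φ y x hx, ← h' R φ y x hx, pow_add]
    ring
  | mul_X F j hF =>
    obtain ⟨d, H, h⟩ := hF
    refine ⟨d + 1, H * ((∏ i ∈ Finset.univ.erase j, Q i) * P j), fun R _ φ y x hx => ?_⟩
    rw [eval₂_mul, eval₂_mul, eval₂_mul, eval₂_X, eval₂_prod, ← h R φ y x hx, ← hx j, pow_succ]
    have h1 : ∏ i, eval₂ φ y (Q i) = eval₂ φ y (Q j) *
        ∏ i ∈ Finset.univ.erase j, eval₂ φ y (Q i) :=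
      (Finset.mul_prod_erase _ _ (Finset.mem_univ j)).symm
    rw [h1]
    ring

/-- **Transfer** of relations from a generic point. -/
theorem transfer {k E : Type} [Field k] [CommRing E] [IsDomain E] [Algebra k E] {l n : ℕ}
    {v : Fin l → E} (hv : AlgebraicIndependent k v) {z : Fin n → E}
    {P Q : Fin n → MvPolynomial (Fin l) k}
    (hz : ∀ j, z j * aeval v (Q j) = aeval v (P j)) (F : MvPolynomial (Fin l ⊕ Fin n) k)
    (hF : aeval (Sum.elim v z) F = 0) (R : Type) [Field R] (σ : k →+* R) (y : Fin l → R)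
    (x : Fin n → R) (hy : ∀ j, eval₂ σ y (Q j) ≠ 0)
    (hx : ∀ j, x j * eval₂ σ y (Q j) = eval₂ σ y (P j)) : eval₂ σ (Sum.elim y x) F = 0 := by
  obtain ⟨d, H, h⟩ := clear_den (Sum.elim X P) (Sum.elim (fun _ => 1) Q) F
  have h1 := h E (algebraMap k E) v (Sum.elim v z) (by
    rintro (i | j)
    · simp
    · exact hz j)
  have h2 : H = 0 := by
    have hinj : Function.Injective (aeval (R := k) v) := hv
    apply hinj
    rw [map_zero, aeval_def, ← h1]
    rw [aeval_def] at hF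
    rw [hF, mul_zero]
  have h3 := h R σ y (Sum.elim y x) (by
    rintro (i | j)
    · simp
    · exact hx j)
  rw [h2, eval₂_zero] at h3
  refine (mul_eq_zero.1 h3).resolve_left (pow_ne_zero _ (Finset.prod_ne_zero_iff.2 ?_))
  rintro (i | j) _
  · simp
  · exact hy j

/-- evaluation at a scaled point of a polynomial with monomials of the same weight -/
theorem eval_scale {k : Type} [Field k] (σ : k →+* ℂ) {l : ℕ} (w : Fin l → ℤ)
    (q : MvPolynomial (Fin l) k) (m : ℤ)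
    (hm : ∀ β ∈ q.support, ∑ i, (β i : ℤ) * w i = m) (y : Fin l → ℂ) (τ : ℂ) (hτ : τ ≠ 0) :
    eval₂ σ (fun i => y i * τ ^ w i) q = τ ^ m * eval₂ σ y q := by
  rw [eval₂_eq', eval₂_eq', Finset.mul_sum]
  refine Finset.sum_congr rfl fun β hβ => ?_
  have h1 : ∏ i, (y i * τ ^ w i) ^ β i = (∏ i, y i ^ β i) * τ ^ m := by
    simp only [mul_pow]
    rw [Finset.prod_mul_distrib]
    congr 1
    rw [← hm β hβ]
    have h2 : ∀ s : Finset (Fin l), ∏ i ∈ s, (τ ^ w i) ^ β i = τ ^ ∑ i ∈ s, (β i : ℤ) * w i := by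
      classical
      intro s
      induction s using Finset.induction_on with
      | empty => simp
      | insert a s ha ih =>
        rw [Finset.prod_insert ha, Finset.sum_insert ha, zpow_add₀ hτ, ih]
        congr 1
        rw [mul_comm (β a : ℤ), zpow_mul, zpow_natCast]
    exact h2 _
  rw [h1]
  ring

/-- **The curve.** -/
theorem exists_curve {k : Type} [Field k] (σ : k →+* ℂ) {l n : ℕ}
    (P Q : Fin n → MvPolynomial (Fin l) k) (w : Fin l → ℤ)
    (hw : ∀ j, ∀ β ∈ (Q j).support, ∀ β' ∈ (Q j).support,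
      ∑ i, (β i : ℤ) * w i = ∑ i, (β' i : ℤ) * w i)
    (y : Fin l → ℂ) (hQ : ∀ j, eval₂ σ y (Q j) ≠ 0) (x : Fin n → ℂ)
    (hx : ∀ j, x j * eval₂ σ y (Q j) = eval₂ σ y (P j)) :
    ∃ X : ℂ → Fin n → ℂ, (∀ j, Laur fun τ => X τ j) ∧ X 1 = x ∧
      ∀ τ, τ ≠ 0 → ∀ j, eval₂ σ (fun i => y i * τ ^ w i) (Q j) ≠ 0 ∧
        X τ j * eval₂ σ (fun i => y i * τ ^ w i) (Q j) =
          eval₂ σ (fun i => y i * τ ^ w i) (P j) := by
  have hm : ∀ j, ∃ m : ℤ, ∀ β ∈ (Q j).support, ∑ i, (β i : ℤ) * w i = m := by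
    intro j
    rcases (Q j).support.eq_empty_or_nonempty with h | ⟨β, hβ⟩
    · exact ⟨0, fun β hβ => by rw [h] at hβ; exact absurd hβ (Finset.notMem_empty _)⟩
    · exact ⟨_, fun β' hβ' => hw j β' hβ' β hβ⟩
  choose m hm using hm
  refine ⟨fun τ j => eval₂ σ (fun i => y i * τ ^ w i) (P j) * τ ^ (-(m j)) *
    (eval₂ σ y (Q j))⁻¹, ?_, ?_, ?_⟩
  · intro j
    refine ((Laur.eval₂ σ (fun τ i => y i * τ ^ w i) (fun i => ?_) (P j)).mul
      (Laur.zpow _)).mul (Laur.const _)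
    exact (Laur.const _).mul (Laur.zpow _)
  · funext j
    simp only [one_zpow, mul_one]
    rw [← hx j, mul_inv_cancel_right₀ (hQ j)]
  · intro τ hτ j
    have h1 := eval_scale σ w (Q j) (m j) (hm j) y τ hτ
    rw [h1]
    refine ⟨mul_ne_zero (zpow_ne_zero _ hτ) (hQ j), ?_⟩
    have h2 : τ ^ (-(m j)) * τ ^ (m j) = 1 := by
      rw [← zpow_add₀ hτ, neg_add_cancel, zpow_zero]
    have h3 : (eval₂ σ y (Q j))⁻¹ * eval₂ σ y (Q j) = 1 := inv_mul_cancel₀ (hQ j)
    calc _ = eval₂ σ (fun i => y i * τ ^ w i) (P j) * (τ ^ (-(m j)) * τ ^ (m j)) *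
        ((eval₂ σ y (Q j))⁻¹ * eval₂ σ y (Q j)) := by ring
      _ = _ := by rw [h2, h3, mul_one, mul_one]

end Pool.Agent.K1H83.BL
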