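import Mathlib
import Pool.Agent.K1H83.BL.AL
import Pool.Agent.K1H83.BL.Closed
import Pool.Agent.K1H83.BL.Curve

/-!
The main theorem in abstract form: points which are determined by the values of the units lie on
curves given by Laurent polynomials.
-/

set_option autoImplicit false
set_option linter.unusedSectionVars false

namespace Pool.Agent.K1H83.BL

open MvPolynomial Filter Topology MeasureTheory Pool.Agent.H159R3.Exp

/-- evaluation of the elements of `E` at a sequence of complex points -/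
structure Evl {k E : Type} [Field k] [CommRing E] [Algebra k E] (𝒰 : Ultrafilter ℕ)
    (σ : k →+* ℂ) where
  ev : ℕ → E → ℂ
  add : ∀ x y, ∀ᶠ t in (𝒰 : Filter ℕ), ev t (x + y) = ev t x + ev t y
  mul : ∀ x y, ∀ᶠ t in (𝒰 : Filter ℕ), ev t (x * y) = ev t x * ev t y
  alg : ∀ c, ∀ᶠ t in (𝒰 : Filter ℕ), ev t (algebraMap k E c) = σ c
  ne : ∀ x, x ≠ 0 → ∀ᶠ t in (𝒰 : Filter ℕ), ev t x ≠ 0

namespace Evl

variable {k E : Type} [Field k] [CommRing E] [Algebra k E] {𝒰 : Ultrafilter ℕ} {σ : k →+* ℂ}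
  (V : Evl (E := E) 𝒰 σ)

theorem one : ∀ᶠ t in (𝒰 : Filter ℕ), V.ev t (1 : E) = 1 := by
  filter_upwards [V.alg 1] with t ht
  rw [map_one, map_one] at ht
  exact ht

theorem zero : ∀ᶠ t in (𝒰 : Filter ℕ), V.ev t (0 : E) = 0 := by
  filter_upwards [V.alg 0] with t ht
  rw [map_zero, map_zero] at ht
  exact ht

theorem eval {ι : Type} (z : ι → E) (F : MvPolynomial ι k) :
    ∀ᶠ t in (𝒰 : Filter ℕ), V.ev t (aeval z F) = eval₂ σ (fun j => V.ev t (z j)) F := by
  induction F using MvPolynomial.induction_on with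
  | C a =>
    filter_upwards [V.alg a] with t ht
    rw [aeval_C, eval₂_C, ht]
  | add F G hF hG =>
    filter_upwards [hF, hG, V.add (aeval z F) (aeval z G)] with t h1 h2 h3
    rw [map_add, eval₂_add, h3, h1, h2]
  | mul_X F j hF =>
    filter_upwards [hF, V.mul (aeval z F) (z j)] with t h1 h2
    rw [map_mul, aeval_X, eval₂_mul, eval₂_X, h2, h1]

/-- the homomorphism to the ultrapower -/
noncomputable def hom : E →+* Germ (𝒰 : Filter ℕ) ℂ where
  toFun x := gmU 𝒰 fun t => V.ev t x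
  map_one' := by
    rw [← map_one (gmU 𝒰), gmU_eq]
    exact V.one
  map_mul' x y := by
    rw [← map_mul, gmU_eq]
    exact V.mul x y
  map_zero' := by
    rw [← map_zero (gmU 𝒰), gmU_eq]
    exact V.zero
  map_add' x y := by
    rw [← map_add, gmU_eq]
    exact V.add x y

theorem hom_inj : Function.Injective V.hom := by
  rw [injective_iff_map_eq_zero]
  intro x hx
  by_contra h0
  have h1 : gmU 𝒰 (fun t => V.ev t x) = gmU 𝒰 (fun _ => (0 : ℂ)) := by
    have h2 : gmU 𝒰 (fun _ => (0 : ℂ)) = 0 := map_zero (gmU 𝒰)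
    rw [h2]
    exact hx
  rw [gmU_eq] at h1
  obtain ⟨t, h2, h3⟩ := (h1.and (V.ne x h0)).exists
  exact h3 h2

theorem hom_alg (c : k) : V.hom (algebraMap k E c) = cgU 𝒰 (σ c) := by
  change gmU 𝒰 (fun t => V.ev t (algebraMap k E c)) = gmU 𝒰 (fun _ => σ c)
  rw [gmU_eq]
  exact V.alg c

end Evl

/-- **Rationality.** If the points `z` are determined by the polynomials `U`, whose values are in
the field generated by `v`, then the coordinates of `z` are in this field. -/
theorem rational {k E : Type} [Field k] [CommRing E] [IsDomain E] [Algebra k E]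
    {𝒰 : Ultrafilter ℕ} {σ : k →+* ℂ} (V : Evl (E := E) 𝒰 σ) {n l r : ℕ} {κ : Type} [Finite κ]
    (z : Fin n → E) (F : κ → MvPolynomial (Fin n) k) (hF : ∀ i, aeval z (F i) = 0)
    (U : Fin r → MvPolynomial (Fin n) k) (v : Fin l → Eˣ) (c : Fin r → k)
    (a b : Fin r → Fin l → ℕ)
    (hU : ∀ i, aeval z (U i) * ∏ j, (v j : E) ^ a i j =
      algebraMap k E (c i) * ∏ j, (v j : E) ^ b i j)
    (halone : ∀ᶠ t in (𝒰 : Filter ℕ), ∀ z' : Fin n → ℂ, (∀ i, eval₂ σ z' (F i) = 0) →
      (∀ i, eval₂ σ z' (U i) = eval₂ σ (fun j => V.ev t (z j)) (U i)) →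
        z' = fun j => V.ev t (z j)) (j : Fin n) :
    ∃ P Q : MvPolynomial (Fin l) k, aeval (fun i => (v i : E)) Q ≠ 0 ∧
      z j * aeval (fun i => (v i : E)) Q = aeval (fun i => (v i : E)) P := by
  classical
  let ιk : k →+* Germ (𝒰 : Filter ℕ) ℂ := (cgU 𝒰).comp σ
  let _ : Algebra k (Germ (𝒰 : Filter ℕ) ℂ) := ιk.toAlgebra
  have hal : ∀ c : k, algebraMap k (Germ (𝒰 : Filter ℕ) ℂ) c = V.hom (algebraMap k E c) :=
    fun c => (V.hom_alg c).symm
  let h : E →ₐ[k] Germ (𝒰 : Filter ℕ) ℂ := { V.hom with commutes' := fun c => (hal c).symm }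
  have hh : ∀ x, h x = V.hom x := fun _ => rfl
  have hinj : Function.Injective h := V.hom_inj
  let F0 : IntermediateField k (Germ (𝒰 : Filter ℕ) ℂ) :=
    IntermediateField.adjoin k (Set.range fun i => h (v i : E))
  have hmem : h (z j) ∈ F0 := by
    by_contra hj
    obtain ⟨z', hz', hrel⟩ := exists_other F0 (fun j => h (z j)) j hj
    -- relations over `k`
    have hrelk : ∀ f : MvPolynomial (Fin n) k, aeval (fun j => h (z j)) f = 0 →
        aeval z' f = 0 := by
      intro f hf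
      have h1 := hrel (map (algebraMap k F0) f) (by
        rw [aeval_map_algebraMap]
        exact hf)
      rwa [aeval_map_algebraMap] at h1
    have hF' : ∀ i, aeval z' (F i) = 0 := by
      intro i
      apply hrelk
      have h1 : aeval (fun j => h (z j)) (F i) = h (aeval z (F i)) := by
        rw [← comp_aeval_apply]
      rw [h1, hF, map_zero]
    have hU' : ∀ i, aeval z' (U i) = h (aeval z (U i)) := by
      intro i
      -- the value is in `F0`
      have hval : h (aeval z (U i)) ∈ F0 := by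
        have hv : ∀ j, h (v j : E) ∈ F0 := fun j =>
          IntermediateField.subset_adjoin k _ ⟨j, rfl⟩
        have h1 := congrArg h (hU i)
        rw [map_mul, map_mul, map_prod, map_prod] at h1
        have h2 : ∏ j, h ((v j : E) ^ a i j) ≠ 0 := by
          rw [Finset.prod_ne_zero_iff]
          intro j _
          rw [map_pow]
          exact pow_ne_zero _ ((map_ne_zero_iff _ hinj).2 (v j).ne_zero)
        have h3 : h (aeval z (U i)) = (h (algebraMap k E (c i)) * ∏ j, h ((v j : E) ^ b i j)) /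
            ∏ j, h ((v j : E) ^ a i j) := by
          rw [eq_div_iff h2]
          exact h1
        rw [h3]
        refine F0.div_mem (F0.mul_mem ?_ (prod_mem fun j _ => ?_)) (prod_mem fun j _ => ?_)
        · rw [AlgHom.commutes]
          exact F0.algebraMap_mem _
        · rw [map_pow]
          exact pow_mem (hv j) _
        · rw [map_pow]
          exact pow_mem (hv j) _
      have h1 := hrel (map (algebraMap k F0) (U i) - C ⟨_, hval⟩) (by
        rw [map_sub, aeval_map_algebraMap, aeval_C, sub_eq_zero]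
        change aeval (fun j => h (z j)) (U i) = h (aeval z (U i))
        rw [← comp_aeval_apply])
      rw [map_sub, aeval_map_algebraMap, aeval_C, sub_eq_zero] at h1
      exact h1
    -- representatives
    choose f hf using fun j => gmU_surj 𝒰 (z' j)
    have hev : ∀ G : MvPolynomial (Fin n) k,
        aeval z' G = gmU 𝒰 (fun t => eval₂ σ (fun j => f j t) G) := by
      intro G
      induction G using MvPolynomial.induction_on with
      | C a =>
        rw [aeval_C]
        simp only [eval₂_C]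
        rfl
      | add p q hp hq =>
        rw [map_add, hp, hq, ← map_add]
        congr 1
        funext t
        simp
      | mul_X p i hp =>
        rw [map_mul, hp, aeval_X, ← hf i, ← map_mul]
        congr 1
        funext t
        simp
    have e1 : ∀ᶠ t in (𝒰 : Filter ℕ), ∀ i, eval₂ σ (fun j => f j t) (F i) = 0 := by
      rw [eventually_all]
      intro i
      have h1 := hF' i
      rw [hev] at h1
      have h2 : gmU 𝒰 (fun t => eval₂ σ (fun j => f j t) (F i)) = gmU 𝒰 (fun _ => (0 : ℂ)) := by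
        rw [h1]
        exact (map_zero (gmU 𝒰)).symm
      exact (gmU_eq 𝒰 _ _).1 h2
    have e2 : ∀ᶠ t in (𝒰 : Filter ℕ), ∀ i, eval₂ σ (fun j => f j t) (U i) =
        eval₂ σ (fun j => V.ev t (z j)) (U i) := by
      rw [eventually_all]
      intro i
      have h1 := hU' i
      rw [hev] at h1
      have h2 := (gmU_eq 𝒰 _ _).1 h1
      filter_upwards [h2, V.eval z (U i)] with t h3 h4
      rw [h3, h4]
    have e3 : ∀ᶠ t in (𝒰 : Filter ℕ), f j t ≠ V.ev t (z j) := by
      rw [Ultrafilter.eventually_not]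
      intro h1
      apply hz'
      rw [← hf j]
      exact (gmU_eq 𝒰 _ _).2 h1
    obtain ⟨t, h1, h2, h3, h4⟩ := (e1.and (e2.and (e3.and halone))).exists
    exact h3 (congrFun (h4 (fun j => f j t) h1 h2) j)
  rw [IntermediateField.mem_adjoin_range_iff] at hmem
  obtain ⟨P, Q, hPQ⟩ := hmem
  have hcomp : ∀ G : MvPolynomial (Fin l) k, aeval (fun i => h (v i : E)) G =
      h (aeval (fun i => (v i : E)) G) := by
    intro G
    rw [← comp_aeval_apply]
  rw [hcomp, hcomp] at hPQ
  by_cases hQ : aeval (fun i => (v i : E)) Q = 0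
  · refine ⟨0, 1, by rw [map_one]; exact one_ne_zero, ?_⟩
    rw [hQ, map_zero, div_zero] at hPQ
    have : z j = 0 := hinj (by rw [hPQ, map_zero])
    rw [this, map_zero, zero_mul]
  · refine ⟨P, Q, hQ, ?_⟩
    apply hinj
    rw [map_mul, hPQ, div_mul_cancel₀]
    exact (map_ne_zero_iff _ hinj).2 hQ

/-- **The main theorem, abstract form.** -/
theorem main_abs {k E : Type} [Field k] [CommRing E] [IsDomain E] [Algebra k E]
    {l : ℕ} {v : Fin l → Eˣ} (D : Dio k v) {σ : k →+* ℂ} (V : Evl (E := E) D.𝒰 σ) {n r : ℕ}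
    {κ : Type} [Finite κ] (z : Fin n → E) (F : κ → MvPolynomial (Fin n) k)
    (hF : ∀ i, aeval z (F i) = 0) (U : Fin r → MvPolynomial (Fin n) k)
    (hv : AlgebraicIndependent k fun i => (v i : E)) (c : Fin r → k) (hc : ∀ i, c i ≠ 0)
    (a b : Fin r → Fin l → ℕ)
    (hU : ∀ i, aeval z (U i) * ∏ j, (v j : E) ^ a i j =
      algebraMap k E (c i) * ∏ j, (v j : E) ^ b i j)
    (hgen : ∀ w : Fin l → ℤ, (∀ i, ∑ j, (a i j : ℤ) * w j = ∑ j, (b i j : ℤ) * w j) → w = 0)
    (hN : ∃ C : ℝ, ∀ᶠ t in (D.𝒰 : Filter ℕ),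
      D.N t ≤ C * ∑ i, ∫ p, |D.lg (v i : E) t p| ∂(D.μ t))
    (halone : ∀ᶠ t in (D.𝒰 : Filter ℕ), ∀ z' : Fin n → ℂ, (∀ i, eval₂ σ z' (F i) = 0) →
      (∀ i, eval₂ σ z' (U i) = eval₂ σ (fun j => V.ev t (z j)) (U i)) →
        z' = fun j => V.ev t (z j)) :
    ∀ᶠ t in (D.𝒰 : Filter ℕ), ∃ X : ℂ → Fin n → ℂ, (∀ j, Laur fun τ => X τ j) ∧
      (X 1 = fun j => V.ev t (z j)) ∧ (∀ τ, τ ≠ 0 → ∀ i, eval₂ σ (X τ) (F i) = 0) ∧
      ∃ τ, τ ≠ 0 ∧ X τ ≠ X 1 := by
  classical
  have hinj : Function.Injective (aeval (R := k) fun i => (v i : E)) := hv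
  -- the coordinates as quotients of coprime polynomials
  have hPQ : ∀ j, ∃ P Q : MvPolynomial (Fin l) k, Q ≠ 0 ∧ (P ≠ 0 ∨ Q = 1) ∧ IsRelPrime P Q ∧
      z j * aeval (fun i => (v i : E)) Q = aeval (fun i => (v i : E)) P := by
    intro j
    obtain ⟨P, Q, hQ, hPQ⟩ := rational V z F hF U v c a b hU halone j
    have hQ0 : Q ≠ 0 := fun h => hQ (by rw [h, map_zero])
    by_cases hP : P = 0
    · refine ⟨0, 1, one_ne_zero, Or.inr rfl, isRelPrime_one_right, ?_⟩
      rw [hP, map_zero] at hPQ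
      rw [(mul_eq_zero.1 hPQ).resolve_right hQ, map_zero, zero_mul]
    · obtain ⟨P', Q', g, hrel, hP', hQ'⟩ := UniqueFactorizationMonoid.exists_reduced_factors' P Q hQ0
      have hg : g ≠ 0 := by
        rintro rfl
        rw [zero_mul] at hQ'
        exact hQ0 hQ'.symm
      refine ⟨P', Q', ?_, Or.inl ?_, hrel, ?_⟩
      · rintro rfl
        rw [mul_zero] at hQ'
        exact hQ0 hQ'.symm
      · rintro rfl
        rw [mul_zero] at hP'
        exact hP hP'.symm
      · have hg' : aeval (fun i => (v i : E)) g ≠ 0 := by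
          intro h0
          exact hg (hinj (by rw [h0, map_zero]))
        apply mul_left_cancel₀ hg'
        rw [← hP', ← hQ', map_mul, map_mul] at hPQ
        rw [← hPQ]
        ring
  choose P Q hQ0 hP0 hrel hz using hPQ
  obtain ⟨w, hw0, hw⟩ := Dio.weights (D := D) v hN
  have hwQ : ∀ j, ∀ β ∈ (Q j).support, ∀ β' ∈ (Q j).support,
      ∑ i, (β i : ℤ) * w i = ∑ i, (β' i : ℤ) * w i := by
    intro j β hβ β' hβ'
    rcases hP0 j with h | h
    · exact Dio.den_weight hv h (hrel j) (hz j) hw hβ hβ'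
    · rw [h] at hβ hβ'
      have h1 : ∀ γ ∈ (1 : MvPolynomial (Fin l) k).support, γ = 0 := by
        intro γ hγ
        rw [mem_support_iff, coeff_one] at hγ
        by_contra hne
        exact hγ (if_neg (Ne.symm hne))
      rw [h1 β hβ, h1 β' hβ']
  -- the relations of the units
  let G : Fin r → MvPolynomial (Fin l ⊕ Fin n) k := fun i =>
    rename Sum.inr (U i) * ∏ j, X (Sum.inl j) ^ a i j - C (c i) * ∏ j, X (Sum.inl j) ^ b i j
  have hG : ∀ (R : Type) [CommRing R] (φ : k →+* R) (y : Fin l → R) (x : Fin n → R) (i : Fin r),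
      eval₂ φ (Sum.elim y x) (G i) = eval₂ φ x (U i) * ∏ j, y j ^ a i j -
        φ (c i) * ∏ j, y j ^ b i j := by
    intro R _ φ y x i
    simp only [G]
    rw [eval₂_sub, eval₂_mul, eval₂_mul, eval₂_rename, eval₂_prod, eval₂_prod, eval₂_C]
    simp only [eval₂_pow, eval₂_X, Sum.elim_inl, Sum.elim_comp_inr]
  have hGE : ∀ i, aeval (Sum.elim (fun i => (v i : E)) z) (G i) = 0 := by
    intro i
    rw [aeval_def, hG, sub_eq_zero]
    exact hU i
  have hFE : ∀ i, aeval (Sum.elim (fun i => (v i : E)) z) (rename Sum.inr (F i)) = 0 := by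
    intro i
    rw [aeval_rename, Sum.elim_comp_inr]
    exact hF i
  have hev1 : ∀ᶠ t in (D.𝒰 : Filter ℕ), ∀ j, V.ev t (v j : E) ≠ 0 :=
    eventually_all.2 fun j => V.ne _ (v j).ne_zero
  have hQE : ∀ j, aeval (fun i => (v i : E)) (Q j) ≠ 0 := fun j h0 =>
    hQ0 j (hinj (by rw [h0, map_zero]))
  have hev2 : ∀ᶠ t in (D.𝒰 : Filter ℕ), ∀ j,
      eval₂ σ (fun i => V.ev t (v i : E)) (Q j) ≠ 0 ∧
      V.ev t (z j) * eval₂ σ (fun i => V.ev t (v i : E)) (Q j) =
        eval₂ σ (fun i => V.ev t (v i : E)) (P j) := by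
    rw [eventually_all]
    intro j
    filter_upwards [V.eval (fun i => (v i : E)) (Q j), V.eval (fun i => (v i : E)) (P j),
      V.ne _ (hQE j), V.mul (z j) (aeval (fun i => (v i : E)) (Q j))] with t h1 h2 h3 h4
    rw [← h1, ← h2]
    refine ⟨h3, ?_⟩
    rw [← h4, hz j]
  filter_upwards [hev1, hev2] with t h1 h2
  obtain ⟨Xc, hL, hX1, hXτ⟩ := exists_curve σ P Q w hwQ (fun i => V.ev t (v i : E))
    (fun j => (h2 j).1) (fun j => V.ev t (z j)) (fun j => (h2 j).2)
  have htr : ∀ (f : MvPolynomial (Fin l ⊕ Fin n) k),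
      aeval (Sum.elim (fun i => (v i : E)) z) f = 0 → ∀ τ, τ ≠ 0 →
      eval₂ σ (Sum.elim (fun i => V.ev t (v i : E) * τ ^ w i) (Xc τ)) f = 0 := by
    intro f hf τ hτ
    exact transfer hv hz f hf ℂ σ _ _ (fun j => (hXτ τ hτ j).1) (fun j => (hXτ τ hτ j).2)
  refine ⟨Xc, hL, hX1, ?_, ?_⟩
  · intro τ hτ i
    have h3 := htr _ (hFE i) τ hτ
    rwa [eval₂_rename, Sum.elim_comp_inr] at h3
  · by_contra hcon
    push Not at hcon
    apply hw0
    apply hgen
    intro i
    have hU2 : ∀ τ : ℂ, τ ≠ 0 → eval₂ σ (Xc 1) (U i) * ∏ j, (V.ev t (v j : E) * τ ^ w j) ^ a i j =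
        σ (c i) * ∏ j, (V.ev t (v j : E) * τ ^ w j) ^ b i j := by
      intro τ hτ
      have h3 := htr _ (hGE i) τ hτ
      rw [hG, hcon τ hτ, sub_eq_zero] at h3
      exact h3
    have hpr : ∀ (e : Fin l → ℕ) (τ : ℂ), τ ≠ 0 → ∏ j, (V.ev t (v j : E) * τ ^ w j) ^ e j =
        (∏ j, V.ev t (v j : E) ^ e j) * τ ^ (∑ j, (e j : ℤ) * w j) := by
      intro e τ hτ
      simp only [mul_pow]
      rw [Finset.prod_mul_distrib]
      congr 1
      have h5 : ∀ s : Finset (Fin l), ∏ i ∈ s, (τ ^ w i) ^ e i =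
          τ ^ ∑ i ∈ s, (e i : ℤ) * w i := by
        intro s
        induction s using Finset.induction_on with
        | empty => simp
        | insert a s ha ih =>
          rw [Finset.prod_insert ha, Finset.sum_insert ha, zpow_add₀ hτ, ih]
          congr 1
          rw [mul_comm (e a : ℤ), zpow_mul, zpow_natCast]
      exact h5 _
    have h3 := hU2 1 one_ne_zero
    have h4 := hU2 2 two_ne_zero
    rw [hpr _ _ one_ne_zero, hpr _ _ one_ne_zero, one_zpow, one_zpow, mul_one, mul_one] at h3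
    rw [hpr _ _ two_ne_zero, hpr _ _ two_ne_zero, ← mul_assoc, ← mul_assoc, h3] at h4
    have h5 : σ (c i) * ∏ j, V.ev t (v j : E) ^ b i j ≠ 0 := by
      refine mul_ne_zero ((map_ne_zero σ).2 (hc i)) (Finset.prod_ne_zero_iff.2 fun j _ => ?_)
      exact pow_ne_zero _ (h1 j)
    have h6 := mul_left_cancel₀ h5 h4
    have h7 : ((2 : ℝ) ^ (∑ j, (a i j : ℤ) * w j)) = (2 : ℝ) ^ (∑ j, (b i j : ℤ) * w j) := by
      have h8 := congrArg norm h6
      rwa [norm_zpow, norm_zpow, Complex.norm_ofNat] at h8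
    exact zpow_right_injective₀ (by norm_num) (by norm_num) h7

end Pool.Agent.K1H83.BL
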