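import Mathlib
import Pool.Agent.K1H83.BL.Slow

/-!
The size of the elements of the field generated by the units.
-/

set_option autoImplicit false
set_option linter.unusedSectionVars false

namespace Pool.Agent.K1H83.BL

open MvPolynomial Module Filter Topology MeasureTheory

namespace Dio

variable {k E : Type} [Field k] [CommRing E] [IsDomain E] [Algebra k E] {l₀ : ℕ}
  {v₀ : Fin l₀ → Eˣ} {D : Dio k v₀} {l : ℕ}

/-- the size of the units -/
noncomputable def sz (D : Dio k v₀) (v : Fin l → Eˣ) (t : ℕ) : ℝ :=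
  ∑ i, ∫ p, |D.lg (v i : E) t p| ∂(D.μ t)

theorem sz_nonneg (v : Fin l → Eˣ) (t : ℕ) : 0 ≤ sz D v t :=
  Finset.sum_nonneg fun i _ => integral_nonneg fun p => abs_nonneg _

/-- pointwise upper bound for a polynomial in units -/
theorem poly_le (v : Fin l → Eˣ) (P : MvPolynomial (Fin l) k)
    (hP : aeval (fun i => (v i : E)) P ≠ 0) : ∃ (C m : ℝ), 0 ≤ C ∧ 0 ≤ m ∧
      ∀ᶠ t in (D.𝒰 : Filter ℕ), ∀ p,
        D.lg (aeval (fun i => (v i : E)) P) t p ≤ C + m * ∑ i, |D.lg (v i : E) t p| := by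
  rw [ev_eq] at hP ⊢
  obtain ⟨C, hC, h1⟩ := lg_lin (D := D) P.support (fun β => coeff β P) (fun β => (mon v β : E))
    (fun β hβ => mem_support_iff.1 hβ) (fun β _ => (mon v β).ne_zero) hP
  refine ⟨C, P.totalDegree, hC, Nat.cast_nonneg _, ?_⟩
  have h2 : ∀ β : P.support, ∀ᶠ t in (D.𝒰 : Filter ℕ), ∀ p,
      D.lg (mon v β.1 : E) t p = ∑ i, (β.1 i : ℝ) * D.lg (v i : E) t p := fun β => lg_mon v β.1
  filter_upwards [h1, eventually_all.2 h2] with t h3 h4 p
  obtain ⟨β, hβ, h5⟩ := h3 p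
  have h6 := h4 ⟨β, hβ⟩ p
  simp only at h6
  rw [h6] at h5
  refine h5.trans ?_
  have h7 : ∑ i, (β i : ℝ) * D.lg (v i : E) t p ≤ (P.totalDegree : ℝ) * ∑ i, |D.lg (v i : E) t p| := by
    rw [Finset.mul_sum]
    refine Finset.sum_le_sum fun i _ => ?_
    have h8 : β i ≤ P.totalDegree := by
      have h9 : β i ≤ β.degree := by
        rw [Finsupp.degree_eq_sum]
        exact Finset.single_le_sum (f := fun j => β j) (fun _ _ => Nat.zero_le _)
          (Finset.mem_univ i)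
      exact h9.trans (le_totalDegree hβ)
    have h9 : (β i : ℝ) ≤ (P.totalDegree : ℝ) := by exact_mod_cast h8
    calc (β i : ℝ) * D.lg (v i : E) t p ≤ (β i : ℝ) * |D.lg (v i : E) t p| :=
          mul_le_mul_of_nonneg_left (le_abs_self _) (Nat.cast_nonneg _)
      _ ≤ _ := mul_le_mul_of_nonneg_right h9 (abs_nonneg _)
  linarith

theorem int_poly (v : Fin l → Eˣ) : ∀ᶠ t in (D.𝒰 : Filter ℕ), ∀ C m : ℝ,
    Integrable (fun p => C + m * ∑ i, |D.lg (v i : E) t p|) (D.μ t) ∧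
      ∫ p, (C + m * ∑ i, |D.lg (v i : E) t p|) ∂(D.μ t) =
        (D.μ t).real Set.univ * C + m * sz D v t := by
  filter_upwards [all_int (D := D) v] with t ht C m
  have i1 : Integrable (fun p => ∑ i, |D.lg (v i : E) t p|) (D.μ t) :=
    integrable_finsetSum _ fun i _ => (ht i).abs
  have i2 : Integrable (fun p => m * ∑ i, |D.lg (v i : E) t p|) (D.μ t) := i1.const_mul _
  refine ⟨(integrable_const C).add i2, ?_⟩
  rw [integral_add (integrable_const C) i2, integral_const, integral_const_mul,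
    integral_finsetSum _ fun i _ => (ht i).abs, smul_eq_mul]
  rfl

theorem size_quot {v : Fin l → Eˣ} {P Q : MvPolynomial (Fin l) k}
    (hQ : aeval (fun i => (v i : E)) Q ≠ 0) {z : E} (hz0 : z ≠ 0)
    (hz : z * aeval (fun i => (v i : E)) Q = aeval (fun i => (v i : E)) P) (ε : ℝ) (hε : 0 < ε) :
    ∃ C : ℝ, 0 ≤ C ∧ ∀ᶠ t in (D.𝒰 : Filter ℕ), ∫ p, max (D.lg z t p) 0 ∂(D.μ t) ≤
      C * (1 + sz D v t) + ε * D.N t := by
  have hP : aeval (fun i => (v i : E)) P ≠ 0 := by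
    rw [← hz]
    exact mul_ne_zero hz0 hQ
  obtain ⟨C1, m1, hC1, hm1, h1⟩ := poly_le (D := D) v P hP
  obtain ⟨C2, m2, hC2, hm2, h2⟩ := poly_le (D := D) v Q hQ
  have hM : 0 ≤ D.M := le_trans measureReal_nonneg (D.mass 0)
  refine ⟨D.M * (C1 + C2) + (m1 + m2), by positivity, ?_⟩
  filter_upwards [h1, h2, D.lg_mul z _ hz0 hQ, int_poly (D := D) v, D.int _ hQ, D.int _ hz0,
    lower (D := D) _ hQ ε hε] with t g1 g2 g3 g4 g5 g6 g7
  have hle : ∀ p, max (D.lg z t p) 0 ≤ ((C1 + C2) + (m1 + m2) * ∑ i, |D.lg (v i : E) t p|) -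
      D.lg (aeval (fun i => (v i : E)) Q) t p := by
    intro p
    have e1 := g1 p
    have e2 := g2 p
    have e3 := g3 p
    rw [hz] at e3
    have e4 : 0 ≤ ∑ i, |D.lg (v i : E) t p| := Finset.sum_nonneg fun i _ => abs_nonneg _
    have e5 := mul_nonneg hm1 e4
    have e6 := mul_nonneg hm2 e4
    refine max_le ?_ ?_
    · rw [add_mul]
      linarith
    · rw [add_mul]
      linarith
  have hI := (g4 (C1 + C2) (m1 + m2))
  have h3 := integral_mono (g6.pos_part) (hI.1.sub g5) hle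
  have h4 : ∫ p, ((fun p => (C1 + C2) + (m1 + m2) * ∑ i, |D.lg (v i : E) t p|) -
      D.lg (aeval (fun i => (v i : E)) Q) t) p ∂(D.μ t) =
      ((D.μ t).real Set.univ * (C1 + C2) + (m1 + m2) * sz D v t) -
        ∫ p, D.lg (aeval (fun i => (v i : E)) Q) t p ∂(D.μ t) := by
    rw [← hI.2, ← integral_sub hI.1 g5]
    rfl
  rw [h4] at h3
  refine h3.trans ?_
  have h5 := D.mass t
  have h6 := sz_nonneg (D := D) v t
  have h7 : (D.μ t).real Set.univ * (C1 + C2) ≤ D.M * (C1 + C2) :=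
    mul_le_mul_of_nonneg_right h5 (by linarith)
  have h8 : 0 ≤ D.M * (C1 + C2) * sz D v t := by positivity
  nlinarith

/-- **The scale** is comparable with the size of the units. -/
theorem scale {v : Fin l → Eˣ} {n : ℕ} {z : Fin n → E} (J : Finset (Fin n))
    (hJ : ∀ j ∈ J, z j ≠ 0)
    (hrat : ∀ j, ∃ P Q : MvPolynomial (Fin l) k, aeval (fun i => (v i : E)) Q ≠ 0 ∧
      z j * aeval (fun i => (v i : E)) Q = aeval (fun i => (v i : E)) P)
    (hN : ∃ C : ℝ, ∀ᶠ t in (D.𝒰 : Filter ℕ),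
      D.N t ≤ C * (1 + sz D v t + ∑ j ∈ J, ∫ p, max (D.lg (z j) t p) 0 ∂(D.μ t))) :
    ∃ C : ℝ, ∀ᶠ t in (D.𝒰 : Filter ℕ), D.N t ≤ C * sz D v t := by
  classical
  obtain ⟨C, hC⟩ := hN
  set ε : ℝ := 1 / (4 * (|C| + 1) * (n + 1)) with hε
  have hε0 : 0 < ε := by positivity
  have h1 : ∀ j, ∃ B : ℝ, 0 ≤ B ∧ (z j ≠ 0 → ∀ᶠ t in (D.𝒰 : Filter ℕ),
      ∫ p, max (D.lg (z j) t p) 0 ∂(D.μ t) ≤ B * (1 + sz D v t) + ε * D.N t) := by
    intro j
    by_cases hj : z j = 0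
    · exact ⟨0, le_rfl, fun h => absurd hj h⟩
    · obtain ⟨P, Q, hQ, hPQ⟩ := hrat j
      obtain ⟨B, hB, h⟩ := size_quot (D := D) hQ hj hPQ ε hε0
      exact ⟨B, hB, fun _ => h⟩
  choose B hB0 hB using h1
  have h2 : ∀ᶠ t in (D.𝒰 : Filter ℕ), ∀ j ∈ J,
      ∫ p, max (D.lg (z j) t p) 0 ∂(D.μ t) ≤ B j * (1 + sz D v t) + ε * D.N t :=
    (eventually_all_finset J).2 fun j hj => hB j (hJ j hj)
  set B1 : ℝ := 1 + ∑ j ∈ J, B j with hB1
  have hB10 : 0 ≤ B1 := by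
    have := Finset.sum_nonneg fun j (_ : j ∈ J) => hB0 j
    linarith
  refine ⟨4 * |C| * B1, ?_⟩
  filter_upwards [hC, h2, N_pos, D.N_lim.eventually_ge_atTop (4 * |C| * B1)] with t g1 g2 g3 g4
  have h3 : ∑ j ∈ J, ∫ p, max (D.lg (z j) t p) 0 ∂(D.μ t) ≤
      (∑ j ∈ J, B j) * (1 + sz D v t) + n * (ε * D.N t) := by
    refine (Finset.sum_le_sum g2).trans ?_
    rw [Finset.sum_add_distrib, ← Finset.sum_mul, Finset.sum_const, nsmul_eq_mul]
    have h4 : (J.card : ℝ) ≤ n := by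
      have := Finset.card_le_univ J
      rw [Fintype.card_fin] at this
      exact_mod_cast this
    have h5 : 0 ≤ ε * D.N t := by positivity
    nlinarith
  have h4 : 0 ≤ sz D v t := sz_nonneg v t
  have h5 : 0 ≤ ∑ j ∈ J, ∫ p, max (D.lg (z j) t p) 0 ∂(D.μ t) :=
    Finset.sum_nonneg fun j _ => integral_nonneg fun p => le_max_right _ _
  have h6 : D.N t ≤ |C| * (B1 * (1 + sz D v t) + n * (ε * D.N t)) := by
    refine g1.trans ?_
    calc C * (1 + sz D v t + ∑ j ∈ J, ∫ p, max (D.lg (z j) t p) 0 ∂(D.μ t))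
        ≤ |C| * (1 + sz D v t + ∑ j ∈ J, ∫ p, max (D.lg (z j) t p) 0 ∂(D.μ t)) :=
          mul_le_mul_of_nonneg_right (le_abs_self C) (by linarith)
      _ ≤ _ := by
          refine mul_le_mul_of_nonneg_left ?_ (abs_nonneg C)
          rw [hB1, add_mul, one_mul]
          linarith
  have h7 : |C| * (n * (ε * D.N t)) ≤ D.N t / 4 := by
    have h8 : |C| * (n * (ε * D.N t)) = (|C| / (|C| + 1)) * ((n : ℝ) / (n + 1)) * (D.N t / 4) := by
      rw [hε]
      field_simp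
    rw [h8]
    have h9 : |C| / (|C| + 1) ≤ 1 := by
      rw [div_le_one (by positivity)]
      linarith
    have h10 : (n : ℝ) / (n + 1) ≤ 1 := by
      rw [div_le_one (by positivity)]
      linarith
    have h11 : (|C| / (|C| + 1)) * ((n : ℝ) / (n + 1)) ≤ 1 :=
      mul_le_one₀ h9 (by positivity) h10
    have h12 : 0 ≤ D.N t / 4 := by linarith
    nlinarith
  have h8 : |C| * (B1 * (1 + sz D v t)) = |C| * B1 + |C| * B1 * sz D v t := by ring
  have h9 : 0 ≤ |C| * B1 * sz D v t := by positivity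
  rw [mul_add, h8] at h6
  nlinarith

end Dio

end Pool.Agent.K1H83.BL
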