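import Mathlib
import Pool.Agent.K1H83.BL.Main
import Pool.Agent.K1H83.BL.Size
import Pool.Agent.K1H83.BL.Lat

/-!
The main theorem in abstract form, with a scale comparable with the size of the point.
-/

set_option autoImplicit false
set_option linter.unusedSectionVars false

namespace Pool.Agent.K1H83.BL

open MvPolynomial Filter Topology MeasureTheory Pool.Agent.H159R3.Exp

/-- **The main theorem, abstract form.** -/
theorem main_abs' {k E : Type} [Field k] [CommRing E] [IsDomain E] [Algebra k E]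
    {l : ℕ} {v : Fin l → Eˣ} (D : Dio k v) {σ : k →+* ℂ} (V : Evl (E := E) D.𝒰 σ) {n r : ℕ}
    {κ : Type} [Finite κ] (z : Fin n → E) (F : κ → MvPolynomial (Fin n) k)
    (hF : ∀ i, aeval z (F i) = 0) (U : Fin r → MvPolynomial (Fin n) k)
    (hv : AlgebraicIndependent k fun i => (v i : E)) (c : Fin r → k) (hc : ∀ i, c i ≠ 0)
    (A : Fin r → Fin l → ℤ)
    (hU : ∀ i, aeval z (U i) = algebraMap k E (c i) * (chr v (A i) : Eˣ))
    (hgen : ∀ w : Fin l → ℤ, (∀ i, ∑ j, A i j * w j = 0) → w = 0)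
    (J : Finset (Fin n)) (hJ : ∀ j ∈ J, z j ≠ 0)
    (hN : ∃ C : ℝ, ∀ᶠ t in (D.𝒰 : Filter ℕ),
      D.N t ≤ C * (1 + ∑ i, ∫ p, |D.lg (v i : E) t p| ∂(D.μ t) +
        ∑ j ∈ J, ∫ p, max (D.lg (z j) t p) 0 ∂(D.μ t)))
    (halone : ∀ᶠ t in (D.𝒰 : Filter ℕ), ∀ z' : Fin n → ℂ, (∀ i, eval₂ σ z' (F i) = 0) →
      (∀ i, eval₂ σ z' (U i) = eval₂ σ (fun j => V.ev t (z j)) (U i)) →
        z' = fun j => V.ev t (z j)) :
    ∀ᶠ t in (D.𝒰 : Filter ℕ), ∃ X : ℂ → Fin n → ℂ, (∀ j, Laur fun τ => X τ j) ∧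
      (X 1 = fun j => V.ev t (z j)) ∧ (∀ τ, τ ≠ 0 → ∀ i, eval₂ σ (X τ) (F i) = 0) ∧
      ∃ τ, τ ≠ 0 ∧ X τ ≠ X 1 := by
  have hU' : ∀ i, aeval z (U i) * ∏ j, (v j : E) ^ (-(A i j)).toNat =
      algebraMap k E (c i) * ∏ j, (v j : E) ^ (A i j).toNat := by
    intro i
    rw [hU i, mul_assoc]
    congr 1
    have h1 : chr v (A i) * ∏ j, v j ^ (-(A i j)).toNat = ∏ j, v j ^ (A i j).toNat := by
      unfold chr
      rw [← Finset.prod_mul_distrib]
      refine Finset.prod_congr rfl fun j _ => ?_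
      rw [← zpow_natCast, ← zpow_natCast, ← zpow_add]
      congr 1
      omega
    have h2 := congrArg (fun x : Eˣ => (x : E)) h1
    simp only [Units.val_mul, Units.coe_prod, Units.val_pow_eq_pow_val] at h2
    exact h2
  refine main_abs D V z F hF U hv c hc (fun i j => (-(A i j)).toNat)
    (fun i j => (A i j).toNat) hU' ?_ ?_ halone
  · intro w hw
    apply hgen
    intro i
    have h1 := hw i
    have h2 : ∀ j, A i j * w j = ((A i j).toNat : ℤ) * w j - ((-(A i j)).toNat : ℤ) * w j := by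
      intro j
      rw [← sub_mul]
      congr 1
      omega
    rw [Finset.sum_congr rfl fun j _ => h2 j, Finset.sum_sub_distrib, h1, sub_self]
  · exact Dio.scale J hJ (fun j => rational V z F hF U v c _ _ hU' halone j) hN

end Pool.Agent.K1H83.BL
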