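import Mathlib
import Pool.Agent.K1H83.BL.An5
import Pool.Agent.K1H83.BL.Main2

/-!
Entire functions on a sequence of good circles satisfy the abstract subspace theorem.
-/

set_option autoImplicit false

namespace Pool.Agent.K1H83.BL

open Filter Topology Metric MeasureTheory MvPolynomial Pool.Agent.H159R3.NV

noncomputable instance instModE {k : Subfield ℂ} (E : Subalgebra k Ent) : Module k E :=
  Algebra.toModule

noncomputable instance instSMulE {k : Subfield ℂ} (E : Subalgebra k Ent) : SMul k E :=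
  Algebra.toSMul

noncomputable instance instCRE {k : Subfield ℂ} (E : Subalgebra k Ent) : CommRing E :=
  Subalgebra.toCommRing E

namespace Circ

variable {k : Subfield ℂ} {E : Subalgebra k Ent} (R : Circ E)

theorem ne_sphere (x : E) (hx : x ≠ 0) : ∀ᶠ t in atTop, ∀ p : ℝ,
    ((x : Ent) : ℂ → ℂ) (circleMap 0 (R.s t) p) ≠ 0 := by
  filter_upwards [R.good x hx] with t ht p
  have h1 : ‖circleMap 0 (R.s t) p‖ = R.s t := by
    rw [norm_circleMap_zero, abs_of_pos (by linarith [R.s_one t])]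
  exact (ht _ h1 _ (mem_closedBall_self (R.eps_pos t).le)).1

include R in
theorem ne_zero_fun (x : E) (hx : x ≠ 0) : ∃ z, ((x : Ent) : ℂ → ℂ) z ≠ 0 := by
  obtain ⟨t, ht⟩ := (R.ne_sphere x hx).exists
  exact ⟨_, ht 0⟩

theorem ev_hyper {p : ℕ → Prop} (h : ∀ᶠ t in atTop, p t) :
    ∀ᶠ t in ((hyperfilter ℕ : Ultrafilter ℕ) : Filter ℕ), p t :=
  Nat.hyperfilter_le_atTop h

/-- **The subspace theorem for entire functions.** -/
theorem sub {l : ℕ} (v : Fin l → Eˣ)
    (hv : AlgebraicIndependent ℂ fun i => (((v i : Eˣ) : E) : Ent))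
    (n : ℕ) (φ : Fin n → MvPolynomial (Fin l) k) (q : MvPolynomial (Fin l) k) (y : Fin n → E)
    (hφ : LinearIndependent k φ)
    (hy : ∀ i, y i * aeval (fun i => ((v i : Eˣ) : E)) q = aeval (fun i => ((v i : Eˣ) : E)) (φ i))
    (m : ℕ) (Φ : Fin m → Matrix (Fin n) (Fin n) k) (hΦ : ∀ J, (Φ J).det ≠ 0)
    (g : ℕ → ℝ → ℝ)
    (hg : ∀ᶠ t in ((hyperfilter ℕ : Ultrafilter ℕ) : Filter ℕ),
      Integrable (g t) (volume.restrict (Set.Ioc 0 (2 * Real.pi))))
    (hle : ∀ᶠ t in ((hyperfilter ℕ : Ultrafilter ℕ) : Filter ℕ), ∀ p, ∃ J,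
      ∑ a, Real.log ‖(((∑ j, Φ J a j • y j : E) : Ent) : ℂ → ℂ) (circleMap 0 (R.s t) p)‖ ≤ g t p)
    (ε : ℝ) (hε : 0 < ε) :
    ∀ᶠ t in ((hyperfilter ℕ : Ultrafilter ℕ) : Filter ℕ),
      -(ε * R.N t) ≤ ∫ p in Set.Ioc 0 (2 * Real.pi), g t p := by
  classical
  set y' : Fin n → ℂ → ℂ := fun j => ((y j : Ent) : ℂ → ℂ) with hy'
  have hyd : ∀ j, Differentiable ℂ (y' j) := fun j => (y j : Ent).2
  have hlin := lin_ind v hv φ q y hφ hy
  let Ψ : Fin m → Matrix (Fin n) (Fin n) ℂ := fun J => (Φ J).map (algebraMap k ℂ)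
  have hΨ : ∀ J, (Ψ J).det ≠ 0 := by
    intro J
    have h1 : (Ψ J).det = algebraMap k ℂ (Φ J).det := by
      rw [RingHom.map_det]
      rfl
    rw [h1]
    exact (map_ne_zero _).mpr (hΦ J)
  have hfun : ∀ J a z, (((∑ j, Φ J a j • y j : E) : Ent) : ℂ → ℂ) z =
      ∑ j, Ψ J a j * y' j z := by
    intro J a z
    rw [AddSubmonoidClass.coe_finsetSum, AddSubmonoidClass.coe_finsetSum, Finset.sum_apply]
    refine Finset.sum_congr rfl fun j _ => ?_
    rfl
  have hYne : ∀ J a, (∑ j, Φ J a j • y j : E) ≠ 0 := by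
    intro J a h0
    have h1 : (fun j => Ψ J a j) = 0 := by
      apply hlin
      intro z
      have h2 := hfun J a z
      rw [h0] at h2
      exact h2.symm
    apply hΨ J
    exact Matrix.det_eq_zero_of_row_eq_zero a fun j => congrFun h1 j
  obtain ⟨z1, hz1⟩ := wron_ne y' hyd hlin
  obtain ⟨C, hC⟩ := wr_lower y' hyd Ψ hΨ
  set W : ℂ → ℂ := fun z => (Matrix.of fun b l : Fin n => iteratedDeriv l (y' b) z).det with hW
  have hWd : Differentiable ℂ W := wr_diff' y' hyd
  have hgood : ∀ᶠ t in atTop, ∀ J a, ∀ z, ‖z‖ = R.s t → ∀ w ∈ closedBall z (R.ε t),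
      (∑ j, Ψ J a j * y' j w) ≠ 0 ∧
      ‖∑ j, Ψ J a j * y' j w‖ ≤ Real.exp 1 * ‖∑ j, Ψ J a j * y' j z‖ := by
    rw [eventually_all]
    intro J
    rw [eventually_all]
    intro a
    filter_upwards [R.good _ (hYne J a)] with t ht z hz w hw
    have h1 := ht z hz w hw
    rw [hfun, hfun] at h1
    exact h1
  filter_upwards [hg, hle, ev_hyper hgood, ev_hyper (R.eps (ε / (4 * Real.pi * (n ^ 2 + 1)))
    (by positivity)), ev_hyper (R.N_lim.eventually_ge_atTop
      (2 * (2 * Real.pi * (|L W 1| + |C|)) / ε))] with t h1 h2 h3 h4 h5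
  have hs := R.s_one t
  have hspos : 0 < R.s t := by linarith
  have hi : Integrable (fun p => Real.log ‖W (circleMap 0 (R.s t) p)‖)
      (volume.restrict (Set.Ioc 0 (2 * Real.pi))) :=
    integrable_circle (h := fun z => Real.log ‖W z‖) (ci_log (mero_of_diff hWd) (R.s t))
  have hcod : ∀ᵐ p ∂(volume.restrict (Set.Ioc 0 (2 * Real.pi))),
      W (circleMap 0 (R.s t) p) ≠ 0 := by
    have h6 := ne_cod hWd hz1 (R.s t)
    have h7 : ∀ᶠ p in codiscrete ℝ, W (circleMap 0 (R.s t) p) ≠ 0 :=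
      circleMap_preimage_codiscrete hspos.ne' h6
    exact ae_restrict_le_codiscreteWithin measurableSet_Ioc
      (codiscreteWithin_mono (Set.subset_univ _) h7)
  have hpt : ∀ᵐ p ∂(volume.restrict (Set.Ioc 0 (2 * Real.pi))),
      Real.log ‖W (circleMap 0 (R.s t) p)‖ ≤ (C + n ^ 2 * Real.log (1 / R.ε t)) + g t p := by
    filter_upwards [hcod] with p hp
    obtain ⟨J, hJ⟩ := h2 p
    have hnorm : ‖circleMap 0 (R.s t) p‖ = R.s t := by
      rw [norm_circleMap_zero, abs_of_pos hspos]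
    have h6 := hC J (circleMap 0 (R.s t) p) (R.ε t) (R.eps_pos t) (R.eps_le t)
      (fun a => ⟨(h3 J a _ hnorm _ (mem_closedBall_self (R.eps_pos t).le)).1,
        fun w hw => (h3 J a _ hnorm w hw).2⟩) hp
    simp only [hfun] at hJ
    exact h6.trans (by linarith)
  have hint := integral_mono_ae hi ((integrable_const _).add h1) hpt
  have hconst : ∫ _p in Set.Ioc 0 (2 * Real.pi), (C + n ^ 2 * Real.log (1 / R.ε t)) =
      2 * Real.pi * (C + n ^ 2 * Real.log (1 / R.ε t)) := by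
    rw [integral_const, smul_eq_mul]
    congr 1
    rw [measureReal_restrict_apply_univ, Real.volume_real_Ioc_of_le (by positivity), sub_zero]
  have e1 : ∫ p in Set.Ioc 0 (2 * Real.pi), ((C + n ^ 2 * Real.log (1 / R.ε t)) + g t p) =
      2 * Real.pi * (C + n ^ 2 * Real.log (1 / R.ε t)) +
        ∫ p in Set.Ioc 0 (2 * Real.pi), g t p := by
    rw [← hconst]
    exact integral_add (integrable_const _) h1
  have hint : ∫ p in Set.Ioc 0 (2 * Real.pi), Real.log ‖W (circleMap 0 (R.s t) p)‖ ≤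
      ∫ p in Set.Ioc 0 (2 * Real.pi), ((C + n ^ 2 * Real.log (1 / R.ε t)) + g t p) := hint
  rw [e1, integral_circle (fun z => Real.log ‖W z‖)] at hint
  have hL : L W 1 ≤ L W (R.s t) := L_mono hWd one_pos hs
  have hL' : Real.circleAverage (fun z => Real.log ‖W z‖) 0 (R.s t) = L W (R.s t) := rfl
  rw [hL'] at hint
  have hpi : 0 < 2 * Real.pi := by positivity
  have h7 : 2 * Real.pi * L W 1 ≤ 2 * Real.pi * L W (R.s t) :=
    mul_le_mul_of_nonneg_left hL hpi.le
  have h8 : 2 * Real.pi * (n ^ 2 * Real.log (1 / R.ε t)) ≤ ε / 2 * R.N t := by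
    have hN0 : 0 ≤ ε * R.N t / 2 := by
      have h9 : 0 ≤ 2 * (2 * Real.pi * (|L W 1| + |C|)) / ε := by positivity
      have := h9.trans h5
      positivity
    have h10 : 2 * Real.pi * (n ^ 2 * Real.log (1 / R.ε t)) ≤
        2 * Real.pi * (n ^ 2 * (ε / (4 * Real.pi * (n ^ 2 + 1)) * R.N t)) := by gcongr
    refine h10.trans ?_
    have e2 : 2 * Real.pi * ((n : ℝ) ^ 2 * (ε / (4 * Real.pi * (n ^ 2 + 1)) * R.N t)) =
        ((n : ℝ) ^ 2 / (n ^ 2 + 1)) * (ε * R.N t / 2) := by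
      field_simp
      ring
    rw [e2]
    have h11 : (n : ℝ) ^ 2 / (n ^ 2 + 1) ≤ 1 := by
      rw [div_le_one (by positivity)]; linarith
    nlinarith
  have h9 : 2 * Real.pi * (|L W 1| + |C|) ≤ ε / 2 * R.N t := by
    rw [div_le_iff₀ hε] at h5
    linarith
  have h10 := neg_abs_le (L W 1)
  have h11 := le_abs_self C
  nlinarith

/-- **The abstract data.** -/
noncomputable def dio {l : ℕ} (v : Fin l → Eˣ)
    (hv : AlgebraicIndependent ℂ fun i => (((v i : Eˣ) : E) : Ent)) : Dio (E := E) k v where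
  P := ℝ
  ms := inferInstance
  μ := fun _ => volume.restrict (Set.Ioc 0 (2 * Real.pi))
  fin := fun _ => inferInstance
  M := 2 * Real.pi
  mass := fun _ => by
    rw [measureReal_restrict_apply_univ, Real.volume_real_Ioc_of_le (by positivity), sub_zero]
  𝒰 := hyperfilter ℕ
  N := R.N
  N_lim := R.N_lim.mono_left Nat.hyperfilter_le_atTop
  lg := fun x t p => Real.log ‖((x : Ent) : ℂ → ℂ) (circleMap 0 (R.s t) p)‖
  int := fun x _ => Eventually.of_forall fun t =>
    integrable_circle (h := fun z => Real.log ‖((x : Ent) : ℂ → ℂ) z‖)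
      (ci_log (mero_of_diff (x : Ent).2) (R.s t))
  lg_mul := fun x y hx hy => by
    filter_upwards [ev_hyper (R.ne_sphere x hx), ev_hyper (R.ne_sphere y hy)] with t h1 h2 p
    have e : (((x * y : E) : Ent) : ℂ → ℂ) (circleMap 0 (R.s t) p) =
        ((x : Ent) : ℂ → ℂ) (circleMap 0 (R.s t) p) *
          ((y : Ent) : ℂ → ℂ) (circleMap 0 (R.s t) p) := rfl
    rw [e, norm_mul, Real.log_mul (norm_ne_zero_iff.mpr (h1 p)) (norm_ne_zero_iff.mpr (h2 p))]
  lg_add := fun x y hx hy hxy => by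
    filter_upwards [ev_hyper (R.ne_sphere x hx), ev_hyper (R.ne_sphere y hy),
      ev_hyper (R.ne_sphere _ hxy)] with t h1 h2 h3 p
    have e : (((x + y : E) : Ent) : ℂ → ℂ) (circleMap 0 (R.s t) p) =
        ((x : Ent) : ℂ → ℂ) (circleMap 0 (R.s t) p) +
          ((y : Ent) : ℂ → ℂ) (circleMap 0 (R.s t) p) := rfl
    have h4 := h3 p
    have p1 : 0 < ‖((x : Ent) : ℂ → ℂ) (circleMap 0 (R.s t) p)‖ := norm_pos_iff.mpr (h1 p)
    have p2 : 0 < ‖((y : Ent) : ℂ → ℂ) (circleMap 0 (R.s t) p)‖ := norm_pos_iff.mpr (h2 p)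
    have p3 := norm_pos_iff.mpr h4
    rw [e] at p3 ⊢
    have h5 := norm_add_le (((x : Ent) : ℂ → ℂ) (circleMap 0 (R.s t) p))
      (((y : Ent) : ℂ → ℂ) (circleMap 0 (R.s t) p))
    rcases le_total ‖((x : Ent) : ℂ → ℂ) (circleMap 0 (R.s t) p)‖
      ‖((y : Ent) : ℂ → ℂ) (circleMap 0 (R.s t) p)‖ with h | h
    · have h6 := Real.log_le_log p3 (h5.trans (add_le_add_left h _))
      rw [← two_mul, Real.log_mul two_ne_zero p2.ne'] at h6
      exact h6.trans (add_le_add_right (le_max_right _ _) _)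
    · have h6 := Real.log_le_log p3 (h5.trans (add_le_add_right h _))
      rw [← two_mul, Real.log_mul two_ne_zero p1.ne'] at h6
      exact h6.trans (add_le_add_right (le_max_left _ _) _)
  lg_const := fun c _ => ⟨|Real.log ‖(c : ℂ)‖|, Eventually.of_forall fun t p => le_rfl⟩
  size := fun x _ => by
    obtain ⟨C, hC⟩ := R.size x
    refine ⟨2 * Real.pi * C, Eventually.of_forall fun t => ?_⟩
    have e : ∫ p in Set.Ioc 0 (2 * Real.pi),
        max (Real.log ‖((x : Ent) : ℂ → ℂ) (circleMap 0 (R.s t) p)‖) 0 =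
        2 * Real.pi * mp ((x : Ent) : ℂ → ℂ) (R.s t) := by
      have h1 := integral_circle (fun z => Real.posLog ‖((x : Ent) : ℂ → ℂ) z‖) (R.s t)
      rw [← mp] at h1
      rw [← h1]
      refine integral_congr_ae (Eventually.of_forall fun p => ?_)
      simp only [Real.posLog_apply]
      exact max_comm _ _
    rw [e]
    have h2 : 2 * Real.pi * mp ((x : Ent) : ℂ → ℂ) (R.s t) ≤ 2 * Real.pi * (C * R.N t) :=
      mul_le_mul_of_nonneg_left (hC t) (by positivity)
    linarith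
  low := fun x hx ε hε => by
    obtain ⟨z, hz⟩ := R.ne_zero_fun x hx
    filter_upwards [ev_hyper (R.N_lim.eventually_ge_atTop
      (2 * Real.pi * |L ((x : Ent) : ℂ → ℂ) 1| / ε))] with t h1
    rw [integral_circle (fun z => Real.log ‖((x : Ent) : ℂ → ℂ) z‖)]
    have h2 : L ((x : Ent) : ℂ → ℂ) 1 ≤ L ((x : Ent) : ℂ → ℂ) (R.s t) :=
      L_mono (x : Ent).2 one_pos (R.s_one t)
    have h3 := neg_abs_le (L ((x : Ent) : ℂ → ℂ) 1)
    rw [div_le_iff₀ hε] at h1
    have h4 : 2 * Real.pi * (-|L ((x : Ent) : ℂ → ℂ) 1|) ≤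
        2 * Real.pi * L ((x : Ent) : ℂ → ℂ) (R.s t) :=
      mul_le_mul_of_nonneg_left (h3.trans h2) (by positivity)
    change _ ≤ 2 * Real.pi * L ((x : Ent) : ℂ → ℂ) (R.s t)
    linarith
  sub := fun n φ q y hφ _ hy m Φ hΦ g hg hle ε hε => R.sub v hv n φ q y hφ hy m Φ hΦ g hg hle ε hε

/-- the evaluations at the points of the circles on the real axis -/
noncomputable def evl : Evl (E := E) (hyperfilter ℕ) (algebraMap k ℂ) where
  ev := fun t x => ((x : Ent) : ℂ → ℂ) (R.s t)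
  add := fun _ _ => Eventually.of_forall fun _ => rfl
  mul := fun _ _ => Eventually.of_forall fun _ => rfl
  alg := fun _ => Eventually.of_forall fun _ => rfl
  ne := fun x hx => by
    filter_upwards [ev_hyper (R.ne_sphere x hx)] with t ht
    have := ht 0
    simpa [circleMap] using this

end Circ

end Pool.Agent.K1H83.BL
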