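import Mathlib
import Pool.Agent.K1H83.BL.An6

/-!
Good circles for a finitely generated algebra of entire functions.
-/

set_option autoImplicit false

namespace Pool.Agent.K1H83.BL

open Filter Topology Metric MeasureTheory MvPolynomial Pool.Agent.H159R3.NV

theorem base_point (X : Set (ℂ → ℂ)) (hX : X.Countable) (hd : ∀ x ∈ X, Differentiable ℂ x)
    (hne : ∀ x ∈ X, ∃ z, x z ≠ 0) : ∃ a, ∀ x ∈ X, x a ≠ 0 := by
  have h1 : ∀ᵐ z : ℂ, ∀ x ∈ X, x z ≠ 0 := by
    rw [ae_ball_iff hX]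
    intro x hx
    obtain ⟨z, hz⟩ := hne x hx
    have h2 := AnalyticOnNhd.preimage_zero_mem_codiscrete (fun z _ => (hd x hx).analyticAt z) hz
    have h3 := ae_restrict_le_codiscreteWithin (μ := (volume : Measure ℂ)) MeasurableSet.univ h2
    rw [Measure.restrict_univ] at h3
    exact h3
  exact h1.exists

/-- the shift -/
noncomputable def sh (a : ℂ) : Ent →ₐ[ℂ] Ent where
  toFun x := ⟨fun z => (x : ℂ → ℂ) (z + a), x.2.comp (differentiable_id.add_const a)⟩
  map_one' := rfl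
  map_mul' _ _ := rfl
  map_zero' := rfl
  map_add' _ _ := rfl
  commutes' _ := rfl

theorem sh_apply (a : ℂ) (x : Ent) (z : ℂ) : ((sh a x : Ent) : ℂ → ℂ) z = (x : ℂ → ℂ) (z + a) := rfl

theorem sh_inj (a : ℂ) : Function.Injective (sh a) := by
  intro x y h
  apply Subtype.ext
  funext z
  have := congrFun (congrArg Subtype.val h) (z - a)
  change (x : ℂ → ℂ) (z - a + a) = (y : ℂ → ℂ) (z - a + a) at this
  rwa [sub_add_cancel] at this

theorem adjoin_countable {k : Subfield ℂ} [Countable k] {α : Type} [Finite α] (w : α → Ent) :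
    Countable (Algebra.adjoin k (Set.range w)) := by
  have : Countable (MvPolynomial α k) :=
    (AddMonoidAlgebra.coeffEquiv (R := k) (M := α →₀ ℕ)).injective.countable
  rw [Algebra.adjoin_range_eq_range_aeval]
  exact (Set.countable_range (aeval (R := k) w)).to_subtype

/-- **Good circles for a finitely generated algebra.** -/
theorem circ_exists {k : Subfield ℂ} [Countable k] {α : Type} [Fintype α] (w : α → Ent)
    (h0 : ∀ x ∈ Algebra.adjoin k (Set.range w), x ≠ 0 → (x : ℂ → ℂ) 0 ≠ 0) (a b : α)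
    (hab : w a * w b = 1) (hnc : ∃ z z', ‖(w a : ℂ → ℂ) z‖ ≠ ‖(w a : ℂ → ℂ) z'‖) :
    ∃ R : Circ (Algebra.adjoin k (Set.range w)),
      ∀ t, R.N t = 1 + ∑ i, mp (w i : ℂ → ℂ) (R.s t) := by
  classical
  set E := Algebra.adjoin k (Set.range w) with hE
  have hEc : Countable E := adjoin_countable w
  set NN : ℝ → ℝ := fun r => 1 + ∑ i, mp (w i : ℂ → ℂ) r with hNN
  have hpos : ∀ r, 1 ≤ r → 1 ≤ NN r := by
    intro r _
    have : 0 ≤ ∑ i, mp (w i : ℂ → ℂ) r := Finset.sum_nonneg fun i _ => mp_nonneg _ _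
    simp only [NN]
    linarith
  have hmono : ∀ r R, 1 ≤ r → r ≤ R → NN r ≤ NN R := by
    intro r R hr hrR
    simp only [NN]
    gcongr with i
    exact mp_mono (w i).2 (by linarith) hrR
  have hwa : ∀ z, (w a : ℂ → ℂ) z * (w b : ℂ → ℂ) z = 1 := fun z =>
    congrFun (congrArg Subtype.val hab) z
  have hane : a ≠ b := by
    rintro rfl
    obtain ⟨z, z', hz⟩ := hnc
    apply hz
    have h1 : ∀ z, ‖(w a : ℂ → ℂ) z‖ = 1 := by
      intro z
      have h2 := congrArg norm (hwa z)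
      rw [norm_mul, norm_one] at h2
      nlinarith [norm_nonneg ((w a : ℂ → ℂ) z)]
    rw [h1, h1]
  obtain ⟨c0, hc0, hlow⟩ : ∃ c0 : ℝ, 0 < c0 ∧ ∀ᶠ r in atTop, c0 * r ≤ NN r := by
    obtain ⟨z, z', hz⟩ := hnc
    obtain ⟨c, hc, h1⟩ := avg_ge (w a).2 (fun z h => by
      have := hwa z
      rw [h, zero_mul] at this
      exact zero_ne_one this) hz
    refine ⟨c, hc, ?_⟩
    filter_upwards [h1] with r hr
    rw [← mp_inv (w a).2 (w b).2 hwa] at hr
    have h2 : mp (w a : ℂ → ℂ) r + mp (w b : ℂ → ℂ) r ≤ ∑ i, mp (w i : ℂ → ℂ) r := by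
      have h3 : ∑ i ∈ ({a, b} : Finset α), mp (w i : ℂ → ℂ) r ≤ ∑ i, mp (w i : ℂ → ℂ) r :=
        Finset.sum_le_sum_of_subset_of_nonneg (Finset.subset_univ _)
          (fun i _ _ => mp_nonneg _ _)
      rwa [Finset.sum_pair hane] at h3
    simp only [NN]
    linarith
  have hsz : ∀ x ∈ E, ∃ C : ℝ, 0 ≤ C ∧ ∀ r, 1 ≤ r → mp (x : ℂ → ℂ) r ≤ C * NN r := by
    intro x hx
    induction hx using Algebra.adjoin_induction with
    | mem x hx =>
      obtain ⟨i, rfl⟩ := hx
      refine ⟨1, zero_le_one, fun r hr => ?_⟩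
      have h1 := Finset.single_le_sum (f := fun i => mp (w i : ℂ → ℂ) r)
        (fun i _ => mp_nonneg _ _) (Finset.mem_univ i)
      simp only [NN]
      linarith
    | algebraMap c =>
      refine ⟨Real.posLog ‖(c : ℂ)‖, Real.posLog_nonneg, fun r hr => ?_⟩
      have h1 : mp ((algebraMap k Ent c : Ent) : ℂ → ℂ) r = Real.posLog ‖(c : ℂ)‖ :=
        mp_const (c : ℂ) r
      rw [h1]
      have h2 := hpos r hr
      have h3 : 0 ≤ Real.posLog ‖(c : ℂ)‖ := Real.posLog_nonneg
      nlinarith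
    | add x y _ _ hx hy =>
      obtain ⟨C, hC0, hC⟩ := hx
      obtain ⟨D, hD0, hD⟩ := hy
      refine ⟨Real.log 2 + C + D, by positivity, fun r hr => ?_⟩
      have h1 : mp ((x + y : Ent) : ℂ → ℂ) r ≤ Real.log 2 + mp (x : ℂ → ℂ) r + mp (y : ℂ → ℂ) r :=
        mp_add x.2 y.2 r
      have h2 := hpos r hr
      have h3 := hC r hr
      have h4 := hD r hr
      have h5 : Real.log 2 ≤ Real.log 2 * NN r := by
        have : 0 ≤ Real.log 2 := Real.log_nonneg (by norm_num)
        nlinarith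
      nlinarith
    | mul x y _ _ hx hy =>
      obtain ⟨C, hC0, hC⟩ := hx
      obtain ⟨D, hD0, hD⟩ := hy
      refine ⟨C + D, by positivity, fun r hr => ?_⟩
      have h1 : mp ((x * y : Ent) : ℂ → ℂ) r ≤ mp (x : ℂ → ℂ) r + mp (y : ℂ → ℂ) r :=
        mp_mul x.2 y.2 r
      have h3 := hC r hr
      have h4 := hD r hr
      nlinarith
  set X : Set (ℂ → ℂ) := Set.range fun x : {x : E // x ≠ 0} => (((x : E) : Ent) : ℂ → ℂ) with hX
  have hXmem : ∀ x : E, x ≠ 0 → ((x : Ent) : ℂ → ℂ) ∈ X := fun x hx => ⟨⟨x, hx⟩, rfl⟩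
  obtain ⟨s, ε, h1, h2, h3, h4, h5, h6⟩ := seq_exists X (Set.countable_range _)
    (hXmem 1 one_ne_zero)
    (by rintro _ ⟨x, rfl⟩; exact ((x : E) : Ent).2)
    (by
      rintro _ ⟨x, rfl⟩
      exact h0 _ (x : E).2 (fun h => x.2 (Subtype.ext h)))
    NN hmono hpos hc0 hlow
    (by
      rintro _ ⟨x, rfl⟩
      obtain ⟨C, _, hC⟩ := hsz _ (x : E).2
      exact ⟨C, hC⟩)
  refine ⟨{ s := s
            ε := ε
            N := fun t => NN (s t)
            s_lim := h1
            s_one := h2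
            eps_pos := h3
            eps_le := h4
            eps := h5
            N_lim := (tendsto_atTop_mono' _ hlow (tendsto_id.const_mul_atTop hc0)).comp h1
            good := fun x hx => h6 _ (hXmem x hx)
            size := fun x => by
              obtain ⟨C, _, hC⟩ := hsz _ x.2
              exact ⟨C, fun t => hC _ (h2 t)⟩ }, fun t => rfl⟩

end Pool.Agent.K1H83.BL
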