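import Mathlib
import Pool.Agent.K1H83.BL.An7

/-!
The analytic form of the main theorem.
-/

set_option autoImplicit false

namespace Pool.Agent.K1H83.BL

open Filter Topology Metric MeasureTheory MvPolynomial Pool.Agent.H159R3.NV
  Pool.Agent.H159R3.Exp

theorem closure_countable (k₀ : Subfield ℂ) [Countable k₀] {r : ℕ} (γ : Fin r → ℂ) :
    Countable (Subfield.closure ((k₀ : Set ℂ) ∪ Set.range γ)) := by
  have h1 : Countable ((k₀ : Set ℂ) ∪ Set.range γ : Set ℂ) := by
    have h2 : (k₀ : Set ℂ).Countable := Set.to_countable _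
    exact (h2.union (Set.countable_range γ)).to_subtype
  rw [← Cardinal.mk_le_aleph0_iff]
  refine (Subfield.cardinalMk_closure_le_max _).trans ?_
  exact max_le (Cardinal.mk_le_aleph0_iff.mpr h1) le_rfl

/-- evaluation at a point -/
noncomputable def evE {k : Subfield ℂ} (E : Subalgebra k Ent) (w : ℂ) : E →ₐ[k] ℂ where
  toFun x := ((x : Ent) : ℂ → ℂ) w
  map_one' := rfl
  map_mul' _ _ := rfl
  map_zero' := rfl
  map_add' _ _ := rfl
  commutes' _ := rfl

theorem eval_E {k : Subfield ℂ} (E : Subalgebra k Ent) {n : ℕ} (z : Fin n → E)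
    (P : MvPolynomial (Fin n) k) (w : ℂ) :
    (((aeval z P : E) : Ent) : ℂ → ℂ) w =
      eval₂ (algebraMap k ℂ) (fun j => ((z j : Ent) : ℂ → ℂ) w) P := by
  have h1 := comp_aeval_apply (f := z) (evE E w) P
  exact h1

theorem alg_ind_E {k : Subfield ℂ} {E : Subalgebra k Ent} {l : ℕ} (v : Fin l → Eˣ)
    (hv : AlgebraicIndependent ℂ fun i => (((v i : Eˣ) : E) : Ent)) :
    AlgebraicIndependent k fun i => ((v i : Eˣ) : E) := by
  rw [algebraicIndependent_iff]
  intro p hp
  have h1 : aeval (fun i => (((v i : Eˣ) : E) : Ent)) (map (algebraMap k ℂ) p) = 0 := by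
    rw [aeval_map_algebraMap]
    have := comp_aeval_apply (f := fun i => ((v i : Eˣ) : E)) E.val p
    rw [hp, map_zero] at this
    exact this.symm
  have h2 := hv.eq_zero_of_aeval_eq_zero _ h1
  exact map_injective _ (algebraMap k ℂ).injective (by rw [h2, map_zero])

theorem const_of_norm_const {x : ℂ → ℂ} (hx : Differentiable ℂ x) {c : ℝ} (h : ∀ z, ‖x z‖ = c)
    (z w : ℂ) : x z = x w := by
  apply hx.apply_eq_apply_of_bounded
  rw [isBounded_iff_forall_norm_le]
  refine ⟨c, ?_⟩
  rintro _ ⟨y, rfl⟩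
  exact (h y).le

end Pool.Agent.K1H83.BL
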