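import Mathlib
import Pool.Agent.K1H83.BL.An8

/-!
The analytic form of the main theorem.
-/

set_option autoImplicit false

namespace Pool.Agent.K1H83.BL

open Filter Topology Metric MeasureTheory MvPolynomial Pool.Agent.H159R3.NV
  Pool.Agent.H159R3.Exp

/-- the core of the analytic theorem, at a good base point -/
theorem an_core {k : Subfield ℂ} [Countable k] {n r l : ℕ} {κ : Type} [Finite κ]
    (F : κ → MvPolynomial (Fin n) k) (U : Fin r → MvPolynomial (Fin n) k)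
    (H : MvPolynomial (Fin n) k) (z : Fin n → Ent) (v : Fin l → Entˣ)
    (hvind : ∀ α : Fin l → ℤ, chr v α ∈ cst → α = 0) (c : Fin r → k) (A : Fin r → Fin l → ℤ)
    (hgen : ∀ w : Fin l → ℤ, (∀ i, ∑ j, A i j * w j = 0) → w = 0)
    (hF : ∀ i w, eval₂ (algebraMap k ℂ) (fun j => (z j : ℂ → ℂ) w) (F i) = 0)
    (hU : ∀ i w, eval₂ (algebraMap k ℂ) (fun j => (z j : ℂ → ℂ) w) (U i) =
      algebraMap k ℂ (c i) * (((chr v (A i) : Entˣ) : Ent) : ℂ → ℂ) w)
    (hc : ∀ i, c i ≠ 0)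
    (hH : ∃ w, eval₂ (algebraMap k ℂ) (fun j => (z j : ℂ → ℂ) w) H ≠ 0)
    (halone : ∀ w, eval₂ (algebraMap k ℂ) (fun j => (z j : ℂ → ℂ) w) H ≠ 0 →
      ∀ z' : Fin n → ℂ, (∀ i, eval₂ (algebraMap k ℂ) z' (F i) = 0) →
        (∀ i, eval₂ (algebraMap k ℂ) z' (U i) =
          eval₂ (algebraMap k ℂ) (fun j => (z j : ℂ → ℂ) w) (U i)) →
        z' = fun j => (z j : ℂ → ℂ) w)
    (hl : 0 < l)
    (h0 : ∀ x ∈ Algebra.adjoin k (Set.range (Sum.elim z (Sum.elim
      (fun i => ((v i : Entˣ) : Ent)) (fun i => (((v i)⁻¹ : Entˣ) : Ent))))),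
      x ≠ 0 → (x : ℂ → ℂ) 0 ≠ 0) :
    ∃ w, eval₂ (algebraMap k ℂ) (fun j => (z j : ℂ → ℂ) w) H ≠ 0 ∧
      ∃ X : ℂ → Fin n → ℂ, (∀ j, Laur fun τ => X τ j) ∧ (X 1 = fun j => (z j : ℂ → ℂ) w) ∧
        (∀ τ, τ ≠ 0 → ∀ i, eval₂ (algebraMap k ℂ) (X τ) (F i) = 0) ∧
        ∃ τ, τ ≠ 0 ∧ X τ ≠ X 1 := by
  classical
  set g : Fin n ⊕ (Fin l ⊕ Fin l) → Ent := Sum.elim z (Sum.elim
      (fun i => ((v i : Entˣ) : Ent)) (fun i => (((v i)⁻¹ : Entˣ) : Ent))) with hg
  set E := Algebra.adjoin k (Set.range g) with hE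
  have hgE : ∀ a, g a ∈ E := fun a => Algebra.subset_adjoin (Set.mem_range_self a)
  let i0 : Fin l := ⟨0, hl⟩
  -- the first unit is not constant in norm
  have hnc : ∃ w w', ‖(g (Sum.inr (Sum.inl i0)) : ℂ → ℂ) w‖ ≠
      ‖(g (Sum.inr (Sum.inl i0)) : ℂ → ℂ) w'‖ := by
    by_contra hcon
    push Not at hcon
    have h1 := const_of_norm_const (v i0 : Ent).2 (c := ‖((v i0 : Ent) : ℂ → ℂ) 0‖)
      (fun w => hcon w 0)
    have h2 : chr v (Pi.single i0 1) ∈ cst := by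
      rw [chr_single]
      exact ⟨((v i0 : Ent) : ℂ → ℂ) 0, fun w => h1 w 0⟩
    have h3 := congrFun (hvind _ h2) i0
    simp at h3
  obtain ⟨R, hR⟩ := circ_exists g h0 (Sum.inr (Sum.inl i0)) (Sum.inr (Sum.inr i0))
    (by simp only [hg, Sum.elim_inr, Sum.elim_inl]; exact (v i0).mul_inv) hnc
  let v' : Fin l → Eˣ := fun i =>
    { val := ⟨(v i : Ent), hgE (Sum.inr (Sum.inl i))⟩
      inv := ⟨((v i)⁻¹ : Entˣ), hgE (Sum.inr (Sum.inr i))⟩
      val_inv := Subtype.ext (v i).mul_inv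
      inv_val := Subtype.ext (v i).inv_mul }
  let z' : Fin n → E := fun j => ⟨z j, hgE (Sum.inl j)⟩
  have hv' : AlgebraicIndependent ℂ fun i => (((v' i : Eˣ) : E) : Ent) := alg_ind v hvind
  have hv'k := alg_ind_E v' hv'
  have hchr : ∀ α : Fin l → ℤ, (((chr v' α : Eˣ) : E) : Ent) = ((chr v α : Entˣ) : Ent) := by
    intro α
    have h1 : ∀ i, Units.map (E.val : E →* Ent) (v' i) = v i := fun i => Units.ext rfl
    have h2 : Units.map (E.val : E →* Ent) (chr v' α) = chr v α := by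
      unfold chr
      rw [map_prod]
      refine Finset.prod_congr rfl fun i _ => ?_
      rw [map_zpow, h1]
    exact congrArg Units.val h2
  let D : Dio (E := E) k v' := R.dio v' hv'
  let V : Evl (E := E) D.𝒰 (algebraMap k ℂ) := R.evl
  have hz'w : ∀ (P : MvPolynomial (Fin n) k) w, (((aeval z' P : E) : Ent) : ℂ → ℂ) w =
      eval₂ (algebraMap k ℂ) (fun j => (z j : ℂ → ℂ) w) P := fun P w => eval_E E z' P w
  have hVt : ∀ t, (fun j => V.ev t (z' j)) = fun j => (z j : ℂ → ℂ) (R.s t) := fun t => rfl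
  have hFE : ∀ i, aeval z' (F i) = 0 := by
    intro i
    apply Subtype.ext
    apply Subtype.ext
    funext w
    rw [hz'w, hF]
    rfl
  have hUE : ∀ i, aeval z' (U i) = algebraMap k E (c i) * ((chr v' (A i) : Eˣ) : E) := by
    intro i
    apply Subtype.ext
    apply Subtype.ext
    funext w
    rw [hz'w, hU]
    have h1 := congrFun (congrArg Subtype.val (hchr (A i))) w
    change _ = algebraMap k ℂ (c i) * (((((chr v' (A i) : Eˣ) : E) : Ent)) : ℂ → ℂ) w
    rw [h1]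
  let J : Finset (Fin n) := Finset.univ.filter fun j => z' j ≠ 0
  -- `H` does not vanish
  have hHne : (aeval z' H : E) ≠ 0 := by
    intro h
    obtain ⟨w, hw⟩ := hH
    apply hw
    rw [← hz'w, h]
    rfl
  have hHt : ∀ᶠ t in (D.𝒰 : Filter ℕ),
      eval₂ (algebraMap k ℂ) (fun j => (z j : ℂ → ℂ) (R.s t)) H ≠ 0 := by
    filter_upwards [V.ne _ hHne] with t ht
    rw [← hz'w]
    exact ht
  have key := main_abs' D V z' F hFE U hv'k c hc A hUE hgen J
    (fun j hj => (Finset.mem_filter.mp hj).2)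
    (by
      refine ⟨1, Eventually.of_forall fun t => ?_⟩
      rw [one_mul]
      change R.N t ≤ _
      rw [hR t]
      have e1 : ∀ i, ∫ p, |D.lg ((v' i : Eˣ) : E) t p| ∂(D.μ t) = 2 * Real.pi *
          (mp ((v i : Ent) : ℂ → ℂ) (R.s t) + mp ((((v i)⁻¹ : Entˣ) : Ent) : ℂ → ℂ) (R.s t)) := by
        intro i
        rw [mp_inv (v i : Ent).2 (((v i)⁻¹ : Entˣ) : Ent).2 (fun w =>
          congrFun (congrArg Subtype.val (v i).mul_inv) w)]
        exact integral_circle (fun w => |Real.log ‖((v i : Ent) : ℂ → ℂ) w‖|) (R.s t)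
      have e2 : ∀ j, ∫ p, max (D.lg (z' j) t p) 0 ∂(D.μ t) = 2 * Real.pi *
          mp (z j : ℂ → ℂ) (R.s t) := by
        intro j
        have h1 := integral_circle (fun w => Real.posLog ‖(z j : ℂ → ℂ) w‖) (R.s t)
        rw [← mp] at h1
        rw [← h1]
        refine integral_congr_ae (Eventually.of_forall fun p => ?_)
        simp only [Real.posLog_apply]
        exact max_comm _ _
      simp only [e1, e2]
      rw [Fintype.sum_sum_type, Fintype.sum_sum_type]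
      simp only [hg, Sum.elim_inl, Sum.elim_inr]
      have h2pi : 1 ≤ 2 * Real.pi := by linarith [Real.pi_gt_three]
      have h3 : ∑ j, mp (z j : ℂ → ℂ) (R.s t) = ∑ j ∈ J, mp (z j : ℂ → ℂ) (R.s t) := by
        symm
        apply Finset.sum_subset (Finset.subset_univ _)
        intro j _ hj
        have h4 : z' j = 0 := by
          by_contra h5
          exact hj (Finset.mem_filter.mpr ⟨Finset.mem_univ _, h5⟩)
        have h5 : z j = 0 := congrArg Subtype.val h4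
        rw [h5]
        have h6 : ((0 : Ent) : ℂ → ℂ) = fun _ => 0 := rfl
        rw [h6, mp_const]
        simp
      rw [h3, ← Finset.mul_sum, ← Finset.mul_sum, Finset.sum_add_distrib]
      have a1 : 0 ≤ ∑ j ∈ J, mp (z j : ℂ → ℂ) (R.s t) :=
        Finset.sum_nonneg fun _ _ => mp_nonneg _ _
      have a2 : 0 ≤ ∑ i, mp ((v i : Ent) : ℂ → ℂ) (R.s t) :=
        Finset.sum_nonneg fun _ _ => mp_nonneg _ _
      have a3 : 0 ≤ ∑ i, mp ((((v i)⁻¹ : Entˣ) : Ent) : ℂ → ℂ) (R.s t) :=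
        Finset.sum_nonneg fun _ _ => mp_nonneg _ _
      nlinarith)
    (by
      filter_upwards [hHt] with t ht z'' h1 h2
      exact halone _ ht z'' h1 h2)
  obtain ⟨t, ⟨X, h1, h2, h3, h4⟩, h5⟩ := (key.and hHt).exists
  exact ⟨R.s t, h5, X, h1, h2, h3, h4⟩

end Pool.Agent.K1H83.BL
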