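import Mathlib
import Pool.Agent.K1H83.BL.An9
import Pool.Agent.H159R3.Exp.BLV

/-!
The analytic form of the main theorem.
-/

set_option autoImplicit false

namespace Pool.Agent.K1H83.BL

open Filter Topology Metric MeasureTheory MvPolynomial Pool.Agent.H159R3.NV
  Pool.Agent.H159R3.Exp

/-- **The analytic theorem.** An entire curve, all of whose points with `H ≠ 0` are alone in their
fibre for a tuple of polynomials without zeros on the curve, meets a nonconstant Laurent curve
at a point with `H ≠ 0`. -/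
theorem analytic (k₀ : Subfield ℂ) [Countable k₀] {n r : ℕ} {κ : Type} [Finite κ]
    (F : κ → MvPolynomial (Fin n) k₀) (U : Fin r → MvPolynomial (Fin n) k₀)
    (H : MvPolynomial (Fin n) k₀) (f : ℂ → Fin n → ℂ) (hf : Differentiable ℂ f)
    (hnc : ∃ w w', f w ≠ f w')
    (hF : ∀ w i, eval₂ (algebraMap k₀ ℂ) (f w) (F i) = 0)
    (hU : ∀ w i, eval₂ (algebraMap k₀ ℂ) (f w) (U i) ≠ 0)
    (hH : ∃ w, eval₂ (algebraMap k₀ ℂ) (f w) H ≠ 0)
    (halone : ∀ w, eval₂ (algebraMap k₀ ℂ) (f w) H ≠ 0 →
      ∀ z' : Fin n → ℂ, (∀ i, eval₂ (algebraMap k₀ ℂ) z' (F i) = 0) →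
        (∀ i, eval₂ (algebraMap k₀ ℂ) z' (U i) = eval₂ (algebraMap k₀ ℂ) (f w) (U i)) →
        z' = f w) :
    ∃ w, eval₂ (algebraMap k₀ ℂ) (f w) H ≠ 0 ∧
      ∃ X : ℂ → Fin n → ℂ, (∀ j, Laur fun τ => X τ j) ∧ X 1 = f w ∧
        (∀ τ, τ ≠ 0 → ∀ i, eval₂ (algebraMap k₀ ℂ) (X τ) (F i) = 0) ∧
        ∃ τ, τ ≠ 0 ∧ X τ ≠ X 1 := by
  classical
  have hfj : ∀ j, Differentiable ℂ fun w => f w j := differentiable_pi.mp hf
  have hdU : ∀ P : MvPolynomial (Fin n) k₀, Differentiable ℂ fun w =>
      eval₂ (algebraMap k₀ ℂ) (f w) P := by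
    intro P
    have h1 := differentiable_eval hf (map (algebraMap k₀ ℂ) P)
    simpa only [eval_map] using h1
  let u : Fin r → Entˣ := fun i => Ent.mkUnit _ (hdU (U i)) (fun w => hU w i)
  obtain ⟨l, v, c, A, B, hc, huv, hvB, hvind, hgen⟩ := lattice cst cst_sat u
  choose γ hγ using hc
  have hγ0 : ∀ i, γ i ≠ 0 := by
    intro i
    rw [← hγ i 0]
    exact Ent.unit_ne _ _
  have hUw : ∀ w i, eval₂ (algebraMap k₀ ℂ) (f w) (U i) =
      γ i * (((chr v (A i) : Entˣ) : Ent) : ℂ → ℂ) w := by
    intro w i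
    have h1 := congrFun (congrArg Subtype.val (congrArg Units.val (huv i))) w
    have h2 : (((u i : Entˣ) : Ent) : ℂ → ℂ) w = eval₂ (algebraMap k₀ ℂ) (f w) (U i) := rfl
    rw [← h2, ← hγ i w]
    exact h1
  rcases Nat.eq_zero_or_pos l with hl | hl
  · -- the units are constant
    exfalso
    subst hl
    obtain ⟨w0, hw0⟩ := hH
    have h1 : ∀ w i, eval₂ (algebraMap k₀ ℂ) (f w) (U i) = γ i := by
      intro w i
      rw [hUw w i]
      have : chr v (A i) = 1 := by
        unfold chr
        simp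
      rw [this]
      have h2 : (((1 : Entˣ) : Ent) : ℂ → ℂ) w = 1 := rfl
      rw [h2, mul_one]
    have h2 : ∀ w, f w = f w0 := by
      intro w
      apply halone w0 hw0 (f w) (hF w)
      intro i
      rw [h1, h1]
    obtain ⟨w, w', hww⟩ := hnc
    exact hww ((h2 w).trans (h2 w').symm)
  · -- the field of constants
    let k : Subfield ℂ := Subfield.closure ((k₀ : Set ℂ) ∪ Set.range γ)
    have hkc : Countable k := closure_countable k₀ γ
    have hk₀ : k₀ ≤ k := fun x hx => Subfield.subset_closure (Or.inl hx)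
    let inc : k₀ →+* k := Subfield.inclusion hk₀
    have hinc : (algebraMap k ℂ).comp inc = algebraMap k₀ ℂ := rfl
    have hev : ∀ (x : Fin n → ℂ) (P : MvPolynomial (Fin n) k₀),
        eval₂ (algebraMap k ℂ) x (map inc P) = eval₂ (algebraMap k₀ ℂ) x P := by
      intro x P
      rw [eval₂_map, hinc]
    let c' : Fin r → k := fun i => ⟨γ i, Subfield.subset_closure (Or.inr ⟨i, rfl⟩)⟩
    -- the generators
    let z : Fin n → Ent := fun j => ⟨fun w => f w j, hfj j⟩
    let g : Fin n ⊕ (Fin l ⊕ Fin l) → Ent := Sum.elim z (Sum.elim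
      (fun i => ((v i : Entˣ) : Ent)) (fun i => (((v i)⁻¹ : Entˣ) : Ent)))
    let E₁ := Algebra.adjoin k (Set.range g)
    have : Countable E₁ := adjoin_countable g
    obtain ⟨a, ha⟩ := base_point (Set.range fun x : {x : E₁ // x ≠ 0} =>
        (((x : E₁) : Ent) : ℂ → ℂ)) (Set.countable_range _)
      (by rintro _ ⟨x, rfl⟩; exact ((x : E₁) : Ent).2)
      (by
        rintro _ ⟨x, rfl⟩
        by_contra hcon
        push Not at hcon
        exact x.2 (Subtype.ext (Subtype.ext (funext hcon))))
    -- the shift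
    let z' : Fin n → Ent := fun j => sh a (z j)
    let v' : Fin l → Entˣ := fun i => Units.map (sh a : Ent →* Ent) (v i)
    have hchr : ∀ α, chr v' α = Units.map (sh a : Ent →* Ent) (chr v α) := by
      intro α
      unfold chr
      rw [map_prod]
      refine Finset.prod_congr rfl fun i _ => ?_
      rw [map_zpow]
    have hchr' : ∀ α w, (((chr v' α : Entˣ) : Ent) : ℂ → ℂ) w =
        (((chr v α : Entˣ) : Ent) : ℂ → ℂ) (w + a) := by
      intro α w
      rw [hchr]
      rfl
    have hgg : Sum.elim z' (Sum.elim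
        (fun i => ((v' i : Entˣ) : Ent)) (fun i => (((v' i)⁻¹ : Entˣ) : Ent))) =
        fun x => sh a (g x) := by
      funext x
      rcases x with j | i | i <;> rfl
    have hzf : ∀ w, (fun j => (z' j : ℂ → ℂ) w) = f (w + a) := fun w => rfl
    obtain ⟨w, hw, X, h1, h2, h3, h4⟩ := an_core (fun i => map inc (F i)) (fun i => map inc (U i))
      (map inc H) z' v'
      (by
        intro α hα
        apply hvind
        obtain ⟨b, hb⟩ := hα
        refine ⟨b, fun w => ?_⟩
        rw [← hb (w - a), hchr', sub_add_cancel])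
      c' A hgen
      (by
        intro i w
        rw [hev, hzf]
        exact hF _ i)
      (by
        intro i w
        rw [hev, hzf, hUw, hchr']
        rfl)
      (fun i h => hγ0 i (congrArg Subtype.val h))
      (by
        obtain ⟨w, hw⟩ := hH
        refine ⟨w - a, ?_⟩
        rw [hev, hzf, sub_add_cancel]
        exact hw)
      (by
        intro w hw x h1 h2
        rw [hzf]
        rw [hev, hzf] at hw
        apply halone _ hw x
        · intro i
          have := h1 i
          rwa [hev] at this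
        · intro i
          have := h2 i
          rwa [hev, hev, hzf] at this)
      hl
      (by
        rw [hgg]
        have e : Set.range (fun x => sh a (g x)) = ((sh a).restrictScalars k) '' Set.range g := by
          rw [← Set.range_comp]
          rfl
        rw [e, ← AlgHom.map_adjoin]
        rintro x ⟨y, hy, rfl⟩ hx
        have hy0 : y ≠ 0 := by
          rintro rfl
          exact hx (map_zero _)
        have h1 : (y : ℂ → ℂ) a ≠ 0 := ha _ ⟨⟨⟨y, hy⟩, fun h => hy0 (congrArg Subtype.val h)⟩, rfl⟩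
        change (y : ℂ → ℂ) (0 + a) ≠ 0
        rwa [zero_add])
    refine ⟨w + a, ?_, X, h1, h2, ?_, h4⟩
    · rw [hev, hzf] at hw
      exact hw
    · intro τ hτ i
      have := h3 τ hτ i
      rwa [hev] at this

end Pool.Agent.K1H83.BL
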