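import Mathlib
import Pool.Agent.K1H83.BL.Main2

/-!
The main theorem for points whose coordinates are in the field generated by units.
-/

set_option autoImplicit false
set_option linter.unusedSectionVars false

namespace Pool.Agent.K1H83.BL

open MvPolynomial Filter Topology MeasureTheory Pool.Agent.H159R3.Exp

/-- the weight of a monomial -/
def wt {l : ℕ} (w : Fin l → ℤ) (β : Fin l →₀ ℕ) : ℤ := ∑ i, (β i : ℤ) * w i

/-- the part of a polynomial of a given weight -/
noncomputable def part {k : Type} [Field k] {l : ℕ} (w : Fin l → ℤ) (m : ℤ)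
    (P : MvPolynomial (Fin l) k) : MvPolynomial (Fin l) k := by
  classical
  exact ∑ β ∈ P.support.filter (fun β => wt w β = m), monomial β (coeff β P)

theorem coeff_part {k : Type} [Field k] {l : ℕ} (w : Fin l → ℤ) (m : ℤ)
    (P : MvPolynomial (Fin l) k) (β : Fin l →₀ ℕ) (hβ : wt w β = m) :
    coeff β (part w m P) = coeff β P := by
  classical
  unfold part
  rw [coeff_sum]
  simp only [coeff_monomial]
  rw [Finset.sum_ite_eq']
  split_ifs with h
  · rfl
  · rw [Finset.mem_filter, not_and'] at h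
    exact (notMem_support_iff.mp (h hβ)).symm

/-- extraction of a coefficient of a Laurent polynomial -/
theorem laurent_coeff {ι : Type} (s : Finset ι) (e : ι → ℤ) (a : ι → ℂ)
    (h : ∀ τ : ℂ, τ ≠ 0 → ∑ i ∈ s, a i * τ ^ e i = 0) (μ : ℤ) :
    ∑ i ∈ s.filter (fun i => e i = μ), a i = 0 := by
  classical
  obtain ⟨M, hM, hMμ⟩ : ∃ M : ℕ, (∀ i ∈ s, 0 ≤ e i + M) ∧ 0 ≤ μ + M := by
    refine ⟨∑ i ∈ s, (e i).natAbs + μ.natAbs, fun i hi => ?_, ?_⟩
    · have h1 : (e i).natAbs ≤ ∑ i ∈ s, (e i).natAbs :=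
        Finset.single_le_sum (f := fun i => (e i).natAbs) (fun _ _ => Nat.zero_le _) hi
      push_cast
      have h2 : (((e i).natAbs : ℕ) : ℤ) ≤ ((∑ i ∈ s, (e i).natAbs : ℕ) : ℤ) := by exact_mod_cast h1
      push_cast at h2
      have h3 := neg_abs_le (e i)
      have h4 := abs_nonneg μ
      linarith
    · push_cast
      have h2 : (0 : ℤ) ≤ ∑ i ∈ s, |e i| := Finset.sum_nonneg fun _ _ => abs_nonneg _
      have h3 := neg_abs_le μ
      linarith
  let p : Polynomial ℂ := ∑ i ∈ s, Polynomial.C (a i) * Polynomial.X ^ (e i + M).toNat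
  have hp : p = 0 := by
    apply Polynomial.eq_zero_of_infinite_isRoot
    refine Set.Infinite.mono (s := {0}ᶜ) ?_ ?_
    · intro τ hτ
      change p.eval τ = 0
      have hτ' : τ ≠ 0 := hτ
      simp only [p]
      rw [Polynomial.eval_finsetSum]
      have h1 : ∀ i ∈ s, Polynomial.eval τ (Polynomial.C (a i) * Polynomial.X ^ (e i + M).toNat) =
          τ ^ M * (a i * τ ^ e i) := by
        intro i hi
        rw [Polynomial.eval_mul, Polynomial.eval_C, Polynomial.eval_pow, Polynomial.eval_X]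
        have h2 : τ ^ (e i + M).toNat = τ ^ (e i) * τ ^ M := by
          rw [← zpow_natCast τ (e i + M).toNat, Int.toNat_of_nonneg (hM i hi), zpow_add₀ hτ',
            zpow_natCast]
        rw [h2]
        ring
      rw [Finset.sum_congr rfl h1, ← Finset.mul_sum, h τ hτ', mul_zero]
    · exact Set.Finite.infinite_compl (Set.finite_singleton 0)
  have h1 := congrArg (fun q => Polynomial.coeff q (μ + M).toNat) hp
  simp only [p, Polynomial.finsetSum_coeff, Polynomial.coeff_C_mul, Polynomial.coeff_X_pow,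
    Polynomial.coeff_zero] at h1
  rw [Finset.sum_filter]
  refine Eq.trans (Finset.sum_congr rfl fun i hi => ?_) h1
  by_cases h2 : e i = μ
  · rw [if_pos h2, h2, if_pos rfl, mul_one]
  · rw [if_neg h2, if_neg, mul_zero]
    intro h3
    apply h2
    have h4 : (μ + M) = (e i + M) := by
      rw [← Int.toNat_of_nonneg hMμ, ← Int.toNat_of_nonneg (hM i hi), h3]
    omega

/-- a polynomial which scales with the weight `m` at a point has its parts of other weights
vanishing at this point -/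
theorem part_zero {k : Type} [Field k] (σ : k →+* ℂ) {l : ℕ} (w : Fin l → ℤ)
    (P : MvPolynomial (Fin l) k) (m μ : ℤ) (hμ : μ ≠ m) (y : Fin l → ℂ)
    (h : ∀ τ : ℂ, τ ≠ 0 → eval₂ σ (fun i => y i * τ ^ w i) P = τ ^ m * eval₂ σ y P) :
    eval₂ σ y (part w μ P) = 0 := by
  classical
  let s : Finset (Option (Fin l →₀ ℕ)) := insert none (P.support.map Function.Embedding.some)
  let e : Option (Fin l →₀ ℕ) → ℤ := fun o => o.elim m (wt w)
  let a : Option (Fin l →₀ ℕ) → ℂ := fun o => o.elim (-(eval₂ σ y P))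
    (fun β => σ (coeff β P) * ∏ i, y i ^ β i)
  have hnot : none ∉ P.support.map Function.Embedding.some := by simp
  have h1 := laurent_coeff s e a (by
    intro τ hτ
    have h2 := h τ hτ
    rw [eval₂_eq'] at h2
    rw [Finset.sum_insert hnot, Finset.sum_map]
    simp only [Function.Embedding.some_apply, e, a, Option.elim_none, Option.elim_some]
    have h3 : ∀ β ∈ P.support, σ (coeff β P) * (∏ i, y i ^ β i) * τ ^ wt w β =
        σ (coeff β P) * ∏ i, (y i * τ ^ w i) ^ β i := by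
      intro β _
      have h4 := eval_scale σ w (monomial β (coeff β P)) (wt w β) (by
        intro γ hγ
        have h5 := support_monomial_subset hγ
        rw [Finset.mem_singleton] at h5
        rw [h5]
        rfl) y τ hτ
      rw [eval₂_monomial, eval₂_monomial, Finsupp.prod_fintype _ _ (fun i => pow_zero _),
        Finsupp.prod_fintype _ _ (fun i => pow_zero _)] at h4
      rw [h4]
      ring
    rw [Finset.sum_congr rfl h3, h2]
    ring) μ
  have h5 : s.filter (fun o => e o = μ) =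
      (P.support.filter (fun β => wt w β = μ)).map Function.Embedding.some := by
    ext o
    rcases o with _ | β
    · simp [s, e, Ne.symm hμ]
    · simp [s, e]
  rw [h5, Finset.sum_map] at h1
  unfold part
  rw [eval₂_sum, ← h1]
  refine Finset.sum_congr rfl fun β _ => ?_
  rw [eval₂_monomial, Finsupp.prod_fintype _ _ (fun i => pow_zero _)]
  rfl

/-- **The main theorem for points in the field generated by the units.** -/
theorem main_rat {k E : Type} [Field k] [CommRing E] [IsDomain E] [Algebra k E]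
    {l : ℕ} {v : Fin l → Eˣ} (D : Dio k v) {σ : k →+* ℂ} (V : Evl (E := E) D.𝒰 σ) {n : ℕ}
    {κ : Type} [Finite κ] (z : Fin n → E) (F : κ → MvPolynomial (Fin n) k)
    (hF : ∀ i, aeval z (F i) = 0)
    (hv : AlgebraicIndependent k fun i => (v i : E))
    (hrat : ∀ j, ∃ P Q : MvPolynomial (Fin l) k, aeval (fun i => (v i : E)) Q ≠ 0 ∧
      z j * aeval (fun i => (v i : E)) Q = aeval (fun i => (v i : E)) P)
    (hmin : ∀ w : Fin l → ℤ, w ≠ 0 → ∃ j, ∀ P Q : MvPolynomial (Fin l) k,
      aeval (fun i => (v i : E)) Q ≠ 0 →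
      z j * aeval (fun i => (v i : E)) Q = aeval (fun i => (v i : E)) P →
      ∀ m : ℤ, ¬ ((∀ β ∈ P.support, wt w β = m) ∧ ∀ β ∈ Q.support, wt w β = m))
    (J : Finset (Fin n)) (hJ : ∀ j ∈ J, z j ≠ 0)
    (hN : ∃ C : ℝ, ∀ᶠ t in (D.𝒰 : Filter ℕ),
      D.N t ≤ C * (1 + ∑ i, ∫ p, |D.lg (v i : E) t p| ∂(D.μ t) +
        ∑ j ∈ J, ∫ p, max (D.lg (z j) t p) 0 ∂(D.μ t))) :
    ∀ᶠ t in (D.𝒰 : Filter ℕ), ∃ X : ℂ → Fin n → ℂ, (∀ j, Laur fun τ => X τ j) ∧
      (X 1 = fun j => V.ev t (z j)) ∧ (∀ τ, τ ≠ 0 → ∀ i, eval₂ σ (X τ) (F i) = 0) ∧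
      ∃ τ, τ ≠ 0 ∧ X τ ≠ X 1 := by
  classical
  have hN' := Dio.scale J hJ hrat hN
  have hinj : Function.Injective (aeval (R := k) fun i => (v i : E)) := hv
  -- the coordinates as quotients of coprime polynomials
  have hPQ : ∀ j, ∃ P Q : MvPolynomial (Fin l) k, Q ≠ 0 ∧ (P ≠ 0 ∨ Q = 1) ∧ IsRelPrime P Q ∧
      z j * aeval (fun i => (v i : E)) Q = aeval (fun i => (v i : E)) P := by
    intro j
    obtain ⟨P, Q, hQ, hPQ⟩ := hrat j
    have hQ0 : Q ≠ 0 := fun h => hQ (by rw [h, map_zero])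
    by_cases hP : P = 0
    · refine ⟨0, 1, one_ne_zero, Or.inr rfl, isRelPrime_one_right, ?_⟩
      rw [hP, map_zero] at hPQ
      rw [(mul_eq_zero.1 hPQ).resolve_right hQ, map_zero, zero_mul]
    · obtain ⟨P', Q', g, hrel, hP', hQ'⟩ := UniqueFactorizationMonoid.exists_reduced_factors' P Q hQ0
      have hg : g ≠ 0 := by
        rintro rfl
        rw [zero_mul] at hQ'
        exact hQ0 hQ'.symm
      refine ⟨P', Q', ?_, Or.inl ?_, hrel, ?_⟩
      · rintro rfl
        rw [mul_zero] at hQ'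
        exact hQ0 hQ'.symm
      · rintro rfl
        rw [mul_zero] at hP'
        exact hP hP'.symm
      · have hg' : aeval (fun i => (v i : E)) g ≠ 0 := by
          intro h0
          exact hg (hinj (by rw [h0, map_zero]))
        apply mul_left_cancel₀ hg'
        rw [← hP', ← hQ', map_mul, map_mul] at hPQ
        rw [← hPQ]
        ring
  choose P Q hQ0 hP0 hrel hz using hPQ
  obtain ⟨w, hw0, hw⟩ := Dio.weights (D := D) v hN'
  have hwQ : ∀ j, ∀ β ∈ (Q j).support, ∀ β' ∈ (Q j).support,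
      ∑ i, (β i : ℤ) * w i = ∑ i, (β' i : ℤ) * w i := by
    intro j β hβ β' hβ'
    rcases hP0 j with h | h
    · exact Dio.den_weight hv h (hrel j) (hz j) hw hβ hβ'
    · rw [h] at hβ hβ'
      have h1 : ∀ γ ∈ (1 : MvPolynomial (Fin l) k).support, γ = 0 := by
        intro γ hγ
        rw [mem_support_iff, coeff_one] at hγ
        by_contra hne
        exact hγ (if_neg (Ne.symm hne))
      rw [h1 β hβ, h1 β' hβ']
  have hFE : ∀ i, aeval (Sum.elim (fun i => (v i : E)) z) (rename Sum.inr (F i)) = 0 := by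
    intro i
    rw [aeval_rename, Sum.elim_comp_inr]
    exact hF i
  have hQE : ∀ j, aeval (fun i => (v i : E)) (Q j) ≠ 0 := fun j h0 =>
    hQ0 j (hinj (by rw [h0, map_zero]))
  -- the coordinate which changes
  obtain ⟨j0, hj0⟩ := hmin w hw0
  obtain ⟨γ, hγ⟩ : ∃ γ, γ ∈ (Q j0).support := by
    have := (support_nonempty (p := Q j0)).mpr (hQ0 j0)
    exact this
  obtain ⟨β, hβ, hβm⟩ : ∃ β ∈ (P j0).support, wt w β ≠ wt w γ := by
    by_contra hcon
    push Not at hcon
    exact hj0 (P j0) (Q j0) (hQE j0) (hz j0) (wt w γ) ⟨hcon, fun β hβ => hwQ j0 β hβ γ hγ⟩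
  have hpart : aeval (fun i => (v i : E)) (part w (wt w β) (P j0)) ≠ 0 := by
    intro h0
    have h1 : part w (wt w β) (P j0) = 0 := hinj (by rw [h0, map_zero])
    have h2 := coeff_part w (wt w β) (P j0) β rfl
    rw [h1, coeff_zero] at h2
    exact mem_support_iff.mp hβ h2.symm
  have hev1 : ∀ᶠ t in (D.𝒰 : Filter ℕ),
      eval₂ σ (fun i => V.ev t (v i : E)) (part w (wt w β) (P j0)) ≠ 0 := by
    filter_upwards [V.eval (fun i => (v i : E)) (part w (wt w β) (P j0)), V.ne _ hpart]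
      with t h1 h2
    rwa [← h1]
  have hev2 : ∀ᶠ t in (D.𝒰 : Filter ℕ), ∀ j,
      eval₂ σ (fun i => V.ev t (v i : E)) (Q j) ≠ 0 ∧
      V.ev t (z j) * eval₂ σ (fun i => V.ev t (v i : E)) (Q j) =
        eval₂ σ (fun i => V.ev t (v i : E)) (P j) := by
    rw [eventually_all]
    intro j
    filter_upwards [V.eval (fun i => (v i : E)) (Q j), V.eval (fun i => (v i : E)) (P j),
      V.ne _ (hQE j), V.mul (z j) (aeval (fun i => (v i : E)) (Q j))] with t h1 h2 h3 h4
    rw [← h1, ← h2]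
    refine ⟨h3, ?_⟩
    rw [← h4, hz j]
  filter_upwards [hev1, hev2] with t h1 h2
  obtain ⟨Xc, hL, hX1, hXτ⟩ := exists_curve σ P Q w hwQ (fun i => V.ev t (v i : E))
    (fun j => (h2 j).1) (fun j => V.ev t (z j)) (fun j => (h2 j).2)
  have htr : ∀ (f : MvPolynomial (Fin l ⊕ Fin n) k),
      aeval (Sum.elim (fun i => (v i : E)) z) f = 0 → ∀ τ, τ ≠ 0 →
      eval₂ σ (Sum.elim (fun i => V.ev t (v i : E) * τ ^ w i) (Xc τ)) f = 0 := by
    intro f hf τ hτ
    exact transfer hv hz f hf ℂ σ _ _ (fun j => (hXτ τ hτ j).1) (fun j => (hXτ τ hτ j).2)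
  refine ⟨Xc, hL, hX1, ?_, ?_⟩
  · intro τ hτ i
    have h3 := htr _ (hFE i) τ hτ
    rwa [eval₂_rename, Sum.elim_comp_inr] at h3
  · by_contra hcon
    push Not at hcon
    apply h1
    apply part_zero σ w (P j0) (wt w γ) (wt w β) hβm
    intro τ hτ
    have h3 := (hXτ τ hτ j0).2
    have h4 := eval_scale σ w (Q j0) (wt w γ) (fun β' hβ' => hwQ j0 β' hβ' γ hγ)
      (fun i => V.ev t (v i : E)) τ hτ
    rw [hcon τ hτ, hX1, h4] at h3
    rw [← h3, ← (h2 j0).2]
    ring

end Pool.Agent.K1H83.BL
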