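import Mathlib
import Pool.Agent.K1H83.BL.Rat

/-!
A minimal set of units which generates a given set of elements.
-/

set_option autoImplicit false
set_option linter.unusedSectionVars false

namespace Pool.Agent.K1H83.BL

open MvPolynomial Module

section

variable {k R : Type} [Field k] [CommRing R] [IsDomain R] [Algebra k R]

/-- the elements `z j` are quotients of polynomials in the units `v i` -/
def Gen (k : Type) {R : Type} [Field k] [CommRing R] [Algebra k R] {l n : ℕ} (v : Fin l → Rˣ)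
    (z : Fin n → R) : Prop :=
  ∀ j, ∃ P Q : MvPolynomial (Fin l) k, aeval (fun i => (v i : R)) Q ≠ 0 ∧
    z j * aeval (fun i => (v i : R)) Q = aeval (fun i => (v i : R)) P

/-- a monomial in the units -/
def mo {l : ℕ} (v : Fin l → Rˣ) (δ : Fin l → ℕ) : R := ∏ j, (v j : R) ^ δ j

theorem mo_add {l : ℕ} (v : Fin l → Rˣ) (δ ε : Fin l → ℕ) :
    mo v (δ + ε) = mo v δ * mo v ε := by
  unfold mo
  rw [← Finset.prod_mul_distrib]
  exact Finset.prod_congr rfl fun j _ => pow_add _ _ _

theorem mo_ne {l : ℕ} (v : Fin l → Rˣ) (δ : Fin l → ℕ) : mo v δ ≠ 0 :=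
  Finset.prod_ne_zero_iff.mpr fun j _ => pow_ne_zero _ (v j).ne_zero

theorem mo_zero {l : ℕ} (v : Fin l → Rˣ) : mo v 0 = 1 := by
  unfold mo
  simp

/-- the monomial as a polynomial -/
noncomputable def mX {l : ℕ} (k : Type) [Field k] (δ : Fin l → ℕ) : MvPolynomial (Fin l) k :=
  ∏ j, X j ^ δ j

theorem aeval_mX {l : ℕ} (v : Fin l → Rˣ) (δ : Fin l → ℕ) :
    aeval (fun i => (v i : R)) (mX k δ) = mo v δ := by
  unfold mX mo
  rw [map_prod]
  exact Finset.prod_congr rfl fun j _ => by rw [map_pow, aeval_X]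

theorem chr_mo {l : ℕ} (v : Fin l → Rˣ) (a : Fin l → ℤ) :
    ((chr v a : Rˣ) : R) * mo v (fun j => (-(a j)).toNat) = mo v (fun j => (a j).toNat) := by
  have h1 : chr v a * ∏ j, v j ^ (-(a j)).toNat = ∏ j, v j ^ (a j).toNat := by
    unfold chr
    rw [← Finset.prod_mul_distrib]
    refine Finset.prod_congr rfl fun j _ => ?_
    rw [← zpow_natCast, ← zpow_natCast, ← zpow_add]
    congr 1
    omega
  have h2 := congrArg (fun x : Rˣ => (x : R)) h1
  simp only [Units.val_mul, Units.coe_prod, Units.val_pow_eq_pow_val] at h2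
  exact h2

/-- substitution of monomials -/
theorem conv {r l : ℕ} (u : Fin r → Rˣ) (v : Fin l → Rˣ) (c : Fin r → k) (A : Fin r → Fin l → ℤ)
    (hu : ∀ i, (u i : R) = algebraMap k R (c i) * ((chr v (A i) : Rˣ) : R))
    (P : MvPolynomial (Fin r) k) :
    ∃ (δ : Fin l → ℕ) (P' : MvPolynomial (Fin l) k),
      aeval (fun i => (u i : R)) P * mo v δ = aeval (fun i => (v i : R)) P' := by
  induction P using MvPolynomial.induction_on with
  | C a =>
    refine ⟨0, C a, ?_⟩
    rw [mo_zero, mul_one, aeval_C, aeval_C]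
  | add p q hp hq =>
    obtain ⟨δ, p', hp⟩ := hp
    obtain ⟨ε, q', hq⟩ := hq
    refine ⟨δ + ε, p' * mX k ε + q' * mX k δ, ?_⟩
    rw [map_add, map_add, map_mul, map_mul, ← hp, ← hq, aeval_mX, aeval_mX, mo_add]
    ring
  | mul_X p i hp =>
    obtain ⟨δ, p', hp⟩ := hp
    refine ⟨δ + (fun j => (-(A i j)).toNat), C (c i) * p' * mX k (fun j => (A i j).toNat), ?_⟩
    rw [map_mul, map_mul, map_mul, aeval_X, aeval_mX, ← chr_mo, ← hp, aeval_C, hu i, mo_add]
    ring

theorem gen_conv {r l n : ℕ} (u : Fin r → Rˣ) (v : Fin l → Rˣ) (c : Fin r → k)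
    (A : Fin r → Fin l → ℤ)
    (hu : ∀ i, (u i : R) = algebraMap k R (c i) * ((chr v (A i) : Rˣ) : R)) {z : Fin n → R}
    (h : Gen k u z) : Gen k v z := by
  intro j
  obtain ⟨P, Q, hQ, hPQ⟩ := h j
  obtain ⟨δ, P', hP'⟩ := conv u v c A hu P
  obtain ⟨ε, Q', hQ'⟩ := conv u v c A hu Q
  refine ⟨P' * mX k ε, Q' * mX k δ, ?_, ?_⟩
  · rw [map_mul, aeval_mX, ← hQ']
    exact mul_ne_zero (mul_ne_zero hQ (mo_ne _ _)) (mo_ne _ _)
  · rw [map_mul, map_mul, aeval_mX, aeval_mX, ← hQ', ← hP', ← hPQ]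
    ring

/-- homogeneous polynomials are polynomials in fewer units -/
theorem homog {l l' : ℕ} (v : Fin l → Rˣ) (v' : Fin l' → Rˣ) (w : Fin l → ℤ)
    (hv' : ∀ α : Fin l → ℤ, ∑ i, α i * w i = 0 → ∃ γ : Fin l' → ℤ, chr v α = chr v' γ)
    (β₀ : Fin l →₀ ℕ) (P : MvPolynomial (Fin l) k) (hP : ∀ β ∈ P.support, wt w β = wt w β₀) :
    ∃ (δ : Fin l' → ℕ) (P' : MvPolynomial (Fin l') k),
      aeval (fun i => (v i : R)) P * mo v' δ =
        mo v (fun i => β₀ i) * aeval (fun i => (v' i : R)) P' := by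
  classical
  have key : ∀ s : Finset (Fin l →₀ ℕ), s ⊆ P.support →
      ∃ (δ : Fin l' → ℕ) (P' : MvPolynomial (Fin l') k),
      aeval (fun i => (v i : R)) (∑ β ∈ s, monomial β (coeff β P)) * mo v' δ =
        mo v (fun i => β₀ i) * aeval (fun i => (v' i : R)) P' := by
    intro s
    induction s using Finset.induction_on with
    | empty =>
      intro _
      exact ⟨0, 0, by simp⟩
    | insert β s hβ ih =>
      intro hs
      obtain ⟨δ, P', hP'⟩ := ih ((Finset.subset_insert _ _).trans hs)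
      have h1 : ∑ i, ((β i : ℤ) - β₀ i) * w i = 0 := by
        have h2 := hP β (hs (Finset.mem_insert_self _ _))
        unfold wt at h2
        simp only [sub_mul, Finset.sum_sub_distrib]
        linarith
      obtain ⟨γ, hγ⟩ := hv' _ h1
      have h3 : aeval (fun i => (v i : R)) (monomial β (coeff β P)) =
          algebraMap k R (coeff β P) * (mo v (fun i => β₀ i) * ((chr v' γ : Rˣ) : R)) := by
        rw [aeval_monomial, Finsupp.prod_fintype _ _ (fun i => pow_zero _), ← hγ]
        congr 1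
        have h4 : (∏ i, v i ^ β i : Rˣ) = (∏ i, v i ^ β₀ i) *
            chr v (fun i => (β i : ℤ) - β₀ i) := by
          unfold chr
          rw [← Finset.prod_mul_distrib]
          refine Finset.prod_congr rfl fun i _ => ?_
          rw [← zpow_natCast, ← zpow_natCast, ← zpow_add]
          congr 1
          ring
        have h5 := congrArg (fun x : Rˣ => (x : R)) h4
        simp only [Units.val_mul, Units.coe_prod, Units.val_pow_eq_pow_val] at h5
        exact h5
      refine ⟨δ + (fun j => (-(γ j)).toNat), P' * mX k (fun j => (-(γ j)).toNat) +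
        C (coeff β P) * mX k (fun j => (γ j).toNat) * mX k δ, ?_⟩
      have h6 := chr_mo v' γ
      rw [Finset.sum_insert hβ, map_add, h3, map_add, map_mul, map_mul, map_mul, aeval_mX,
        aeval_mX, aeval_mX, aeval_C, mo_add]
      linear_combination mo v' (fun j => (-(γ j)).toNat) * hP' +
        algebraMap k R (coeff β P) * mo v (fun i => β₀ i) * mo v' δ * h6
  obtain ⟨δ, P', h⟩ := key P.support (Finset.Subset.refl _)
  refine ⟨δ, P', ?_⟩
  rwa [← P.as_sum] at h

end

end Pool.Agent.K1H83.BL
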