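import Mathlib
import Pool.Agent.K1H83.BL.Min

/-!
A minimal set of units which generates a given set of elements.
-/

set_option autoImplicit false
set_option linter.unusedSectionVars false

namespace Pool.Agent.K1H83.BL

open MvPolynomial Module

section

variable {k R : Type} [Field k] [CommRing R] [IsDomain R] [Algebra k R]

/-- the pairing with `w` -/
def pairW {l : ℕ} (w : Fin l → ℤ) : (Fin l → ℤ) →ₗ[ℤ] ℤ where
  toFun a := ∑ i, a i * w i
  map_add' a b := by
    rw [← Finset.sum_add_distrib]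
    exact Finset.sum_congr rfl fun i _ => by rw [Pi.add_apply, add_mul]
  map_smul' c a := by
    rw [RingHom.id_apply, smul_eq_mul, Finset.mul_sum]
    exact Finset.sum_congr rfl fun i _ => by rw [Pi.smul_apply, smul_eq_mul, mul_assoc]

theorem ker_rank {l : ℕ} (w : Fin l → ℤ) (hw : w ≠ 0) :
    finrank ℤ (LinearMap.ker (pairW w)) < l := by
  have h1 := Submodule.finrank_quotient_add_finrank (LinearMap.ker (pairW w))
  rw [Module.finrank_fin_fun, (LinearMap.quotKerEquivRange (pairW w)).finrank_eq] at h1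
  have h2 : 0 < finrank ℤ (LinearMap.range (pairW w)) := by
    have h3 : Nontrivial (LinearMap.range (pairW w)) := by
      rw [Submodule.nontrivial_iff_ne_bot, Ne, LinearMap.range_eq_bot]
      intro h0
      apply hw
      funext i
      have h4 := LinearMap.congr_fun h0 (Pi.single i 1)
      have h5 : pairW w (Pi.single i 1) = w i := by
        change ∑ j, (Pi.single i (1 : ℤ) : Fin l → ℤ) j * w j = w i
        rw [Finset.sum_eq_single i]
        · rw [Pi.single_eq_same, one_mul]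
        · intro j _ hj
          rw [Pi.single_eq_of_ne hj, zero_mul]
        · intro h
          exact absurd (Finset.mem_univ i) h
      rw [h5] at h4
      exact h4
    exact Module.finrank_pos
  omega

theorem drop (C : Subgroup Rˣ) {l n : ℕ} (v : Fin l → Rˣ)
    (hv : ∀ α : Fin l → ℤ, chr v α ∈ C → α = 0) (z : Fin n → R) (w : Fin l → ℤ) (hw : w ≠ 0)
    (h : ∀ j, ∃ P Q : MvPolynomial (Fin l) k, aeval (fun i => (v i : R)) Q ≠ 0 ∧
      z j * aeval (fun i => (v i : R)) Q = aeval (fun i => (v i : R)) P ∧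
      ∃ m : ℤ, (∀ β ∈ P.support, wt w β = m) ∧ ∀ β ∈ Q.support, wt w β = m) :
    ∃ l' < l, ∃ (v' : Fin l' → Rˣ) (B : Fin l' → Fin l → ℤ), (∀ i, v' i = chr v (B i)) ∧
      (∀ α : Fin l' → ℤ, chr v' α ∈ C → α = 0) ∧ Gen k v' z := by
  classical
  let X : Submodule ℤ (Fin l → ℤ) := LinearMap.ker (pairW w)
  let b := Module.finBasis ℤ X
  let l' := finrank ℤ X
  let v' : Fin l' → Rˣ := fun i => chr v (b i : Fin l → ℤ)
  have hchr : ∀ γ : Fin l' → ℤ, chr v' γ = chr v (∑ i, γ i • (b i : Fin l → ℤ)) := by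
    intro γ
    rw [chr_sum]
    unfold chr
    refine Finset.prod_congr rfl fun i _ => ?_
    have := chr_smul v (γ i) (b i : Fin l → ℤ)
    unfold chr at this
    exact this.symm
  refine ⟨l', ker_rank w hw, v', fun i => (b i : Fin l → ℤ), fun i => rfl, ?_, ?_⟩
  · intro γ hγ
    rw [hchr] at hγ
    have h1 := hv _ hγ
    have h2 : ∑ i, γ i • b i = 0 := by
      apply Subtype.ext
      rw [ZeroMemClass.coe_zero, ← h1]
      simp
    have h3 := Fintype.linearIndependent_iff.mp b.linearIndependent γ h2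
    exact funext h3
  · have hv' : ∀ α : Fin l → ℤ, ∑ i, α i * w i = 0 → ∃ γ : Fin l' → ℤ, chr v α = chr v' γ := by
      intro α hα
      have h1 : α ∈ X := hα
      refine ⟨fun i => b.repr ⟨α, h1⟩ i, ?_⟩
      rw [hchr]
      congr 1
      have h2 := b.sum_repr ⟨α, h1⟩
      have h3 := congrArg Subtype.val h2
      rw [AddSubmonoidClass.coe_finsetSum] at h3
      exact h3.symm
    intro j
    obtain ⟨P, Q, hQ, hPQ, m, hP', hQ'⟩ := h j
    have hQ0 : Q ≠ 0 := by
      rintro rfl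
      exact hQ (map_zero _)
    obtain ⟨β₀, hβ₀⟩ := (support_nonempty (p := Q)).mpr hQ0
    have hm := hQ' β₀ hβ₀
    obtain ⟨δ, P₁, h1⟩ := homog (k := k) v v' w hv' β₀ P (fun β hβ => by rw [hP' β hβ, hm])
    obtain ⟨ε, Q₁, h2⟩ := homog (k := k) v v' w hv' β₀ Q (fun β hβ => by rw [hQ' β hβ, hm])
    refine ⟨P₁ * mX k ε, Q₁ * mX k δ, ?_, ?_⟩
    · rw [map_mul, aeval_mX]
      refine mul_ne_zero ?_ (mo_ne _ _)
      intro h3
      rw [h3, mul_zero] at h2
      exact mul_ne_zero hQ (mo_ne _ _) h2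
    · rw [map_mul, map_mul, aeval_mX, aeval_mX]
      apply mul_left_cancel₀ (mo_ne v fun i => β₀ i)
      rw [← hPQ] at h1
      linear_combination mo v' ε * h1 - z j * mo v' δ * h2

/-- **A minimal set of generating units.** -/
theorem min_exists (C : Subgroup Rˣ) (hC : ∀ (x : Rˣ) (n : ℤ), n ≠ 0 → x ^ n ∈ C → x ∈ C)
    (hCk : ∀ x ∈ C, ∃ c : k, (x : R) = algebraMap k R c) {r n : ℕ} (u : Fin r → Rˣ)
    (z : Fin n → R) (h : Gen k u z) :
    ∃ (l : ℕ) (v : Fin l → Rˣ) (B : Fin l → Fin r → ℤ), (∀ j, v j = chr u (B j)) ∧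
      (∀ α : Fin l → ℤ, chr v α ∈ C → α = 0) ∧ Gen k v z ∧
      ∀ w : Fin l → ℤ, w ≠ 0 → ∃ j, ∀ P Q : MvPolynomial (Fin l) k,
        aeval (fun i => (v i : R)) Q ≠ 0 →
        z j * aeval (fun i => (v i : R)) Q = aeval (fun i => (v i : R)) P →
        ∀ m : ℤ, ¬ ((∀ β ∈ P.support, wt w β = m) ∧ ∀ β ∈ Q.support, wt w β = m) := by
  classical
  let p : ℕ → Prop := fun l => ∃ (v : Fin l → Rˣ) (B : Fin l → Fin r → ℤ),
    (∀ j, v j = chr u (B j)) ∧ (∀ α : Fin l → ℤ, chr v α ∈ C → α = 0) ∧ Gen k v z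
  have hp : ∃ l, p l := by
    obtain ⟨l, v, c, A, B, hc, huv, hvB, hvind, -⟩ := lattice C hC u
    choose c' hc' using fun i => hCk (c i) (hc i)
    refine ⟨l, v, B, hvB, hvind, gen_conv u v c' A (fun i => ?_) h⟩
    rw [huv i, Units.val_mul, hc' i]
  obtain ⟨v, B, hvB, hvind, hgen⟩ := Nat.find_spec hp
  refine ⟨Nat.find hp, v, B, hvB, hvind, hgen, ?_⟩
  intro w hw
  by_contra hcon
  push Not at hcon
  obtain ⟨l', hl', v', B', hv'B, hv'ind, hgen'⟩ := drop C v hvind z w hw (fun j => by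
    obtain ⟨P, Q, hQ, hPQ, m, hm⟩ := hcon j
    exact ⟨P, Q, hQ, hPQ, m, hm⟩)
  refine Nat.find_min hp hl' ⟨v', fun i => ∑ j, B' i j • B j, fun i => ?_, hv'ind, hgen'⟩
  rw [hv'B, chr_sum]
  unfold chr
  refine Finset.prod_congr rfl fun j _ => ?_
  rw [hvB j]
  have := chr_smul u (B' i j) (B j)
  unfold chr at this ⊢
  exact this.symm

end

end Pool.Agent.K1H83.BL
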