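import Mathlib
import Pool.Agent.K1H83.BL.An10
import Pool.Agent.K1H83.BL.Drop

/-!
The analytic form of the main theorem for points in the field generated by units.
-/

set_option autoImplicit false

namespace Pool.Agent.K1H83.BL

open Filter Topology Metric MeasureTheory MvPolynomial Pool.Agent.H159R3.NV
  Pool.Agent.H159R3.Exp

theorem closure_countable' (S : Set ℂ) (hS : S.Countable) : Countable (Subfield.closure S) := by
  rw [← Cardinal.mk_le_aleph0_iff]
  refine (Subfield.cardinalMk_closure_le_max _).trans ?_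
  exact max_le (Cardinal.mk_le_aleph0_iff.mpr hS.to_subtype) le_rfl

theorem aeval_E {k : Subfield ℂ} (E : Subalgebra k Ent) {l : ℕ} (v : Fin l → E)
    (P : MvPolynomial (Fin l) k) :
    ((aeval v P : E) : Ent) = aeval (fun i => ((v i : E) : Ent)) P :=
  comp_aeval_apply (f := v) E.val P

/-- the core of the analytic theorem, at a good base point -/
theorem an_core_rat {k : Subfield ℂ} [Countable k] {n l : ℕ} {κ : Type} [Finite κ]
    (F : κ → MvPolynomial (Fin n) k)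
    (H : MvPolynomial (Fin n) k) (z : Fin n → Ent) (v : Fin l → Entˣ)
    (hvind : ∀ α : Fin l → ℤ, chr v α ∈ cst → α = 0)
    (hrat : Gen k v z)
    (hmin : ∀ w : Fin l → ℤ, w ≠ 0 → ∃ j, ∀ P Q : MvPolynomial (Fin l) k,
      aeval (fun i => ((v i : Entˣ) : Ent)) Q ≠ 0 →
      z j * aeval (fun i => ((v i : Entˣ) : Ent)) Q = aeval (fun i => ((v i : Entˣ) : Ent)) P →
      ∀ m : ℤ, ¬ ((∀ β ∈ P.support, wt w β = m) ∧ ∀ β ∈ Q.support, wt w β = m))
    (hF : ∀ i w, eval₂ (algebraMap k ℂ) (fun j => (z j : ℂ → ℂ) w) (F i) = 0)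
    (hH : ∃ w, eval₂ (algebraMap k ℂ) (fun j => (z j : ℂ → ℂ) w) H ≠ 0)
    (hl : 0 < l)
    (h0 : ∀ x ∈ Algebra.adjoin k (Set.range (Sum.elim z (Sum.elim
      (fun i => ((v i : Entˣ) : Ent)) (fun i => (((v i)⁻¹ : Entˣ) : Ent))))),
      x ≠ 0 → (x : ℂ → ℂ) 0 ≠ 0) :
    ∃ w, eval₂ (algebraMap k ℂ) (fun j => (z j : ℂ → ℂ) w) H ≠ 0 ∧
      ∃ X : ℂ → Fin n → ℂ, (∀ j, Laur fun τ => X τ j) ∧ (X 1 = fun j => (z j : ℂ → ℂ) w) ∧
        (∀ τ, τ ≠ 0 → ∀ i, eval₂ (algebraMap k ℂ) (X τ) (F i) = 0) ∧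
        ∃ τ, τ ≠ 0 ∧ X τ ≠ X 1 := by
  classical
  set g : Fin n ⊕ (Fin l ⊕ Fin l) → Ent := Sum.elim z (Sum.elim
      (fun i => ((v i : Entˣ) : Ent)) (fun i => (((v i)⁻¹ : Entˣ) : Ent))) with hg
  set E := Algebra.adjoin k (Set.range g) with hE
  have hgE : ∀ a, g a ∈ E := fun a => Algebra.subset_adjoin (Set.mem_range_self a)
  let i0 : Fin l := ⟨0, hl⟩
  -- the first unit is not constant in norm
  have hnc : ∃ w w', ‖(g (Sum.inr (Sum.inl i0)) : ℂ → ℂ) w‖ ≠
      ‖(g (Sum.inr (Sum.inl i0)) : ℂ → ℂ) w'‖ := by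
    by_contra hcon
    push Not at hcon
    have h1 := const_of_norm_const (v i0 : Ent).2 (c := ‖((v i0 : Ent) : ℂ → ℂ) 0‖)
      (fun w => hcon w 0)
    have h2 : chr v (Pi.single i0 1) ∈ cst := by
      rw [chr_single]
      exact ⟨((v i0 : Ent) : ℂ → ℂ) 0, fun w => h1 w 0⟩
    have h3 := congrFun (hvind _ h2) i0
    simp at h3
  obtain ⟨R, hR⟩ := circ_exists g h0 (Sum.inr (Sum.inl i0)) (Sum.inr (Sum.inr i0))
    (by simp only [hg, Sum.elim_inr, Sum.elim_inl]; exact (v i0).mul_inv) hnc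
  let v' : Fin l → Eˣ := fun i =>
    { val := ⟨(v i : Ent), hgE (Sum.inr (Sum.inl i))⟩
      inv := ⟨((v i)⁻¹ : Entˣ), hgE (Sum.inr (Sum.inr i))⟩
      val_inv := Subtype.ext (v i).mul_inv
      inv_val := Subtype.ext (v i).inv_mul }
  let z' : Fin n → E := fun j => ⟨z j, hgE (Sum.inl j)⟩
  have hv' : AlgebraicIndependent ℂ fun i => (((v' i : Eˣ) : E) : Ent) := alg_ind v hvind
  have hv'k := alg_ind_E v' hv'
  let D : Dio (E := E) k v' := R.dio v' hv'
  let V : Evl (E := E) D.𝒰 (algebraMap k ℂ) := R.evl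
  have hz'w : ∀ (P : MvPolynomial (Fin n) k) w, (((aeval z' P : E) : Ent) : ℂ → ℂ) w =
      eval₂ (algebraMap k ℂ) (fun j => (z j : ℂ → ℂ) w) P := fun P w => eval_E E z' P w
  have hae : ∀ P : MvPolynomial (Fin l) k, ((aeval (fun i => ((v' i : Eˣ) : E)) P : E) : Ent) =
      aeval (fun i => ((v i : Entˣ) : Ent)) P := fun P => aeval_E E _ P
  have hFE : ∀ i, aeval z' (F i) = 0 := by
    intro i
    apply Subtype.ext
    apply Subtype.ext
    funext w
    rw [hz'w, hF]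
    rfl
  have hratE : ∀ j, ∃ P Q : MvPolynomial (Fin l) k, aeval (fun i => ((v' i : Eˣ) : E)) Q ≠ 0 ∧
      z' j * aeval (fun i => ((v' i : Eˣ) : E)) Q = aeval (fun i => ((v' i : Eˣ) : E)) P := by
    intro j
    obtain ⟨P, Q, hQ, hPQ⟩ := hrat j
    refine ⟨P, Q, fun h => hQ ?_, Subtype.ext ?_⟩
    · rw [← hae, h]
      rfl
    · rw [hae]
      change z j * ((aeval (fun i => ((v' i : Eˣ) : E)) Q : E) : Ent) = _
      rw [hae]
      exact hPQ
  have hminE : ∀ w : Fin l → ℤ, w ≠ 0 → ∃ j, ∀ P Q : MvPolynomial (Fin l) k,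
      aeval (fun i => ((v' i : Eˣ) : E)) Q ≠ 0 →
      z' j * aeval (fun i => ((v' i : Eˣ) : E)) Q = aeval (fun i => ((v' i : Eˣ) : E)) P →
      ∀ m : ℤ, ¬ ((∀ β ∈ P.support, wt w β = m) ∧ ∀ β ∈ Q.support, wt w β = m) := by
    intro w hw
    obtain ⟨j, hj⟩ := hmin w hw
    refine ⟨j, fun P Q hQ hPQ => hj P Q (fun h => hQ ?_) ?_⟩
    · apply Subtype.ext
      rw [hae, h]
      rfl
    · have h1 := congrArg Subtype.val hPQ
      change z j * ((aeval (fun i => ((v' i : Eˣ) : E)) Q : E) : Ent) =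
        ((aeval (fun i => ((v' i : Eˣ) : E)) P : E) : Ent) at h1
      rwa [hae, hae] at h1
  let J : Finset (Fin n) := Finset.univ.filter fun j => z' j ≠ 0
  -- `H` does not vanish
  have hHne : (aeval z' H : E) ≠ 0 := by
    intro h
    obtain ⟨w, hw⟩ := hH
    apply hw
    rw [← hz'w, h]
    rfl
  have hHt : ∀ᶠ t in (D.𝒰 : Filter ℕ),
      eval₂ (algebraMap k ℂ) (fun j => (z j : ℂ → ℂ) (R.s t)) H ≠ 0 := by
    filter_upwards [V.ne _ hHne] with t ht
    rw [← hz'w]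
    exact ht
  have key := main_rat D V z' F hFE hv'k hratE hminE J
    (fun j hj => (Finset.mem_filter.mp hj).2)
    (by
      refine ⟨1, Eventually.of_forall fun t => ?_⟩
      rw [one_mul]
      change R.N t ≤ _
      rw [hR t]
      have e1 : ∀ i, ∫ p, |D.lg ((v' i : Eˣ) : E) t p| ∂(D.μ t) = 2 * Real.pi *
          (mp ((v i : Ent) : ℂ → ℂ) (R.s t) + mp ((((v i)⁻¹ : Entˣ) : Ent) : ℂ → ℂ) (R.s t)) := by
        intro i
        rw [mp_inv (v i : Ent).2 (((v i)⁻¹ : Entˣ) : Ent).2 (fun w =>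
          congrFun (congrArg Subtype.val (v i).mul_inv) w)]
        exact integral_circle (fun w => |Real.log ‖((v i : Ent) : ℂ → ℂ) w‖|) (R.s t)
      have e2 : ∀ j, ∫ p, max (D.lg (z' j) t p) 0 ∂(D.μ t) = 2 * Real.pi *
          mp (z j : ℂ → ℂ) (R.s t) := by
        intro j
        have h1 := integral_circle (fun w => Real.posLog ‖(z j : ℂ → ℂ) w‖) (R.s t)
        rw [← mp] at h1
        rw [← h1]
        refine integral_congr_ae (Eventually.of_forall fun p => ?_)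
        simp only [Real.posLog_apply]
        exact max_comm _ _
      simp only [e1, e2]
      rw [Fintype.sum_sum_type, Fintype.sum_sum_type]
      simp only [hg, Sum.elim_inl, Sum.elim_inr]
      have h2pi : 1 ≤ 2 * Real.pi := by linarith [Real.pi_gt_three]
      have h3 : ∑ j, mp (z j : ℂ → ℂ) (R.s t) = ∑ j ∈ J, mp (z j : ℂ → ℂ) (R.s t) := by
        symm
        apply Finset.sum_subset (Finset.subset_univ _)
        intro j _ hj
        have h4 : z' j = 0 := by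
          by_contra h5
          exact hj (Finset.mem_filter.mpr ⟨Finset.mem_univ _, h5⟩)
        have h5 : z j = 0 := congrArg Subtype.val h4
        rw [h5]
        have h6 : ((0 : Ent) : ℂ → ℂ) = fun _ => 0 := rfl
        rw [h6, mp_const]
        simp
      rw [h3, ← Finset.mul_sum, ← Finset.mul_sum, Finset.sum_add_distrib]
      have a1 : 0 ≤ ∑ j ∈ J, mp (z j : ℂ → ℂ) (R.s t) :=
        Finset.sum_nonneg fun _ _ => mp_nonneg _ _
      have a2 : 0 ≤ ∑ i, mp ((v i : Ent) : ℂ → ℂ) (R.s t) :=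
        Finset.sum_nonneg fun _ _ => mp_nonneg _ _
      have a3 : 0 ≤ ∑ i, mp ((((v i)⁻¹ : Entˣ) : Ent) : ℂ → ℂ) (R.s t) :=
        Finset.sum_nonneg fun _ _ => mp_nonneg _ _
      nlinarith)
  obtain ⟨t, ⟨X, h1, h2, h3, h4⟩, h5⟩ := (key.and hHt).exists
  exact ⟨R.s t, h5, X, h1, h2, h3, h4⟩

end Pool.Agent.K1H83.BL
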