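import Mathlib
import Pool.Agent.K1H83.BL.AnR

/-!
The analytic form of the main theorem for points in the field generated by units.
-/

set_option autoImplicit false

namespace Pool.Agent.K1H83.BL

open Filter Topology Metric MeasureTheory MvPolynomial Pool.Agent.H159R3.NV
  Pool.Agent.H159R3.Exp

theorem aeval_fin0 {k R : Type} [Field k] [CommRing R] [Algebra k R] (v : Fin 0 → R)
    (P : MvPolynomial (Fin 0) k) : aeval v P = algebraMap k R (constantCoeff P) := by
  rw [eq_C_of_isEmpty P, aeval_C, constantCoeff_C]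

/-- **The analytic theorem.** An entire curve whose coordinates are quotients of polynomials in
entire functions without zeros meets a nonconstant Laurent curve at a point with `H ≠ 0`. -/
theorem analytic_rat (k₀ : Subfield ℂ) [Countable k₀] {n r : ℕ} {κ : Type} [Finite κ]
    (F : κ → MvPolynomial (Fin n) k₀) (H : MvPolynomial (Fin n) k₀) (z : Fin n → Ent)
    (hnc : ∃ w w', (fun j => (z j : ℂ → ℂ) w) ≠ fun j => (z j : ℂ → ℂ) w')
    (hF : ∀ w i, eval₂ (algebraMap k₀ ℂ) (fun j => (z j : ℂ → ℂ) w) (F i) = 0)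
    (hH : ∃ w, eval₂ (algebraMap k₀ ℂ) (fun j => (z j : ℂ → ℂ) w) H ≠ 0)
    (u : Fin r → Entˣ) (hgen : Gen ℂ u z) :
    ∃ w, eval₂ (algebraMap k₀ ℂ) (fun j => (z j : ℂ → ℂ) w) H ≠ 0 ∧
      ∃ X : ℂ → Fin n → ℂ, (∀ j, Laur fun τ => X τ j) ∧ (X 1 = fun j => (z j : ℂ → ℂ) w) ∧
        (∀ τ, τ ≠ 0 → ∀ i, eval₂ (algebraMap k₀ ℂ) (X τ) (F i) = 0) ∧
        ∃ τ, τ ≠ 0 ∧ X τ ≠ X 1 := by
  classical
  obtain ⟨l, v, B, hvB, hvind, hgenv, hmin⟩ := min_exists (k := ℂ) cst cst_sat
    (by
      rintro x ⟨c, hc⟩
      exact ⟨c, Subtype.ext (funext hc)⟩) u z hgen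
  choose P Q hQ hPQ using hgenv
  rcases Nat.eq_zero_or_pos l with hl | hl
  · -- the curve is constant
    exfalso
    subst hl
    obtain ⟨w, w', hww⟩ := hnc
    apply hww
    funext j
    have h1 := hPQ j
    have h2 := hQ j
    rw [aeval_fin0] at h1 h2
    rw [aeval_fin0] at h1
    have h3 : constantCoeff (Q j) ≠ 0 := fun h => h2 (by rw [h, map_zero])
    have h4 : ∀ w, (z j : ℂ → ℂ) w * constantCoeff (Q j) = constantCoeff (P j) := fun w =>
      congrFun (congrArg Subtype.val h1) w
    apply mul_right_cancel₀ h3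
    rw [h4, h4]
  · -- the field of constants
    let S : Set ℂ := (k₀ : Set ℂ) ∪ ⋃ j, (((P j).coeffs : Set ℂ) ∪ ((Q j).coeffs : Set ℂ))
    let k : Subfield ℂ := Subfield.closure S
    have hS : S.Countable := by
      refine (Set.to_countable _).union (Set.countable_iUnion fun j => ?_)
      exact (Finset.countable_toSet _).union (Finset.countable_toSet _)
    have hkc : Countable k := closure_countable' S hS
    have hk₀ : k₀ ≤ k := fun x hx => Subfield.subset_closure (Or.inl hx)
    let inc : k₀ →+* k := Subfield.inclusion hk₀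
    have hinc : (algebraMap k ℂ).comp inc = algebraMap k₀ ℂ := rfl
    have hev : ∀ (x : Fin n → ℂ) (P : MvPolynomial (Fin n) k₀),
        eval₂ (algebraMap k ℂ) x (map inc P) = eval₂ (algebraMap k₀ ℂ) x P := by
      intro x P
      rw [eval₂_map, hinc]
    have hP' : ∀ j, ∃ P' : MvPolynomial (Fin l) k, map (algebraMap k ℂ) P' = P j := by
      intro j
      have h1 : P j ∈ Set.range (MvPolynomial.map (algebraMap k ℂ)) := by
        rw [mem_range_map_iff_coeffs_subset]
        intro c hc
        exact ⟨⟨c, Subfield.subset_closure (Or.inr (Set.mem_iUnion.mpr ⟨j, Or.inl hc⟩))⟩, rfl⟩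
      exact h1
    have hQ' : ∀ j, ∃ Q' : MvPolynomial (Fin l) k, map (algebraMap k ℂ) Q' = Q j := by
      intro j
      have h1 : Q j ∈ Set.range (MvPolynomial.map (algebraMap k ℂ)) := by
        rw [mem_range_map_iff_coeffs_subset]
        intro c hc
        exact ⟨⟨c, Subfield.subset_closure (Or.inr (Set.mem_iUnion.mpr ⟨j, Or.inr hc⟩))⟩, rfl⟩
      exact h1
    choose P' hP' using hP'
    choose Q' hQ' using hQ'
    -- the generators
    let g : Fin n ⊕ (Fin l ⊕ Fin l) → Ent := Sum.elim z (Sum.elim
      (fun i => ((v i : Entˣ) : Ent)) (fun i => (((v i)⁻¹ : Entˣ) : Ent)))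
    let E₁ := Algebra.adjoin k (Set.range g)
    have : Countable E₁ := adjoin_countable g
    obtain ⟨a, ha⟩ := base_point (Set.range fun x : {x : E₁ // x ≠ 0} =>
        (((x : E₁) : Ent) : ℂ → ℂ)) (Set.countable_range _)
      (by rintro _ ⟨x, rfl⟩; exact ((x : E₁) : Ent).2)
      (by
        rintro _ ⟨x, rfl⟩
        by_contra hcon
        push Not at hcon
        exact x.2 (Subtype.ext (Subtype.ext (funext hcon))))
    -- the shift
    let z' : Fin n → Ent := fun j => sh a (z j)
    let v' : Fin l → Entˣ := fun i => Units.map (sh a : Ent →* Ent) (v i)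
    have hchr : ∀ α, chr v' α = Units.map (sh a : Ent →* Ent) (chr v α) := by
      intro α
      unfold chr
      rw [map_prod]
      refine Finset.prod_congr rfl fun i _ => ?_
      rw [map_zpow]
    have hchr' : ∀ α w, (((chr v' α : Entˣ) : Ent) : ℂ → ℂ) w =
        (((chr v α : Entˣ) : Ent) : ℂ → ℂ) (w + a) := by
      intro α w
      rw [hchr]
      rfl
    have hgg : Sum.elim z' (Sum.elim
        (fun i => ((v' i : Entˣ) : Ent)) (fun i => (((v' i)⁻¹ : Entˣ) : Ent))) =
        fun x => sh a (g x) := by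
      funext x
      rcases x with j | i | i <;> rfl
    have hsh : ∀ p : MvPolynomial (Fin l) k, aeval (fun i => ((v' i : Entˣ) : Ent)) p =
        sh a (aeval (fun i => ((v i : Entˣ) : Ent)) (map (algebraMap k ℂ) p)) := by
      intro p
      rw [comp_aeval_apply, aeval_map_algebraMap]
      rfl
    obtain ⟨w, hw, X, h1, h2, h3, h4⟩ := an_core_rat (fun i => map inc (F i)) (map inc H) z' v'
      (by
        intro α hα
        apply hvind
        obtain ⟨b, hb⟩ := hα
        refine ⟨b, fun w => ?_⟩
        rw [← hb (w - a), hchr', sub_add_cancel])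
      (by
        intro j
        refine ⟨P' j, Q' j, ?_, ?_⟩
        · rw [hsh, hQ']
          exact fun h => hQ j (sh_inj a (by rw [h, map_zero]))
        · rw [hsh, hsh, hQ', hP', ← hPQ, map_mul])
      (by
        intro w hw
        obtain ⟨j, hj⟩ := hmin w hw
        refine ⟨j, fun p q hq hpq m hm => ?_⟩
        refine hj (map (algebraMap k ℂ) p) (map (algebraMap k ℂ) q) ?_ ?_ m ?_
        · intro h
          apply hq
          rw [hsh, h, map_zero]
        · apply sh_inj a
          rw [map_mul, ← hsh, ← hsh]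
          exact hpq
        · rw [support_map_of_injective _ (algebraMap k ℂ).injective,
            support_map_of_injective _ (algebraMap k ℂ).injective]
          exact hm)
      (by
        intro i w
        rw [hev]
        exact hF _ i)
      (by
        obtain ⟨w, hw⟩ := hH
        refine ⟨w - a, ?_⟩
        rw [hev]
        change eval₂ _ (fun j => (z j : ℂ → ℂ) (w - a + a)) H ≠ 0
        rw [sub_add_cancel]
        exact hw)
      hl
      (by
        rw [hgg]
        have e : Set.range (fun x => sh a (g x)) = ((sh a).restrictScalars k) '' Set.range g := by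
          rw [← Set.range_comp]
          rfl
        rw [e, ← AlgHom.map_adjoin]
        rintro x ⟨y, hy, rfl⟩ hx
        have hy0 : y ≠ 0 := by
          rintro rfl
          exact hx (map_zero _)
        have h1 : (y : ℂ → ℂ) a ≠ 0 := ha _ ⟨⟨⟨y, hy⟩, fun h => hy0 (congrArg Subtype.val h)⟩, rfl⟩
        change (y : ℂ → ℂ) (0 + a) ≠ 0
        rwa [zero_add])
    refine ⟨w + a, ?_, X, h1, h2, ?_, h4⟩
    · rw [hev] at hw
      exact hw
    · intro τ hτ i
      have := h3 τ hτ i
      rwa [hev] at this

end Pool.Agent.K1H83.BL
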