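import Mathlib
import Pool.Agent.K1H83.BL.Main
import Pool.Agent.Y742.AR.Unit
import Pool.Agent.R405.Sch1

/-!
The arithmetic instance: germs of sequences of integral elements of a number field.
-/

set_option autoImplicit false
set_option linter.unusedSectionVars false

namespace Pool.Agent.K1H83.BL.Ari

open MvPolynomial Filter Topology MeasureTheory
open Pool.Agent.Y742.SF Pool.Agent.Y742.AR

variable {L : Type} [Field L] [NumberField L] [IsGalois ℚ L] (D : PD L) (𝒰 : Ultrafilter ℕ)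
  (N : ℕ → ℝ) (hN : ∀ t, 1 ≤ N t)

noncomputable instance algR0 : Algebra L (R0 D 𝒰 N hN) :=
  ((cg 𝒰).codRestrict (R0 D 𝒰 N hN) fun c => cg_mem hN c).toAlgebra

theorem coe_alg (c : L) : ((algebraMap L (R0 D 𝒰 N hN) c : R0 D 𝒰 N hN) : GK L 𝒰) = cg 𝒰 c := rfl

theorem coe_lin {n : ℕ} (b : Fin n → L) (y : Fin n → R0 D 𝒰 N hN) :
    ((∑ j, b j • y j : R0 D 𝒰 N hN) : GK L 𝒰) = ∑ j, cg 𝒰 (b j) * (y j : GK L 𝒰) := by
  have h1 : ((∑ j, b j • y j : R0 D 𝒰 N hN) : GK L 𝒰) = ∑ j, ((b j • y j : R0 D 𝒰 N hN) : GK L 𝒰) :=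
    map_sum (R0 D 𝒰 N hN).subtype _ _
  rw [h1]
  refine Finset.sum_congr rfl fun j _ => ?_
  rw [Algebra.smul_def]
  rfl

/-- the logarithm of the absolute value -/
noncomputable def lgA (x : R0 D 𝒰 N hN) (t : ℕ) (p : (L ≃ₐ[ℚ] L) ⊕ Fin D.s) : ℝ :=
  Real.log (D.av p (rep (x : GK L 𝒰) t))

variable {D 𝒰 N hN}

theorem coe_ne {x : R0 D 𝒰 N hN} (hx : x ≠ 0) : (x : GK L 𝒰) ≠ 0 := fun h => hx (Subtype.ext h)

theorem sub_ax (hNt : Tendsto N (𝒰 : Filter ℕ) atTop) (n : ℕ) (y : Fin n → R0 D 𝒰 N hN)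
    (hy : LinearIndependent L y) (m : ℕ) (Φ : Fin m → Matrix (Fin n) (Fin n) L)
    (hΦ : ∀ J, (Φ J).det ≠ 0) (g : ℕ → (L ≃ₐ[ℚ] L) ⊕ Fin D.s → ℝ)
    (hg : ∀ᶠ t in (𝒰 : Filter ℕ), ∀ p, ∃ J,
      ∑ a, lgA D 𝒰 N hN (∑ j, Φ J a j • y j) t p ≤ g t p) (ε : ℝ) (hε : 0 < ε) :
    ∀ᶠ t in (𝒰 : Filter ℕ), -(ε * N t) ≤ ∑ p, g t p := by
  classical
  rcases Nat.eq_zero_or_pos n with rfl | hn
  · filter_upwards [hg] with t ht
    have h1 : 0 ≤ ∑ p, g t p := Finset.sum_nonneg fun p _ => by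
      obtain ⟨J, hJ⟩ := ht p
      simpa using hJ
    have h2 : 0 ≤ ε * N t := mul_nonneg hε.le (by linarith [hN t])
    linarith
  · -- a constant choice
    obtain ⟨J, hJ⟩ : ∃ J : (L ≃ₐ[ℚ] L) ⊕ Fin D.s → Fin m, ∀ᶠ t in (𝒰 : Filter ℕ), ∀ p,
        ∑ a, lgA D 𝒰 N hN (∑ j, Φ (J p) a j • y j) t p ≤ g t p := by
      by_contra hcon
      push Not at hcon
      have h1 : ∀ᶠ t in (𝒰 : Filter ℕ), ∀ J : (L ≃ₐ[ℚ] L) ⊕ Fin D.s → Fin m, ¬ ∀ p,
          ∑ a, lgA D 𝒰 N hN (∑ j, Φ (J p) a j • y j) t p ≤ g t p := by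
        rw [eventually_all]
        intro J
        rw [Ultrafilter.eventually_not]
        intro h
        have h2 := hcon J
        obtain ⟨t, h3, h4⟩ := (h.and h2).exists
        obtain ⟨p, hp⟩ := h4
        exact absurd (h3 p) (not_le.2 hp)
      obtain ⟨t, h2, h3⟩ := (h1.and hg).exists
      choose J hJ using h3
      exact h2 J hJ
    have hyT : ∀ j, TI D 𝒰 (rep (y j : GK L 𝒰)) := fun j => ((mem_R0 hN _).1 (y j).2).1
    have hyB : ∀ j, Bd D N 𝒰 (rep (y j : GK L 𝒰)) := fun j => ((mem_R0 hN _).1 (y j).2).2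
    obtain ⟨e, he, hden⟩ := common_den (fun j => (y j : GK L 𝒰)) hyT
    have heK : (e : L) ≠ 0 := NumberField.RingOfIntegers.coe_ne_zero_iff.2 he
    choose Cb hCb0 hCb using hyB
    have hlin : ∀ b : Fin n → L, b ≠ 0 → ∀ᶠ t in (𝒰 : Filter ℕ),
        ∑ j, b j * rep (y j : GK L 𝒰) t ≠ 0 := by
      intro b hb
      have h1 : (∑ j, b j • y j) ≠ 0 := fun h0 => hb (funext fun j =>
        Fintype.linearIndependent_iff.1 hy b h0 j)
      have h2 := rep_ne _ (coe_ne h1)
      rw [coe_lin] at h2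
      filter_upwards [h2, rep_lin b fun j => (y j : GK L 𝒰)] with t h3 h4
      rw [h4] at h3
      exact h3
    have hmain := Pool.Agent.R405.subW D (𝒰 : Filter ℕ) hn (fun p => Φ (J p))
      (fun p => hΦ (J p)) N hNt (fun t j => (e : L) * rep (y j : GK L 𝒰) t) hden
      (∑ p, D.av p (e : L) + ∑ j, Cb j) (by
        filter_upwards [eventually_all.2 hCb] with t h1 j p
        rw [D.av_mul, add_mul, Real.exp_add]
        have h2 : D.av p (e : L) ≤ Real.exp ((∑ p, D.av p (e : L)) * N t) := by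
          have h3 : D.av p (e : L) ≤ ∑ p, D.av p (e : L) :=
            Finset.single_le_sum (f := fun p => D.av p (e : L)) (fun _ _ => D.av_nonneg _ _)
              (Finset.mem_univ p)
          have h4 := Real.add_one_le_exp ((∑ p, D.av p (e : L)) * N t)
          have h5 := hN t
          have h6 := D.av_nonneg p (e : L)
          nlinarith
        have h3 : D.av p (rep (y j : GK L 𝒰) t) ≤ Real.exp ((∑ j, Cb j) * N t) := by
          refine (h1 j p).trans (Real.exp_le_exp.2 ?_)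
          refine mul_le_mul_of_nonneg_right ?_ (by linarith [hN t])
          exact Finset.single_le_sum (f := Cb) (fun j _ => hCb0 j) (Finset.mem_univ j)
        exact mul_le_mul h2 h3 (D.av_nonneg _ _) (Real.exp_pos _).le) (by
      intro b hb
      filter_upwards [hlin b hb] with t h2
      have h4 : ∑ j, b j * ((e : L) * rep (y j : GK L 𝒰) t) =
          (e : L) * ∑ j, b j * rep (y j : GK L 𝒰) t := by
        rw [Finset.mul_sum]
        exact Finset.sum_congr rfl fun j _ => by ring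
      rw [h4]
      exact mul_ne_zero heK h2) (ε / 2) (by linarith)
    have hrow : ∀ p a, Φ (J p) a ≠ 0 := fun p a h0 => hΦ (J p)
      (Matrix.det_eq_zero_of_row_eq_zero a fun j => congrFun h0 j)
    have hval : ∀ᶠ t in (𝒰 : Filter ℕ), ∀ p a, ∑ j, Φ (J p) a j * rep (y j : GK L 𝒰) t ≠ 0 ∧
        rep ((∑ j, Φ (J p) a j • y j : R0 D 𝒰 N hN) : GK L 𝒰) t =
          ∑ j, Φ (J p) a j * rep (y j : GK L 𝒰) t := by
      rw [eventually_all]
      intro p
      rw [eventually_all]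
      intro a
      rw [coe_lin]
      filter_upwards [hlin _ (hrow p a), rep_lin (Φ (J p) a) fun j => (y j : GK L 𝒰)] with t h1 h2
      exact ⟨h1, h2⟩
    obtain ⟨B, hB⟩ : ∃ B : ℝ, B = n * ∑ p, Real.log (D.av p (e : L)) := ⟨_, rfl⟩
    filter_upwards [hmain, hval, hJ, hNt.eventually_ge_atTop (2 * |B| / ε)] with t h1 h2 h3 h4
    have h5 : ∑ p, ∑ a, Real.log (D.av p (∑ j, Φ (J p) a j * ((e : L) * rep (y j : GK L 𝒰) t))) =
        B + ∑ p, ∑ a, lgA D 𝒰 N hN (∑ j, Φ (J p) a j • y j) t p := by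
      rw [hB, Finset.mul_sum, ← Finset.sum_add_distrib]
      refine Finset.sum_congr rfl fun p _ => ?_
      have h6 : ∀ a, Real.log (D.av p (∑ j, Φ (J p) a j * ((e : L) * rep (y j : GK L 𝒰) t))) =
          Real.log (D.av p (e : L)) + lgA D 𝒰 N hN (∑ j, Φ (J p) a j • y j) t p := by
        intro a
        unfold lgA
        rw [(h2 p a).2]
        have h7 : ∑ j, Φ (J p) a j * ((e : L) * rep (y j : GK L 𝒰) t) =
            (e : L) * ∑ j, Φ (J p) a j * rep (y j : GK L 𝒰) t := by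
          rw [Finset.mul_sum]
          exact Finset.sum_congr rfl fun j _ => by ring
        rw [h7, D.av_mul, Real.log_mul (D.av_pos p _ heK).ne' (D.av_pos p _ (h2 p a).1).ne']
      rw [Finset.sum_congr rfl fun a _ => h6 a, Finset.sum_add_distrib, Finset.sum_const,
        Finset.card_univ, Fintype.card_fin, nsmul_eq_mul]
    rw [h5] at h1
    have h6 := Finset.sum_le_sum fun p (_ : p ∈ Finset.univ) => h3 p
    rw [div_le_iff₀ hε] at h4
    have h7 := le_abs_self B
    linarith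

/-- the arithmetic instance -/
noncomputable def dio (hNt : Tendsto N (𝒰 : Filter ℕ) atTop) {l : ℕ} {v : Fin l → (R0 D 𝒰 N hN)ˣ}
    (hv : AlgebraicIndependent L fun i => (v i : R0 D 𝒰 N hN)) : Dio L v where
  P := (L ≃ₐ[ℚ] L) ⊕ Fin D.s
  ms := ⊤
  μ := fun _ => @Measure.count _ ⊤
  fin := fun _ => by
    let _ : MeasurableSpace ((L ≃ₐ[ℚ] L) ⊕ Fin D.s) := ⊤
    infer_instance
  M := (@Measure.count ((L ≃ₐ[ℚ] L) ⊕ Fin D.s) ⊤).real Set.univ
  mass := fun _ => le_rfl
  𝒰 := 𝒰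
  N := N
  N_lim := hNt
  lg := lgA D 𝒰 N hN
  int := fun x _ => Eventually.of_forall fun t => by
    let _ : MeasurableSpace ((L ≃ₐ[ℚ] L) ⊕ Fin D.s) := ⊤
    exact Integrable.of_finite
  lg_mul := fun x y hx hy => by
    filter_upwards [rep_mul (x : GK L 𝒰) (y : GK L 𝒰), rep_ne _ (coe_ne hx),
      rep_ne _ (coe_ne hy)] with t h1 h2 h3 p
    have h4 : ((x * y : R0 D 𝒰 N hN) : GK L 𝒰) = (x : GK L 𝒰) * (y : GK L 𝒰) := rfl
    unfold lgA
    rw [h4, h1, D.av_mul, Real.log_mul (D.av_pos p _ h2).ne' (D.av_pos p _ h3).ne']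
  lg_add := fun x y hx hy hxy => by
    filter_upwards [rep_add (x : GK L 𝒰) (y : GK L 𝒰), rep_ne _ (coe_ne hx),
      rep_ne _ (coe_ne hy), rep_ne _ (coe_ne hxy)] with t h1 h2 h3 h0 p
    have h4 : ((x + y : R0 D 𝒰 N hN) : GK L 𝒰) = (x : GK L 𝒰) + (y : GK L 𝒰) := rfl
    unfold lgA
    rw [h4] at h0 ⊢
    rw [h1] at h0 ⊢
    have h5 := D.av_add p (rep (x : GK L 𝒰) t) (rep (y : GK L 𝒰) t)
    have p1 := D.av_pos p _ h2
    have p2 := D.av_pos p _ h3
    have p3 := D.av_pos p _ h0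
    rcases le_total (D.av p (rep (x : GK L 𝒰) t)) (D.av p (rep (y : GK L 𝒰) t)) with h | h
    · rw [max_eq_right (Real.log_le_log p1 h), ← Real.log_mul two_ne_zero p2.ne']
      exact Real.log_le_log p3 (by linarith)
    · rw [max_eq_left (Real.log_le_log p2 h), ← Real.log_mul two_ne_zero p1.ne']
      exact Real.log_le_log p3 (by linarith)
  lg_const := fun c hc => by
    refine ⟨∑ p, |Real.log (D.av p c)|, ?_⟩
    filter_upwards [rep_cg (𝒰 := 𝒰) c] with t ht p
    unfold lgA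
    rw [coe_alg, ht]
    exact Finset.single_le_sum (f := fun p => |Real.log (D.av p c)|) (fun _ _ => abs_nonneg _)
      (Finset.mem_univ p)
  size := fun x hx => by
    obtain ⟨C, hC0, hC⟩ := ((mem_R0 hN _).1 x.2).2
    let _ : MeasurableSpace ((L ≃ₐ[ℚ] L) ⊕ Fin D.s) := ⊤
    refine ⟨Fintype.card ((L ≃ₐ[ℚ] L) ⊕ Fin D.s) * C, ?_⟩
    filter_upwards [hC, rep_ne _ (coe_ne hx)] with t h1 h2
    rw [integral_fintype Integrable.of_finite]
    have h3 : ∀ p, (Measure.count : Measure ((L ≃ₐ[ℚ] L) ⊕ Fin D.s)).real {p} •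
        max (lgA D 𝒰 N hN x t p) 0 ≤ C * N t := by
      intro p
      have h4 : (Measure.count : Measure ((L ≃ₐ[ℚ] L) ⊕ Fin D.s)).real {p} = 1 := by
        rw [measureReal_def, Measure.count_singleton]
        rfl
      rw [h4, one_smul]
      refine max_le ?_ (mul_nonneg hC0 (by linarith [hN t]))
      unfold lgA
      rw [Real.log_le_iff_le_exp (D.av_pos p _ h2)]
      exact h1 p
    refine (Finset.sum_le_sum fun p _ => h3 p).trans ?_
    rw [Finset.sum_const, Finset.card_univ, nsmul_eq_mul, mul_assoc]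
  low := fun x hx ε hε => by
    let _ : MeasurableSpace ((L ≃ₐ[ℚ] L) ⊕ Fin D.s) := ⊤
    have h1 := sub_ax hNt 1 (fun _ => x) (by
      rw [Fintype.linearIndependent_iff]
      intro c hc i
      rw [Fin.sum_univ_one] at hc
      fin_cases i
      by_contra h0
      rw [Algebra.smul_def] at hc
      exact (mul_ne_zero ((map_ne_zero_iff _ (algebraMap L (R0 D 𝒰 N hN)).injective).2 h0) hx) hc)
      1 (fun _ => 1) (fun _ => by rw [Matrix.det_one]; exact one_ne_zero)
      (fun t p => lgA D 𝒰 N hN x t p) (Eventually.of_forall fun t p => ⟨0, by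
        rw [Fin.sum_univ_one, Fin.sum_univ_one]
        simp⟩) ε hε
    filter_upwards [h1] with t ht
    rw [integral_fintype Integrable.of_finite]
    refine ht.trans (le_of_eq ?_)
    refine Finset.sum_congr rfl fun p _ => ?_
    have h4 : (Measure.count : Measure ((L ≃ₐ[ℚ] L) ⊕ Fin D.s)).real {p} = 1 := by
      rw [measureReal_def, Measure.count_singleton]
      rfl
    rw [h4, one_smul]
  sub := fun n φ q y hφ hq hy' m Φ hΦ g _ hg ε hε => by
    let _ : MeasurableSpace ((L ≃ₐ[ℚ] L) ⊕ Fin D.s) := ⊤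
    have hy : LinearIndependent L y := by
      rw [Fintype.linearIndependent_iff]
      intro c hc
      have h1 : (aeval fun i => (v i : R0 D 𝒰 N hN)) (∑ j, c j • φ j) = 0 := by
        rw [map_sum]
        have h2 : ∀ j, (aeval fun i => (v i : R0 D 𝒰 N hN)) (c j • φ j) =
            (c j • y j) * (aeval fun i => (v i : R0 D 𝒰 N hN)) q := by
          intro j
          rw [map_smul, ← hy', smul_mul_assoc]
        rw [Finset.sum_congr rfl fun j _ => h2 j, ← Finset.sum_mul, hc, zero_mul]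
      have h2 : ∑ j, c j • φ j = 0 := by
        have hinj : Function.Injective (aeval (R := L) fun i => (v i : R0 D 𝒰 N hN)) := hv
        exact hinj (by rw [h1, map_zero])
      exact Fintype.linearIndependent_iff.1 hφ c h2
    filter_upwards [sub_ax hNt n y hy m Φ hΦ g hg ε hε] with t ht
    rw [integral_fintype Integrable.of_finite]
    refine ht.trans (le_of_eq ?_)
    refine Finset.sum_congr rfl fun p _ => ?_
    have h4 : (Measure.count : Measure ((L ≃ₐ[ℚ] L) ⊕ Fin D.s)).real {p} = 1 := by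
      rw [measureReal_def, Measure.count_singleton]
      rfl
    rw [h4, one_smul]

end Pool.Agent.K1H83.BL.Ari
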