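import Mathlib
import Pool.Agent.K1H83.BL.Main2
import Pool.Agent.K1H83.BL.Ari

/-!
Sequences of integral points which are determined by the values of units.
-/

set_option autoImplicit false
set_option linter.unusedSectionVars false

namespace Pool.Agent.K1H83.BL.Ari

open MvPolynomial Filter Topology MeasureTheory
open Pool.Agent.Y742.SF Pool.Agent.Y742.AR Pool.Agent.H159R3.Exp

variable {L : Type} [Field L] [NumberField L] [IsGalois ℚ L] {D : PD L} {𝒰 : Ultrafilter ℕ}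
  {N : ℕ → ℝ} {hN : ∀ t, 1 ≤ N t}

/-- a root of a constant is constant -/
theorem root_const (x : GK L 𝒰) (n : ℕ) (hn : 0 < n) (c : L) (h : x ^ n = cg 𝒰 c) :
    ∃ d : L, x = cg 𝒰 d := by
  classical
  have h1 : ∀ᶠ t in (𝒰 : Filter ℕ), rep x t ∈ {y : L | y ^ n = c} := by
    have h2 : gm 𝒰 (fun t => rep x t ^ n) = gm 𝒰 (fun _ => c) := by
      have h3 : (fun t => rep x t ^ n) = rep x ^ n := rfl
      rw [h3, map_pow, gm_rep, h]
      rfl
    exact (gm_eq 𝒰 _ _).1 h2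
  obtain ⟨d, -, hd⟩ := const_of_finite (rep x) _ (by
    have h2 : {y : L | y ^ n = c} ⊆ {y | y ∈ (Polynomial.nthRoots n c)} := by
      intro y hy
      exact (Polynomial.mem_nthRoots hn).2 hy
    exact ((Polynomial.nthRoots n c).toFinset.finite_toSet).subset fun y hy => by
      rw [Finset.mem_coe, Multiset.mem_toFinset]
      exact h2 hy) h1
  exact ⟨d, by rw [← hd, gm_rep]⟩

/-- the constant units -/
noncomputable def Cst (L : Type) [Field L] (𝒰 : Ultrafilter ℕ) : Subgroup (GK L 𝒰)ˣ :=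
  (Units.map ((cg 𝒰 : L →+* GK L 𝒰) : L →* GK L 𝒰)).range

theorem mem_Cst (x : (GK L 𝒰)ˣ) : x ∈ Cst L 𝒰 ↔ ∃ c : L, (x : GK L 𝒰) = cg 𝒰 c := by
  constructor
  · rintro ⟨c, rfl⟩
    exact ⟨c, rfl⟩
  · rintro ⟨c, hc⟩
    have hc0 : c ≠ 0 := by
      rintro rfl
      rw [map_zero] at hc
      exact x.ne_zero hc
    exact ⟨Units.mk0 c hc0, Units.ext hc.symm⟩

theorem Cst_sat (x : (GK L 𝒰)ˣ) (n : ℤ) (hn : n ≠ 0) (h : x ^ n ∈ Cst L 𝒰) : x ∈ Cst L 𝒰 := by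
  have h1 : x ^ n.natAbs ∈ Cst L 𝒰 := by
    rcases Int.natAbs_eq n with h2 | h2
    · rw [h2, zpow_natCast] at h
      exact h
    · rw [h2, zpow_neg, zpow_natCast] at h
      have := (Cst L 𝒰).inv_mem h
      rwa [inv_inv] at this
  rw [mem_Cst] at h1 ⊢
  obtain ⟨c, hc⟩ := h1
  rw [Units.val_pow_eq_pow_val] at hc
  exact root_const _ _ (Int.natAbs_pos.2 hn) c hc

/-- `S`-unit germs -/
def TU (D : PD L) (x : GK L 𝒰) : Prop := TI D 𝒰 (rep x) ∧ TI D 𝒰 (rep x⁻¹)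

theorem TI_pow' (x : GK L 𝒰) (hx : TI D 𝒰 (rep x)) (n : ℕ) : TI D 𝒰 (rep (x ^ n)) := by
  induction n with
  | zero =>
    rw [pow_zero]
    refine (TI.const (D := D) (𝒰 := 𝒰) (1 : L)).congr ?_
    filter_upwards [rep_one (K := L) (𝒰 := 𝒰)] with t ht
    exact ht.symm
  | succ n ih =>
    rw [pow_succ]
    exact TI_rep_mul _ _ ih hx

theorem TU.mul {x y : GK L 𝒰} (hx : TU D x) (hy : TU D y) : TU D (x * y) :=
  ⟨TI_rep_mul _ _ hx.1 hy.1, by rw [mul_inv]; exact TI_rep_mul _ _ hx.2 hy.2⟩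

theorem TU.one : TU D (1 : GK L 𝒰) := by
  have h1 := TI_pow' (D := D) (𝒰 := 𝒰) (0 : GK L 𝒰) ((TI.const (D := D) (𝒰 := 𝒰) (0 : L)).congr (by
    filter_upwards [rep_zero (K := L) (𝒰 := 𝒰)] with t ht
    exact ht.symm)) 0
  rw [pow_zero] at h1
  exact ⟨h1, by rw [inv_one]; exact h1⟩

theorem TU.inv {x : GK L 𝒰} (hx : TU D x) : TU D x⁻¹ := ⟨hx.2, by rw [inv_inv]; exact hx.1⟩

theorem TU.zpow {x : GK L 𝒰} (hx : TU D x) (n : ℤ) : TU D (x ^ n) := by
  have h1 : ∀ m : ℕ, TU D (x ^ m) := fun m =>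
    ⟨TI_pow' _ hx.1 m, by rw [← inv_pow]; exact TI_pow' _ hx.2 m⟩
  rcases n.eq_nat_or_neg with ⟨m, rfl | rfl⟩
  · rw [zpow_natCast]
    exact h1 m
  · rw [zpow_neg, zpow_natCast]
    exact (h1 m).inv

theorem TU.chr {r : ℕ} {u : Fin r → (GK L 𝒰)ˣ} (hu : ∀ i, TU D (u i : GK L 𝒰))
    (a : Fin r → ℤ) : TU D ((BL.chr u a : (GK L 𝒰)ˣ) : GK L 𝒰) := by
  classical
  unfold BL.chr
  have h1 : ∀ s : Finset (Fin r), TU D ((∏ i ∈ s, u i ^ a i : (GK L 𝒰)ˣ) : GK L 𝒰) := by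
    intro s
    induction s using Finset.induction_on with
    | empty =>
      rw [Finset.prod_empty]
      exact TU.one
    | insert b s hb ih =>
      rw [Finset.prod_insert hb, Units.val_mul]
      refine TU.mul ?_ ih
      rw [Units.val_zpow_eq_zpow_val]
      exact (hu b).zpow _
  exact h1 _

theorem val_mon {l : ℕ} (v : Fin l → (R0 D 𝒰 N hN)ˣ) (β : Fin l →₀ ℕ) :
    (((Dio.mon v β : (R0 D 𝒰 N hN)ˣ) : R0 D 𝒰 N hN) : GK L 𝒰) =
      ∏ i, ((v i : R0 D 𝒰 N hN) : GK L 𝒰) ^ β i := by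
  unfold Dio.mon
  rw [Units.coe_prod]
  have h1 := map_prod (R0 D 𝒰 N hN).subtype (fun i => ((v i ^ β i : (R0 D 𝒰 N hN)ˣ) :
    R0 D 𝒰 N hN)) Finset.univ
  exact h1

/-- multiplicatively independent units are algebraically independent -/
theorem algInd {l : ℕ} (v : Fin l → (R0 D 𝒰 N hN)ˣ)
    (w : Fin l → (GK L 𝒰)ˣ) (hvw : ∀ i, ((v i : R0 D 𝒰 N hN) : GK L 𝒰) = w i)
    (hw : ∀ i, TU D (w i : GK L 𝒰)) (hind : ∀ α : Fin l → ℤ, BL.chr w α ∈ Cst L 𝒰 → α = 0) :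
    AlgebraicIndependent L fun i => (v i : R0 D 𝒰 N hN) := by
  classical
  unfold AlgebraicIndependent
  rw [injective_iff_map_eq_zero]
  intro f hf
  by_contra hf0
  set n := f.support.card with hn
  set e : Fin n ≃ f.support := f.support.equivFin.symm with he
  have hmon : ∀ β : Fin l →₀ ℕ, ((BL.chr w (fun i => (β i : ℤ)) : (GK L 𝒰)ˣ) : GK L 𝒰) =
      (((Dio.mon v β : (R0 D 𝒰 N hN)ˣ) : R0 D 𝒰 N hN) : GK L 𝒰) := by
    intro β
    rw [val_mon]
    unfold BL.chr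
    rw [Units.coe_prod]
    refine Finset.prod_congr rfl fun i _ => ?_
    rw [hvw, zpow_natCast, Units.val_pow_eq_pow_val]
  have h1 := unit_ind D n (fun i => ((BL.chr w (fun j => ((e i).1 j : ℤ)) : (GK L 𝒰)ˣ) : GK L 𝒰))
    (fun i => Units.ne_zero _) (fun i => (TU.chr hw _).1) (fun i => (TU.chr hw _).2) (by
      intro i j hij c hc
      apply hij
      have h2 : BL.chr w (fun k => ((e i).1 k : ℤ) - ((e j).1 k : ℤ)) ∈ Cst L 𝒰 := by
        rw [mem_Cst]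
        refine ⟨c, ?_⟩
        rw [← hc]
        have h3 : BL.chr w (fun k => ((e i).1 k : ℤ) - ((e j).1 k : ℤ)) *
            BL.chr w (fun k => ((e j).1 k : ℤ)) = BL.chr w (fun k => ((e i).1 k : ℤ)) := by
          rw [← chr_add]
          congr 1
          funext k
          simp
        rw [← h3, Units.val_mul, mul_div_cancel_right₀ _ (Units.ne_zero _)]
      have h3 := hind _ h2
      apply e.injective
      apply Subtype.ext
      ext k
      have h4 := congrFun h3 k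
      simp only [Pi.zero_apply] at h4
      omega) (fun i => coeff (e i).1 f) (by
      have h2 : ((aeval (fun i => (v i : R0 D 𝒰 N hN)) f : R0 D 𝒰 N hN) : GK L 𝒰) = 0 := by
        rw [hf]
        rfl
      rw [Dio.ev_eq, ← Finset.sum_coe_sort, ← e.sum_comp, coe_lin] at h2
      rw [← h2]
      exact Finset.sum_congr rfl fun i _ => by rw [hmon])
  apply hf0
  have hne : f.support.Nonempty := by
    rw [Finset.nonempty_iff_ne_empty, Ne, support_eq_empty]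
    exact hf0
  obtain ⟨β, hβ⟩ := hne
  have h2 := congrFun h1 (e.symm ⟨β, hβ⟩)
  simp only [Equiv.apply_symm_apply, Pi.zero_apply] at h2
  exact absurd h2 (mem_support_iff.1 hβ)

/-- evaluation of germs of bounded size at a place -/
noncomputable def evl (ψ : L →+* ℂ) : Evl (E := R0 D 𝒰 N hN) 𝒰 ψ where
  ev t x := ψ (rep (x : GK L 𝒰) t)
  add x y := by
    filter_upwards [rep_add (x : GK L 𝒰) (y : GK L 𝒰)] with t ht
    have h4 : ((x + y : R0 D 𝒰 N hN) : GK L 𝒰) = (x : GK L 𝒰) + (y : GK L 𝒰) := rfl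
    rw [h4, ht, map_add]
  mul x y := by
    filter_upwards [rep_mul (x : GK L 𝒰) (y : GK L 𝒰)] with t ht
    have h4 : ((x * y : R0 D 𝒰 N hN) : GK L 𝒰) = (x : GK L 𝒰) * (y : GK L 𝒰) := rfl
    rw [h4, ht, map_mul]
  alg c := by
    filter_upwards [rep_cg (𝒰 := 𝒰) c] with t ht
    rw [coe_alg, ht]
  ne x hx := by
    filter_upwards [rep_ne _ (coe_ne hx)] with t ht
    exact (map_ne_zero ψ).2 ht

theorem TI_eval {n : ℕ} {x : ℕ → Fin n → L} (hx : ∀ j, TI D 𝒰 fun t => x t j)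
    (f : MvPolynomial (Fin n) L) : TI D 𝒰 fun t => eval (x t) f := by
  induction f using MvPolynomial.induction_on with
  | C a => simpa using TI.const (D := D) (𝒰 := 𝒰) a
  | add p q hp hq => simpa using hp.add hq
  | mul_X p i hp => simpa using hp.mul (hx i)

theorem TI_gm {f : ℕ → L} (hf : TI D 𝒰 f) : TI D 𝒰 (rep (gm 𝒰 f)) := by
  refine hf.congr ?_
  filter_upwards [rep_gm (𝒰 := 𝒰) f] with t ht
  exact ht.symm

theorem coe_aeval {n : ℕ} (x : ℕ → Fin n → L) (z : Fin n → R0 D 𝒰 N hN)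
    (hz : ∀ j, (z j : GK L 𝒰) = gm 𝒰 fun t => x t j) (f : MvPolynomial (Fin n) L) :
    ((aeval z f : R0 D 𝒰 N hN) : GK L 𝒰) = gm 𝒰 fun t => eval (x t) f := by
  induction f using MvPolynomial.induction_on with
  | C a =>
    rw [aeval_C]
    simp only [eval_C]
    rfl
  | add p q hp hq =>
    rw [map_add]
    change ((aeval z p : R0 D 𝒰 N hN) : GK L 𝒰) + ((aeval z q : R0 D 𝒰 N hN) : GK L 𝒰) = _
    rw [hp, hq, ← map_add]
    congr 1
    funext t
    simp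
  | mul_X p i hp =>
    rw [map_mul, aeval_X]
    change ((aeval z p : R0 D 𝒰 N hN) : GK L 𝒰) * (z i : GK L 𝒰) = _
    rw [hp, hz, ← map_mul]
    congr 1
    funext t
    simp

theorem int_eq (hNt : Tendsto N (𝒰 : Filter ℕ) atTop) {l : ℕ} {v : Fin l → (R0 D 𝒰 N hN)ˣ}
    (hv : AlgebraicIndependent L fun i => (v i : R0 D 𝒰 N hN)) (t : ℕ)
    (f : (L ≃ₐ[ℚ] L) ⊕ Fin D.s → ℝ) :
    ∫ p, f p ∂((dio hNt hv).μ t) = ∑ p, f p := by
  let _ : MeasurableSpace ((L ≃ₐ[ℚ] L) ⊕ Fin D.s) := ⊤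
  change ∫ p, f p ∂(Measure.count : Measure ((L ≃ₐ[ℚ] L) ⊕ Fin D.s)) = ∑ p, f p
  rw [integral_fintype Integrable.of_finite]
  refine Finset.sum_congr rfl fun p _ => ?_
  have h4 : (Measure.count : Measure ((L ≃ₐ[ℚ] L) ⊕ Fin D.s)).real {p} = 1 := by
    rw [measureReal_def, Measure.count_singleton]
    rfl
  rw [h4, one_smul]

/-- the core statement, in the ring of germs of bounded size -/
theorem core1 (D : PD L) (ψ : L →+* ℂ) (N : ℕ → ℝ) (hN : ∀ t, 1 ≤ N t)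
    (hNt : Tendsto N (𝒰 : Filter ℕ) atTop) {n r l : ℕ} {κ : Type} [Finite κ]
    (F : κ → MvPolynomial (Fin n) L) (U : Fin r → MvPolynomial (Fin n) L)
    (x : ℕ → Fin n → L) (hF : ∀ t i, eval (x t) (F i) = 0)
    (v : Fin l → (GK L 𝒰)ˣ) (hvT : ∀ j, TU D (v j : GK L 𝒰))
    (hvind : ∀ α : Fin l → ℤ, BL.chr v α ∈ Cst L 𝒰 → α = 0) (c' : Fin r → L)
    (hc'0 : ∀ i, c' i ≠ 0) (A : Fin r → Fin l → ℤ)
    (hgen : ∀ w : Fin l → ℤ, (∀ i, ∑ j, A i j * w j = 0) → w = 0)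
    (hUG : ∀ i, (gm 𝒰 fun t => eval (x t) (U i)) =
      cg 𝒰 (c' i) * ((BL.chr v (A i) : (GK L 𝒰)ˣ) : GK L 𝒰))
    (hz : ∀ j, (gm 𝒰 fun t => x t j) ∈ R0 D 𝒰 N hN)
    (hvm : ∀ j, (v j : GK L 𝒰) ∈ R0 D 𝒰 N hN) (hvm' : ∀ j, (v j : GK L 𝒰)⁻¹ ∈ R0 D 𝒰 N hN)
    (hNle : ∀ᶠ t in (𝒰 : Filter ℕ), N t ≤
      1 + ∑ j, ∑ p, |Real.log (D.av p (rep (v j : GK L 𝒰) t))| +
        ∑ j, ∑ p, max (Real.log (D.av p (x t j))) 0)
    (halone : ∀ t, ∀ z' : Fin n → ℂ, (∀ i, eval₂ ψ z' (F i) = 0) →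
      (∀ i, eval₂ ψ z' (U i) = eval₂ ψ (fun j => ψ (x t j)) (U i)) →
        z' = fun j => ψ (x t j)) :
    ∀ᶠ t in (𝒰 : Filter ℕ), ∃ X : ℂ → Fin n → ℂ, (∀ j, Laur fun τ => X τ j) ∧
      (X 1 = fun j => ψ (x t j)) ∧ (∀ τ, τ ≠ 0 → ∀ i, eval₂ ψ (X τ) (F i) = 0) ∧
      ∃ τ, τ ≠ 0 ∧ X τ ≠ X 1 := by
  classical
  let zE : Fin n → R0 D 𝒰 N hN := fun j => ⟨_, hz j⟩
  let vE : Fin l → (R0 D 𝒰 N hN)ˣ := fun j => ⟨⟨_, hvm j⟩, ⟨_, hvm' j⟩,
    Subtype.ext (mul_inv_cancel₀ (v j).ne_zero), Subtype.ext (inv_mul_cancel₀ (v j).ne_zero)⟩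
  have hzr : ∀ᶠ t in (𝒰 : Filter ℕ), ∀ j, rep (zE j : GK L 𝒰) t = x t j :=
    eventually_all.2 fun j => rep_gm _
  have hchr : ∀ a : Fin l → ℤ, (((BL.chr vE a : (R0 D 𝒰 N hN)ˣ) : R0 D 𝒰 N hN) : GK L 𝒰) =
      ((BL.chr v a : (GK L 𝒰)ˣ) : GK L 𝒰) := by
    intro a
    have h1 : Units.map ((R0 D 𝒰 N hN).subtype : R0 D 𝒰 N hN →* GK L 𝒰) (BL.chr vE a) =
        BL.chr v a := by
      unfold BL.chr
      rw [map_prod]
      refine Finset.prod_congr rfl fun j _ => ?_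
      rw [map_zpow]
      congr 1
      exact Units.ext rfl
    rw [← h1]
    rfl
  have hcoe : ∀ f : MvPolynomial (Fin n) L, ((aeval zE f : R0 D 𝒰 N hN) : GK L 𝒰) =
      gm 𝒰 fun t => eval (x t) f := fun f => coe_aeval x zE (fun j => rfl) f
  have hFE : ∀ i, aeval zE (F i) = 0 := by
    intro i
    apply Subtype.ext
    rw [hcoe]
    have : (fun t => eval (x t) (F i)) = 0 := funext fun t => hF t i
    rw [this, map_zero]
    rfl
  have hUE : ∀ i, aeval zE (U i) = algebraMap L (R0 D 𝒰 N hN) (c' i) *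
      (BL.chr vE (A i) : (R0 D 𝒰 N hN)ˣ) := by
    intro i
    apply Subtype.ext
    rw [hcoe]
    change _ = cg 𝒰 (c' i) * (((BL.chr vE (A i) : (R0 D 𝒰 N hN)ˣ) : R0 D 𝒰 N hN) : GK L 𝒰)
    rw [hchr, hUG i]
  have hvE : AlgebraicIndependent L fun i => (vE i : R0 D 𝒰 N hN) :=
    algInd vE v (fun _ => rfl) hvT hvind
  have hsz : ∀ t (i : Fin l), ∫ p, |(dio hNt hvE).lg (vE i : R0 D 𝒰 N hN) t p|
        ∂((dio hNt hvE).μ t) =
      ∑ p, |Real.log (D.av p (rep (v i : GK L 𝒰) t))| := fun t i =>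
    int_eq hNt hvE t fun p => |Real.log (D.av p (rep (v i : GK L 𝒰) t))|
  have hsz2 : ∀ t (j : Fin n), ∫ p, max ((dio hNt hvE).lg (zE j) t p) 0
        ∂((dio hNt hvE).μ t) =
      ∑ p, max (Real.log (D.av p (rep (zE j : GK L 𝒰) t))) 0 := fun t j =>
    int_eq hNt hvE t fun p => max (Real.log (D.av p (rep (zE j : GK L 𝒰) t))) 0
  have hzero : ∀ᶠ t in (𝒰 : Filter ℕ), ∀ j, ¬ zE j ≠ 0 → x t j = 0 := by
    rw [eventually_all]
    intro j
    by_cases h : zE j ≠ 0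
    · exact Eventually.of_forall fun t h' => absurd h h'
    · push Not at h
      have h1 : (gm 𝒰 fun t => x t j) = gm 𝒰 fun _ => (0 : L) := by
        have h2 : (zE j : GK L 𝒰) = 0 := by rw [h]; rfl
        have h3 : (gm 𝒰 fun _ => (0 : L)) = 0 := map_zero (gm 𝒰)
        rw [h3]
        exact h2
      filter_upwards [(gm_eq 𝒰 _ _).1 h1] with t ht _
      exact ht
  have hmain := main_abs' (dio hNt hvE) (evl (D := D) (𝒰 := 𝒰) (hN := hN) ψ)
    zE F hFE U hvE c' hc'0 A hUE hgen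
    (Finset.univ.filter fun j => zE j ≠ 0) (fun j hj => (Finset.mem_filter.1 hj).2) ⟨1, by
      filter_upwards [hzr, hNle, hzero] with t ht h1 h2
      rw [one_mul]
      change N t ≤ _
      refine h1.trans (le_of_eq ?_)
      congr 1
      · congr 1
        exact Finset.sum_congr rfl fun i _ => (hsz t i).symm
      · rw [← Finset.sum_filter_add_sum_filter_not Finset.univ fun j => zE j ≠ 0]
        have h3 : ∑ j ∈ Finset.univ.filter (fun j => ¬ zE j ≠ 0),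
            ∑ p, max (Real.log (D.av p (x t j))) 0 = 0 := by
          refine Finset.sum_eq_zero fun j hj => Finset.sum_eq_zero fun p _ => ?_
          rw [h2 j (Finset.mem_filter.1 hj).2, D.av_zero, Real.log_zero, max_self]
        rw [h3, add_zero]
        refine Finset.sum_congr rfl fun j _ => ?_
        rw [hsz2]
        refine Finset.sum_congr rfl fun p _ => ?_
        rw [ht j]⟩ (by
      filter_upwards [hzr] with t ht z' h1 h2
      have h3 : (fun j => (evl (D := D) (𝒰 := 𝒰) (hN := hN) ψ).ev t (zE j)) =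
          fun j => ψ (x t j) := funext fun j => congrArg ψ (ht j)
      rw [h3] at h2 ⊢
      exact halone t z' h1 h2)
  filter_upwards [hmain, hzr] with t ht ht2
  obtain ⟨X, hX, hX1, hX2, hX3⟩ := ht
  refine ⟨X, hX, ?_, hX2, hX3⟩
  rw [hX1]
  exact funext fun j => congrArg ψ (ht2 j)

/-- **Sequences of integral points.** -/
theorem core (D : PD L) (ψ : L →+* ℂ) {n r : ℕ} {κ : Type} [Finite κ]
    (F : κ → MvPolynomial (Fin n) L) (U : Fin r → MvPolynomial (Fin n) L)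
    (x : ℕ → Fin n → L) (hxT : ∀ j, TI D 𝒰 fun t => x t j)
    (hF : ∀ t i, eval (x t) (F i) = 0) (hU0 : ∀ t i, eval (x t) (U i) ≠ 0)
    (hUT : ∀ i, TI D 𝒰 fun t => (eval (x t) (U i))⁻¹)
    (hnc : ∀ c : Fin n → L, ¬ ∀ᶠ t in (𝒰 : Filter ℕ), x t = c)
    (halone : ∀ t, ∀ z' : Fin n → ℂ, (∀ i, eval₂ ψ z' (F i) = 0) →
      (∀ i, eval₂ ψ z' (U i) = eval₂ ψ (fun j => ψ (x t j)) (U i)) →
        z' = fun j => ψ (x t j)) :
    ∀ᶠ t in (𝒰 : Filter ℕ), ∃ X : ℂ → Fin n → ℂ, (∀ j, Laur fun τ => X τ j) ∧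
      (X 1 = fun j => ψ (x t j)) ∧ (∀ τ, τ ≠ 0 → ∀ i, eval₂ ψ (X τ) (F i) = 0) ∧
      ∃ τ, τ ≠ 0 ∧ X τ ≠ X 1 := by
  classical
  have hzr : ∀ᶠ t in (𝒰 : Filter ℕ), ∀ j, rep (gm 𝒰 fun t => x t j) t = x t j :=
    eventually_all.2 fun j => rep_gm _
  -- the units
  have huinv : ∀ i, (gm 𝒰 fun t => eval (x t) (U i)) * (gm 𝒰 fun t => (eval (x t) (U i))⁻¹) = 1 := by
    intro i
    rw [← map_mul, ← map_one (gm 𝒰)]
    congr 1
    funext t
    exact mul_inv_cancel₀ (hU0 t i)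
  let uG : Fin r → (GK L 𝒰)ˣ := fun i => ⟨gm 𝒰 fun t => eval (x t) (U i),
    gm 𝒰 fun t => (eval (x t) (U i))⁻¹, huinv i, by rw [mul_comm]; exact huinv i⟩
  have huT : ∀ i, TU D (uG i : GK L 𝒰) := by
    intro i
    refine ⟨TI_gm (TI_eval hxT _), ?_⟩
    rw [← Units.val_inv_eq_inv_val]
    exact TI_gm (hUT i)
  obtain ⟨l, v, c, A, B, hcC, hc, hvB, hvind, hgen⟩ := lattice (Cst L 𝒰) Cst_sat uG
  have hvT : ∀ j, TU D (v j : GK L 𝒰) := fun j => by
    rw [hvB j]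
    exact TU.chr huT _
  choose c' hc' using fun i => (mem_Cst (c i)).1 (hcC i)
  have hc'0 : ∀ i, c' i ≠ 0 := by
    intro i h0
    have := hc' i
    rw [h0, map_zero] at this
    exact (c i).ne_zero this
  have hUG : ∀ i, (gm 𝒰 fun t => eval (x t) (U i)) =
      cg 𝒰 (c' i) * ((BL.chr v (A i) : (GK L 𝒰)ˣ) : GK L 𝒰) := by
    intro i
    rw [← hc' i, ← Units.val_mul, ← hc i]
  -- the scale
  obtain ⟨S1, hS1⟩ : ∃ S1 : ℕ → ℝ, S1 = fun t =>
    ∑ j, ∑ p, |Real.log (D.av p (rep (v j : GK L 𝒰) t))| := ⟨_, rfl⟩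
  obtain ⟨S2, hS2⟩ : ∃ S2 : ℕ → ℝ, S2 = fun t =>
    ∑ j, ∑ p, max (Real.log (D.av p (x t j))) 0 := ⟨_, rfl⟩
  obtain ⟨N, hNdef⟩ : ∃ N : ℕ → ℝ, N = fun t => 1 + S1 t + S2 t := ⟨_, rfl⟩
  have hS10 : ∀ t, 0 ≤ S1 t := fun t => by
    rw [hS1]
    exact Finset.sum_nonneg fun _ _ => Finset.sum_nonneg fun _ _ => abs_nonneg _
  have hS20 : ∀ t, 0 ≤ S2 t := fun t => by
    rw [hS2]
    exact Finset.sum_nonneg fun _ _ => Finset.sum_nonneg fun _ _ => le_max_right _ _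
  have hNe : ∀ t, N t = 1 + S1 t + S2 t := fun t => by rw [hNdef]
  have hN : ∀ t, 1 ≤ N t := fun t => by
    have := hS10 t
    have := hS20 t
    rw [hNe]
    linarith
  have hvN : ∀ t j p, |Real.log (D.av p (rep (v j : GK L 𝒰) t))| ≤ N t := by
    intro t j p
    have h1 : |Real.log (D.av p (rep (v j : GK L 𝒰) t))| ≤
        ∑ p, |Real.log (D.av p (rep (v j : GK L 𝒰) t))| :=
      Finset.single_le_sum (f := fun p => |Real.log (D.av p (rep (v j : GK L 𝒰) t))|)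
        (fun _ _ => abs_nonneg _) (Finset.mem_univ p)
    have h2 : ∑ p, |Real.log (D.av p (rep (v j : GK L 𝒰) t))| ≤ S1 t := by
      rw [hS1]
      exact Finset.single_le_sum (f := fun j => ∑ p, |Real.log (D.av p (rep (v j : GK L 𝒰) t))|)
        (fun _ _ => Finset.sum_nonneg fun _ _ => abs_nonneg _) (Finset.mem_univ j)
    have := hS20 t
    rw [hNe]
    linarith
  have hzN : ∀ t j p, D.av p (x t j) ≤ Real.exp (N t) := by
    intro t j p
    by_cases h0 : x t j = 0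
    · rw [h0, D.av_zero]
      exact (Real.exp_pos _).le
    rw [← Real.log_le_iff_le_exp (D.av_pos p _ h0)]
    have h1 : max (Real.log (D.av p (x t j))) 0 ≤ ∑ p, max (Real.log (D.av p (x t j))) 0 :=
      Finset.single_le_sum (f := fun p => max (Real.log (D.av p (x t j))) 0)
        (fun _ _ => le_max_right _ _) (Finset.mem_univ p)
    have h2 : ∑ p, max (Real.log (D.av p (x t j))) 0 ≤ S2 t := by
      rw [hS2]
      exact Finset.single_le_sum (f := fun j => ∑ p, max (Real.log (D.av p (x t j))) 0)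
        (fun _ _ => Finset.sum_nonneg fun _ _ => le_max_right _ _) (Finset.mem_univ j)
    have h3 := le_max_left (Real.log (D.av p (x t j))) 0
    have := hS10 t
    rw [hNe]
    linarith
  have hNt : Tendsto N (𝒰 : Filter ℕ) atTop := by
    apply tendsto_of_unbdd
    rintro ⟨C, hC⟩
    have h1 : ∀ j, ∃ d : L, (gm 𝒰 fun t => x t j) = cg 𝒰 d := by
      intro j
      refine const_of_bdd (D := D) _ (TI_gm (hxT j)) (Real.exp C) ?_
      filter_upwards [hC, hzr] with t g1 g2 p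
      rw [g2 j]
      exact (hzN t j p).trans (Real.exp_le_exp.2 g1)
    choose d hd using h1
    apply hnc d
    have h2 : ∀ᶠ t in (𝒰 : Filter ℕ), ∀ j, x t j = d j := by
      rw [eventually_all]
      intro j
      exact (gm_eq 𝒰 _ _).1 (hd j)
    filter_upwards [h2] with t ht
    exact funext ht
  refine core1 D ψ N hN hNt F U x hF v hvT hvind c' hc'0 A hgen hUG
    (fun j => (mem_R0 hN _).2 ⟨TI_gm (hxT j), 1, zero_le_one, ?_⟩)
    (fun j => (mem_R0 hN _).2 ⟨(hvT j).1, 1, zero_le_one, ?_⟩)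
    (fun j => (mem_R0 hN _).2 ⟨(hvT j).2, 1, zero_le_one, ?_⟩) ?_ halone
  · filter_upwards [hzr] with t ht p
    rw [ht j, one_mul]
    exact hzN t j p
  · filter_upwards [rep_ne _ (v j).ne_zero] with t ht p
    rw [one_mul, ← Real.log_le_iff_le_exp (D.av_pos p _ ht)]
    exact (le_abs_self _).trans (hvN t j p)
  · filter_upwards [rep_ne _ (v j).ne_zero, rep_inv _ (v j).ne_zero] with t ht ht2 p
    rw [one_mul, ht2, ← Real.log_le_iff_le_exp (D.av_pos p _ (inv_ne_zero ht)), av_inv _ _ ht]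
    exact (neg_le_abs _).trans (hvN t j p)
  · refine Eventually.of_forall fun t => ?_
    rw [hNe, hS1, hS2]

end Pool.Agent.K1H83.BL.Ari
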