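import Mathlib

/-!
Units on affine varieties.
-/

set_option autoImplicit false

namespace Pool.Agent.K1H83.BL

open MvPolynomial

/-- A polynomial without zeros on the complex points of an affine variety has an inverse. -/
theorem exists_inverse {K : Type} [Field K] (σ : K →+* ℂ) {n : ℕ} {κ : Type}
    (F : κ → MvPolynomial (Fin n) K) (U : MvPolynomial (Fin n) K)
    (hU : ∀ z : Fin n → ℂ, (∀ i, eval₂ σ z (F i) = 0) → eval₂ σ z U ≠ 0) :
    ∃ h : MvPolynomial (Fin n) K, ∀ (R : Type) [CommRing R] (φ : K →+* R) (y : Fin n → R),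
      (∀ i, eval₂ φ y (F i) = 0) → eval₂ φ y h * eval₂ φ y U = 1 := by
  let _ : Algebra K ℂ := σ.toAlgebra
  let I : Ideal (MvPolynomial (Fin n) K) := Ideal.span (insert U (Set.range F))
  have h1 : zeroLocus ℂ I = ∅ := by
    rw [Set.eq_empty_iff_forall_notMem]
    intro z hz
    have h2 : ∀ f ∈ I, eval₂ σ z f = 0 := fun f hf => hz f hf
    apply hU z fun i => h2 _ (Ideal.subset_span (Set.mem_insert_of_mem _ ⟨i, rfl⟩))
    exact h2 _ (Ideal.subset_span (Set.mem_insert _ _))
  have h2 := vanishingIdeal_zeroLocus_eq_radical (K := ℂ) I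
  rw [h1, vanishingIdeal_empty] at h2
  have h3 : (1 : MvPolynomial (Fin n) K) ∈ I := by
    rw [Ideal.radical_eq_top.1 h2.symm]
    exact Submodule.mem_top
  obtain ⟨h, a, ha, h4⟩ := Ideal.mem_span_insert.1 h3
  refine ⟨h, fun R _ φ y hy => ?_⟩
  have h5 : eval₂ φ y a = 0 := by
    have h6 : Ideal.span (Set.range F) ≤ RingHom.ker (eval₂Hom φ y) := by
      rw [Ideal.span_le]
      rintro _ ⟨i, rfl⟩
      rw [SetLike.mem_coe, RingHom.mem_ker]
      exact hy i
    exact h6 ha
  have h6 := congrArg (eval₂ φ y) h4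
  rw [eval₂_add, eval₂_mul, h5, add_zero, eval₂_one] at h6
  exact h6.symm

end Pool.Agent.K1H83.BL
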