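import Mathlib
import Pool.Agent.K1H83.BL.Ari2
import Pool.Agent.K1H83.BL.Null
import Pool.Agent.R405.PlaceExt
import Pool.Agent.H159R3.Exp.BLV

/-!
Infinitely many integral points which are determined by the values of units.
-/

set_option autoImplicit false
set_option linter.unusedSectionVars false

namespace Pool.Agent.K1H83.BL.Ari

open MvPolynomial Filter Topology NumberField IsDedekindDomain
open Pool.Agent.Y742.SF Pool.Agent.Y742.AR Pool.Agent.H159R3.Exp

theorem exists_galois (S : Finset ℂ) (hS : ∀ a ∈ S, IsAlgebraic ℚ a) :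
    ∃ L : IntermediateField ℚ ℂ, FiniteDimensional ℚ L ∧ IsGalois ℚ L ∧ ∀ a ∈ S, a ∈ L := by
  classical
  set p : Polynomial ℚ := ∏ a ∈ S, minpoly ℚ a with hp
  have hp0 : p ≠ 0 := Finset.prod_ne_zero_iff.mpr (fun a ha => minpoly.ne_zero (hS a ha).isIntegral)
  have hspl : (p.map (algebraMap ℚ ℂ)).Splits := IsAlgClosed.splits _
  have hsf : p.IsSplittingField ℚ (IntermediateField.adjoin ℚ (p.rootSet ℂ)) :=
    IntermediateField.adjoin_rootSet_isSplittingField hspl
  have : Normal ℚ (IntermediateField.adjoin ℚ (p.rootSet ℂ)) := Normal.of_isSplittingField p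
  have : FiniteDimensional ℚ (IntermediateField.adjoin ℚ (p.rootSet ℂ)) :=
    Polynomial.IsSplittingField.finiteDimensional _ p
  refine ⟨IntermediateField.adjoin ℚ (p.rootSet ℂ), inferInstance, ?_, fun a ha => ?_⟩
  · exact { }
  · apply IntermediateField.subset_adjoin
    rw [Polynomial.mem_rootSet]
    refine ⟨hp0, ?_⟩
    rw [hp, map_prod]
    exact Finset.prod_eq_zero ha (minpoly.aeval ℚ a)

/-- a Galois extension containing a given number field and a square root of `-1` -/
theorem exists_big (L : Type) [Field L] [NumberField L] (τ : L →+* ℂ) :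
    ∃ (M : Type) (_ : Field M) (_ : NumberField M) (_ : IsGalois ℚ M) (ι : L →+* M)
      (ψ : M →+* ℂ), ψ.comp ι = τ ∧ ∃ z : M, z ^ 2 = -1 := by
  classical
  let b := Module.finBasis ℚ L
  obtain ⟨M, hM1, hM2, hM⟩ := exists_galois (insert Complex.I (Finset.univ.image fun i => τ (b i)))
    (by
      intro a ha
      rw [Finset.mem_insert, Finset.mem_image] at ha
      rcases ha with rfl | ⟨i, -, rfl⟩
      · refine ⟨Polynomial.X ^ 2 + 1, ?_, ?_⟩
        · intro h
          have := congrArg (Polynomial.eval 0) h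
          simp at this
        · simp
      · exact IsAlgebraic.algHom (τ.toRatAlgHom : L →ₐ[ℚ] ℂ)
          (Algebra.IsAlgebraic.isAlgebraic (R := ℚ) (b i)))
  have hmem : ∀ x : L, τ x ∈ M := by
    intro x
    rw [← b.sum_repr x, map_sum]
    refine M.sum_mem fun i _ => ?_
    have h1 : τ (b.repr x i • b i) = b.repr x i • τ (b i) :=
      map_rat_smul τ _ _
    rw [h1]
    exact M.smul_mem (hM _ (Finset.mem_insert_of_mem
      (Finset.mem_image.2 ⟨i, Finset.mem_univ _, rfl⟩)))
  refine ⟨M, inferInstance, ⟨⟩, hM2, τ.codRestrict M.toSubring hmem, M.val.toRingHom, ?_,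
    ⟨⟨Complex.I, hM _ (Finset.mem_insert_self _ _)⟩, ?_⟩⟩
  · ext x
    rfl
  · apply Subtype.ext
    change (Complex.I : ℂ) ^ 2 = -1
    exact Complex.I_sq

variable {K : Type} [Field K] [NumberField K]

/-- **Infinitely many integral points.** -/
theorem arith (σ : K →+* ℂ) {n r : ℕ} {κ : Type} [Finite κ]
    (F : κ → MvPolynomial (Fin n) (𝓞 K)) (U : Fin r → MvPolynomial (Fin n) (𝓞 K))
    (hU : ∀ z : Fin n → ℂ, (∀ i, eval₂ (σ.comp (algebraMap (𝓞 K) K)) z (F i) = 0) →
      ∀ i, eval₂ (σ.comp (algebraMap (𝓞 K) K)) z (U i) ≠ 0)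
    (L : Type) [Field L] [NumberField L] [Algebra K L] (S : Set (HeightOneSpectrum (𝓞 L)))
    (hS : S.Finite) (T : Set (Fin n → L)) (hT : T.Infinite) (hTV : T ⊆ intPoints F L S)
    (τ : L →+* ℂ) (hτ : τ.comp (algebraMap K L) = σ)
    (halone : ∀ x ∈ T, ∀ z' : Fin n → ℂ,
      (∀ i, eval₂ (σ.comp (algebraMap (𝓞 K) K)) z' (F i) = 0) →
      (∀ i, eval₂ (σ.comp (algebraMap (𝓞 K) K)) z' (U i) =
        eval₂ (σ.comp (algebraMap (𝓞 K) K)) (fun j => τ (x j)) (U i)) →
        z' = fun j => τ (x j)) :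
    ∃ x ∈ T, ∃ X : ℂ → Fin n → ℂ, (∀ j, Laur fun t => X t j) ∧
      (X 1 = fun j => τ (x j)) ∧
      (∀ t, t ≠ 0 → ∀ i, eval₂ (σ.comp (algebraMap (𝓞 K) K)) (X t) (F i) = 0) ∧
      ∃ t, t ≠ 0 ∧ X t ≠ X 1 := by
  classical
  obtain ⟨M, _, _, _, ι, ψ, hψ, hi⟩ := exists_big L τ
  let _ : Algebra L M := ι.toAlgebra
  have hιal : ∀ y : L, algebraMap L M y = ι y := fun _ => rfl
  let S' : Set (HeightOneSpectrum (𝓞 M)) :=
    ⋃ v ∈ S, {Q | ((Ideal.absNorm v.asIdeal : ℕ) : 𝓞 M) ∈ Q.asIdeal}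
  have hS' : S'.Finite := Set.Finite.biUnion hS fun v _ => finite_primes _ (by
    rw [Ne, Ideal.absNorm_eq_zero_iff]
    exact v.ne_bot)
  obtain ⟨D, hD⟩ := exists_PD hi S' hS'
  -- integrality
  have hint : ∀ y : L, y ∈ S.integer L → D.TInt (ι y) := by
    intro y hy w hw
    have hover : Pool.Agent.TeamU.Over w (w.under (𝓞 L)) := rfl
    obtain ⟨c, hc, h1⟩ := Pool.Agent.R405.exists_exp hover
    rw [← hιal, h1]
    have h2 : w.under (𝓞 L) ∉ S := by
      intro h3
      have h4 : w ∈ S' := by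
        refine Set.mem_biUnion (x := w.under (𝓞 L)) h3 ?_
        have h5 : ((Ideal.absNorm (w.under (𝓞 L)).asIdeal : ℕ) : 𝓞 L) ∈
            w.asIdeal.comap (algebraMap (𝓞 L) (𝓞 M)) := by
          rw [hover]
          exact Ideal.absNorm_mem _
        rw [Ideal.mem_comap, map_natCast] at h5
        exact h5
      obtain ⟨v, hv⟩ := hD w h4
      exact hw v hv
    exact Real.rpow_le_one (fv_nonneg _ _) ((mem_integer_iff S y).1 hy _ h2) hc.le
  -- the data over `M`
  let φK : K →+* M := ι.comp (algebraMap K L)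
  have hφK : ψ.comp φK = σ := by
    rw [← hτ, ← hψ]
    rfl
  let φ : 𝓞 K →+* M := φK.comp (algebraMap (𝓞 K) K)
  have hφ : ψ.comp φ = σ.comp (algebraMap (𝓞 K) K) := by
    rw [← hφK]
    rfl
  let e : ℕ ↪ T := hT.natEmbedding
  let x : ℕ → Fin n → M := fun t j => ι ((e t).1 j)
  have hψx : ∀ t j, ψ (x t j) = τ ((e t).1 j) := fun t j => RingHom.congr_fun hψ _
  have hev : ∀ t (f : MvPolynomial (Fin n) (𝓞 K)), eval (x t) (map φ f) =
      ι (eval₂ ((algebraMap K L).comp (algebraMap (𝓞 K) K)) (e t).1 f) := by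
    intro t f
    rw [eval_map, hom_eval₂]
    rfl
  have hC : ∀ (z : Fin n → ℂ) (f : MvPolynomial (Fin n) (𝓞 K)), eval₂ ψ z (map φ f) =
      eval₂ (σ.comp (algebraMap (𝓞 K) K)) z f := by
    intro z f
    rw [eval₂_map, hφ]
  have hevC : ∀ t (f : MvPolynomial (Fin n) (𝓞 K)), ψ (eval (x t) (map φ f)) =
      eval₂ (σ.comp (algebraMap (𝓞 K) K)) (fun j => τ ((e t).1 j)) f := by
    intro t f
    rw [← hC, eval, ← coe_eval₂Hom, coe_eval₂Hom, hom_eval₂]
    have h1 : (fun j => τ ((e t).1 j)) = ψ ∘ x t := funext fun j => (hψx t j).symm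
    rw [h1, RingHom.comp_id]
    rfl
  have hFx : ∀ t i, eval (x t) (map φ (F i)) = 0 := by
    intro t i
    rw [hev, (hTV (e t).2).2 i, map_zero]
  have hVx : ∀ t i, eval₂ (σ.comp (algebraMap (𝓞 K) K)) (fun j => τ ((e t).1 j)) (F i) = 0 := by
    intro t i
    rw [← hevC, hFx, map_zero]
  have hU0 : ∀ t i, eval (x t) (map φ (U i)) ≠ 0 := by
    intro t i h0
    apply hU (fun j => τ ((e t).1 j)) (hVx t) i
    rw [← hevC, h0, map_zero]
  have hinv : ∀ i, ∃ h : MvPolynomial (Fin n) K, ∀ (R : Type) [CommRing R] (φ : K →+* R)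
      (y : Fin n → R), (∀ i, eval₂ φ y (map (algebraMap (𝓞 K) K) (F i)) = 0) →
      eval₂ φ y h * eval₂ φ y (map (algebraMap (𝓞 K) K) (U i)) = 1 := by
    intro i
    refine exists_inverse σ (fun i => map (algebraMap (𝓞 K) K) (F i)) _ ?_
    intro z hz
    rw [eval₂_map]
    exact hU z (fun i => by rw [← eval₂_map]; exact hz i) i
  choose h hh using hinv
  have hxT : ∀ j, TI D (hyperfilter ℕ) fun t => x t j := fun j =>
    ⟨1, one_ne_zero, Eventually.of_forall fun t => by
      have h1 : ((1 : 𝓞 M) : M) * x t j = x t j := by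
        have h0 : ((1 : 𝓞 M) : M) = 1 := rfl
        rw [h0, one_mul]
      rw [h1]
      exact hint _ ((hTV (e t).2).1 j)⟩
  have hUT : ∀ i, TI D (hyperfilter ℕ) fun t => (eval (x t) (map φ (U i)))⁻¹ := by
    intro i
    refine (TI_eval hxT (map φK (h i))).congr (Eventually.of_forall fun t => ?_)
    have h1 := hh i M φK (x t) (fun i => by
      rw [eval₂_map]
      have := hFx t i
      rwa [eval_map] at this)
    rw [eval₂_map] at h1
    have h2 : eval (x t) (map φK (h i)) * eval (x t) (map φ (U i)) = 1 := by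
      rw [eval_map, eval_map]
      exact h1
    exact eq_inv_of_mul_eq_one_left h2
  have hxinj : Function.Injective x := by
    intro s t hst
    apply e.injective
    apply Subtype.ext
    funext j
    exact ι.injective (congrFun hst j)
  have hmain := core (𝒰 := hyperfilter ℕ) D ψ (fun i => map φ (F i)) (fun i => map φ (U i)) x hxT
    hFx hU0 hUT (by
      intro c hc
      have h1 : {t | x t = c}.Finite := by
        refine Set.Subsingleton.finite ?_
        intro s hs t ht
        exact hxinj (hs.trans ht.symm)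
      exact (Filter.notMem_hyperfilter_of_finite h1) hc) (by
      intro t z' h1 h2
      have h3 : (fun j => ψ (x t j)) = fun j => τ ((e t).1 j) := funext (hψx t)
      rw [h3] at h2 ⊢
      refine halone _ (e t).2 z' (fun i => ?_) fun i => ?_
      · rw [← hC]
        exact h1 i
      · have h4 := h2 i
        simp only [hC] at h4
        exact h4)
  obtain ⟨t, X, hX, hX1, hX2, hX3⟩ := hmain.exists
  refine ⟨(e t).1, (e t).2, X, hX, ?_, ?_, hX3⟩
  · rw [hX1]
    exact funext (hψx t)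
  · intro s hs i
    rw [← hC]
    exact hX2 s hs i

end Pool.Agent.K1H83.BL.Ari
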