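import Mathlib
import Pool.Agent.K1H83.BL.Ari2
import Pool.Agent.K1H83.BL.Drop

/-!
Sequences of integral points whose coordinates are quotients of sums of units.
-/

set_option autoImplicit false
set_option linter.unusedSectionVars false

namespace Pool.Agent.K1H83.BL.Ari

open MvPolynomial Filter Topology MeasureTheory
open Pool.Agent.Y742.SF Pool.Agent.Y742.AR Pool.Agent.H159R3.Exp

variable {L : Type} [Field L] [NumberField L] [IsGalois ℚ L] {D : PD L} {𝒰 : Ultrafilter ℕ}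
  {N : ℕ → ℝ} {hN : ∀ t, 1 ≤ N t}

/-- the field of germs as an algebra -/
@[instance_reducible]
noncomputable def algGK (L : Type) [Field L] (𝒰 : Ultrafilter ℕ) : Algebra L (GK L 𝒰) :=
  (cg 𝒰).toAlgebra

attribute [local instance] algGK

theorem alg_GK (c : L) : algebraMap L (GK L 𝒰) c = cg 𝒰 c := rfl

theorem aeval_GK {n : ℕ} (x : ℕ → Fin n → L) (f : MvPolynomial (Fin n) L) :
    aeval (fun j => gm 𝒰 fun t => x t j) f = gm 𝒰 fun t => eval (x t) f := by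
  induction f using MvPolynomial.induction_on with
  | C a =>
    rw [aeval_C]
    simp only [eval_C]
    rfl
  | add p q hp hq =>
    rw [map_add, hp, hq, ← map_add]
    congr 1
    funext t
    simp
  | mul_X p i hp =>
    rw [map_mul, aeval_X, hp, ← map_mul]
    congr 1
    funext t
    simp

theorem aeval_coe {n : ℕ} (x : Fin n → R0 D 𝒰 N hN) (f : MvPolynomial (Fin n) L) :
    ((aeval x f : R0 D 𝒰 N hN) : GK L 𝒰) = aeval (fun j => (x j : GK L 𝒰)) f := by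
  induction f using MvPolynomial.induction_on with
  | C a =>
    rw [aeval_C, aeval_C]
    rfl
  | add p q hp hq =>
    rw [map_add, map_add]
    change ((aeval x p : R0 D 𝒰 N hN) : GK L 𝒰) + ((aeval x q : R0 D 𝒰 N hN) : GK L 𝒰) = _
    rw [hp, hq]
  | mul_X p i hp =>
    rw [map_mul, map_mul, aeval_X, aeval_X]
    change ((aeval x p : R0 D 𝒰 N hN) : GK L 𝒰) * (x i : GK L 𝒰) = _
    rw [hp]

/-- the core statement, in the ring of germs of bounded size -/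
theorem core1_rat (D : PD L) (ψ : L →+* ℂ) (N : ℕ → ℝ) (hN : ∀ t, 1 ≤ N t)
    (hNt : Tendsto N (𝒰 : Filter ℕ) atTop) {n l : ℕ} {κ : Type} [Finite κ]
    (F : κ → MvPolynomial (Fin n) L)
    (x : ℕ → Fin n → L) (hF : ∀ t i, eval (x t) (F i) = 0)
    (v : Fin l → (GK L 𝒰)ˣ) (hvT : ∀ j, TU D (v j : GK L 𝒰))
    (hvind : ∀ α : Fin l → ℤ, BL.chr v α ∈ Cst L 𝒰 → α = 0)
    (hrat : Gen L v fun j => gm 𝒰 fun t => x t j)
    (hmin : ∀ w : Fin l → ℤ, w ≠ 0 → ∃ j, ∀ P Q : MvPolynomial (Fin l) L,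
      aeval (fun i => ((v i : (GK L 𝒰)ˣ) : GK L 𝒰)) Q ≠ 0 →
      (gm 𝒰 fun t => x t j) * aeval (fun i => ((v i : (GK L 𝒰)ˣ) : GK L 𝒰)) Q =
        aeval (fun i => ((v i : (GK L 𝒰)ˣ) : GK L 𝒰)) P →
      ∀ m : ℤ, ¬ ((∀ β ∈ P.support, wt w β = m) ∧ ∀ β ∈ Q.support, wt w β = m))
    (hz : ∀ j, (gm 𝒰 fun t => x t j) ∈ R0 D 𝒰 N hN)
    (hvm : ∀ j, (v j : GK L 𝒰) ∈ R0 D 𝒰 N hN) (hvm' : ∀ j, (v j : GK L 𝒰)⁻¹ ∈ R0 D 𝒰 N hN)
    (hNle : ∀ᶠ t in (𝒰 : Filter ℕ), N t ≤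
      1 + ∑ j, ∑ p, |Real.log (D.av p (rep (v j : GK L 𝒰) t))| +
        ∑ j, ∑ p, max (Real.log (D.av p (x t j))) 0) :
    ∀ᶠ t in (𝒰 : Filter ℕ), ∃ X : ℂ → Fin n → ℂ, (∀ j, Laur fun τ => X τ j) ∧
      (X 1 = fun j => ψ (x t j)) ∧ (∀ τ, τ ≠ 0 → ∀ i, eval₂ ψ (X τ) (F i) = 0) ∧
      ∃ τ, τ ≠ 0 ∧ X τ ≠ X 1 := by
  classical
  let zE : Fin n → R0 D 𝒰 N hN := fun j => ⟨_, hz j⟩
  let vE : Fin l → (R0 D 𝒰 N hN)ˣ := fun j => ⟨⟨_, hvm j⟩, ⟨_, hvm' j⟩,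
    Subtype.ext (mul_inv_cancel₀ (v j).ne_zero), Subtype.ext (inv_mul_cancel₀ (v j).ne_zero)⟩
  have hzr : ∀ᶠ t in (𝒰 : Filter ℕ), ∀ j, rep (zE j : GK L 𝒰) t = x t j :=
    eventually_all.2 fun j => rep_gm _
  have hcoe : ∀ f : MvPolynomial (Fin n) L, ((aeval zE f : R0 D 𝒰 N hN) : GK L 𝒰) =
      gm 𝒰 fun t => eval (x t) f := fun f => coe_aeval x zE (fun j => rfl) f
  have hcoev : ∀ f : MvPolynomial (Fin l) L,
      ((aeval (fun i => ((vE i : (R0 D 𝒰 N hN)ˣ) : R0 D 𝒰 N hN)) f : R0 D 𝒰 N hN) : GK L 𝒰) =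
      aeval (fun i => ((v i : (GK L 𝒰)ˣ) : GK L 𝒰)) f := fun f => aeval_coe _ f
  have hFE : ∀ i, aeval zE (F i) = 0 := by
    intro i
    apply Subtype.ext
    rw [hcoe]
    have : (fun t => eval (x t) (F i)) = 0 := funext fun t => hF t i
    rw [this, map_zero]
    rfl
  have hvE : AlgebraicIndependent L fun i => (vE i : R0 D 𝒰 N hN) :=
    algInd vE v (fun _ => rfl) hvT hvind
  have hratE : ∀ j, ∃ P Q : MvPolynomial (Fin l) L,
      aeval (fun i => ((vE i : (R0 D 𝒰 N hN)ˣ) : R0 D 𝒰 N hN)) Q ≠ 0 ∧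
      zE j * aeval (fun i => ((vE i : (R0 D 𝒰 N hN)ˣ) : R0 D 𝒰 N hN)) Q =
        aeval (fun i => ((vE i : (R0 D 𝒰 N hN)ˣ) : R0 D 𝒰 N hN)) P := by
    intro j
    obtain ⟨P, Q, hQ, hPQ⟩ := hrat j
    refine ⟨P, Q, fun h => hQ ?_, Subtype.ext ?_⟩
    · rw [← hcoev, h]
      rfl
    · rw [hcoev]
      change (gm 𝒰 fun t => x t j) *
        ((aeval (fun i => ((vE i : (R0 D 𝒰 N hN)ˣ) : R0 D 𝒰 N hN)) Q : R0 D 𝒰 N hN) : GK L 𝒰) = _
      rw [hcoev]
      exact hPQ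
  have hminE : ∀ w : Fin l → ℤ, w ≠ 0 → ∃ j, ∀ P Q : MvPolynomial (Fin l) L,
      aeval (fun i => ((vE i : (R0 D 𝒰 N hN)ˣ) : R0 D 𝒰 N hN)) Q ≠ 0 →
      zE j * aeval (fun i => ((vE i : (R0 D 𝒰 N hN)ˣ) : R0 D 𝒰 N hN)) Q =
        aeval (fun i => ((vE i : (R0 D 𝒰 N hN)ˣ) : R0 D 𝒰 N hN)) P →
      ∀ m : ℤ, ¬ ((∀ β ∈ P.support, wt w β = m) ∧ ∀ β ∈ Q.support, wt w β = m) := by
    intro w hw
    obtain ⟨j, hj⟩ := hmin w hw
    refine ⟨j, fun P Q hQ hPQ => hj P Q (fun h => hQ ?_) ?_⟩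
    · apply Subtype.ext
      rw [hcoev, h]
      rfl
    · have h1 := congrArg Subtype.val hPQ
      change (gm 𝒰 fun t => x t j) *
        ((aeval (fun i => ((vE i : (R0 D 𝒰 N hN)ˣ) : R0 D 𝒰 N hN)) Q : R0 D 𝒰 N hN) : GK L 𝒰) =
        ((aeval (fun i => ((vE i : (R0 D 𝒰 N hN)ˣ) : R0 D 𝒰 N hN)) P : R0 D 𝒰 N hN) : GK L 𝒰) at h1
      rwa [hcoev, hcoev] at h1
  have hsz : ∀ t (i : Fin l), ∫ p, |(dio hNt hvE).lg (vE i : R0 D 𝒰 N hN) t p|
        ∂((dio hNt hvE).μ t) =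
      ∑ p, |Real.log (D.av p (rep (v i : GK L 𝒰) t))| := fun t i =>
    int_eq hNt hvE t fun p => |Real.log (D.av p (rep (v i : GK L 𝒰) t))|
  have hsz2 : ∀ t (j : Fin n), ∫ p, max ((dio hNt hvE).lg (zE j) t p) 0
        ∂((dio hNt hvE).μ t) =
      ∑ p, max (Real.log (D.av p (rep (zE j : GK L 𝒰) t))) 0 := fun t j =>
    int_eq hNt hvE t fun p => max (Real.log (D.av p (rep (zE j : GK L 𝒰) t))) 0
  have hzero : ∀ᶠ t in (𝒰 : Filter ℕ), ∀ j, ¬ zE j ≠ 0 → x t j = 0 := by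
    rw [eventually_all]
    intro j
    by_cases h : zE j ≠ 0
    · exact Eventually.of_forall fun t h' => absurd h h'
    · push Not at h
      have h1 : (gm 𝒰 fun t => x t j) = gm 𝒰 fun _ => (0 : L) := by
        have h2 : (zE j : GK L 𝒰) = 0 := by rw [h]; rfl
        have h3 : (gm 𝒰 fun _ => (0 : L)) = 0 := map_zero (gm 𝒰)
        rw [h3]
        exact h2
      filter_upwards [(gm_eq 𝒰 _ _).1 h1] with t ht _
      exact ht
  have hmain := main_rat (dio hNt hvE) (evl (D := D) (𝒰 := 𝒰) (hN := hN) ψ)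
    zE F hFE hvE hratE hminE
    (Finset.univ.filter fun j => zE j ≠ 0) (fun j hj => (Finset.mem_filter.1 hj).2) ⟨1, by
      filter_upwards [hzr, hNle, hzero] with t ht h1 h2
      rw [one_mul]
      change N t ≤ _
      refine h1.trans (le_of_eq ?_)
      congr 1
      · congr 1
        exact Finset.sum_congr rfl fun i _ => (hsz t i).symm
      · rw [← Finset.sum_filter_add_sum_filter_not Finset.univ fun j => zE j ≠ 0]
        have h3 : ∑ j ∈ Finset.univ.filter (fun j => ¬ zE j ≠ 0),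
            ∑ p, max (Real.log (D.av p (x t j))) 0 = 0 := by
          refine Finset.sum_eq_zero fun j hj => Finset.sum_eq_zero fun p _ => ?_
          rw [h2 j (Finset.mem_filter.1 hj).2, D.av_zero, Real.log_zero, max_self]
        rw [h3, add_zero]
        refine Finset.sum_congr rfl fun j _ => ?_
        rw [hsz2]
        refine Finset.sum_congr rfl fun p _ => ?_
        rw [ht j]⟩
  filter_upwards [hmain, hzr] with t ht ht2
  obtain ⟨X, hX, hX1, hX2, hX3⟩ := ht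
  refine ⟨X, hX, ?_, hX2, hX3⟩
  rw [hX1]
  exact funext fun j => congrArg ψ (ht2 j)

/-- **Sequences of integral points.** -/
theorem core_rat (D : PD L) (ψ : L →+* ℂ) {n r : ℕ} {κ : Type} [Finite κ]
    (F : κ → MvPolynomial (Fin n) L)
    (x : ℕ → Fin n → L) (hxT : ∀ j, TI D 𝒰 fun t => x t j)
    (hF : ∀ t i, eval (x t) (F i) = 0)
    (u : ℕ → Fin r → L) (hu0 : ∀ t i, u t i ≠ 0) (huT : ∀ i, TI D 𝒰 fun t => u t i)
    (huT' : ∀ i, TI D 𝒰 fun t => (u t i)⁻¹)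
    (P Q : Fin n → MvPolynomial (Fin r) L) (hQ : ∀ t j, eval (u t) (Q j) ≠ 0)
    (hPQ : ∀ t j, x t j * eval (u t) (Q j) = eval (u t) (P j))
    (hnc : ∀ c : Fin n → L, ¬ ∀ᶠ t in (𝒰 : Filter ℕ), x t = c) :
    ∀ᶠ t in (𝒰 : Filter ℕ), ∃ X : ℂ → Fin n → ℂ, (∀ j, Laur fun τ => X τ j) ∧
      (X 1 = fun j => ψ (x t j)) ∧ (∀ τ, τ ≠ 0 → ∀ i, eval₂ ψ (X τ) (F i) = 0) ∧
      ∃ τ, τ ≠ 0 ∧ X τ ≠ X 1 := by
  classical
  have hzr : ∀ᶠ t in (𝒰 : Filter ℕ), ∀ j, rep (gm 𝒰 fun t => x t j) t = x t j :=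
    eventually_all.2 fun j => rep_gm _
  -- the units
  have huinv : ∀ i, (gm 𝒰 fun t => u t i) * (gm 𝒰 fun t => (u t i)⁻¹) = 1 := by
    intro i
    rw [← map_mul, ← map_one (gm 𝒰)]
    congr 1
    funext t
    exact mul_inv_cancel₀ (hu0 t i)
  let uG : Fin r → (GK L 𝒰)ˣ := fun i => ⟨gm 𝒰 fun t => u t i,
    gm 𝒰 fun t => (u t i)⁻¹, huinv i, by rw [mul_comm]; exact huinv i⟩
  have huTU : ∀ i, TU D (uG i : GK L 𝒰) := by
    intro i
    refine ⟨TI_gm (huT i), ?_⟩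
    rw [← Units.val_inv_eq_inv_val]
    exact TI_gm (huT' i)
  have hgenu : Gen L uG fun j => gm 𝒰 fun t => x t j := by
    intro j
    refine ⟨P j, Q j, ?_, ?_⟩
    · change aeval (fun i => gm 𝒰 fun t => u t i) (Q j) ≠ 0
      rw [aeval_GK]
      intro h
      have h1 : gm 𝒰 (fun t => eval (u t) (Q j)) = gm 𝒰 fun _ => (0 : L) := by
        rw [h]
        exact (map_zero (gm 𝒰)).symm
      obtain ⟨t, ht⟩ := ((gm_eq 𝒰 _ _).1 h1).exists
      exact hQ t j ht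
    · change _ * aeval (fun i => gm 𝒰 fun t => u t i) (Q j) =
        aeval (fun i => gm 𝒰 fun t => u t i) (P j)
      rw [aeval_GK, aeval_GK, ← map_mul]
      congr 1
      funext t
      exact hPQ t j
  obtain ⟨l, v, B, hvB, hvind, hgen, hmin⟩ := min_exists (k := L) (Cst L 𝒰) Cst_sat
    (fun x hx => (mem_Cst x).1 hx) uG _ hgenu
  have hvT : ∀ j, TU D (v j : GK L 𝒰) := fun j => by
    rw [hvB j]
    exact TU.chr huTU _
  -- the scale
  obtain ⟨S1, hS1⟩ : ∃ S1 : ℕ → ℝ, S1 = fun t =>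
    ∑ j, ∑ p, |Real.log (D.av p (rep (v j : GK L 𝒰) t))| := ⟨_, rfl⟩
  obtain ⟨S2, hS2⟩ : ∃ S2 : ℕ → ℝ, S2 = fun t =>
    ∑ j, ∑ p, max (Real.log (D.av p (x t j))) 0 := ⟨_, rfl⟩
  obtain ⟨N, hNdef⟩ : ∃ N : ℕ → ℝ, N = fun t => 1 + S1 t + S2 t := ⟨_, rfl⟩
  have hS10 : ∀ t, 0 ≤ S1 t := fun t => by
    rw [hS1]
    exact Finset.sum_nonneg fun _ _ => Finset.sum_nonneg fun _ _ => abs_nonneg _
  have hS20 : ∀ t, 0 ≤ S2 t := fun t => by
    rw [hS2]
    exact Finset.sum_nonneg fun _ _ => Finset.sum_nonneg fun _ _ => le_max_right _ _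
  have hNe : ∀ t, N t = 1 + S1 t + S2 t := fun t => by rw [hNdef]
  have hN : ∀ t, 1 ≤ N t := fun t => by
    have := hS10 t
    have := hS20 t
    rw [hNe]
    linarith
  have hvN : ∀ t j p, |Real.log (D.av p (rep (v j : GK L 𝒰) t))| ≤ N t := by
    intro t j p
    have h1 : |Real.log (D.av p (rep (v j : GK L 𝒰) t))| ≤
        ∑ p, |Real.log (D.av p (rep (v j : GK L 𝒰) t))| :=
      Finset.single_le_sum (f := fun p => |Real.log (D.av p (rep (v j : GK L 𝒰) t))|)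
        (fun _ _ => abs_nonneg _) (Finset.mem_univ p)
    have h2 : ∑ p, |Real.log (D.av p (rep (v j : GK L 𝒰) t))| ≤ S1 t := by
      rw [hS1]
      exact Finset.single_le_sum (f := fun j => ∑ p, |Real.log (D.av p (rep (v j : GK L 𝒰) t))|)
        (fun _ _ => Finset.sum_nonneg fun _ _ => abs_nonneg _) (Finset.mem_univ j)
    have := hS20 t
    rw [hNe]
    linarith
  have hzN : ∀ t j p, D.av p (x t j) ≤ Real.exp (N t) := by
    intro t j p
    by_cases h0 : x t j = 0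
    · rw [h0, D.av_zero]
      exact (Real.exp_pos _).le
    rw [← Real.log_le_iff_le_exp (D.av_pos p _ h0)]
    have h1 : max (Real.log (D.av p (x t j))) 0 ≤ ∑ p, max (Real.log (D.av p (x t j))) 0 :=
      Finset.single_le_sum (f := fun p => max (Real.log (D.av p (x t j))) 0)
        (fun _ _ => le_max_right _ _) (Finset.mem_univ p)
    have h2 : ∑ p, max (Real.log (D.av p (x t j))) 0 ≤ S2 t := by
      rw [hS2]
      exact Finset.single_le_sum (f := fun j => ∑ p, max (Real.log (D.av p (x t j))) 0)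
        (fun _ _ => Finset.sum_nonneg fun _ _ => le_max_right _ _) (Finset.mem_univ j)
    have h3 := le_max_left (Real.log (D.av p (x t j))) 0
    have := hS10 t
    rw [hNe]
    linarith
  have hNt : Tendsto N (𝒰 : Filter ℕ) atTop := by
    apply tendsto_of_unbdd
    rintro ⟨C, hC⟩
    have h1 : ∀ j, ∃ d : L, (gm 𝒰 fun t => x t j) = cg 𝒰 d := by
      intro j
      refine const_of_bdd (D := D) _ (TI_gm (hxT j)) (Real.exp C) ?_
      filter_upwards [hC, hzr] with t g1 g2 p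
      rw [g2 j]
      exact (hzN t j p).trans (Real.exp_le_exp.2 g1)
    choose d hd using h1
    apply hnc d
    have h2 : ∀ᶠ t in (𝒰 : Filter ℕ), ∀ j, x t j = d j := by
      rw [eventually_all]
      intro j
      exact (gm_eq 𝒰 _ _).1 (hd j)
    filter_upwards [h2] with t ht
    exact funext ht
  refine core1_rat D ψ N hN hNt F x hF v hvT hvind hgen hmin
    (fun j => (mem_R0 hN _).2 ⟨TI_gm (hxT j), 1, zero_le_one, ?_⟩)
    (fun j => (mem_R0 hN _).2 ⟨(hvT j).1, 1, zero_le_one, ?_⟩)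
    (fun j => (mem_R0 hN _).2 ⟨(hvT j).2, 1, zero_le_one, ?_⟩) ?_
  · filter_upwards [hzr] with t ht p
    rw [ht j, one_mul]
    exact hzN t j p
  · filter_upwards [rep_ne _ (v j).ne_zero] with t ht p
    rw [one_mul, ← Real.log_le_iff_le_exp (D.av_pos p _ ht)]
    exact (le_abs_self _).trans (hvN t j p)
  · filter_upwards [rep_ne _ (v j).ne_zero, rep_inv _ (v j).ne_zero] with t ht ht2 p
    rw [one_mul, ht2, ← Real.log_le_iff_le_exp (D.av_pos p _ (inv_ne_zero ht)), av_inv _ _ ht]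
    exact (neg_le_abs _).trans (hvN t j p)
  · refine Eventually.of_forall fun t => ?_
    rw [hNe, hS1, hS2]

end Pool.Agent.K1H83.BL.Ari
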