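import Mathlib
import Pool.Agent.K1H83.BL.AriR
import Pool.Agent.K1H83.BL.Ari3

/-!
Infinitely many integral points whose coordinates are quotients of sums of units.
-/

set_option autoImplicit false
set_option linter.unusedSectionVars false

namespace Pool.Agent.K1H83.BL.Ari

open MvPolynomial Filter Topology NumberField IsDedekindDomain
open Pool.Agent.Y742.SF Pool.Agent.Y742.AR Pool.Agent.H159R3.Exp

variable {K : Type} [Field K] [NumberField K]

/-- **Infinitely many integral points.** -/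
theorem arith_rat (σ : K →+* ℂ) {n r : ℕ} {κ : Type} [Finite κ]
    (F : κ → MvPolynomial (Fin n) (𝓞 K))
    (L : Type) [Field L] [NumberField L] [Algebra K L] (S : Set (HeightOneSpectrum (𝓞 L)))
    (hS : S.Finite) (T : Set (Fin n → L)) (hT : T.Infinite) (hTV : T ⊆ intPoints F L S)
    (τ : L →+* ℂ) (hτ : τ.comp (algebraMap K L) = σ) (P Q : Fin n → Finset (Fin r))
    (hu : ∀ x ∈ T, ∃ u : Fin r → L,
      (∀ i, u i ≠ 0 ∧ u i ∈ S.integer L ∧ (u i)⁻¹ ∈ S.integer L) ∧
      ∀ j, (∑ i ∈ Q j, u i) ≠ 0 ∧ x j * ∑ i ∈ Q j, u i = ∑ i ∈ P j, u i) :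
    ∃ x ∈ T, ∃ X : ℂ → Fin n → ℂ, (∀ j, Laur fun t => X t j) ∧
      (X 1 = fun j => τ (x j)) ∧
      (∀ t, t ≠ 0 → ∀ i, eval₂ (σ.comp (algebraMap (𝓞 K) K)) (X t) (F i) = 0) ∧
      ∃ t, t ≠ 0 ∧ X t ≠ X 1 := by
  classical
  obtain ⟨M, _, _, _, ι, ψ, hψ, hi⟩ := exists_big L τ
  let _ : Algebra L M := ι.toAlgebra
  have hιal : ∀ y : L, algebraMap L M y = ι y := fun _ => rfl
  let S' : Set (HeightOneSpectrum (𝓞 M)) :=
    ⋃ v ∈ S, {Q | ((Ideal.absNorm v.asIdeal : ℕ) : 𝓞 M) ∈ Q.asIdeal}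
  have hS' : S'.Finite := Set.Finite.biUnion hS fun v _ => finite_primes _ (by
    rw [Ne, Ideal.absNorm_eq_zero_iff]
    exact v.ne_bot)
  obtain ⟨D, hD⟩ := exists_PD hi S' hS'
  -- integrality
  have hint : ∀ y : L, y ∈ S.integer L → D.TInt (ι y) := by
    intro y hy w hw
    have hover : Pool.Agent.TeamU.Over w (w.under (𝓞 L)) := rfl
    obtain ⟨c, hc, h1⟩ := Pool.Agent.R405.exists_exp hover
    rw [← hιal, h1]
    have h2 : w.under (𝓞 L) ∉ S := by
      intro h3
      have h4 : w ∈ S' := by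
        refine Set.mem_biUnion (x := w.under (𝓞 L)) h3 ?_
        have h5 : ((Ideal.absNorm (w.under (𝓞 L)).asIdeal : ℕ) : 𝓞 L) ∈
            w.asIdeal.comap (algebraMap (𝓞 L) (𝓞 M)) := by
          rw [hover]
          exact Ideal.absNorm_mem _
        rw [Ideal.mem_comap, map_natCast] at h5
        exact h5
      obtain ⟨v, hv⟩ := hD w h4
      exact hw v hv
    exact Real.rpow_le_one (fv_nonneg _ _) ((mem_integer_iff S y).1 hy _ h2) hc.le
  -- the data over `M`
  let φK : K →+* M := ι.comp (algebraMap K L)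
  have hφK : ψ.comp φK = σ := by
    rw [← hτ, ← hψ]
    rfl
  let φ : 𝓞 K →+* M := φK.comp (algebraMap (𝓞 K) K)
  have hφ : ψ.comp φ = σ.comp (algebraMap (𝓞 K) K) := by
    rw [← hφK]
    rfl
  let e : ℕ ↪ T := hT.natEmbedding
  let x : ℕ → Fin n → M := fun t j => ι ((e t).1 j)
  have hψx : ∀ t j, ψ (x t j) = τ ((e t).1 j) := fun t j => RingHom.congr_fun hψ _
  have hev : ∀ t (f : MvPolynomial (Fin n) (𝓞 K)), eval (x t) (MvPolynomial.map φ f) =
      ι (eval₂ ((algebraMap K L).comp (algebraMap (𝓞 K) K)) (e t).1 f) := by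
    intro t f
    rw [eval_map, hom_eval₂]
    rfl
  have hC : ∀ (z : Fin n → ℂ) (f : MvPolynomial (Fin n) (𝓞 K)),
      eval₂ ψ z (MvPolynomial.map φ f) = eval₂ (σ.comp (algebraMap (𝓞 K) K)) z f := by
    intro z f
    rw [eval₂_map, hφ]
  have hFx : ∀ t i, eval (x t) (MvPolynomial.map φ (F i)) = 0 := by
    intro t i
    rw [hev, (hTV (e t).2).2 i, map_zero]
  have hTI : ∀ f : ℕ → L, (∀ t, f t ∈ S.integer L) → TI D (hyperfilter ℕ) fun t => ι (f t) :=
    fun f hf => ⟨1, one_ne_zero, Eventually.of_forall fun t => by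
      have h1 : ((1 : 𝓞 M) : M) * ι (f t) = ι (f t) := by
        have h0 : ((1 : 𝓞 M) : M) = 1 := rfl
        rw [h0, one_mul]
      rw [h1]
      exact hint _ (hf t)⟩
  choose u hu1 hu2 using fun t => hu (e t).1 (e t).2
  have hxinj : Function.Injective x := by
    intro s t hst
    apply e.injective
    apply Subtype.ext
    funext j
    exact ι.injective (congrFun hst j)
  have hmain := core_rat (𝒰 := hyperfilter ℕ) D ψ (fun i => MvPolynomial.map φ (F i)) x
    (fun j => hTI (fun t => (e t).1 j) fun t => (hTV (e t).2).1 j)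
    hFx (fun t i => ι (u t i)) (fun t i => (map_ne_zero ι).2 (hu1 t i).1)
    (fun i => hTI (fun t => u t i) fun t => (hu1 t i).2.1)
    (fun i => by
      have := hTI (fun t => (u t i)⁻¹) fun t => (hu1 t i).2.2
      simpa only [map_inv₀] using this)
    (fun j => ∑ i ∈ P j, X i) (fun j => ∑ i ∈ Q j, X i)
    (by
      intro t j
      rw [map_sum]
      simp only [eval_X]
      rw [← map_sum]
      exact (map_ne_zero ι).2 (hu2 t j).1)
    (by
      intro t j
      rw [map_sum, map_sum]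
      simp only [eval_X]
      rw [← map_sum, ← map_sum, ← map_mul, (hu2 t j).2])
    (by
      intro c hc
      have h1 : {t | x t = c}.Finite := by
        refine Set.Subsingleton.finite ?_
        intro s hs t ht
        exact hxinj (hs.trans ht.symm)
      exact (Filter.notMem_hyperfilter_of_finite h1) hc)
  obtain ⟨t, X, hX, hX1, hX2, hX3⟩ := hmain.exists
  refine ⟨(e t).1, (e t).2, X, hX, ?_, ?_, hX3⟩
  · rw [hX1]
    exact funext (hψx t)
  · intro s hs i
    rw [← hC]
    exact hX2 s hs i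

end Pool.Agent.K1H83.BL.Ari
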