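import Mathlib

/-!
Affine schemes over the integers of a number field: entire curves, curves of multiplicative type,
integral points.
-/

set_option autoImplicit false

namespace Pool.Agent.K1H83.BL.Defs

open MvPolynomial IsDedekindDomain
open scoped NumberField

variable {K : Type} [Field K] {n : ℕ}

/-- The value at the complex point `z` of a polynomial with coefficients in `𝓞 K`, for the
embedding `σ`. -/
noncomputable def val (σ : K →+* ℂ) (P : MvPolynomial (Fin n) (𝓞 K)) (z : Fin n → ℂ) : ℂ :=
  eval₂ (σ.comp (algebraMap (𝓞 K) K)) z P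

/-- The complex points of the closed subscheme of affine space given by the equations `V`. -/
def cpts (σ : K →+* ℂ) (V : Set (MvPolynomial (Fin n) (𝓞 K))) : Set (Fin n → ℂ) :=
  {z | ∀ P ∈ V, val σ P z = 0}

/-- The `S`-integral points over `L` of the closed subscheme of affine space given by the
equations `V`. -/
def ipts (V : Set (MvPolynomial (Fin n) (𝓞 K))) (L : Type) [Field L] [NumberField L] [Algebra K L]
    (S : Set (HeightOneSpectrum (𝓞 L))) : Set (Fin n → L) :=
  {x | (∀ j, x j ∈ S.integer L) ∧
    ∀ P ∈ V, eval₂ ((algebraMap K L).comp (algebraMap (𝓞 K) K)) x P = 0}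

/-- Condition (i): every entire curve in `V` lies in the closed subscheme given by `G`. -/
def EntireCurvesIn (σ : K →+* ℂ) (V G : Set (MvPolynomial (Fin n) (𝓞 K))) : Prop :=
  ∀ f : ℂ → Fin n → ℂ, Differentiable ℂ f → (∀ z, f z ∈ cpts σ V) → (∃ z w, f z ≠ f w) →
    ∀ z, f z ∈ cpts σ G

/-- The function `f` is given by a Laurent polynomial on the punctured complex line. -/
def IsLaurent (f : ℂ → ℂ) : Prop :=
  ∃ (k : ℕ) (P : Polynomial ℂ), ∀ t, t ≠ 0 → f t * t ^ k = P.eval t

/-- A nonconstant morphism from the punctured complex line to `V`. -/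
structure IsGmCurve (σ : K →+* ℂ) (V : Set (MvPolynomial (Fin n) (𝓞 K))) (v : ℂ → Fin n → ℂ) :
    Prop where
  laurent : ∀ j, IsLaurent fun t => v t j
  mem : ∀ t, t ≠ 0 → v t ∈ cpts σ V
  nonconst : ∃ t s, t ≠ 0 ∧ s ≠ 0 ∧ v t ≠ v s

/-- Condition (i) for the algebraic curves: every nonconstant morphism from the punctured line to
`V` has its image in the closed subscheme given by `G`. -/
def GmCurvesIn (σ : K →+* ℂ) (V G : Set (MvPolynomial (Fin n) (𝓞 K))) : Prop :=
  ∀ v : ℂ → Fin n → ℂ, IsGmCurve σ V v → ∀ t, t ≠ 0 → v t ∈ cpts σ G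

/-- Condition (ii): for all finite extensions `L` of `K` and all finite `S` there are only finitely
many `S`-integral points of `V` outside the closed subscheme given by `G`. -/
def FinitelyManyIntegral (V G : Set (MvPolynomial (Fin n) (𝓞 K))) : Prop :=
  ∀ (L : Type) [Field L] [NumberField L] [Algebra K L] (S : Set (HeightOneSpectrum (𝓞 L))),
    S.Finite → (ipts V L S \ ipts G L S).Finite

/-- A closed subscheme of affine space, given by the equations `eqs`, together with finitely many
polynomials `units`. -/
structure Stratum (K : Type) [Field K] (n : ℕ) where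
  eqs : Finset (MvPolynomial (Fin n) (𝓞 K))
  units : Finset (MvPolynomial (Fin n) (𝓞 K))

/-- The complex points of `V` on the stratum. -/
def Stratum.pts (s : Stratum K n) (σ : K →+* ℂ) (V : Set (MvPolynomial (Fin n) (𝓞 K))) :
    Set (Fin n → ℂ) :=
  cpts σ V ∩ cpts σ s.eqs

/-- The polynomials `units` have no zeros at the complex points of `V` on the stratum. -/
def Stratum.Invertible (s : Stratum K n) (σ : K →+* ℂ) (V : Set (MvPolynomial (Fin n) (𝓞 K))) :
    Prop :=
  ∀ z ∈ s.pts σ V, ∀ P ∈ s.units, val σ P z ≠ 0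

/-- The point `z` of `V` is on the stratum, and it is the only such point with its values of the
polynomials `units`. -/
def Stratum.Separates (s : Stratum K n) (σ : K →+* ℂ) (V : Set (MvPolynomial (Fin n) (𝓞 K)))
    (z : Fin n → ℂ) : Prop :=
  z ∈ s.pts σ V ∧ ∀ z' ∈ s.pts σ V, (∀ P ∈ s.units, val σ P z' = val σ P z) → z' = z

end Pool.Agent.K1H83.BL.Defs
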