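import Mathlib
import Pool.Agent.K1H83.BL.An10
import Pool.Agent.K1H83.BL.Ari3
import Pool.Agent.W235.RM.Final

/-!
The trichotomy: entire curves, curves of multiplicative type, integral points.
-/

set_option autoImplicit false

namespace Pool.Agent.K1H83.BL.Strat

open MvPolynomial IsDedekindDomain Pool.Agent.H159R3.Exp
open scoped NumberField

section defs

variable {K : Type} [Field K] {ι κ : Type} {n : ℕ}

/-- The value at the complex point `z` of a polynomial with coefficients in `𝓞 K`. -/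
noncomputable def val (σ : K →+* ℂ) (P : MvPolynomial (Fin n) (𝓞 K)) (z : Fin n → ℂ) : ℂ :=
  eval₂ (σ.comp (algebraMap (𝓞 K) K)) z P

/-- The point `z` lies on a nonconstant curve in `V(ℂ)` parametrised by Laurent polynomials. -/
def OnLaurentCurve (σ : K →+* ℂ) (F : ι → MvPolynomial (Fin n) (𝓞 K)) (z : Fin n → ℂ) : Prop :=
  ∃ v : ℂ → Fin n → ℂ, (∀ j, Laur fun t => v t j) ∧ (∀ t, t ≠ 0 → ∀ i, val σ (F i) (v t) = 0) ∧
    (∃ t, t ≠ 0 ∧ v t = z) ∧ ∃ t, t ≠ 0 ∧ v t ≠ z

/-- A closed subvariety (given by the polynomials `eqs`) with finitely many polynomials. -/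
structure Stratum (K : Type) [Field K] (n : ℕ) where
  eqs : Finset (MvPolynomial (Fin n) (𝓞 K))
  units : Finset (MvPolynomial (Fin n) (𝓞 K))

/-- The complex points of the closed subvariety of `V` given by `s`. -/
def Stratum.pts (s : Stratum K n) (σ : K →+* ℂ) (F : ι → MvPolynomial (Fin n) (𝓞 K)) :
    Set (Fin n → ℂ) :=
  {z | (∀ i, val σ (F i) z = 0) ∧ ∀ P ∈ s.eqs, val σ P z = 0}

/-- The polynomials `s.units` have no zeros on the subvariety of `V` given by `s`. -/
def Stratum.Invertible (s : Stratum K n) (σ : K →+* ℂ) (F : ι → MvPolynomial (Fin n) (𝓞 K)) :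
    Prop :=
  ∀ z ∈ s.pts σ F, ∀ P ∈ s.units, val σ P z ≠ 0

/-- The point `z` lies on the subvariety of `V` given by `s`, and no other point of this
subvariety has the same values of the polynomials `s.units`. -/
def Stratum.Separates (s : Stratum K n) (σ : K →+* ℂ) (F : ι → MvPolynomial (Fin n) (𝓞 K))
    (z : Fin n → ℂ) : Prop :=
  z ∈ s.pts σ F ∧ ∀ z' ∈ s.pts σ F, (∀ P ∈ s.units, val σ P z' = val σ P z) → z' = z

end defs

variable {K : Type} [Field K] [NumberField K] {ι κ : Type} [Finite ι] {n : ℕ}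

theorem gm_fin (σ : K →+* ℂ) (F : ι → MvPolynomial (Fin n) (𝓞 K))
    (G : κ → MvPolynomial (Fin n) (𝓞 K)) (T : Finset (Stratum K n))
    (hT : ∀ s ∈ T, s.Invertible σ F)
    (hsep : ∀ z : Fin n → ℂ, (∀ i, val σ (F i) z = 0) → (∃ l, val σ (G l) z ≠ 0) →
      OnLaurentCurve σ F z ∨ ∃ s ∈ T, s.Separates σ F z)
    (hgm : Pool.Agent.W235.RM.GmCurvesIn σ F G) : FinitelyManyIntegral F G := by
  classical
  intro L _ _ _ S hS
  by_contra hinf
  have hinf : (intPoints F L S \ intPoints G L S).Infinite := hinf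
  let _ : Algebra K ℂ := σ.toAlgebra
  have : Algebra.IsAlgebraic K L := by
    have := NumberField.to_finiteDimensional (K := L)
    have : IsScalarTower ℚ K L := by infer_instance
    have : FiniteDimensional K L := FiniteDimensional.right ℚ K L
    infer_instance
  let τ : L →ₐ[K] ℂ := IsAlgClosed.lift
  have hτ : (τ : L →+* ℂ).comp (algebraMap K L) = σ := by
    ext x
    exact τ.commutes x
  have hval : ∀ (x : Fin n → L) (Q : MvPolynomial (Fin n) (𝓞 K)),
      val σ Q (fun j => τ (x j)) =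
        τ (eval₂ ((algebraMap K L).comp (algebraMap (𝓞 K) K)) x Q) := by
    intro x Q
    have h1 := hom_eval₂ Q ((algebraMap K L).comp (algebraMap (𝓞 K) K)) (τ : L →+* ℂ) x
    rw [← RingHom.comp_assoc, hτ] at h1
    exact h1.symm
  have hτi : Function.Injective τ := (τ : L →+* ℂ).injective
  -- no point lies on a Laurent curve
  have hno : ∀ x ∈ intPoints F L S \ intPoints G L S, ∀ X : ℂ → Fin n → ℂ,
      (∀ j, Laur fun t => X t j) → (X 1 = fun j => τ (x j)) →
      (∀ t, t ≠ 0 → ∀ i, val σ (F i) (X t) = 0) → (∃ t, t ≠ 0 ∧ X t ≠ X 1) → False := by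
    intro x hx X h1 h2 h3 ⟨t, ht, h4⟩
    apply hx.2
    refine ⟨hx.1.1, fun l => ?_⟩
    have h5 := hgm X h1 (fun i t ht => h3 t ht i) ⟨t, 1, ht, one_ne_zero, h4⟩ l 1 one_ne_zero
    rw [h2] at h5
    have h6 := hval x (G l)
    rw [val, h5] at h6
    exact hτi (by rw [← h6, map_zero])
  have hpt : ∀ x ∈ intPoints F L S \ intPoints G L S,
      ∃ s ∈ T, s.Separates σ F (fun j => τ (x j)) := by
    intro x hx
    have h1 : ∀ i, val σ (F i) (fun j => τ (x j)) = 0 := by
      intro i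
      rw [hval, hx.1.2 i, map_zero]
    have h2 : ∃ l, val σ (G l) (fun j => τ (x j)) ≠ 0 := by
      by_contra hcon
      push Not at hcon
      apply hx.2
      refine ⟨hx.1.1, fun l => ?_⟩
      have h3 := hcon l
      rw [hval] at h3
      exact hτi (by rw [h3, map_zero])
    rcases hsep _ h1 h2 with ⟨v, hv1, hv2, ⟨t, ht, hvt⟩, ⟨t', ht', hvt'⟩⟩ | h3
    · exfalso
      obtain ⟨l, hl⟩ := h2
      apply hl
      rw [← hvt]
      exact hgm v hv1 (fun i t ht => hv2 t ht i) ⟨t', t, ht', ht, by rw [hvt]; exact hvt'⟩ l t ht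
    · exact h3
  -- pigeonhole
  obtain ⟨s, hs, hTs⟩ : ∃ s ∈ T, {x | x ∈ intPoints F L S \ intPoints G L S ∧
      s.Separates σ F (fun j => τ (x j))}.Infinite := by
    by_contra hcon
    push Not at hcon
    apply hinf
    have h1 : (⋃ s ∈ T, {x | x ∈ intPoints F L S \ intPoints G L S ∧
        s.Separates σ F (fun j => τ (x j))}).Finite :=
      Set.Finite.biUnion T.finite_toSet fun s hs => hcon s hs
    refine h1.subset fun x hx => ?_
    obtain ⟨s, hs, h2⟩ := hpt x hx
    exact Set.mem_biUnion hs ⟨hx, h2⟩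
  -- apply the arithmetic theorem
  let F' : ι ⊕ s.eqs → MvPolynomial (Fin n) (𝓞 K) := Sum.elim F (fun P => P.1)
  let e := s.units.equivFin
  let U' : Fin s.units.card → MvPolynomial (Fin n) (𝓞 K) := fun i => (e.symm i).1
  have hF' : ∀ z : Fin n → ℂ, (∀ i, eval₂ (σ.comp (algebraMap (𝓞 K) K)) z (F' i) = 0) ↔
      z ∈ s.pts σ F := by
    intro z
    constructor
    · intro h
      exact ⟨fun i => h (Sum.inl i), fun P hP => h (Sum.inr ⟨P, hP⟩)⟩
    · rintro ⟨h1, h2⟩ (i | P)
      · exact h1 i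
      · exact h2 P.1 P.2
  obtain ⟨x, hx, X, h1, h2, h3, h4⟩ := Ari.arith σ F' U'
    (fun z hz i => hT s hs z ((hF' z).mp hz) _ (e.symm i).2) L S hS _ hTs
    (by
      rintro x ⟨hx, hxs⟩
      refine ⟨hx.1.1, ?_⟩
      rintro (i | P)
      · exact hx.1.2 i
      · apply hτi
        have h5 := hxs.1.2 P.1 P.2
        rw [hval] at h5
        rw [map_zero]
        exact h5)
    (τ : L →+* ℂ) hτ
    (by
      rintro x ⟨_, hxs⟩ z' h1 h2
      apply hxs.2 z' ((hF' z').mp h1)
      intro P hP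
      have h3 := h2 (e ⟨P, hP⟩)
      simp only [U', Equiv.symm_apply_apply] at h3
      exact h3)
  exact hno x hx.1 X h1 h2 (fun t ht i => h3 t ht (Sum.inl i)) h4

theorem gm_entire (σ : K →+* ℂ) (F : ι → MvPolynomial (Fin n) (𝓞 K))
    (G : κ → MvPolynomial (Fin n) (𝓞 K)) (T : Finset (Stratum K n))
    (hT : ∀ s ∈ T, s.Invertible σ F)
    (hsep : ∀ z : Fin n → ℂ, (∀ i, val σ (F i) z = 0) → (∃ l, val σ (G l) z ≠ 0) →
      OnLaurentCurve σ F z ∨ ∃ s ∈ T, s.Separates σ F z)
    (hgm : Pool.Agent.W235.RM.GmCurvesIn σ F G) : Pool.Agent.W235.RM.EntireCurvesIn σ F G := by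
  classical
  intro f hf hfF hnc w0 l
  by_contra hl
  -- the strata which contain the curve
  let T₁ : Finset (Stratum K n) := T.filter fun s => ∀ w, ∀ P ∈ s.eqs, val σ P (f w) = 0
  have hP : ∀ s : Stratum K n, s ∈ T → s ∉ T₁ →
      ∃ P ∈ s.eqs, ∃ w, val σ P (f w) ≠ 0 := by
    intro s hs hs1
    by_contra hcon
    push Not at hcon
    exact hs1 (Finset.mem_filter.mpr ⟨hs, fun w P hP => hcon P hP w⟩)
  let Q : Stratum K n → MvPolynomial (Fin n) (𝓞 K) := fun s =>
    if h : s ∈ T ∧ s ∉ T₁ then (hP s h.1 h.2).choose else 1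
  let H : MvPolynomial (Fin n) (𝓞 K) := G l * ∏ s ∈ T, Q s
  have hmul : ∀ (P P' : MvPolynomial (Fin n) (𝓞 K)) z, val σ (P * P') z = val σ P z * val σ P' z :=
    fun P P' z => eval₂_mul _ _
  have hprod : ∀ (A : Finset (Stratum K n)) z, val σ (∏ s ∈ A, Q s) z = ∏ s ∈ A, val σ (Q s) z := by
    intro A z
    exact eval₂_prod _ _ _ _
  have hdiff : ∀ P : MvPolynomial (Fin n) (𝓞 K), Differentiable ℂ fun w => val σ P (f w) := by
    intro P
    have h1 := differentiable_eval hf (map (σ.comp (algebraMap (𝓞 K) K)) P)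
    simp only [eval_map] at h1
    exact h1
  have hH : ∃ w, val σ H (f w) ≠ 0 := by
    by_contra hcon
    push Not at hcon
    let g : MvPolynomial (Fin n) (𝓞 K) → Pool.Agent.H159R3.NV.Ent := fun P => ⟨_, hdiff P⟩
    have h1 : g H = g (G l) * ∏ s ∈ T, g (Q s) := by
      apply Subtype.ext
      funext w
      change val σ H (f w) = _
      rw [hmul, hprod]
      change _ = val σ (G l) (f w) * ((∏ s ∈ T, g (Q s) : Pool.Agent.H159R3.NV.Ent) : ℂ → ℂ) w
      congr 1
      rw [SubmonoidClass.coe_finsetProd, Finset.prod_apply]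
    have h2 : g H = 0 := Subtype.ext (funext hcon)
    rw [h2] at h1
    rcases mul_eq_zero.mp h1.symm with h3 | h3
    · exact hl (congrFun (congrArg Subtype.val h3) w0)
    · obtain ⟨s, hs, h4⟩ := Finset.prod_eq_zero_iff.mp h3
      have h5 : ∀ w, val σ (Q s) (f w) = 0 := fun w => congrFun (congrArg Subtype.val h4) w
      by_cases h6 : s ∈ T ∧ s ∉ T₁
      · have h7 : Q s = (hP s h6.1 h6.2).choose := dif_pos h6
        obtain ⟨_, w, hw⟩ := (hP s h6.1 h6.2).choose_spec
        rw [← h7] at hw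
        exact hw (h5 w)
      · have h7 : Q s = 1 := dif_neg h6
        have h8 := h5 0
        rw [h7, val, eval₂_one] at h8
        exact one_ne_zero h8
  -- the data over the countable field
  let k₀ : Subfield ℂ := σ.fieldRange
  have hk₀ : Countable k₀ := by
    have h1 : Countable K := by
      have := NumberField.to_finiteDimensional (K := K)
      exact (Module.finBasis ℚ K).equivFun.injective.countable
    exact (Set.countable_range σ).to_subtype
  let j₀ : 𝓞 K →+* k₀ := σ.rangeRestrictField.comp (algebraMap (𝓞 K) K)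
  have hj₀ : (algebraMap k₀ ℂ).comp j₀ = σ.comp (algebraMap (𝓞 K) K) := rfl
  have hev : ∀ (z : Fin n → ℂ) (P : MvPolynomial (Fin n) (𝓞 K)),
      eval₂ (algebraMap k₀ ℂ) z (map j₀ P) = val σ P z := by
    intro z P
    rw [eval₂_map, hj₀]
    rfl
  let AllU : Finset (MvPolynomial (Fin n) (𝓞 K)) := T₁.biUnion fun s => s.units
  let AllE : Finset (MvPolynomial (Fin n) (𝓞 K)) := T₁.biUnion fun s => s.eqs
  let F' : ι ⊕ AllE → MvPolynomial (Fin n) k₀ := Sum.elim (fun i => map j₀ (F i))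
    (fun P => map j₀ P.1)
  let e := AllU.equivFin
  let U' : Fin AllU.card → MvPolynomial (Fin n) k₀ := fun i => map j₀ (e.symm i).1
  have hT₁ : ∀ s ∈ T₁, s ∈ T ∧ ∀ w, f w ∈ s.pts σ F := by
    intro s hs
    obtain ⟨h1, h2⟩ := Finset.mem_filter.mp hs
    exact ⟨h1, fun w => ⟨fun i => hfF w i, h2 w⟩⟩
  obtain ⟨w, hw, X, h1, h2, h3, t, ht, h4⟩ := analytic k₀ F' U' (map j₀ H) f hf
    (by obtain ⟨z, w, h⟩ := hnc; exact ⟨z, w, h⟩)
    (by
      rintro w (i | P)
      · change eval₂ _ _ (map j₀ (F i)) = 0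
        rw [hev]
        exact hfF w i
      · change eval₂ _ _ (map j₀ P.1) = 0
        rw [hev]
        obtain ⟨s, hs, hPs⟩ := Finset.mem_biUnion.mp P.2
        exact ((hT₁ s hs).2 w).2 _ hPs)
    (by
      intro w i
      change eval₂ _ _ (map j₀ (e.symm i).1) ≠ 0
      rw [hev]
      obtain ⟨s, hs, hPs⟩ := Finset.mem_biUnion.mp (e.symm i).2
      exact hT s (hT₁ s hs).1 _ ((hT₁ s hs).2 w) _ hPs)
    (by
      obtain ⟨w, hw⟩ := hH
      exact ⟨w, by rw [hev]; exact hw⟩)
    (by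
      intro w hw z' h1 h2
      rw [hev] at hw
      have hGw : val σ (G l) (f w) ≠ 0 := by
        intro h
        apply hw
        rw [hmul, h, zero_mul]
      rcases hsep (f w) (fun i => hfF w i) ⟨l, hGw⟩ with
        ⟨v, hv1, hv2, ⟨t, ht, hvt⟩, ⟨t', ht', hvt'⟩⟩ | ⟨s, hs, hsep'⟩
      · exfalso
        apply hGw
        rw [← hvt]
        exact hgm v hv1 (fun i t ht => hv2 t ht i) ⟨t', t, ht', ht, by rw [hvt]; exact hvt'⟩ l t ht
      · have hs1 : s ∈ T₁ := by
          by_contra hs1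
          apply hw
          rw [hmul, hprod]
          have h7 : Q s = (hP s hs hs1).choose := dif_pos ⟨hs, hs1⟩
          have h8 : val σ (Q s) (f w) = 0 := by
            rw [h7]
            exact hsep'.1.2 _ (hP s hs hs1).choose_spec.1
          rw [Finset.prod_eq_zero hs h8, mul_zero]
        apply hsep'.2 z'
        · refine ⟨fun i => ?_, fun P hP => ?_⟩
          · rw [← hev]
            exact h1 (Sum.inl i)
          · rw [← hev]
            exact h1 (Sum.inr ⟨P, Finset.mem_biUnion.mpr ⟨s, hs1, hP⟩⟩)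
        · intro P hP
          have h3 := h2 (e ⟨P, Finset.mem_biUnion.mpr ⟨s, hs1, hP⟩⟩)
          simp only [U', Equiv.symm_apply_apply] at h3
          rw [hev, hev] at h3
          exact h3)
  have h5 : ∀ i t, t ≠ 0 → eval₂ (σ.comp (algebraMap (𝓞 K) K)) (X t) (F i) = 0 := by
    intro i t ht
    have h6 := h3 t ht (Sum.inl i)
    change eval₂ _ _ (map j₀ (F i)) = 0 at h6
    rw [hev] at h6
    exact h6
  have h6 := hgm X h1 h5 ⟨t, 1, ht, one_ne_zero, h4⟩ l 1 one_ne_zero
  rw [hev] at hw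
  apply hw
  rw [hmul, ← h2, val, h6, zero_mul]

/-- **The trichotomy.** -/
theorem tfae (σ : K →+* ℂ) (F : ι → MvPolynomial (Fin n) (𝓞 K))
    (G : κ → MvPolynomial (Fin n) (𝓞 K)) (T : Finset (Stratum K n))
    (hT : ∀ s ∈ T, s.Invertible σ F)
    (hsep : ∀ z : Fin n → ℂ, (∀ i, val σ (F i) z = 0) → (∃ l, val σ (G l) z ≠ 0) →
      OnLaurentCurve σ F z ∨ ∃ s ∈ T, s.Separates σ F z) :
    List.TFAE [Pool.Agent.W235.RM.EntireCurvesIn σ F G, Pool.Agent.W235.RM.GmCurvesIn σ F G,
      FinitelyManyIntegral F G] := by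
  tfae_have 1 → 2 := fun h => by
    have h1 := Pool.Agent.W235.RM.tfae σ F G
    exact (h1.out 0 1).mp (Pool.Agent.W235.RM.exp_of_entire σ F G h)
  tfae_have 2 → 1 := gm_entire σ F G T hT hsep
  tfae_have 2 → 3 := gm_fin σ F G T hT hsep
  tfae_have 3 → 2 := fun h => by
    have h1 := Pool.Agent.W235.RM.tfae σ F G
    exact (h1.out 5 1).mp (Pool.Agent.W235.RM.rec_of_integral F G h)
  tfae_finish

end Pool.Agent.K1H83.BL.Strat
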