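import Pool.Agent.K1H83.BL.Defs

/-!
Entire curves and integral points whose coordinates are quotients of sums of units.
-/

set_option autoImplicit false

namespace Pool.Agent.K1H83.BL.Defs

open MvPolynomial IsDedekindDomain
open scoped NumberField

/-- The function `f` is a quotient of two finite sums of functions of the form `exp g`, with `g`
entire. -/
def IsExpQuotient (f : ℂ → ℂ) : Prop :=
  ∃ (k l : ℕ) (g : Fin k → ℂ → ℂ) (h : Fin l → ℂ → ℂ),
    (∀ i, Differentiable ℂ (g i)) ∧ (∀ i, Differentiable ℂ (h i)) ∧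
    (∃ z, ∑ i, Complex.exp (h i z) ≠ 0) ∧
    ∀ z, f z * ∑ i, Complex.exp (h i z) = ∑ i, Complex.exp (g i z)

/-- The number `x` is a quotient of two sums of at most `r` `S`-units. -/
def IsUnitQuotient {L : Type} [Field L] [NumberField L] (S : Set (HeightOneSpectrum (𝓞 L)))
    (r : ℕ) (x : L) : Prop :=
  ∃ (k l : ℕ) (a : Fin k → Lˣ) (b : Fin l → Lˣ), k ≤ r ∧ l ≤ r ∧
    (∀ i, a i ∈ S.unit L) ∧ (∀ i, b i ∈ S.unit L) ∧
    ∑ i, (b i : L) ≠ 0 ∧ x * ∑ i, (b i : L) = ∑ i, (a i : L)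

variable {K : Type} [Field K] {n : ℕ}

/-- Condition (i) for the entire curves with coordinates `IsExpQuotient`. -/
def UnitCurvesIn (σ : K →+* ℂ) (V G : Set (MvPolynomial (Fin n) (𝓞 K))) : Prop :=
  ∀ f : ℂ → Fin n → ℂ, Differentiable ℂ f → (∀ j, IsExpQuotient fun z => f z j) →
    (∀ z, f z ∈ cpts σ V) → (∃ z w, f z ≠ f w) → ∀ z, f z ∈ cpts σ G

/-- Condition (ii) for the points with coordinates `IsUnitQuotient`, with a given `r`. -/
def FinitelyManyUnitPoints (V G : Set (MvPolynomial (Fin n) (𝓞 K))) : Prop :=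
  ∀ (L : Type) [Field L] [NumberField L] [Algebra K L] (S : Set (HeightOneSpectrum (𝓞 L))),
    S.Finite → ∀ r : ℕ, {x ∈ ipts V L S \ ipts G L S | ∀ j, IsUnitQuotient S r (x j)}.Finite

end Pool.Agent.K1H83.BL.Defs
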