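import Mathlib
import Pool.Agent.K1H83.BL.AnR2
import Pool.Agent.K1H83.BL.AriR2
import Pool.Agent.K1H83.BL.UDefs
import Pool.Agent.W235.RM.Final

/-!
The trichotomy for curves and points whose coordinates are quotients of sums of units.
-/

set_option autoImplicit false

namespace Pool.Agent.K1H83.BL.UQ

open MvPolynomial IsDedekindDomain Pool.Agent.H159R3.Exp Pool.Agent.H159R3.NV
open scoped NumberField

variable {K : Type} [Field K] [NumberField K] {ι κ : Type} [Finite ι] {n : ℕ}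

theorem Ent.sum_apply {α : Type} (s : Finset α) (f : α → Ent) (w : ℂ) :
    ((∑ i ∈ s, f i : Ent) : ℂ → ℂ) w = ∑ i ∈ s, (f i : ℂ → ℂ) w := by
  rw [AddSubmonoidClass.coe_finsetSum, Finset.sum_apply]

theorem gm_curves (σ : K →+* ℂ) (F : ι → MvPolynomial (Fin n) (𝓞 K))
    (G : κ → MvPolynomial (Fin n) (𝓞 K)) (hgm : Pool.Agent.W235.RM.GmCurvesIn σ F G)
    (f : ℂ → Fin n → ℂ) (hf : Differentiable ℂ f)
    (hexp : ∀ j, Defs.IsExpQuotient fun z => f z j)
    (hfF : ∀ z i, eval₂ (σ.comp (algebraMap (𝓞 K) K)) (f z) (F i) = 0) (hnc : ∃ z w, f z ≠ f w)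
    (w0 : ℂ) (l : κ) : eval₂ (σ.comp (algebraMap (𝓞 K) K)) (f w0) (G l) = 0 := by
  classical
  by_contra hl
  -- the data over the countable field
  let k₀ : Subfield ℂ := σ.fieldRange
  have hk₀ : Countable k₀ := by
    have h1 : Countable K := by
      have := NumberField.to_finiteDimensional (K := K)
      exact (Module.finBasis ℚ K).equivFun.injective.countable
    exact (Set.countable_range σ).to_subtype
  let j₀ : 𝓞 K →+* k₀ := σ.rangeRestrictField.comp (algebraMap (𝓞 K) K)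
  have hj₀ : (algebraMap k₀ ℂ).comp j₀ = σ.comp (algebraMap (𝓞 K) K) := rfl
  have hev : ∀ (z : Fin n → ℂ) (P : MvPolynomial (Fin n) (𝓞 K)),
      eval₂ (algebraMap k₀ ℂ) z (map j₀ P) = eval₂ (σ.comp (algebraMap (𝓞 K) K)) z P := by
    intro z P
    rw [eval₂_map, hj₀]
  choose a b g h hg hh hne hfgh using hexp
  let α := (Σ j : Fin n, Fin (a j)) ⊕ (Σ j : Fin n, Fin (b j))
  let e : α ≃ Fin (Fintype.card α) := Fintype.equivFin α
  let θ : α → Entˣ := Sum.elim
    (fun p => Ent.mkUnit (fun z => Complex.exp (g p.1 p.2 z))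
      (Complex.differentiable_exp.comp (hg p.1 p.2)) fun z => Complex.exp_ne_zero _)
    (fun p => Ent.mkUnit (fun z => Complex.exp (h p.1 p.2 z))
      (Complex.differentiable_exp.comp (hh p.1 p.2)) fun z => Complex.exp_ne_zero _)
  have hfj : ∀ j, Differentiable ℂ fun w => f w j := differentiable_pi.mp hf
  let z : Fin n → Ent := fun j => ⟨fun w => f w j, hfj j⟩
  obtain ⟨w, hw, X, h1, h2, h3, t, ht, h4⟩ := analytic_rat k₀ (fun i => map j₀ (F i))
    (map j₀ (G l)) z hnc
    (by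
      intro w i
      rw [hev]
      exact hfF w i)
    ⟨w0, by rw [hev]; exact hl⟩ (fun i => θ (e.symm i))
    (by
      intro j
      have e1 : ∀ w, ((aeval (fun i => ((θ (e.symm i) : Entˣ) : Ent))
          (∑ i : Fin (a j), (X (e (Sum.inl ⟨j, i⟩)) : MvPolynomial (Fin (Fintype.card α)) ℂ)) :
          Ent) : ℂ → ℂ) w = ∑ i, Complex.exp (g j i w) := by
        intro w
        rw [map_sum, Ent.sum_apply]
        refine Finset.sum_congr rfl fun i _ => ?_
        rw [aeval_X, e.symm_apply_apply]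
        rfl
      have e2 : ∀ w, ((aeval (fun i => ((θ (e.symm i) : Entˣ) : Ent))
          (∑ i : Fin (b j), (X (e (Sum.inr ⟨j, i⟩)) : MvPolynomial (Fin (Fintype.card α)) ℂ)) :
          Ent) : ℂ → ℂ) w = ∑ i, Complex.exp (h j i w) := by
        intro w
        rw [map_sum, Ent.sum_apply]
        refine Finset.sum_congr rfl fun i _ => ?_
        rw [aeval_X, e.symm_apply_apply]
        rfl
      refine ⟨∑ i : Fin (a j), X (e (Sum.inl ⟨j, i⟩)), ∑ i : Fin (b j), X (e (Sum.inr ⟨j, i⟩)),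
        ?_, Subtype.ext (funext fun w => ?_)⟩
      · intro h0
        obtain ⟨w, hw⟩ := hne j
        apply hw
        rw [← e2, h0]
        rfl
      · rw [e1]
        change f w j * ((aeval (fun i => ((θ (e.symm i) : Entˣ) : Ent))
          (∑ i : Fin (b j), (X (e (Sum.inr ⟨j, i⟩)) : MvPolynomial (Fin (Fintype.card α)) ℂ)) :
          Ent) : ℂ → ℂ) w = _
        rw [e2]
        exact hfgh j w)
  have h5 : ∀ i t, t ≠ 0 → eval₂ (σ.comp (algebraMap (𝓞 K) K)) (X t) (F i) = 0 := by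
    intro i t ht
    have h6 := h3 t ht i
    rw [hev] at h6
    exact h6
  have h6 := hgm X h1 h5 ⟨t, 1, ht, one_ne_zero, h4⟩ l 1 one_ne_zero
  rw [hev] at hw
  apply hw
  rw [← h2, h6]

/-- quotients of sums of units with a given number of terms -/
def Quot {L : Type} [Field L] [NumberField L] (S : Set (HeightOneSpectrum (𝓞 L)))
    (k l : ℕ) (x : L) : Prop :=
  ∃ (a : Fin k → Lˣ) (b : Fin l → Lˣ), (∀ i, a i ∈ S.unit L) ∧ (∀ i, b i ∈ S.unit L) ∧
    ∑ i, (b i : L) ≠ 0 ∧ x * ∑ i, (b i : L) = ∑ i, (a i : L)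

theorem gm_points (σ : K →+* ℂ) (F : ι → MvPolynomial (Fin n) (𝓞 K))
    (G : κ → MvPolynomial (Fin n) (𝓞 K)) (hgm : Pool.Agent.W235.RM.GmCurvesIn σ F G)
    (L : Type) [Field L] [NumberField L] [Algebra K L] (S : Set (HeightOneSpectrum (𝓞 L)))
    (hS : S.Finite) (r : ℕ) :
    {x ∈ intPoints F L S \ intPoints G L S | ∀ j, Defs.IsUnitQuotient S r (x j)}.Finite := by
  classical
  by_contra hinf
  have hinf : {x ∈ intPoints F L S \ intPoints G L S |
    ∀ j, Defs.IsUnitQuotient S r (x j)}.Infinite := hinf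
  let _ : Algebra K ℂ := σ.toAlgebra
  have : Algebra.IsAlgebraic K L := by
    have := NumberField.to_finiteDimensional (K := L)
    have : IsScalarTower ℚ K L := by infer_instance
    have : FiniteDimensional K L := FiniteDimensional.right ℚ K L
    infer_instance
  let τ : L →ₐ[K] ℂ := IsAlgClosed.lift
  have hτ : (τ : L →+* ℂ).comp (algebraMap K L) = σ := by
    ext x
    exact τ.commutes x
  have hval : ∀ (x : Fin n → L) (Q : MvPolynomial (Fin n) (𝓞 K)),
      eval₂ (σ.comp (algebraMap (𝓞 K) K)) (fun j => τ (x j)) Q =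
        τ (eval₂ ((algebraMap K L).comp (algebraMap (𝓞 K) K)) x Q) := by
    intro x Q
    have h1 := hom_eval₂ Q ((algebraMap K L).comp (algebraMap (𝓞 K) K)) (τ : L →+* ℂ) x
    rw [← RingHom.comp_assoc, hτ] at h1
    exact h1.symm
  have hτi : Function.Injective τ := (τ : L →+* ℂ).injective
  -- no point lies on a Laurent curve
  have hno : ∀ x ∈ intPoints F L S \ intPoints G L S, ∀ X : ℂ → Fin n → ℂ,
      (∀ j, Laur fun t => X t j) → (X 1 = fun j => τ (x j)) →
      (∀ t, t ≠ 0 → ∀ i, eval₂ (σ.comp (algebraMap (𝓞 K) K)) (X t) (F i) = 0) →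
      (∃ t, t ≠ 0 ∧ X t ≠ X 1) → False := by
    intro x hx X h1 h2 h3 ⟨t, ht, h4⟩
    apply hx.2
    refine ⟨hx.1.1, fun l => ?_⟩
    have h5 := hgm X h1 (fun i t ht => h3 t ht i) ⟨t, 1, ht, one_ne_zero, h4⟩ l 1 one_ne_zero
    rw [h2, hval] at h5
    exact hτi (by rw [h5, map_zero])
  -- pigeonhole
  obtain ⟨c, hc⟩ : ∃ c : Fin n → Fin (r + 1) × Fin (r + 1),
      {x | x ∈ intPoints F L S \ intPoints G L S ∧
        ∀ j, Quot S ((c j).1 : ℕ) ((c j).2 : ℕ) (x j)}.Infinite := by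
    by_contra hcon
    push Not at hcon
    apply hinf
    have h1 : (⋃ c : Fin n → Fin (r + 1) × Fin (r + 1),
        {x | x ∈ intPoints F L S \ intPoints G L S ∧
        ∀ j, Quot S ((c j).1 : ℕ) ((c j).2 : ℕ) (x j)}).Finite :=
      Set.finite_iUnion fun c => hcon c
    refine h1.subset ?_
    rintro x ⟨hx, hx2⟩
    choose k l a b hk hl ha hb hne hxe using hx2
    exact Set.mem_iUnion.mpr ⟨fun j => (⟨k j, Nat.lt_succ_of_le (hk j)⟩,
      ⟨l j, Nat.lt_succ_of_le (hl j)⟩), hx, fun j => ⟨a j, b j, ha j, hb j, hne j, hxe j⟩⟩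
  -- the units
  let α := (Σ j : Fin n, Fin ((c j).1 : ℕ)) ⊕ (Σ j : Fin n, Fin ((c j).2 : ℕ))
  let e : α ≃ Fin (Fintype.card α) := Fintype.equivFin α
  let P : Fin n → Finset (Fin (Fintype.card α)) := fun j =>
    Finset.univ.map ⟨fun i : Fin ((c j).1 : ℕ) => e (Sum.inl ⟨j, i⟩), fun i i' h =>
      eq_of_heq (Sigma.mk.inj_iff.mp (Sum.inl_injective (e.injective h))).2⟩
  let Q : Fin n → Finset (Fin (Fintype.card α)) := fun j =>
    Finset.univ.map ⟨fun i : Fin ((c j).2 : ℕ) => e (Sum.inr ⟨j, i⟩), fun i i' h =>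
      eq_of_heq (Sigma.mk.inj_iff.mp (Sum.inr_injective (e.injective h))).2⟩
  obtain ⟨x, hx, X, h1, h2, h3, h4⟩ := Ari.arith_rat σ F L S hS _ hc (fun x hx => hx.1.1)
    (τ : L →+* ℂ) hτ P Q
    (by
      rintro x ⟨_, hx⟩
      choose a b ha hb hne hxe using hx
      let u : α → Lˣ := Sum.elim (fun p => a p.1 p.2) (fun p => b p.1 p.2)
      have hu : ∀ i, u i ∈ S.unit L := by
        rintro (p | p)
        · exact ha _ _
        · exact hb _ _
      refine ⟨fun i => (u (e.symm i) : L), fun i => ⟨Units.ne_zero _, fun v hv => (hu _ v hv).le,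
        fun v hv => ?_⟩, fun j => ?_⟩
      · rw [map_inv₀, hu _ v hv, inv_one]
      · have e1 : ∑ i ∈ P j, (u (e.symm i) : L) = ∑ i, (a j i : L) := by
          rw [Finset.sum_map]
          refine Finset.sum_congr rfl fun i _ => ?_
          change ((u (e.symm (e (Sum.inl ⟨j, i⟩))) : Lˣ) : L) = _
          rw [e.symm_apply_apply]
          rfl
        have e2 : ∑ i ∈ Q j, (u (e.symm i) : L) = ∑ i, (b j i : L) := by
          rw [Finset.sum_map]
          refine Finset.sum_congr rfl fun i _ => ?_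
          change ((u (e.symm (e (Sum.inr ⟨j, i⟩))) : Lˣ) : L) = _
          rw [e.symm_apply_apply]
          rfl
        rw [e1, e2]
        exact ⟨hne j, hxe j⟩)
  exact hno x hx.1 X h1 h2 h3 h4

omit [NumberField K] [Finite ι] in
theorem not_points_of_hasLaurent (F : ι → MvPolynomial (Fin n) (𝓞 K))
    (G : κ → MvPolynomial (Fin n) (𝓞 K)) (h : Pool.Agent.W235.RM.HasLaurent F G) :
    ∃ (L : Type) (_ : Field L) (_ : NumberField L) (_ : Algebra K L)
      (S : Set (HeightOneSpectrum (𝓞 L))) (_ : S.Finite) (r : ℕ),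
      {x ∈ intPoints F L S \ intPoints G L S | ∀ j, Defs.IsUnitQuotient S r (x j)}.Infinite := by
  classical
  obtain ⟨L, _, _, _, v, hv, hvF, hG, hne⟩ := h
  obtain ⟨S, hS, hint⟩ := integral_pts v hv
  obtain ⟨M, Q, hQ⟩ := Laur.common v hv
  -- the coefficients and two are units outside of a finite set
  let C : Finset L := insert 2 (Finset.univ.biUnion fun j =>
    (Q j).support.image fun m => (Q j).coeff m)
  have hfin : ∀ y : L, y ≠ 0 → {w : HeightOneSpectrum (𝓞 L) | w.valuation L y ≠ 1}.Finite := by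
    intro y hy
    refine ((HeightOneSpectrum.Support.finite (𝓞 L) y).union
      (HeightOneSpectrum.Support.finite (𝓞 L) y⁻¹)).subset ?_
    intro w hw
    by_contra hcon
    rw [Set.mem_union, not_or] at hcon
    apply hw
    apply le_antisymm (not_lt.mp hcon.1)
    have h1 : w.valuation L y⁻¹ ≤ 1 := not_lt.mp hcon.2
    rw [map_inv₀] at h1
    exact (inv_le_one₀ (zero_lt_iff.mpr ((map_ne_zero _).mpr hy))).mp h1
  let S' : Set (HeightOneSpectrum (𝓞 L)) := S ∪ ⋃ y ∈ C.filter (fun y => y ≠ 0),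
    {w : HeightOneSpectrum (𝓞 L) | w.valuation L y ≠ 1}
  have hS' : S'.Finite := hS.union (Set.Finite.biUnion (Finset.finite_toSet _) fun y hy =>
    hfin y (Finset.mem_filter.mp hy).2)
  have hval : ∀ y ∈ C, y ≠ 0 → ∀ w ∉ S', w.valuation L y = 1 := by
    intro y hy hy0 w hw
    by_contra hcon
    exact hw (Or.inr (Set.mem_biUnion (Finset.mem_coe.mpr (Finset.mem_filter.mpr ⟨hy, hy0⟩)) hcon))
  have h2 : ∀ w ∉ S', w.valuation L (2 : L) = 1 := hval 2 (Finset.mem_insert_self _ _) two_ne_zero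
  have hco : ∀ j, ∀ m ∈ (Q j).support, ∀ w ∉ S', w.valuation L ((Q j).coeff m) = 1 :=
    fun j m hm => hval _ (Finset.mem_insert_of_mem (Finset.mem_biUnion.mpr
      ⟨j, Finset.mem_univ _, Finset.mem_image_of_mem _ hm⟩)) (Polynomial.mem_support_iff.mp hm)
  refine ⟨L, inferInstance, inferInstance, inferInstance, S', hS',
    1 + ∑ j, (Q j).support.card, ?_⟩
  refine (Pool.Agent.W235.RM.infinite_points F G L v hv hvF hG hne 2 le_rfl).mono ?_
  rintro x ⟨h3, ⟨l, hl⟩, k, rfl⟩
  push_cast at hl ⊢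
  have hint' : ∀ j, v ((2 : L) ^ k) j ∈ S'.integer L := fun j w hw =>
    hint k j w fun h => hw (Or.inl h)
  refine ⟨⟨⟨hint', fun i => hvF i _ (pow_ne_zero _ two_ne_zero)⟩, fun h => hl (h.2 l)⟩, fun j => ?_⟩
  let e : Fin (Q j).support.card ≃ (Q j).support := (Q j).support.equivFin.symm
  have h20 : ∀ m : ℕ, ((2 : L) ^ k) ^ m ≠ 0 := fun m => pow_ne_zero _ (pow_ne_zero _ two_ne_zero)
  refine ⟨(Q j).support.card, 1, fun i => Units.mk0 ((Q j).coeff (e i).1 * ((2 : L) ^ k) ^ (e i).1)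
    (mul_ne_zero (Polynomial.mem_support_iff.mp (e i).2) (h20 _)),
    fun _ => Units.mk0 (((2 : L) ^ k) ^ M) (h20 _), ?_, Nat.le_add_right _ _, fun i w hw => ?_,
    fun i w hw => ?_, ?_, ?_⟩
  · have h4 := Finset.single_le_sum (f := fun j => (Q j).support.card)
      (fun _ _ => Nat.zero_le _) (Finset.mem_univ j)
    exact h4.trans (Nat.le_add_left _ _)
  · rw [Units.val_mk0, map_mul, map_pow, map_pow, h2 w hw, hco j _ (e i).2 w hw]
    simp
  · rw [Units.val_mk0, map_pow, map_pow, h2 w hw]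
    simp
  · rw [Fin.sum_univ_one, Units.val_mk0]
    exact h20 _
  · rw [Fin.sum_univ_one, Units.val_mk0, hQ _ (pow_ne_zero _ two_ne_zero) j,
      div_mul_cancel₀ _ (h20 M), Polynomial.eval_eq_sum, Polynomial.sum,
      ← Finset.sum_coe_sort, ← e.sum_comp]
    rfl

/-- **The trichotomy.** -/
theorem tfae (σ : K →+* ℂ) (V : Finset (MvPolynomial (Fin n) (𝓞 K)))
    (G : Set (MvPolynomial (Fin n) (𝓞 K))) :
    List.TFAE [Defs.UnitCurvesIn σ V G, Defs.GmCurvesIn σ V G,
      Defs.FinitelyManyUnitPoints (V : Set (MvPolynomial (Fin n) (𝓞 K))) G] := by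
  classical
  let F : V → MvPolynomial (Fin n) (𝓞 K) := Subtype.val
  let G' : G → MvPolynomial (Fin n) (𝓞 K) := Subtype.val
  have e2 : Pool.Agent.W235.RM.GmCurvesIn σ F G' ↔ Defs.GmCurvesIn σ V G := by
    constructor
    · intro h v hv t ht P hP
      exact h v hv.laurent (fun i t ht => hv.mem t ht i.1 i.2) hv.nonconst ⟨P, hP⟩ t ht
    · intro h v h1 h2 h3 l t ht
      exact h v ⟨h1, fun t ht P hP => h2 ⟨P, hP⟩ t ht, h3⟩ t ht l.1 l.2
  have h1 : ∀ (L : Type) [Field L] [NumberField L] [Algebra K L]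
      (S : Set (HeightOneSpectrum (𝓞 L))),
      intPoints F L S = Defs.ipts (V : Set (MvPolynomial (Fin n) (𝓞 K))) L S := by
    intro L _ _ _ S
    ext x
    constructor
    · rintro ⟨a, b⟩
      exact ⟨a, fun P hP => b ⟨P, hP⟩⟩
    · rintro ⟨a, b⟩
      exact ⟨a, fun i => b i.1 i.2⟩
  have h2 : ∀ (L : Type) [Field L] [NumberField L] [Algebra K L]
      (S : Set (HeightOneSpectrum (𝓞 L))), intPoints G' L S = Defs.ipts G L S := by
    intro L _ _ _ S
    ext x
    constructor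
    · rintro ⟨a, b⟩
      exact ⟨a, fun P hP => b ⟨P, hP⟩⟩
    · rintro ⟨a, b⟩
      exact ⟨a, fun i => b i.1 i.2⟩
  tfae_have 2 → 1 := fun h f hf hexp hfV hnc z P hP =>
    gm_curves σ F G' (e2.mpr h) f hf hexp (fun z i => hfV z i.1 i.2) hnc z ⟨P, hP⟩
  tfae_have 2 → 3 := fun h L _ _ _ S hS r => by
    rw [← h1, ← h2]
    exact gm_points σ F G' (e2.mpr h) L S hS r
  tfae_have 3 → 2 := fun h => by
    rw [← e2]
    by_contra hcon
    have h3 := Pool.Agent.W235.RM.not_exp_of_not_gm σ F G' hcon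
    obtain ⟨L, _, _, _, S, hS, r, h4⟩ := not_points_of_hasLaurent F G'
      (Pool.Agent.W235.RM.hasLaurent_of_exp F G' σ h3)
    rw [h1, h2] at h4
    exact h4 (h L S hS r)
  tfae_have 1 → 2 := fun h v hv t ht P hP => by
    choose M Q hQ using hv.laurent
    have h3 : ∀ j ζ, v (Complex.exp ζ) j =
        ∑ m ∈ (Q j).support, (Q j).coeff m * Complex.exp ((m - M j) * ζ) := by
      intro j ζ
      have h4 := hQ j _ (Complex.exp_ne_zero ζ)
      have h5 : Complex.exp ζ ^ M j ≠ 0 := pow_ne_zero _ (Complex.exp_ne_zero ζ)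
      rw [← mul_left_inj' h5, h4, Polynomial.eval_eq_sum, Polynomial.sum, Finset.sum_mul]
      refine Finset.sum_congr rfl fun m _ => ?_
      rw [mul_assoc, ← Complex.exp_nat_mul, ← Complex.exp_nat_mul, ← Complex.exp_add]
      congr 2
      ring
    have h4 : ∀ j, Differentiable ℂ fun ζ => v (Complex.exp ζ) j := by
      intro j
      simp only [h3]
      fun_prop
    obtain ⟨a, b, ha, hb, hab⟩ := hv.nonconst
    have h5 := h (fun ζ => v (Complex.exp ζ)) (differentiable_pi.mpr h4)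
      (fun j => ⟨(Q j).support.card, 1, fun i ζ => Complex.log ((Q j).coeff
        ((Q j).support.equivFin.symm i).1) + ((((Q j).support.equivFin.symm i).1 : ℕ) - M j) * ζ,
        fun _ _ => 0, fun i => by fun_prop, fun i => by fun_prop, ⟨0, by simp⟩, fun ζ => by
          rw [Fin.sum_univ_one, Complex.exp_zero, mul_one]
          refine (h3 j ζ).trans ?_
          rw [← Finset.sum_coe_sort, ← (Q j).support.equivFin.symm.sum_comp]
          refine Finset.sum_congr rfl fun i _ => ?_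
          rw [Complex.exp_add, Complex.exp_log (Polynomial.mem_support_iff.mp
            ((Q j).support.equivFin.symm i).2)]⟩)
      (fun ζ => hv.mem _ (Complex.exp_ne_zero ζ))
      ⟨Complex.log a, Complex.log b, by
        rw [Complex.exp_log ha, Complex.exp_log hb]
        exact hab⟩ (Complex.log t) P hP
    rwa [Complex.exp_log ht] at h5
  tfae_finish

end Pool.Agent.K1H83.BL.UQ
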