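import Mathlib
import Pool.Agent.K1H83.BL.Strat
import Pool.Agent.K1H83.BL.Defs

/-!
The trichotomy, in terms of sets of equations.
-/

set_option autoImplicit false

namespace Pool.Agent.K1H83.BL.Wrap

open MvPolynomial IsDedekindDomain Pool.Agent.K1H83.BL.Defs
open scoped NumberField

variable {K : Type} [Field K] [NumberField K] {n : ℕ}

theorem tfae (σ : K →+* ℂ) (V : Finset (MvPolynomial (Fin n) (𝓞 K)))
    (G : Set (MvPolynomial (Fin n) (𝓞 K))) (T : Finset (Stratum K n))
    (hT : ∀ s ∈ T, s.Invertible σ V)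
    (hsep : ∀ z ∈ cpts σ (V : Set (MvPolynomial (Fin n) (𝓞 K))), z ∉ cpts σ G →
      (∃ v, IsGmCurve σ V v ∧ ∃ t, t ≠ 0 ∧ v t = z) ∨ ∃ s ∈ T, s.Separates σ V z) :
    List.TFAE [EntireCurvesIn σ V G, GmCurvesIn σ V G,
      FinitelyManyIntegral (V : Set (MvPolynomial (Fin n) (𝓞 K))) G] := by
  classical
  let F : V → MvPolynomial (Fin n) (𝓞 K) := Subtype.val
  let G' : G → MvPolynomial (Fin n) (𝓞 K) := Subtype.val
  let tr : Stratum K n → Strat.Stratum K n := fun s => ⟨s.eqs, s.units⟩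
  have htr : ∀ s : Stratum K n, ∀ z, z ∈ (tr s).pts σ F ↔ z ∈ s.pts σ V := by
    intro s z
    constructor
    · rintro ⟨h1, h2⟩
      exact ⟨fun P hP => h1 ⟨P, hP⟩, fun P hP => h2 P hP⟩
    · rintro ⟨h1, h2⟩
      exact ⟨fun i => h1 i.1 i.2, fun P hP => h2 P hP⟩
  have key := Strat.tfae σ F G' (T.image tr)
    (by
      intro s hs z hz
      obtain ⟨s', hs', rfl⟩ := Finset.mem_image.mp hs
      exact hT s' hs' z ((htr s' z).mp hz))
    (by
      intro z hz hzG
      have h1 : z ∈ cpts σ (V : Set (MvPolynomial (Fin n) (𝓞 K))) := fun P hP => hz ⟨P, hP⟩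
      have h2 : z ∉ cpts σ G := by
        obtain ⟨l, hl⟩ := hzG
        exact fun h => hl (h l.1 l.2)
      rcases hsep z h1 h2 with ⟨v, hv, t, ht, hvt⟩ | ⟨s, hs, hs1, hs2⟩
      · left
        refine ⟨v, hv.laurent, fun t ht i => hv.mem t ht i.1 i.2, ⟨t, ht, hvt⟩, ?_⟩
        by_contra hcon
        push Not at hcon
        obtain ⟨a, b, ha, hb, hab⟩ := hv.nonconst
        exact hab ((hcon a ha).trans (hcon b hb).symm)
      · right
        exact ⟨tr s, Finset.mem_image_of_mem _ hs, (htr s z).mpr hs1,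
          fun z' hz' h => hs2 z' ((htr s z').mp hz') h⟩)
  have e1 : Pool.Agent.W235.RM.EntireCurvesIn σ F G' ↔ EntireCurvesIn σ V G := by
    constructor
    · intro h f hf hfV hne z P hP
      exact h f hf (fun z i => hfV z i.1 i.2) hne z ⟨P, hP⟩
    · intro h f hf hfV hne z l
      exact h f hf (fun z P hP => hfV z ⟨P, hP⟩) hne z l.1 l.2
  have e2 : Pool.Agent.W235.RM.GmCurvesIn σ F G' ↔ GmCurvesIn σ V G := by
    constructor
    · intro h v hv t ht P hP
      exact h v hv.laurent (fun i t ht => hv.mem t ht i.1 i.2) hv.nonconst ⟨P, hP⟩ t ht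
    · intro h v h1 h2 h3 l t ht
      exact h v ⟨h1, fun t ht P hP => h2 ⟨P, hP⟩ t ht, h3⟩ t ht l.1 l.2
  have e3 : Pool.Agent.H159R3.Exp.FinitelyManyIntegral F G' ↔
      FinitelyManyIntegral (V : Set (MvPolynomial (Fin n) (𝓞 K))) G := by
    have h1 : ∀ (L : Type) [Field L] [NumberField L] [Algebra K L]
        (S : Set (HeightOneSpectrum (𝓞 L))),
        Pool.Agent.H159R3.Exp.intPoints F L S =
          ipts (V : Set (MvPolynomial (Fin n) (𝓞 K))) L S := by
      intro L _ _ _ S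
      ext x
      constructor
      · rintro ⟨a, b⟩
        exact ⟨a, fun P hP => b ⟨P, hP⟩⟩
      · rintro ⟨a, b⟩
        exact ⟨a, fun i => b i.1 i.2⟩
    have h2 : ∀ (L : Type) [Field L] [NumberField L] [Algebra K L]
        (S : Set (HeightOneSpectrum (𝓞 L))),
        Pool.Agent.H159R3.Exp.intPoints G' L S = ipts G L S := by
      intro L _ _ _ S
      ext x
      constructor
      · rintro ⟨a, b⟩
        exact ⟨a, fun P hP => b ⟨P, hP⟩⟩
      · rintro ⟨a, b⟩
        exact ⟨a, fun i => b i.1 i.2⟩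
    constructor
    · intro h L _ _ _ S hS
      rw [← h1, ← h2]
      exact h L S hS
    · intro h L _ _ _ S hS
      rw [h1, h2]
      exact h L S hS
  rw [e1, e2, e3] at key
  exact key

end Pool.Agent.K1H83.BL.Wrap
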